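import Pool.Agent.Helper172_SO.Blocks

set_option autoImplicit false
set_option linter.unusedSectionVars false
set_option linter.unusedSimpArgs false

namespace Pool.Agent.Helper172_SO

open Matrix

section b2
variable {α : Type} [Fintype α] [DecidableEq α]

/-- twice the rescaled involution -/
def gJ (J : Matrix α α ℝ) : Matrix (α ⊕ α) (α ⊕ α) ℝ := fromBlocks 1 (-J) J (-1)

/-- the involution exchanging `P` and `Q'` -/
noncomputable def gPJ (J : Matrix α α ℝ) : Matrix (α ⊕ α) (α ⊕ α) ℝ := (Real.sqrt 2)⁻¹ • gJ J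

theorem gJ_transpose {J : Matrix α α ℝ} (hJ : Jᵀ = -J) : (gJ J)ᵀ = gJ J := by
  rw [gJ, fromBlocks_transpose, Matrix.transpose_neg, hJ]
  simp

theorem gPJ_transpose {J : Matrix α α ℝ} (hJ : Jᵀ = -J) : (gPJ J)ᵀ = gPJ J := by
  rw [gPJ, Matrix.transpose_smul, gJ_transpose hJ]

theorem sqrt_two_inv_mul : (Real.sqrt 2)⁻¹ * (Real.sqrt 2)⁻¹ = 1 / 2 := by
  rw [← mul_inv, Real.mul_self_sqrt (by norm_num)]
  norm_num

theorem J_sq {J : Matrix α α ℝ} (h1 : Jᵀ * J = 1) (hJ : Jᵀ = -J) : J * J = -1 := by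
  rw [hJ, Matrix.neg_mul] at h1
  rw [← h1, neg_neg]

theorem gJ_sq {J : Matrix α α ℝ} (hJJ : J * J = -1) : gJ J * gJ J = (2 : ℝ) • 1 := by
  rw [gJ, fromBlocks_multiply, ← fromBlocks_one, fromBlocks_smul]
  congr 1 <;> simp [hJJ, two_smul]

theorem gPJ_sq {J : Matrix α α ℝ} (hJJ : J * J = -1) : gPJ J * gPJ J = 1 := by
  rw [gPJ, smul_mul_assoc, mul_smul_comm, gJ_sq hJJ, smul_smul, smul_smul, sqrt_two_inv_mul]
  norm_num

theorem gPJ_conj (J : Matrix α α ℝ) (Z : Matrix (α ⊕ α) (α ⊕ α) ℝ) :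
    gPJ J * Z * gPJ J = (1 / 2 : ℝ) • (gJ J * Z * gJ J) := by
  rw [gPJ, smul_mul_assoc, smul_mul_assoc, mul_smul_comm, smul_smul, sqrt_two_inv_mul]

theorem skew_conj {J X : Matrix α α ℝ} (hJ : Jᵀ = -J) (hX : Xᵀ = -X) :
    (J * X * J)ᵀ = -(J * X * J) := by
  rw [Matrix.transpose_mul, Matrix.transpose_mul, hJ, hX]
  simp [Matrix.mul_assoc]

theorem skew_comm {J X : Matrix α α ℝ} (hJ : Jᵀ = -J) (hX : Xᵀ = -X) :
    (J * X - X * J)ᵀ = -(J * X - X * J) := by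
  rw [Matrix.transpose_sub, Matrix.transpose_mul, Matrix.transpose_mul, hJ, hX]
  simp

theorem gJ_conj_Q {J : Matrix α α ℝ} (X Y : Matrix α α ℝ) :
    gJ J * fromBlocks X Y Y X * gJ J =
      fromBlocks (X - (J * Y - Y * J) - J * X * J) ((J * X - X * J) + J * Y * J - Y)
        ((J * X - X * J) + J * Y * J - Y) (X - (J * Y - Y * J) - J * X * J) := by
  rw [gJ, fromBlocks_multiply, fromBlocks_multiply]
  congr 1 <;> noncomm_ring

theorem conjQ_mem {J : Matrix α α ℝ} (hJ : Jᵀ = -J)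
    {Z : Matrix (α ⊕ α) (α ⊕ α) ℝ} (hZ : Z ∈ soQ α) : (gPJ J)ᵀ * Z * gPJ J ∈ soQ α := by
  obtain ⟨X, Y, hX, hY, rfl⟩ := hZ
  rw [gPJ_transpose hJ, gPJ_conj, gJ_conj_Q, fromBlocks_smul]
  refine ⟨_, _, ?_, ?_, rfl⟩
  · rw [Matrix.transpose_smul, Matrix.transpose_sub, Matrix.transpose_sub, skew_comm hJ hY,
      skew_conj hJ hX, hX, ← smul_neg]
    congr 1
    abel
  · rw [Matrix.transpose_smul, Matrix.transpose_sub, Matrix.transpose_add, skew_comm hJ hX,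
      skew_conj hJ hY, hY, ← smul_neg]
    congr 1
    abel

theorem hblk_transpose {J : Matrix α α ℝ} (hJ : Jᵀ = -J) :
    (fromBlocks 1 0 0 J : Matrix (α ⊕ α) (α ⊕ α) ℝ)ᵀ = fromBlocks 1 0 0 (-J) := by
  rw [fromBlocks_transpose, hJ]; simp

theorem gJ_conj_hQ {J : Matrix α α ℝ} (hJJ : J * J = -1) (X Y : Matrix α α ℝ) :
    gJ J * (fromBlocks 1 0 0 J * fromBlocks X Y Y X * fromBlocks 1 0 0 (-J)) * gJ J =
      fromBlocks ((2 : ℝ) • (X + Y)) 0 0 ((2 : ℝ) • (J * (Y - X) * J)) := by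
  have h1 : ∀ Z : Matrix α α ℝ, J * (J * Z) = -Z := by
    intro Z
    rw [← Matrix.mul_assoc, hJJ, Matrix.neg_mul, Matrix.one_mul]
  rw [gJ, fromBlocks_multiply, fromBlocks_multiply, fromBlocks_multiply, fromBlocks_multiply]
  congr 1
  · simp only [Matrix.mul_assoc, Matrix.mul_add, Matrix.add_mul, Matrix.mul_neg, Matrix.neg_mul,
      Matrix.mul_one, Matrix.one_mul, Matrix.mul_zero, Matrix.zero_mul, h1, hJJ, two_smul]
    abel
  · simp only [Matrix.mul_assoc, Matrix.mul_add, Matrix.add_mul, Matrix.mul_neg, Matrix.neg_mul,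
      Matrix.mul_one, Matrix.one_mul, Matrix.mul_zero, Matrix.zero_mul, h1, hJJ, two_smul]
    abel
  · simp only [Matrix.mul_assoc, Matrix.mul_add, Matrix.add_mul, Matrix.mul_neg, Matrix.neg_mul,
      Matrix.mul_one, Matrix.one_mul, Matrix.mul_zero, Matrix.zero_mul, h1, hJJ, two_smul]
    abel
  · simp only [Matrix.mul_assoc, Matrix.mul_add, Matrix.add_mul, Matrix.mul_neg, Matrix.neg_mul,
      Matrix.mul_one, Matrix.one_mul, Matrix.mul_zero, Matrix.zero_mul, h1, hJJ, two_smul,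
      Matrix.mul_sub, Matrix.sub_mul]
    abel

theorem conjSS_mem {J : Matrix α α ℝ} (hJ : Jᵀ = -J) (hJJ : J * J = -1)
    {Z : Matrix (α ⊕ α) (α ⊕ α) ℝ} (hZ : Z ∈ soQ α) :
    (fromBlocks 1 0 0 (-J) * gPJ J)ᵀ * Z * (fromBlocks 1 0 0 (-J) * gPJ J) ∈ soSS α := by
  obtain ⟨X, Y, hX, hY, rfl⟩ := hZ
  have e : (fromBlocks 1 0 0 (-J) * gPJ J)ᵀ * fromBlocks X Y Y X * (fromBlocks 1 0 0 (-J) * gPJ J) =
      gPJ J * (fromBlocks 1 0 0 J * fromBlocks X Y Y X * fromBlocks 1 0 0 (-J)) * gPJ J := by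
    rw [Matrix.transpose_mul, gPJ_transpose hJ, ← hblk_transpose hJ, Matrix.transpose_transpose]
    simp only [Matrix.mul_assoc]
  rw [e, gPJ_conj, gJ_conj_hQ hJJ, fromBlocks_smul]
  refine ⟨X + Y, J * (Y - X) * J, ?_, ?_, ?_⟩
  · rw [Matrix.transpose_add, hX, hY]; abel
  · apply skew_conj hJ
    rw [Matrix.transpose_sub, hX, hY]; abel
  · simp only [smul_smul, smul_zero]
    norm_num

theorem hblk_orth {J : Matrix α α ℝ} (hJJ : J * J = -1) :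
    (fromBlocks 1 0 0 J : Matrix (α ⊕ α) (α ⊕ α) ℝ) * fromBlocks 1 0 0 (-J) = 1 := by
  rw [fromBlocks_multiply, ← fromBlocks_one]
  simp [hJJ]

theorem TauBd_mono {t t' : ℝ} (h : t ≤ t') (ht : TauBd α t) : TauBd α t' := by
  intro V _ _ _ ρ u hu w hw
  refine (ht V ρ u hu w hw).trans ?_
  gcongr

section rep
variable {V : Type} [NormedAddCommGroup V] [InnerProductSpace ℝ V] [FiniteDimensional ℝ V]
  (ρ : PRep (α ⊕ α) V)

/-- the projections preserve the orthogonal complement of the invariants -/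
theorem b2_proj_orth {v : V} (hv : v ∈ (ρ.inv (so (α ⊕ α)))ᗮ) :
    (ρ.inv (soSS α)).starProjection v ∈ (ρ.inv (so (α ⊕ α)))ᗮ := by
  rw [mem_orth]
  intro z hz
  have hz' : z ∈ ρ.inv (soSS α) := inv_so_le ρ _ (fun Z hZ => skew_SS hZ) hz
  rw [← proj_sym, proj_of_mem hz']
  exact mem_orth.mp hv z hz

theorem b2_norm_sub_proj (P : Submodule ℝ V) (v : V) : ‖v - P.starProjection v‖ ≤ ‖v‖ := by
  have h1 := norm_sq_split' P v
  have h2 := real_inner_le_norm (v - P.starProjection v) v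
  rw [h1] at h2
  by_cases h : ‖v - P.starProjection v‖ = 0
  · rw [h]; exact norm_nonneg _
  · have h3 : 0 < ‖v - P.starProjection v‖ := lt_of_le_of_ne (norm_nonneg _) (Ne.symm h)
    rw [sq] at h2
    exact le_of_mul_le_mul_left h2 h3

theorem b2_norm_proj {t : ℝ} (ht : TauBd α t) (ht0 : 0 ≤ t) {w : V}
    (hw : w ∈ ρ.inv (soQ α)) (hw' : w ∈ (ρ.inv (so (α ⊕ α)))ᗮ) :
    ‖(ρ.inv (soSS α)).starProjection w‖ ≤ t * ‖w‖ := by
  set p := (ρ.inv (soSS α)).starProjection w with hp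
  have h1 : |inner ℝ p w| ≤ t * ‖p‖ * ‖w‖ :=
    ht V ρ p ⟨proj_mem _ w, b2_proj_orth ρ hw'⟩ w ⟨hw, hw'⟩
  have h2 : inner ℝ p w = ‖p‖ ^ 2 := by
    have h3 : inner ℝ p (w - p) = 0 :=
      mem_orth.mp ((ρ.inv (soSS α)).sub_starProjection_mem_orthogonal w) _ (proj_mem _ w)
    rw [inner_sub_right, real_inner_self_eq_norm_sq] at h3
    linarith
  rw [h2, abs_of_nonneg (sq_nonneg _)] at h1
  by_cases h : ‖p‖ = 0
  · rw [h]; positivity
  · have h3 : 0 < ‖p‖ := lt_of_le_of_ne (norm_nonneg _) (Ne.symm h)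
    have h4 : ‖p‖ * ‖p‖ ≤ ‖p‖ * (t * ‖w‖) := by nlinarith [h1]
    exact le_of_mul_le_mul_left h4 h3

end rep

theorem b2_step {κ t : ℝ} {J : Matrix α α ℝ} (hκ : 0 ≤ κ) (hJO : IsSO J) (hJ : Jᵀ = -J)
    (hc : CoefBd α κ J) (ht0 : 0 ≤ t) (ht : TauBd α t) : TauBd α (t ^ 2 + κ) := by
  intro V _ _ _ ρ u hu w hw
  obtain ⟨hu1, hu2⟩ := hu
  obtain ⟨hw1, hw2⟩ := hw
  have hJJ : J * J = -1 := J_sq hJO.1 hJ
  have hJO' : IsSO (-J) := by
    rw [← hJ]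
    exact ⟨by rw [Matrix.transpose_transpose]; exact mul_eq_one_comm.mp hJO.1,
      by rw [Matrix.det_transpose]; exact hJO.2⟩
  set g := gPJ J with hg
  have hgT : gᵀ = g := gPJ_transpose hJ
  have hgg : gᵀ * g = 1 := by rw [hgT]; exact gPJ_sq hJJ
  set H : Matrix (α ⊕ α) (α ⊕ α) ℝ := fromBlocks 1 0 0 J with hH
  set H' : Matrix (α ⊕ α) (α ⊕ α) ℝ := fromBlocks 1 0 0 (-J) with hH'
  have hHT : Hᵀ = H' := hblk_transpose hJ
  have hHT' : H'ᵀ = H := by rw [← hHT, Matrix.transpose_transpose]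
  have hHH : H * H' = 1 := hblk_orth hJJ
  have hHH' : H'ᵀ * H' = 1 := by rw [hHT']; exact hHH
  have hHH'' : Hᵀ * H = 1 := by rw [hHT]; exact mul_eq_one_comm.mp hHH
  have hk : (H' * g)ᵀ * (H' * g) = 1 := by
    rw [Matrix.transpose_mul]
    calc gᵀ * H'ᵀ * (H' * g) = gᵀ * (H'ᵀ * H') * g := by simp only [Matrix.mul_assoc]
      _ = 1 := by rw [hHH', Matrix.mul_one, hgg]
  set w1 := ρ.R (H' * g) u with hw1d
  set w2 := ρ.R g w with hw2d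
  have hw1Q : w1 ∈ ρ.inv (soQ α) :=
    R_mem_inv ρ hk (soSS α) (soQ α) (fun X hX => conjSS_mem hJ hJJ hX) hu1
  have hw1V : w1 ∈ (ρ.inv (so (α ⊕ α)))ᗮ := R_mem_orth ρ hk hu2
  have hw2Q : w2 ∈ ρ.inv (soQ α) :=
    R_mem_inv ρ hgg (soQ α) (soQ α) (fun X hX => conjQ_mem hJ hX) hw1
  have hw2V : w2 ∈ (ρ.inv (so (α ⊕ α)))ᗮ := R_mem_orth ρ hgg hw2
  have hn1 : ‖w1‖ = ‖u‖ := ρ.norm_R _ hk u
  have hn2 : ‖w2‖ = ‖w‖ := ρ.norm_R _ hgg w
  have hRH : ρ.R H w1 = ρ.R g u := by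
    rw [hw1d, ← ρ.mul, ← Matrix.mul_assoc, hHH, Matrix.one_mul]
  have huw : inner ℝ u w = inner ℝ (ρ.R H w1) w2 := by
    rw [hRH, hw2d, ρ.inner_R g hgg]
  set p1 := (ρ.inv (soSS α)).starProjection w1 with hp1
  set p2 := (ρ.inv (soSS α)).starProjection w2 with hp2
  have hp1m : p1 ∈ ρ.inv (soSS α) := proj_mem _ _
  have hp2m : p2 ∈ ρ.inv (soSS α) := proj_mem _ _
  have hq1 : w1 - p1 ∈ (ρ.inv (soSS α))ᗮ := (ρ.inv (soSS α)).sub_starProjection_mem_orthogonal w1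
  have hq2 : w2 - p2 ∈ (ρ.inv (soSS α))ᗮ := (ρ.inv (soSS α)).sub_starProjection_mem_orthogonal w2
  have hq1D : w1 - p1 ∈ ρ.inv (soD α) :=
    Submodule.sub_mem _ (invQ_le_invD ρ hw1Q) (invSS_le_invD ρ hp1m)
  have hq2D : w2 - p2 ∈ ρ.inv (soD α) :=
    Submodule.sub_mem _ (invQ_le_invD ρ hw2Q) (invSS_le_invD ρ hp2m)
  have hRp1 : ρ.R H p1 = p1 := R_of_invSS ρ hp1m isSO_one hJO
  have hRp2 : ρ.R H' p2 = p2 := R_of_invSS ρ hp2m isSO_one hJO'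
  have e1 : inner ℝ (ρ.R H w1) w2 = inner ℝ p1 p2 + inner ℝ (ρ.R H (w1 - p1)) (w2 - p2) := by
    have a1 : inner ℝ p1 (w2 - p2) = 0 := mem_orth.mp hq2 _ hp1m
    have a2 : inner ℝ (ρ.R H (w1 - p1)) p2 = 0 := by
      rw [← hHT', ρ.adj, hRp2, real_inner_comm]
      exact mem_orth.mp hq1 _ hp2m
    have a3 : ρ.R H w1 = p1 + ρ.R H (w1 - p1) := by
      rw [map_sub, hRp1]; abel
    have a4 : w2 = p2 + (w2 - p2) := by abel
    rw [a3]
    conv_lhs => rw [a4]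
    rw [inner_add_left, inner_add_right, inner_add_right, a1, a2]
    ring
  have b1 := hc V ρ (w1 - p1) ⟨hq1D, hq1⟩ (w2 - p2) ⟨hq2D, hq2⟩
  have b2 : |inner ℝ p1 p2| ≤ ‖p1‖ * ‖p2‖ := abs_real_inner_le_norm p1 p2
  have c1 : ‖p1‖ ≤ t * ‖w1‖ := b2_norm_proj ρ ht ht0 hw1Q hw1V
  have c2 : ‖p2‖ ≤ t * ‖w2‖ := b2_norm_proj ρ ht ht0 hw2Q hw2V
  have d1 : ‖w1 - p1‖ ≤ ‖w1‖ := b2_norm_sub_proj _ _
  have d2 : ‖w2 - p2‖ ≤ ‖w2‖ := b2_norm_sub_proj _ _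
  rw [huw, e1]
  calc |inner ℝ p1 p2 + inner ℝ (ρ.R H (w1 - p1)) (w2 - p2)|
      ≤ |inner ℝ p1 p2| + |inner ℝ (ρ.R H (w1 - p1)) (w2 - p2)| := abs_add_le _ _
    _ ≤ ‖p1‖ * ‖p2‖ + κ * ‖w1 - p1‖ * ‖w2 - p2‖ := add_le_add b2 b1
    _ ≤ (t * ‖w1‖) * (t * ‖w2‖) + κ * ‖w1‖ * ‖w2‖ := by gcongr
    _ = (t ^ 2 + κ) * ‖u‖ * ‖w‖ := by rw [hn1, hn2]; ring

end b2

theorem taskB2 (h : TaskB1) : TaskB2 := by
  intro α _ _ hα κ J hκ hJO hJ hc
  have hn3 : (3 : ℝ) ≤ (Fintype.card α : ℝ) := by exact_mod_cast hα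
  have h0 : TauBd α (2 / 3) := by
    refine TauBd_mono ?_ (h α hα)
    rw [div_le_iff₀ (by positivity)]
    linarith
  by_cases hk : 1 / 6 ≤ κ
  · exact TauBd_mono (by linarith) h0
  push Not at hk
  have key : ∀ k : ℕ, TauBd α ((2 / 3) ^ k * (2 / 3) + 3 * κ * (1 - (2 / 3) ^ k)) := by
    intro k
    induction k with
    | zero => simpa using h0
    | succ k ih =>
      have hp1 : (0 : ℝ) < (2 / 3) ^ k := by positivity
      have hp2 : ((2 : ℝ) / 3) ^ k ≤ 1 := pow_le_one₀ (by norm_num) (by norm_num)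
      set x : ℝ := (2 / 3) ^ k with hx
      have ht0 : 0 ≤ x * (2 / 3) + 3 * κ * (1 - x) := by
        have : 0 ≤ 3 * κ * (1 - x) := by
          apply mul_nonneg (by linarith) (by linarith)
        linarith
      have ht1 : x * (2 / 3) + 3 * κ * (1 - x) ≤ 2 / 3 := by nlinarith
      refine TauBd_mono ?_ (b2_step hκ hJO hJ hc ht0 ih)
      rw [pow_succ ((2 : ℝ) / 3) k, ← hx]
      nlinarith [mul_le_mul_of_nonneg_left ht1 ht0]
  have key2 : TauBd α (3 * κ) := by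
    intro V _ _ _ ρ u hu w hw
    have hlim : Filter.Tendsto
        (fun k : ℕ => ((2 / 3 : ℝ) ^ k * (2 / 3) + 3 * κ * (1 - (2 / 3) ^ k)) * ‖u‖ * ‖w‖)
        Filter.atTop (nhds ((0 * (2 / 3) + 3 * κ * (1 - 0)) * ‖u‖ * ‖w‖)) := by
      have h1 : Filter.Tendsto (fun k : ℕ => (2 / 3 : ℝ) ^ k) Filter.atTop (nhds 0) :=
        tendsto_pow_atTop_nhds_zero_of_lt_one (by norm_num) (by norm_num)
      exact (((h1.mul_const _).add ((h1.const_sub 1).const_mul _)).mul_const _).mul_const _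
    have h2 := ge_of_tendsto' hlim (fun k => key k V ρ u hu w hw)
    simpa using h2
  exact TauBd_mono (by linarith) key2

end Pool.Agent.Helper172_SO
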