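import Pool.Agent.Helper172_SO.Blocks

set_option autoImplicit false
set_option linter.unusedSectionVars false

namespace Pool.Agent.Helper172_SO

open Matrix

theorem taskCoef (hT : TaskTransfer) : TaskCoef := by
  intro α _ _ κ A B F hA hB hF _ hsur _ hAF V _ _ _ ρ w hw w' hw'
  obtain ⟨hwD, hwO⟩ := hw
  obtain ⟨hwD', hwO'⟩ := hw'
  have hA' : A * Aᵀ = 1 := mul_eq_one_comm.mp hA.1
  set K := ρ.fix ((fun f => fromBlocks 1 0 0 f) '' (F : Set (Matrix α α ℝ))) with hK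
  have hKF : K = ρ.pullR.fix (F : Set (Matrix α α ℝ)) := by
    ext z
    constructor
    · intro hz f hf
      rw [pullR_R]
      exact hz _ ⟨f, hf, rfl⟩
    · rintro hz _ ⟨f, hf, rfl⟩
      have := hz f hf
      rw [pullR_R] at this
      exact this
  have hc : (F.card : ℝ) ≠ 0 := by
    exact_mod_cast (Finset.card_pos.mpr ⟨1, hF.1.one⟩).ne'
  -- averaging
  have h1 : ∀ f ∈ F, inner ℝ (ρ.R (fromBlocks 1 0 0 A) (ρ.R (fromBlocks 1 0 0 f) w)) w' =
      inner ℝ (ρ.R (fromBlocks 1 0 0 A) w) w' := by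
    intro f hf
    obtain ⟨b, hb, rfl⟩ := hsur f hf
    have hbs := hB.isSO b hb
    have hbt := hB.isSO _ (hB.tr b hb)
    have e : fromBlocks 1 0 0 A * fromBlocks 1 0 0 (Aᵀ * b * A * bᵀ) =
        fromBlocks b 0 0 b * (fromBlocks 1 0 0 A * fromBlocks bᵀ 0 0 bᵀ) := by
      rw [fromBlocks_multiply, fromBlocks_multiply, fromBlocks_multiply]
      have hb1 : b * bᵀ = 1 := mul_eq_one_comm.mp hbs.1
      have : A * (Aᵀ * b * A * bᵀ) = b * (A * bᵀ) := by
        rw [Matrix.mul_assoc, Matrix.mul_assoc, ← Matrix.mul_assoc A, hA', Matrix.one_mul]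
      simp [this, hb1]
    rw [← ρ.mul, e, ρ.mul, ρ.mul, R_of_invD ρ hwD hbt]
    have : fromBlocks b 0 0 b = (fromBlocks bᵀ 0 0 bᵀ)ᵀ := by
      rw [fromBlocks_transpose]; simp
    rw [this, ρ.adj, R_of_invD ρ hwD' hbt]
  have h2 : inner ℝ (ρ.R (fromBlocks 1 0 0 A) (K.starProjection w)) w' =
      inner ℝ (ρ.R (fromBlocks 1 0 0 A) w) w' := by
    rw [hKF, fix_proj ρ.pullR F hF.1, map_smul, map_sum, inner_smul_left, sum_inner]
    have : ∀ f ∈ F, inner ℝ (ρ.R (fromBlocks 1 0 0 A) (ρ.pullR.R f w)) w' =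
        inner ℝ (ρ.R (fromBlocks 1 0 0 A) w) w' := by
      intro f hf
      rw [pullR_R]
      exact h1 f hf
    rw [Finset.sum_congr rfl this, Finset.sum_const, nsmul_eq_mul, ← mul_assoc]
    simp only [conj_trivial]
    rw [inv_mul_cancel₀ hc, one_mul]
  -- `A` normalises `F`
  have hsurj : ∀ f ∈ F, Aᵀ * f * A ∈ F := by
    have hinj : Set.InjOn (fun f : Matrix α α ℝ => A * f * Aᵀ) F := by
      intro x _ y _ hxy
      have h3 := congrArg (fun z => Aᵀ * z * A) hxy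
      have h4 : ∀ z : Matrix α α ℝ, Aᵀ * (A * z * Aᵀ) * A = z := by
        intro z
        calc Aᵀ * (A * z * Aᵀ) * A = (Aᵀ * A) * z * (Aᵀ * A) := by simp only [Matrix.mul_assoc]
          _ = z := by rw [hA.1, Matrix.one_mul, Matrix.mul_one]
      simp only [h4] at h3
      exact h3
    have hsj := Finset.surjOn_of_injOn_of_card_le (s := F) (t := F) _ hAF hinj le_rfl
    intro f hf
    obtain ⟨g, hg, hgf⟩ := hsj hf
    have : Aᵀ * f * A = g := by
      rw [← hgf]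
      calc Aᵀ * (A * g * Aᵀ) * A = (Aᵀ * A) * g * (Aᵀ * A) := by simp only [Matrix.mul_assoc]
          _ = g := by rw [hA.1, Matrix.one_mul, Matrix.mul_one]
    rw [this]
    exact hg
  have h3 : ρ.R (fromBlocks 1 0 0 A) (K.starProjection w) ∈ K := by
    rintro _ ⟨f, hf, rfl⟩
    show ρ.R (fromBlocks 1 0 0 f) (ρ.R (fromBlocks 1 0 0 A) (K.starProjection w)) = _
    have e : fromBlocks (1 : Matrix α α ℝ) 0 0 f * fromBlocks 1 0 0 A =
        fromBlocks 1 0 0 A * fromBlocks 1 0 0 (Aᵀ * f * A) := by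
      rw [fromBlocks_multiply, fromBlocks_multiply]
      have : A * (Aᵀ * f * A) = f * A := by
        rw [Matrix.mul_assoc, ← Matrix.mul_assoc A, hA', Matrix.one_mul]
      simp [this]
    rw [← ρ.mul, e, ρ.mul, (proj_mem K w) _ ⟨_, hsurj f hf, rfl⟩]
  have h4 : inner ℝ (ρ.R (fromBlocks 1 0 0 A) (K.starProjection w)) w' =
      inner ℝ (ρ.R (fromBlocks 1 0 0 A) (K.starProjection w)) (K.starProjection w') := by
    rw [← proj_sym, proj_of_mem h3]
  rw [← h2, h4]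
  have n1 : ‖ρ.R (fromBlocks 1 0 0 A) (K.starProjection w)‖ = ‖K.starProjection w‖ :=
    ρ.norm_R _ (isSO_blocks isSO_one hA).1 _
  have h5 := abs_real_inner_le_norm (ρ.R (fromBlocks 1 0 0 A) (K.starProjection w))
    (K.starProjection w')
  rw [n1] at h5
  refine h5.trans ?_
  have t1 : ‖K.starProjection w‖ ^ 2 ≤ κ * ‖w‖ ^ 2 := hT α κ F hF V ρ w ⟨hwD, hwO⟩
  have t2 : ‖K.starProjection w'‖ ^ 2 ≤ κ * ‖w'‖ ^ 2 := hT α κ F hF V ρ w' ⟨hwD', hwO'⟩
  by_cases hw0 : w = 0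
  · rw [hw0]; simp
  have hκ : 0 ≤ κ := by
    have hn : 0 < ‖w‖ ^ 2 := by positivity
    by_contra hneg
    push Not at hneg
    have : κ * ‖w‖ ^ 2 < 0 := mul_neg_of_neg_of_pos hneg hn
    linarith [sq_nonneg ‖K.starProjection w‖]
  have hR : 0 ≤ κ * ‖w‖ * ‖w'‖ := by positivity
  rw [← abs_of_nonneg hR, ← abs_of_nonneg (show 0 ≤ ‖K.starProjection w‖ * ‖K.starProjection w'‖ by
    positivity), ← sq_le_sq]
  calc (‖K.starProjection w‖ * ‖K.starProjection w'‖) ^ 2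
      = ‖K.starProjection w‖ ^ 2 * ‖K.starProjection w'‖ ^ 2 := by ring
    _ ≤ (κ * ‖w‖ ^ 2) * (κ * ‖w'‖ ^ 2) := mul_le_mul t1 t2 (sq_nonneg _) (by positivity)
    _ = (κ * ‖w‖ * ‖w'‖) ^ 2 := by ring

end Pool.Agent.Helper172_SO
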