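import Pool.Agent.Helper172_SO.Stmts

set_option autoImplicit false

namespace Pool.Agent.Helper172_SO

/-- number of pairs `x ∈ s`, `y ∉ s` with `Q x y` -/
def cntPairs {α : Type} [Fintype α] [DecidableEq α] (s : Finset α) (Q : α → α → Prop)
    [∀ x y, Decidable (Q x y)] : ℕ :=
  ((s ×ˢ sᶜ).filter (fun q => Q q.1 q.2)).card

theorem cntPairs_eq_left {α : Type} [Fintype α] [DecidableEq α] (s : Finset α) (Q : α → α → Prop)
    [∀ x y, Decidable (Q x y)] :
    cntPairs s Q = ∑ x ∈ s, (sᶜ.filter (fun y => Q x y)).card := by
  unfold cntPairs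
  rw [Finset.card_filter, Finset.sum_product]
  exact Finset.sum_congr rfl fun x _ => (Finset.card_filter _ _).symm

theorem cntPairs_eq_right {α : Type} [Fintype α] [DecidableEq α] (s : Finset α) (Q : α → α → Prop)
    [∀ x y, Decidable (Q x y)] :
    cntPairs s Q = ∑ y ∈ sᶜ, (s.filter (fun x => Q x y)).card := by
  unfold cntPairs
  rw [Finset.card_filter, Finset.sum_product_right]
  exact Finset.sum_congr rfl fun x _ => (Finset.card_filter _ _).symm

theorem cntPairs_add {α : Type} [Fintype α] [DecidableEq α] (s : Finset α) (Q : α → α → Prop)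
    [∀ x y, Decidable (Q x y)] :
    cntPairs s Q + cntPairs s (fun x y => ¬ Q x y) = s.card * sᶜ.card := by
  unfold cntPairs
  rw [Finset.card_filter_add_card_filter_not, Finset.card_product]

theorem swap_eq {α : Type} [Fintype α] [DecidableEq α] {s : Finset α} {x y : α} (hx : x ∈ s)
    (hy : y ∉ s) : symmDiff s (symmDiff {x} {y}) = insert y (s.erase x) := by
  have hxy : x ≠ y := fun h => hy (h ▸ hx)
  ext a
  simp only [Finset.mem_symmDiff, Finset.mem_singleton, Finset.mem_insert, Finset.mem_erase]
  by_cases h1 : a = x
  · subst h1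
    simp [hx, hxy]
  · by_cases h2 : a = y
    · subst h2
      simp [hy, h1]
    · simp [h1, h2]

theorem taskCount : TaskCount := by
  classical
  intro α _ _ P _ r hP0 hPs hPr w hw1 hw2
  set n := Fintype.card α with hn
  set m := min w (n - w) with hm
  set M := max w (n - w) with hM
  have hmM : m * M = w * (n - w) := by
    rw [hm, hM, min_mul_max]
  have hm1 : 1 ≤ m := by rw [hm]; exact le_min hw1 (by omega)
  have hnM : n + 2 ≤ 2 * (M + 1) := by
    have h1 : w ≤ M := le_max_left _ _
    have h2 : n - w ≤ M := le_max_right _ _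
    omega
  set W : Finset (Finset α) := Finset.univ.powersetCard w with hW
  have hWmem : ∀ s, s ∈ W ↔ s.card = w := fun s => by
    rw [hW, Finset.mem_powersetCard_univ]
  have hWcard : W.card = n.choose w := by
    rw [hW, Finset.card_powersetCard, Finset.card_univ]
  have hcompl : ∀ s ∈ W, sᶜ.card = n - w := fun s hs => by
    rw [Finset.card_compl, (hWmem s).1 hs]
  -- bad pairs
  have hbad : ∀ s ∈ W, cntPairs s (fun x y => P (symmDiff {x} {y})) + m ≤ r * m := by
    intro s hs
    have hl : cntPairs s (fun x y => P (symmDiff {x} {y})) + w ≤ r * w := by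
      rw [cntPairs_eq_left]
      have h1 : ∀ x ∈ s, (sᶜ.filter (fun y => P (symmDiff {x} {y}))).card + 1 ≤ r := by
        intro x hx
        refine le_trans ?_ (hPr x)
        have h2 : x ∉ sᶜ.filter (fun y => P (symmDiff {x} {y})) := fun h =>
          (Finset.mem_compl.1 (Finset.mem_filter.1 h).1) hx
        rw [← Finset.card_insert_of_notMem h2]
        apply Finset.card_le_card
        intro y hy
        rw [Finset.mem_insert, Finset.mem_filter] at hy
        rw [Finset.mem_filter]
        refine ⟨Finset.mem_univ _, ?_⟩
        rcases hy with rfl | hy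
        · rw [symmDiff_self]; exact hP0
        · exact hy.2
      have h2 := Finset.sum_le_sum h1
      rw [Finset.sum_add_distrib, Finset.sum_const, Finset.sum_const, (hWmem s).1 hs, smul_eq_mul,
        smul_eq_mul, mul_one, mul_comm w r] at h2
      exact h2
    have hr : cntPairs s (fun x y => P (symmDiff {x} {y})) + (n - w) ≤ r * (n - w) := by
      rw [cntPairs_eq_right]
      have h1 : ∀ y ∈ sᶜ, (s.filter (fun x => P (symmDiff {x} {y}))).card + 1 ≤ r := by
        intro y hy
        refine le_trans ?_ (hPr y)
        have h2 : y ∉ s.filter (fun x => P (symmDiff {x} {y})) := fun h =>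
          (Finset.mem_compl.1 hy) (Finset.mem_filter.1 h).1
        rw [← Finset.card_insert_of_notMem h2]
        apply Finset.card_le_card
        intro x hx
        rw [Finset.mem_insert, Finset.mem_filter] at hx
        rw [Finset.mem_filter]
        refine ⟨Finset.mem_univ _, ?_⟩
        rcases hx with rfl | hx
        · rw [symmDiff_self]; exact hP0
        · rw [symmDiff_comm]; exact hx.2
      have h2 := Finset.sum_le_sum h1
      rw [Finset.sum_add_distrib, Finset.sum_const, Finset.sum_const, hcompl s hs, smul_eq_mul,
        smul_eq_mul, mul_one, mul_comm (n - w) r] at h2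
      exact h2
    rcases min_choice w (n - w) with h | h
    · rw [hm, h]; exact hl
    · rw [hm, h]; exact hr
  -- return pairs
  have hret : ∀ s ∈ W, cntPairs s (fun x y => P (symmDiff s (symmDiff {x} {y}))) ≤ r * m := by
    intro s hs
    have hl : cntPairs s (fun x y => P (symmDiff s (symmDiff {x} {y}))) ≤ r * w := by
      rw [cntPairs_eq_left]
      have h1 : ∀ x ∈ s, (sᶜ.filter (fun y => P (symmDiff s (symmDiff {x} {y})))).card ≤ r := by
        intro x hx
        rcases (sᶜ.filter (fun y => P (symmDiff s (symmDiff {x} {y})))).eq_empty_or_nonempty with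
          h0 | ⟨y0, hy0⟩
        · rw [h0, Finset.card_empty]; exact Nat.zero_le _
        · refine le_trans (Finset.card_le_card ?_) (hPr y0)
          intro y hy
          rw [Finset.mem_filter] at hy hy0 ⊢
          refine ⟨Finset.mem_univ _, ?_⟩
          have h2 := hPs _ _ hy0.2 hy.2
          have h3 : symmDiff (symmDiff s (symmDiff {x} {y0})) (symmDiff s (symmDiff {x} {y})) =
              symmDiff {y0} {y} := by
            rw [symmDiff_symmDiff_symmDiff_comm, symmDiff_self, bot_symmDiff,
              symmDiff_symmDiff_symmDiff_comm, symmDiff_self, bot_symmDiff]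
          rwa [h3] at h2
      have h2 := Finset.sum_le_sum h1
      rw [Finset.sum_const, (hWmem s).1 hs, smul_eq_mul, mul_comm w r] at h2
      exact h2
    have hr : cntPairs s (fun x y => P (symmDiff s (symmDiff {x} {y}))) ≤ r * (n - w) := by
      rw [cntPairs_eq_right]
      have h1 : ∀ y ∈ sᶜ, (s.filter (fun x => P (symmDiff s (symmDiff {x} {y})))).card ≤ r := by
        intro y hy
        rcases (s.filter (fun x => P (symmDiff s (symmDiff {x} {y})))).eq_empty_or_nonempty with
          h0 | ⟨x0, hx0⟩
        · rw [h0, Finset.card_empty]; exact Nat.zero_le _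
        · refine le_trans (Finset.card_le_card ?_) (hPr x0)
          intro x hx
          rw [Finset.mem_filter] at hx hx0 ⊢
          refine ⟨Finset.mem_univ _, ?_⟩
          have h2 := hPs _ _ hx0.2 hx.2
          have h3 : symmDiff (symmDiff s (symmDiff {x0} {y})) (symmDiff s (symmDiff {x} {y})) =
              symmDiff {x0} {x} := by
            rw [symmDiff_symmDiff_symmDiff_comm, symmDiff_self, bot_symmDiff,
              symmDiff_symmDiff_symmDiff_comm, symmDiff_self, symmDiff_bot]
          rwa [h3] at h2
      have h2 := Finset.sum_le_sum h1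
      rw [Finset.sum_const, hcompl s hs, smul_eq_mul, mul_comm (n - w) r] at h2
      exact h2
    rcases min_choice w (n - w) with h | h
    · rw [hm, h]; exact hl
    · rw [hm, h]; exact hr
  -- double counting
  set A := W.filter P with hA
  set B := W.filter (fun s => ¬ P s) with hB
  have hAB : A.card + B.card = n.choose w := by
    rw [hA, hB, Finset.card_filter_add_card_filter_not, hWcard]
  have hdc : ∑ s ∈ A, cntPairs s (fun x y => ¬ P (symmDiff {x} {y})) ≤
      ∑ s ∈ B, cntPairs s (fun x y => P (symmDiff s (symmDiff {x} {y}))) := by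
    unfold cntPairs
    rw [← Finset.card_sigma, ← Finset.card_sigma]
    refine Finset.card_le_card_of_injOn (fun q : (_ : Finset α) × (α × α) =>
      (⟨symmDiff q.1 (symmDiff {q.2.1} {q.2.2}), (q.2.2, q.2.1)⟩ : (_ : Finset α) × (α × α))) ?_ ?_
    · rintro ⟨s, x, y⟩ h
      obtain ⟨h1, h0⟩ := Finset.mem_sigma.1 (Finset.mem_coe.1 h)
      obtain ⟨h23, h4⟩ := Finset.mem_filter.1 h0
      obtain ⟨h2, h3⟩ := Finset.mem_product.1 h23
      simp only at h1 h2 h3 h4
      rw [hA, Finset.mem_filter] at h1
      rw [Finset.mem_compl] at h3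
      have h5 := swap_eq h2 h3
      have hxy : x ≠ y := fun h => h3 (h ▸ h2)
      refine Finset.mem_coe.2 (Finset.mem_sigma.2 ⟨?_, Finset.mem_filter.2
        ⟨Finset.mem_product.2 ⟨?_, ?_⟩, ?_⟩⟩)
      · simp only
        rw [hB, Finset.mem_filter]
        constructor
        · rw [hWmem, h5, Finset.card_insert_of_notMem (fun h => h3 (Finset.mem_of_mem_erase h)),
            Finset.card_erase_of_mem h2]
          have := (hWmem s).1 h1.1
          omega
        · intro h6
          apply h4
          have := hPs _ _ h1.2 h6
          rwa [symmDiff_symmDiff_cancel_left] at this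
      · simp only
        rw [h5]; exact Finset.mem_insert_self _ _
      · simp only
        rw [h5, Finset.mem_compl, Finset.mem_insert, Finset.mem_erase]
        rintro (h6 | h6)
        · exact hxy h6
        · exact h6.1 rfl
      · simp only
        rw [symmDiff_comm ({y} : Finset α) {x}, symmDiff_symmDiff_cancel_right]
        exact h1.2
    · rintro ⟨s, x, y⟩ _ ⟨t, u, v⟩ _ h
      simp only [Sigma.mk.injEq, Prod.mk.injEq, heq_eq_eq] at h
      obtain ⟨h1, h2, h3⟩ := h
      subst h2 h3
      have := symmDiff_left_injective _ h1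
      rw [this]
  -- conclusion
  have h1 : A.card * (m * (M + 1)) ≤
      ∑ s ∈ A, (cntPairs s (fun x y => ¬ P (symmDiff {x} {y})) + r * m) := by
    have : ∀ s ∈ A, m * (M + 1) ≤ cntPairs s (fun x y => ¬ P (symmDiff {x} {y})) + r * m := by
      intro s hs
      have hsW : s ∈ W := (Finset.mem_filter.1 hs).1
      have e1 := cntPairs_add s (fun x y => P (symmDiff {x} {y}))
      have e2 := hbad s hsW
      rw [(hWmem s).1 hsW, hcompl s hsW, ← hmM] at e1
      have e3 : m * (M + 1) = m * M + m := by ring
      rw [e3]
      omega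
    have h2 := Finset.sum_le_sum this
    rwa [Finset.sum_const, smul_eq_mul] at h2
  have h2 : ∑ s ∈ B, cntPairs s (fun x y => P (symmDiff s (symmDiff {x} {y}))) ≤
      B.card * (r * m) := by
    have := Finset.sum_le_sum (s := B) (fun s hs => hret s (Finset.mem_filter.1 hs).1)
    rwa [Finset.sum_const, smul_eq_mul] at this
  rw [Finset.sum_add_distrib, Finset.sum_const, smul_eq_mul] at h1
  have h3 : A.card * (m * (M + 1)) ≤ (r * n.choose w) * m := by
    calc A.card * (m * (M + 1)) ≤ B.card * (r * m) + A.card * (r * m) := by omega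
      _ = (r * n.choose w) * m := by rw [← hAB]; ring
  have h4 : A.card * (M + 1) ≤ r * n.choose w := by
    have h5 : (A.card * (M + 1)) * m ≤ (r * n.choose w) * m := by
      calc (A.card * (M + 1)) * m = A.card * (m * (M + 1)) := by ring
        _ ≤ _ := h3
    exact Nat.le_of_mul_le_mul_right h5 hm1
  calc (n + 2) * A.card ≤ (2 * (M + 1)) * A.card := Nat.mul_le_mul_right _ hnM
    _ = 2 * (A.card * (M + 1)) := by ring
    _ ≤ 2 * (r * n.choose w) := Nat.mul_le_mul_left _ h4
    _ = 2 * r * n.choose w := by ring

end Pool.Agent.Helper172_SO
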