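import Pool.Agent.Helper172_SO.Util

set_option autoImplicit false
set_option linter.unusedSectionVars false

namespace Pool.Agent.Helper172_SO

open Matrix

section
variable {α : Type} [Fintype α] [DecidableEq α]

/-- elementary skew matrices -/
def EE (x y : α) : Matrix α α ℝ := Matrix.single x y 1 - Matrix.single y x 1

theorem EE_skew (x y : α) : (EE x y)ᵀ = -EE x y := by
  simp [EE]

theorem EE_self (x : α) : EE x x = 0 := by simp [EE]

theorem EE_swap (x y : α) : EE y x = -EE x y := by simp [EE]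

theorem mul_single_sum (Z : Matrix α α ℝ) (x y : α) :
    Z * Matrix.single x y 1 = ∑ z, Z z x • Matrix.single z y (1 : ℝ) := by
  ext i j
  rw [Matrix.sum_apply, Finset.sum_eq_single i]
  · by_cases h : j = y
    · subst h; simp
    · rw [Matrix.smul_apply, Matrix.single_apply_of_col_ne _ _ (Ne.symm h),
        Matrix.mul_single_apply_of_ne _ _ _ _ _ h]
      simp
  · intro z _ hz
    rw [Matrix.smul_apply, Matrix.single_apply_of_row_ne hz]
    simp
  · intro h; exact absurd (Finset.mem_univ _) h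

theorem single_mul_sum (Z : Matrix α α ℝ) (x y : α) :
    Matrix.single x y 1 * Z = ∑ z, Z y z • Matrix.single x z (1 : ℝ) := by
  ext i j
  rw [Matrix.sum_apply, Finset.sum_eq_single j]
  · by_cases h : i = x
    · subst h; simp
    · rw [Matrix.smul_apply, Matrix.single_apply_of_row_ne (Ne.symm h),
        Matrix.single_mul_apply_of_ne _ _ _ _ _ h]
      simp
  · intro z _ hz
    rw [Matrix.smul_apply, Matrix.single_apply_of_col_ne _ _ hz]
    simp
  · intro h; exact absurd (Finset.mem_univ _) h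

theorem EE_bracket (Z : Matrix α α ℝ) (hZ : Zᵀ = -Z) (x y : α) :
    Z * EE x y - EE x y * Z = ∑ z, Z z x • EE z y + ∑ z, Z z y • EE x z := by
  have hs : ∀ i j, Z i j = - Z j i := by
    intro i j
    have := congrFun (congrFun hZ j) i
    simpa using this
  simp only [EE, mul_sub, sub_mul, mul_single_sum, single_mul_sum, smul_sub,
    Finset.sum_sub_distrib]
  have e1 : ∀ a : α, ∑ z, Z y z • Matrix.single a z (1 : ℝ) =
      - ∑ z, Z z y • Matrix.single a z (1 : ℝ) := by
    intro a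
    rw [← Finset.sum_neg_distrib]
    exact Finset.sum_congr rfl fun z _ => by rw [hs y z, neg_smul]
  have e2 : ∀ a : α, ∑ z, Z x z • Matrix.single a z (1 : ℝ) =
      - ∑ z, Z z x • Matrix.single a z (1 : ℝ) := by
    intro a
    rw [← Finset.sum_neg_distrib]
    exact Finset.sum_congr rfl fun z _ => by rw [hs x z, neg_smul]
  rw [e1, e2]
  abel

/-- a skew matrix is a combination of the elementary ones -/
theorem skew_expand (Z : Matrix α α ℝ) (hZ : Zᵀ = -Z) :
    Z = (1 / 2 : ℝ) • ∑ x, ∑ y, Z x y • EE x y := by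
  have hs : ∀ i j, Z i j = - Z j i := by
    intro i j
    have := congrFun (congrFun hZ j) i
    simpa using this
  have h1 : Z = ∑ x, ∑ y, Z x y • Matrix.single x y (1 : ℝ) := by
    conv_lhs => rw [Matrix.matrix_eq_sum_single Z]
    refine Finset.sum_congr rfl fun x _ => Finset.sum_congr rfl fun y _ => ?_
    rw [Matrix.smul_single, smul_eq_mul, mul_one]
  have h2 : ∑ x, ∑ y, Z x y • Matrix.single y x (1 : ℝ) = -Z := by
    rw [Finset.sum_comm]
    conv_rhs => rw [h1]
    rw [← Finset.sum_neg_distrib]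
    refine Finset.sum_congr rfl fun x _ => ?_
    rw [← Finset.sum_neg_distrib]
    refine Finset.sum_congr rfl fun y _ => ?_
    rw [hs y x, neg_smul]
  simp only [EE, smul_sub, Finset.sum_sub_distrib]
  rw [h2, ← h1]
  module

end

theorem antisym_sum {ι M : Type} [Fintype ι] [AddCommGroup M] [Module ℝ M] (K : ι → ι → M)
    (h : ∀ x z, K x z = - K z x) : ∑ x, ∑ z, K x z = 0 := by
  have h1 : ∑ x, ∑ z, K x z = - ∑ x, ∑ z, K x z := by
    conv_lhs => rw [Finset.sum_comm]
    rw [← Finset.sum_neg_distrib]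
    refine Finset.sum_congr rfl fun x _ => ?_
    rw [← Finset.sum_neg_distrib]
    exact Finset.sum_congr rfl fun z _ => h z x
  have h2 : (2 : ℝ) • ∑ x, ∑ z, K x z = 0 := by
    rw [two_smul]
    nth_rewrite 1 [h1]
    exact neg_add_cancel _
  exact (smul_eq_zero.mp h2).resolve_left two_ne_zero

section cas
variable {α : Type} [Fintype α] [DecidableEq α] {V : Type} [NormedAddCommGroup V]
  [InnerProductSpace ℝ V] [FiniteDimensional ℝ V] (ρ : PRep α V)

/-- the Casimir operator -/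
noncomputable def cas : V →ₗ[ℝ] V := - ∑ x, ∑ y, ρ.D (EE x y) * ρ.D (EE x y)

theorem D_bracket_mul (X Y : Matrix α α ℝ) :
    ρ.D X * ρ.D Y - ρ.D Y * ρ.D X = ρ.D (X * Y - Y * X) := by
  ext v
  exact ρ.bracket X Y v

theorem cas_comm (Z : Matrix α α ℝ) (hZ : Zᵀ = -Z) : ρ.D Z * cas ρ = cas ρ * ρ.D Z := by
  rw [← sub_eq_zero]
  have hG : ∀ x y, ρ.D Z * ρ.D (EE x y) - ρ.D (EE x y) * ρ.D Z =
      ∑ z, Z z x • ρ.D (EE z y) + ∑ z, Z z y • ρ.D (EE x z) := by
    intro x y
    rw [D_bracket_mul, EE_bracket Z hZ, map_add, map_sum, map_sum]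
    simp only [map_smul]
  have hs : ∀ i j, Z i j = - Z j i := by
    intro i j
    have := congrFun (congrFun hZ j) i
    simpa using this
  have h1 : ρ.D Z * cas ρ - cas ρ * ρ.D Z = - ∑ x, ∑ y,
      ((ρ.D Z * ρ.D (EE x y) - ρ.D (EE x y) * ρ.D Z) * ρ.D (EE x y) +
        ρ.D (EE x y) * (ρ.D Z * ρ.D (EE x y) - ρ.D (EE x y) * ρ.D Z)) := by
    simp only [cas, mul_neg, neg_mul, Finset.mul_sum, Finset.sum_mul]
    rw [sub_neg_eq_add, ← sub_eq_neg_add, ← neg_sub, ← Finset.sum_sub_distrib]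
    congr 1
    refine Finset.sum_congr rfl fun x _ => ?_
    rw [← Finset.sum_sub_distrib]
    refine Finset.sum_congr rfl fun y _ => ?_
    noncomm_ring
  rw [h1, neg_eq_zero]
  simp only [hG, add_mul, mul_add, Finset.sum_mul, Finset.mul_sum, smul_mul_assoc, mul_smul_comm]
  have h2 : ∀ x y, (∑ z, Z z x • (ρ.D (EE z y) * ρ.D (EE x y)) +
      ∑ z, Z z y • (ρ.D (EE x z) * ρ.D (EE x y)) +
      (∑ z, Z z x • (ρ.D (EE x y) * ρ.D (EE z y)) +
      ∑ z, Z z y • (ρ.D (EE x y) * ρ.D (EE x z)))) =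
      ∑ z, Z z x • (ρ.D (EE z y) * ρ.D (EE x y) + ρ.D (EE x y) * ρ.D (EE z y)) +
      ∑ z, Z z y • (ρ.D (EE x z) * ρ.D (EE x y) + ρ.D (EE x y) * ρ.D (EE x z)) := by
    intro x y
    simp only [smul_add, Finset.sum_add_distrib]
    abel
  simp only [h2, Finset.sum_add_distrib]
  have h3 : ∑ x, ∑ y, ∑ z, Z z x • (ρ.D (EE z y) * ρ.D (EE x y) + ρ.D (EE x y) * ρ.D (EE z y)) = 0 := by
    rw [Finset.sum_comm]
    refine Finset.sum_eq_zero fun y _ => ?_
    apply antisym_sum
    intro x z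
    rw [hs z x, neg_smul, add_comm]
  have h4 : ∑ x, ∑ y, ∑ z, Z z y • (ρ.D (EE x z) * ρ.D (EE x y) + ρ.D (EE x y) * ρ.D (EE x z)) = 0 := by
    refine Finset.sum_eq_zero fun x _ => ?_
    apply antisym_sum
    intro y z
    rw [hs z y, neg_smul, add_comm]
  rw [h3, h4, add_zero]

theorem cas_comm_apply {Z : Matrix α α ℝ} (hZ : Zᵀ = -Z) (v : V) :
    ρ.D Z (cas ρ v) = cas ρ (ρ.D Z v) :=
  congrArg (fun f : V →ₗ[ℝ] V => f v) (cas_comm ρ Z hZ)

theorem inner_cas (v w : V) : inner ℝ (cas ρ v) w = ∑ x, ∑ y, inner ℝ (ρ.D (EE x y) v) (ρ.D (EE x y) w) := by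
  rw [cas, LinearMap.neg_apply, inner_neg_left, LinearMap.sum_apply, sum_inner,
    ← Finset.sum_neg_distrib]
  refine Finset.sum_congr rfl fun x _ => ?_
  rw [LinearMap.sum_apply, sum_inner, ← Finset.sum_neg_distrib]
  refine Finset.sum_congr rfl fun y _ => ?_
  show - inner ℝ (ρ.D (EE x y) (ρ.D (EE x y) v)) w = _
  rw [ρ.D_skew (EE_skew x y), neg_neg]

theorem cas_sym (v w : V) : inner ℝ (cas ρ v) w = inner ℝ v (cas ρ w) := by
  rw [real_inner_comm (cas ρ w) v, inner_cas, inner_cas]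
  refine Finset.sum_congr rfl fun x _ => Finset.sum_congr rfl fun y _ => ?_
  rw [real_inner_comm]

theorem inner_cas_self (v : V) : inner ℝ (cas ρ v) v = ∑ x, ∑ y, ‖ρ.D (EE x y) v‖ ^ 2 := by
  rw [inner_cas]
  simp only [real_inner_self_eq_norm_sq]

theorem mem_inv_so_iff (v : V) : v ∈ ρ.inv (so α) ↔ ∀ x y, ρ.D (EE x y) v = 0 := by
  constructor
  · intro h x y
    exact h _ (EE_skew x y)
  · intro h Z hZ
    rw [skew_expand Z hZ, map_smul, map_sum, LinearMap.smul_apply, LinearMap.sum_apply]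
    rw [Finset.sum_eq_zero, smul_zero]
    intro x _
    rw [map_sum, LinearMap.sum_apply]
    refine Finset.sum_eq_zero fun y _ => ?_
    rw [map_smul, LinearMap.smul_apply, h, smul_zero]

theorem cas_pos {v : V} (hv : v ∉ ρ.inv (so α)) : 0 < inner ℝ (cas ρ v) v := by
  rw [inner_cas_self]
  rw [mem_inv_so_iff] at hv
  push Not at hv
  obtain ⟨x, y, hxy⟩ := hv
  have h1 : 0 < ‖ρ.D (EE x y) v‖ ^ 2 := by positivity
  refine lt_of_lt_of_le h1 ?_
  refine le_trans ?_ (Finset.single_le_sum (f := fun x => ∑ y, ‖ρ.D (EE x y) v‖ ^ 2)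
    (fun _ _ => Finset.sum_nonneg fun _ _ => sq_nonneg _) (Finset.mem_univ x))
  exact Finset.single_le_sum (f := fun y => ‖ρ.D (EE x y) v‖ ^ 2) (fun _ _ => sq_nonneg _)
    (Finset.mem_univ y)

/-- the Casimir operator preserves the invariants of a set of skew matrices -/
theorem cas_inv (L : Set (Matrix α α ℝ)) (hL : ∀ X ∈ L, Xᵀ = -X) {v : V} (hv : v ∈ ρ.inv L) :
    cas ρ v ∈ ρ.inv L := by
  intro X hX
  rw [cas_comm_apply ρ (hL X hX), hv X hX, map_zero]

theorem cas_proj (L : Set (Matrix α α ℝ)) (hL : ∀ X ∈ L, Xᵀ = -X) (v : V) :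
    cas ρ ((ρ.inv L).starProjection v) = (ρ.inv L).starProjection (cas ρ v) :=
  proj_comm _ _ _ (cas_sym ρ) (fun _ h => cas_inv ρ L hL h) (fun _ h => cas_inv ρ L hL h) v

/-- the orthogonal complement of the invariants is stable -/
theorem D_mem_orth {Z : Matrix α α ℝ} (hZ : Zᵀ = -Z) {v : V} (_hv : v ∈ (ρ.inv (so α))ᗮ) :
    ρ.D Z v ∈ (ρ.inv (so α))ᗮ := by
  rw [mem_orth]
  intro z hz
  have := ρ.D_skew hZ z v
  rw [hz Z hZ, inner_zero_left] at this
  linarith

end cas

theorem taskCover : TaskCover := by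
  intro α _ _ Rs hRs V _ _ _ ρ v hv
  classical
  set W := (ρ.inv (so α))ᗮ with hW
  by_cases hbot : W = ⊥
  · have : v = 0 := by
      have := hv; rw [hbot] at this; simpa using this
    subst this
    simp
  -- the sum of the complementary projections
  let S : V →ₗ[ℝ] V := ∑ s ∈ Rs, (LinearMap.id - ((ρ.inv (soOn s)).starProjection : V →ₗ[ℝ] V))
  have hS : ∀ w, S w = ∑ s ∈ Rs, (w - (ρ.inv (soOn s)).starProjection w) := by
    intro w
    simp [S, LinearMap.sum_apply]
  have hle : ∀ s : Finset α, ρ.inv (so α) ≤ ρ.inv (soOn s) := fun s z hz X hX => hz X hX.1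
  have hSsym : ∀ x y, inner ℝ (S x) y = inner ℝ x (S y) := by
    intro x y
    rw [hS, hS, sum_inner, inner_sum]
    refine Finset.sum_congr rfl fun s _ => ?_
    rw [inner_sub_left, inner_sub_right, proj_sym]
  have hSW : ∀ w ∈ W, S w ∈ W := by
    intro w hw
    rw [hW, mem_orth]
    intro z hz
    rw [real_inner_comm, hSsym, hS]
    have : ∀ s ∈ Rs, z - (ρ.inv (soOn s)).starProjection z = 0 := by
      intro s _
      rw [proj_of_mem (hle s hz), sub_self]
    rw [Finset.sum_congr rfl this]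
    simp
  obtain ⟨u, huW, hu0, t, hut, ht⟩ := exists_min_eig S hSsym W hSW hbot
  -- energy estimate
  have hself : ∀ w, inner ℝ (S w) w = ∑ s ∈ Rs, ‖w - (ρ.inv (soOn s)).starProjection w‖ ^ 2 := by
    intro w
    rw [hS, sum_inner]
    refine Finset.sum_congr rfl fun s _ => ?_
    have h1 := norm_sq_split' (ρ.inv (soOn s)) w
    exact h1
  have hcpos : 0 < inner ℝ (cas ρ u) u := by
    apply cas_pos
    intro hmem
    apply hu0
    have := (mem_orth.mp huW) u hmem
    exact inner_self_eq_zero.mp this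
  have hen : inner ℝ (cas ρ u) u ≤ t * inner ℝ (cas ρ u) u := by
    have h1 : inner ℝ (cas ρ u) u ≤
        ∑ s ∈ Rs, inner ℝ (cas ρ (u - (ρ.inv (soOn s)).starProjection u))
          (u - (ρ.inv (soOn s)).starProjection u) := by
      simp only [inner_cas_self]
      have h2 : ∀ x y, ‖ρ.D (EE x y) u‖ ^ 2 ≤ ∑ s ∈ Rs,
          ‖ρ.D (EE x y) (u - (ρ.inv (soOn s)).starProjection u)‖ ^ 2 := by
        intro x y
        by_cases hxy : x = y
        · subst hxy
          rw [EE_self]
          simp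
        · obtain ⟨s, hs, hx, hy⟩ := hRs x y hxy
          have hmem : EE x y ∈ soOn s := by
            refine ⟨EE_skew x y, ?_⟩
            intro i j hij
            by_contra hcon
            apply hij
            rw [EE, Matrix.sub_apply, Matrix.single_apply, Matrix.single_apply]
            have n1 : ¬ (x = i ∧ y = j) := by
              rintro ⟨rfl, rfl⟩; exact hcon ⟨hx, hy⟩
            have n2 : ¬ (y = i ∧ x = j) := by
              rintro ⟨rfl, rfl⟩; exact hcon ⟨hy, hx⟩
            rw [if_neg n1, if_neg n2, sub_self]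
          have h3 : ρ.D (EE x y) ((ρ.inv (soOn s)).starProjection u) = 0 :=
            (proj_mem (ρ.inv (soOn s)) u) _ hmem
          have h4 : ‖ρ.D (EE x y) u‖ ^ 2 =
              ‖ρ.D (EE x y) (u - (ρ.inv (soOn s)).starProjection u)‖ ^ 2 := by
            rw [map_sub, h3, sub_zero]
          rw [h4]
          exact Finset.single_le_sum
            (f := fun s => ‖ρ.D (EE x y) (u - (ρ.inv (soOn s)).starProjection u)‖ ^ 2)
            (fun _ _ => sq_nonneg _) hs
      calc ∑ x, ∑ y, ‖ρ.D (EE x y) u‖ ^ 2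
          ≤ ∑ x, ∑ y, ∑ s ∈ Rs, ‖ρ.D (EE x y) (u - (ρ.inv (soOn s)).starProjection u)‖ ^ 2 :=
            Finset.sum_le_sum fun x _ => Finset.sum_le_sum fun y _ => h2 x y
        _ = ∑ x, ∑ s ∈ Rs, ∑ y, ‖ρ.D (EE x y) (u - (ρ.inv (soOn s)).starProjection u)‖ ^ 2 :=
            Finset.sum_congr rfl fun x _ => Finset.sum_comm
        _ = ∑ s ∈ Rs, ∑ x, ∑ y, ‖ρ.D (EE x y) (u - (ρ.inv (soOn s)).starProjection u)‖ ^ 2 :=
            Finset.sum_comm
    have h5 : ∀ s ∈ Rs, inner ℝ (cas ρ (u - (ρ.inv (soOn s)).starProjection u))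
          (u - (ρ.inv (soOn s)).starProjection u) =
        inner ℝ (cas ρ (u - (ρ.inv (soOn s)).starProjection u)) u := by
      intro s _
      rw [inner_sub_right]
      have h6 : inner ℝ (cas ρ (u - (ρ.inv (soOn s)).starProjection u))
          ((ρ.inv (soOn s)).starProjection u) = 0 := by
        have h7 : inner ℝ ((ρ.inv (soOn s)).starProjection (cas ρ u))
            ((ρ.inv (soOn s)).starProjection u) =
            inner ℝ (cas ρ u) ((ρ.inv (soOn s)).starProjection u) := by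
          rw [proj_sym, proj_of_mem (proj_mem (ρ.inv (soOn s)) u)]
        rw [map_sub, cas_proj ρ (soOn s) (fun X hX => hX.1), inner_sub_left, h7, sub_self]
      rw [h6, sub_zero]
    rw [Finset.sum_congr rfl h5, ← sum_inner, ← map_sum, ← hS, hut, map_smul, inner_smul_left] at h1
    exact h1
  have ht1 : 1 ≤ t := by
    by_contra hlt
    push Not at hlt
    nlinarith
  have := ht v hv
  rw [hself] at this
  nlinarith [sq_nonneg ‖v‖]

end Pool.Agent.Helper172_SO
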