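import Pool.Agent.Helper172_SO.Stmts

set_option autoImplicit false
set_option linter.unusedSectionVars false

namespace Pool.Agent.Helper172_SO

open Matrix

section pm
variable {α : Type} [Fintype α] [DecidableEq α]

theorem pm_apply (σ : Equiv.Perm α) (x y : α) : pm σ x y = if x = σ y then 1 else 0 := rfl

theorem pm_one : pm (1 : Equiv.Perm α) = 1 := by
  ext x y
  by_cases h : x = y
  · subst h; simp [pm_apply]
  · rw [pm_apply, if_neg (by simpa using h), Matrix.one_apply_ne h]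

theorem pm_mul (σ τ : Equiv.Perm α) : pm (σ * τ) = pm σ * pm τ := by
  ext x y
  rw [Matrix.mul_apply, Finset.sum_eq_single (τ y)]
  · rw [pm_apply, pm_apply, pm_apply, if_pos rfl, mul_one]; rfl
  · intro z _ hz
    rw [pm_apply τ, if_neg hz, mul_zero]
  · intro h; exact absurd (Finset.mem_univ _) h

theorem pm_transpose (σ : Equiv.Perm α) : (pm σ)ᵀ = pm σ⁻¹ := by
  ext x y
  rw [Matrix.transpose_apply, pm_apply, pm_apply]
  have : (y = σ x) ↔ (x = σ⁻¹ y) := by rw [Equiv.Perm.eq_inv_iff_eq, eq_comm]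
  by_cases h : y = σ x
  · rw [if_pos h, if_pos (this.mp h)]
  · rw [if_neg h, if_neg (fun h' => h (this.mpr h'))]

theorem pm_orth (σ : Equiv.Perm α) : (pm σ)ᵀ * pm σ = 1 := by
  rw [pm_transpose, ← pm_mul, inv_mul_cancel, pm_one]

theorem pm_det (σ : Equiv.Perm α) : (pm σ).det = ((Equiv.Perm.sign σ : ℤ) : ℝ) := by
  have : pm σ = (Equiv.Perm.permMatrix ℝ σ⁻¹) := by
    ext x y
    rw [pm_apply, Equiv.Perm.permMatrix, PEquiv.toMatrix_apply]
    simp only [Equiv.toPEquiv_apply, Option.mem_def, Option.some.injEq]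
    congr 1
    rw [Equiv.Perm.inv_eq_iff_eq]
  rw [this, Matrix.det_permutation]
  simp

theorem pm_isSO (σ : Equiv.Perm α) (h : Equiv.Perm.sign σ = 1) : IsSO (pm σ) :=
  ⟨pm_orth σ, by rw [pm_det, h]; simp⟩

end pm

/-- transvections -/
def tvf {m : ℕ} (s t : Fin m) (x : C m) : C m := x + Pi.single s (x t)

theorem tvf_tvf {m : ℕ} {s t : Fin m} (h : s ≠ t) (x : C m) : tvf s t (tvf s t x) = x := by
  ext i
  simp only [tvf, Pi.add_apply, Pi.single_apply, if_neg h.symm, add_zero]
  split_ifs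
  · rw [add_assoc, CharTwo.add_self_eq_zero, add_zero]
  · simp

/-- transvections as permutations -/
def tv {m : ℕ} (s t : Fin m) (h : s ≠ t) : Equiv.Perm (C m) :=
  ⟨tvf s t, tvf s t, tvf_tvf h, tvf_tvf h⟩

theorem tv_apply {m : ℕ} (s t : Fin m) (h : s ≠ t) (x : C m) :
    tv s t h x = x + Pi.single s (x t) := rfl

theorem tv_mem {m : ℕ} (s t : Fin m) (h : s ≠ t) : tv s t h ∈ TV m :=
  ⟨s, t, h, fun _ => rfl⟩

theorem mem_TV {m : ℕ} {σ : Equiv.Perm (C m)} (hσ : σ ∈ TV m) : ∃ s t h, σ = tv s t h := by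
  obtain ⟨s, t, h, hs⟩ := hσ
  exact ⟨s, t, h, Equiv.ext hs⟩

theorem tv_comm {m : ℕ} {r s t : Fin m} (h : s ≠ t) (h1 : s ≠ r) (h2 : r ≠ t) :
    tv s t h = (tv s r h1 * tv r t h2) * (tv s r h1 * tv r t h2) := by
  ext x i
  simp only [Equiv.Perm.mul_apply, tv_apply, Pi.add_apply, Pi.single_apply]
  have e1 : t ≠ s := h.symm
  have e2 : r ≠ s := h1.symm
  have e3 : t ≠ r := h2.symm
  simp only [e1, e2, e3, if_true, add_zero, if_neg, not_false_eq_true]
  have : ∀ z : ZMod 2, z + z = 0 := CharTwo.add_self_eq_zero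
  by_cases hi : i = s
  · subst hi
    simp only [if_true, h1]
    generalize x i = a; generalize x r = b; generalize x t = c
    revert a b c; decide
  · simp only [if_neg hi, add_zero]
    by_cases hr : i = r
    · subst hr
      simp only [if_true]
      generalize x i = a; generalize x t = c
      revert a c; decide
    · simp [if_neg hr]

theorem sign_TV {m : ℕ} (hm : 3 ≤ m) {σ : Equiv.Perm (C m)} (hσ : σ ∈ TV m) :
    Equiv.Perm.sign σ = 1 := by
  obtain ⟨s, t, h, rfl⟩ := mem_TV hσ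
  obtain ⟨r, hr⟩ : ∃ r : Fin m, r ∉ ({s, t} : Finset (Fin m)) := by
    by_contra hcon
    push Not at hcon
    have h1 : (Finset.univ : Finset (Fin m)) ⊆ {s, t} := fun x _ => hcon x
    have h2 := Finset.card_le_card h1
    have h3 := Finset.card_le_two (a := s) (b := t)
    rw [Finset.card_univ, Fintype.card_fin] at h2
    omega
  simp only [Finset.mem_insert, Finset.mem_singleton, not_or] at hr
  rw [tv_comm h (Ne.symm hr.1) hr.2, map_mul]
  exact Int.units_mul_self _

theorem sign_closure_TV {m : ℕ} (hm : 3 ≤ m) {σ : Equiv.Perm (C m)}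
    (hσ : σ ∈ Subgroup.closure (TV m)) : Equiv.Perm.sign σ = 1 := by
  have : Subgroup.closure (TV m) ≤ (Equiv.Perm.sign : Equiv.Perm (C m) →* ℤˣ).ker := by
    rw [Subgroup.closure_le]
    intro τ hτ
    exact sign_TV hm hτ
  exact this hσ

theorem taskSign : TaskSign := by
  intro m hm σ hσ
  exact pm_isSO σ (sign_closure_TV hm hσ)

end Pool.Agent.Helper172_SO
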