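import Pool.Agent.Helper172_SO.Cover
import Pool.Agent.Helper172_SO.Sign

set_option autoImplicit false
set_option linter.unusedSectionVars false

namespace Pool.Agent.Helper172_SO.Dim

open Matrix

section signs
variable {α : Type} [Fintype α] [DecidableEq α]

/-- sign vectors of product one -/
def Dg (α : Type) [Fintype α] : Subgroup (α → ℤˣ) where
  carrier := {d | ∏ i, d i = 1}
  one_mem' := by simp
  mul_mem' := by
    intro a b ha hb
    show ∏ i, (a * b) i = 1
    simp only [Pi.mul_apply, Finset.prod_mul_distrib]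
    have ha' : ∏ i, a i = 1 := ha
    have hb' : ∏ i, b i = 1 := hb
    rw [ha', hb', one_mul]
  inv_mem' := by
    intro a ha
    show ∏ i, (a⁻¹) i = 1
    have ha' : ∏ i, a i = 1 := ha
    simp only [Pi.inv_apply, Finset.prod_inv_distrib, ha', inv_one]

instance : DecidablePred (fun d : α → ℤˣ => d ∈ Dg α) := fun d =>
  inferInstanceAs (Decidable (∏ i, d i = 1))

/-- real sign vectors -/
def rv (d : α → ℤˣ) : α → ℝ := fun i => ((d i : ℤ) : ℝ)

theorem rv_one : rv (1 : α → ℤˣ) = 1 := by ext i; simp [rv]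

theorem rv_mul (d e : α → ℤˣ) : rv (d * e) = rv d * rv e := by ext i; simp [rv]

theorem rv_inj {d e : α → ℤˣ} (h : rv d = rv e) : d = e := by
  ext i
  have := congrFun h i
  simpa [rv] using this

theorem rv_sq (d : α → ℤˣ) (i : α) : rv d i * rv d i = 1 := by
  rcases Int.units_eq_one_or (d i) with h | h <;> simp [rv, h]

theorem exists_rv (f : α → ℝ) (hf : ∀ i, f i = 1 ∨ f i = -1) : ∃ d : α → ℤˣ, rv d = f := by
  classical
  refine ⟨fun i => if f i = 1 then 1 else -1, ?_⟩
  ext i
  rcases hf i with h | h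
  · simp [rv, h]
  · simp only [rv, h]; norm_num

/-- the matrices -/
def dm (d : α → ℤˣ) : Matrix α α ℝ := Matrix.diagonal (rv d)

theorem dm_one : dm (1 : α → ℤˣ) = 1 := by rw [dm, rv_one]; exact Matrix.diagonal_one

theorem dm_mul (d e : α → ℤˣ) : dm (d * e) = dm d * dm e := by
  rw [dm, dm, dm, Matrix.diagonal_mul_diagonal, rv_mul]; rfl

theorem dm_isSO (d : α → ℤˣ) (hd : d ∈ Dg α) : IsSO (dm d) := by
  refine ⟨?_, ?_⟩
  · rw [dm, Matrix.diagonal_transpose, Matrix.diagonal_mul_diagonal]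
    have : (fun i => rv d i * rv d i) = fun _ => (1 : ℝ) := funext fun i => rv_sq d i
    rw [this]; exact Matrix.diagonal_one
  · rw [dm, Matrix.det_diagonal]
    have hd' : ∏ i, d i = 1 := hd
    have : ∏ i, rv d i = (((∏ i, d i : ℤˣ) : ℤ) : ℝ) := by
      simp [rv, Units.coe_prod]
    rw [this, hd']; simp

/-- characters -/
def ch (s : Finset α) (d : α → ℤˣ) : ℝ := ∏ i ∈ s, rv d i

theorem ch_one (s : Finset α) : ch s (1 : α → ℤˣ) = 1 := by simp [ch, rv_one]

theorem ch_mul (s : Finset α) (d e : α → ℤˣ) : ch s (d * e) = ch s d * ch s e := by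
  simp [ch, rv_mul, Finset.prod_mul_distrib]

theorem ch_sq (s : Finset α) (d : α → ℤˣ) : ch s d * ch s d = 1 := by
  rw [ch, ← Finset.prod_mul_distrib]
  exact Finset.prod_eq_one fun i _ => rv_sq d i

theorem ch_pm (s : Finset α) (d : α → ℤˣ) : ch s d = 1 ∨ ch s d = -1 :=
  mul_self_eq_one_iff.mp (ch_sq s d)

theorem sum_ch (d : α → ℤˣ) : ∑ s : Finset α, ch s d = if d = 1 then 2 ^ Fintype.card α else 0 := by
  have h1 : ∑ s : Finset α, ch s d = ∏ i : α, (1 + rv d i) := by
    rw [Finset.prod_one_add, ← Finset.powerset_univ]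
    rfl
  rw [h1]
  by_cases h : d = 1
  · rw [if_pos h, h, rv_one]
    simp only [Pi.one_apply]
    rw [Finset.prod_const, Finset.card_univ]; norm_num
  · rw [if_neg h]
    obtain ⟨i, hi⟩ : ∃ i, d i ≠ 1 := by
      by_contra hcon
      push Not at hcon
      exact h (funext hcon)
    apply Finset.prod_eq_zero (Finset.mem_univ i)
    rcases Int.units_eq_one_or (d i) with h | h
    · exact absurd h hi
    · simp [rv, h]

end signs

section rep
variable {α : Type} [Fintype α] [DecidableEq α] {V : Type} [NormedAddCommGroup V]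
  [InnerProductSpace ℝ V] [FiniteDimensional ℝ V] (ρ : PRep α V) (W : Submodule ℝ V)
  (hW : ∀ g, IsSO g → ∀ w ∈ W, ρ.R g w ∈ W)

/-- the action of the signs on `W` -/
noncomputable def T (d : Dg α) : W →ₗ[ℝ] W :=
  (ρ.R (dm d.1)).restrict (hW _ (dm_isSO d.1 d.2))

theorem T_apply (d : Dg α) (w : W) : ((T ρ W hW d w : W) : V) = ρ.R (dm d.1) w := rfl

theorem T_one : T ρ W hW 1 = 1 := by
  ext w
  rw [T_apply]
  simp [dm_one, ρ.one]

theorem T_mul (d e : Dg α) : T ρ W hW (d * e) = T ρ W hW d * T ρ W hW e := by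
  ext w
  rw [T_apply]
  show ρ.R (dm (d.1 * e.1)) w = ρ.R (dm d.1) (ρ.R (dm e.1) w)
  rw [dm_mul, ρ.mul]

/-- the component of type `s` -/
def Ws (s : Finset α) : Submodule ℝ W where
  carrier := {w | ∀ d : Dg α, T ρ W hW d w = ch s d.1 • w}
  zero_mem' := by intro d; simp
  add_mem' := by
    intro a b ha hb d
    rw [map_add, ha d, hb d, smul_add]
  smul_mem' := by
    intro c a ha d
    rw [map_smul, ha d, smul_comm]

/-- projections to the components -/
noncomputable def pr (s : Finset α) : Module.End ℝ W :=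
  (Fintype.card (Dg α) : ℝ)⁻¹ • ∑ d : Dg α, ch s d.1 • T ρ W hW d

theorem T_pr (s : Finset α) (d : Dg α) : T ρ W hW d * pr ρ W hW s = ch s d.1 • pr ρ W hW s := by
  rw [pr, mul_smul_comm, Finset.mul_sum, smul_comm (ch s d.1)]
  congr 1
  rw [Finset.smul_sum, ← Equiv.sum_comp (Equiv.mulLeft d⁻¹)]
  refine Finset.sum_congr rfl fun e _ => ?_
  rw [mul_smul_comm, Equiv.coe_mulLeft, ← T_mul, mul_inv_cancel_left, smul_smul]
  congr 1
  have h1 : ch s (d⁻¹ * e : Dg α).1 = ch s (d⁻¹ : Dg α).1 * ch s e.1 := ch_mul _ _ _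
  have h2 : ch s d.1 * ch s (d⁻¹ : Dg α).1 = 1 := by
    rw [← ch_mul]
    have : (d.1 * (d⁻¹ : Dg α).1) = 1 := by simp
    rw [this, ch_one]
  have h3 := ch_sq s d.1
  have h4 : ch s (d⁻¹ : Dg α).1 = ch s d.1 := by
    calc ch s (d⁻¹ : Dg α).1 = (ch s d.1 * ch s d.1) * ch s (d⁻¹ : Dg α).1 := by rw [h3, one_mul]
      _ = ch s d.1 * (ch s d.1 * ch s (d⁻¹ : Dg α).1) := by ring
      _ = ch s d.1 := by rw [h2, mul_one]
  rw [h1, h4]

theorem card_pos' : 0 < (Fintype.card (Dg α) : ℝ) := by
  exact_mod_cast Fintype.card_pos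

theorem pr_isProj (s : Finset α) : LinearMap.IsProj (Ws ρ W hW s) (pr ρ W hW s) where
  map_mem w d := by
    have := congrArg (fun f : Module.End ℝ W => f w) (T_pr ρ W hW s d)
    exact this
  map_id w hw := by
    rw [pr, LinearMap.smul_apply, LinearMap.sum_apply]
    have : ∀ d : Dg α, (ch s d.1 • T ρ W hW d) w = w := by
      intro d
      rw [LinearMap.smul_apply, hw d, smul_smul, ch_sq, one_smul]
    rw [Finset.sum_congr rfl (fun d _ => this d), Finset.sum_const, Finset.card_univ,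
      ← Nat.cast_smul_eq_nsmul ℝ, smul_smul, inv_mul_cancel₀ card_pos'.ne', one_smul]

/-- dimension of the components -/
noncomputable def m (s : Finset α) : ℝ := Module.finrank ℝ (Ws ρ W hW s)

theorem trace_pr (s : Finset α) : LinearMap.trace ℝ W (pr ρ W hW s) = m ρ W hW s :=
  (pr_isProj ρ W hW s).trace

/-- normalising factor (it equals `2`) -/
noncomputable def q (α : Type) [Fintype α] [DecidableEq α] : ℝ :=
  2 ^ Fintype.card α / Fintype.card (Dg α)

theorem q_pos : 0 < q α := by
  have := card_pos' (α := α)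
  unfold q; positivity

theorem sum_pr : ∑ s : Finset α, pr ρ W hW s = q α • (1 : Module.End ℝ W) := by
  simp only [pr]
  rw [← Finset.smul_sum, Finset.sum_comm]
  have : ∀ d : Dg α, ∑ s : Finset α, ch s d.1 • T ρ W hW d =
      if d = 1 then (2 ^ Fintype.card α : ℝ) • (1 : Module.End ℝ W) else 0 := by
    intro d
    rw [← Finset.sum_smul, sum_ch]
    by_cases h : d = 1
    · have h' : d.1 = 1 := congrArg Subtype.val h
      rw [if_pos h, if_pos h', h, T_one]
    · rw [if_neg h, if_neg, zero_smul]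
      intro h'
      exact h (Subtype.ext h')
  rw [Finset.sum_congr rfl (fun d _ => this d), Finset.sum_ite_eq' Finset.univ (1 : Dg α),
    if_pos (Finset.mem_univ _), smul_smul]
  congr 1
  unfold q
  field_simp

/-- the fixed vectors of a finite group of signs -/
theorem fix_dim (F : Finset (Dg α)) (h1 : 1 ∈ F) (hmul : ∀ f ∈ F, ∀ g ∈ F, f * g ∈ F)
    (U : Submodule ℝ W) (hU : ∀ w, w ∈ U ↔ ∀ f ∈ F, T ρ W hW f w = w) :
    q α * Module.finrank ℝ U = ∑ s : Finset α, if (∀ f ∈ F, ch s f.1 = 1) then m ρ W hW s else 0 := by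
  classical
  set P : Module.End ℝ W := (F.card : ℝ)⁻¹ • ∑ f ∈ F, T ρ W hW f with hP
  have hFc : 0 < (F.card : ℝ) := by exact_mod_cast Finset.card_pos.mpr ⟨1, h1⟩
  -- translation invariance of F
  have htr : ∀ g ∈ F, F.image (fun f => g * f) = F := by
    intro g hg
    apply Finset.eq_of_subset_of_card_le
    · intro x hx
      obtain ⟨f, hf, rfl⟩ := Finset.mem_image.mp hx
      exact hmul g hg f hf
    · rw [Finset.card_image_of_injective _ (mul_right_injective g)]
  have hsum : ∀ (M : Type) [AddCommMonoid M] (Φ : Dg α → M) (g : Dg α), g ∈ F →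
      ∑ f ∈ F, Φ (g * f) = ∑ f ∈ F, Φ f := by
    intro M _ Φ g hg
    conv_rhs => rw [← htr g hg]
    rw [Finset.sum_image (fun a _ b _ h => mul_left_cancel h)]
  have hproj : LinearMap.IsProj U P := by
    refine ⟨fun w => ?_, fun w hw => ?_⟩
    · rw [hU]
      intro g hg
      have : T ρ W hW g * P = P := by
        rw [hP, mul_smul_comm, Finset.mul_sum]
        congr 1
        rw [← hsum _ (T ρ W hW) g hg]
        exact Finset.sum_congr rfl fun f _ => (T_mul ρ W hW g f).symm
      exact congrArg (fun f : Module.End ℝ W => f w) this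
    · rw [hP, LinearMap.smul_apply, LinearMap.sum_apply]
      rw [Finset.sum_congr rfl (fun f hf => (hU w).mp hw f hf), Finset.sum_const,
        ← Nat.cast_smul_eq_nsmul ℝ, smul_smul, inv_mul_cancel₀ hFc.ne', one_smul]
  have hPpr : ∀ s : Finset α, P * pr ρ W hW s =
      if (∀ f ∈ F, ch s f.1 = 1) then pr ρ W hW s else 0 := by
    intro s
    have e1 : P * pr ρ W hW s = ((F.card : ℝ)⁻¹ * ∑ f ∈ F, ch s f.1) • pr ρ W hW s := by
      rw [hP, smul_mul_assoc, Finset.sum_mul, mul_smul, Finset.sum_smul]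
      congr 1
      exact Finset.sum_congr rfl fun f _ => T_pr ρ W hW s f
    rw [e1]
    by_cases h : ∀ f ∈ F, ch s f.1 = 1
    · rw [if_pos h, Finset.sum_congr rfl h, Finset.sum_const, nsmul_eq_mul, mul_one,
        inv_mul_cancel₀ hFc.ne', one_smul]
    · rw [if_neg h]
      push Not at h
      obtain ⟨g, hg, hg1⟩ := h
      have hg2 : ch s g.1 = -1 := (ch_pm s g.1).resolve_left hg1
      have e2 : ∑ f ∈ F, ch s f.1 = - ∑ f ∈ F, ch s f.1 := by
        conv_lhs => rw [← hsum ℝ (fun f => ch s f.1) g hg]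
        rw [← Finset.sum_neg_distrib]
        refine Finset.sum_congr rfl fun f _ => ?_
        show ch s (g.1 * f.1) = _
        rw [ch_mul, hg2]; ring
      have e3 : ∑ f ∈ F, ch s f.1 = 0 := by linarith
      rw [e3, mul_zero, zero_smul]
  have hkey : q α • P = ∑ s : Finset α, if (∀ f ∈ F, ch s f.1 = 1) then pr ρ W hW s else 0 := by
    have e1 : P * ∑ s : Finset α, pr ρ W hW s = q α • P := by
      rw [sum_pr, mul_smul_comm, mul_one]
    rw [← e1, Finset.mul_sum]
    exact Finset.sum_congr rfl fun s _ => hPpr s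
  have htrace := congrArg (LinearMap.trace ℝ W) hkey
  rw [map_smul, hproj.trace, map_sum, smul_eq_mul] at htrace
  rw [htrace]
  refine Finset.sum_congr rfl fun s _ => ?_
  by_cases h : ∀ f ∈ F, ch s f.1 = 1
  · rw [if_pos h, if_pos h, trace_pr]
  · rw [if_neg h, if_neg h, map_zero]

/-! ### symmetry -/

theorem ch_univ (d : Dg α) : ch Finset.univ d.1 = 1 := by
  have hd' : ∏ i, d.1 i = 1 := d.2
  have : ∏ i, rv d.1 i = (((∏ i, d.1 i : ℤˣ) : ℤ) : ℝ) := by
    simp [rv, Units.coe_prod]
  rw [ch, this, hd']; simp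

theorem ch_compl (s : Finset α) (d : Dg α) : ch sᶜ d.1 = ch s d.1 := by
  have h1 : ch s d.1 * ch sᶜ d.1 = 1 := by
    rw [ch, ch, Finset.prod_mul_prod_compl]
    exact ch_univ d
  have h2 := ch_sq s d.1
  calc ch sᶜ d.1 = (ch s d.1 * ch s d.1) * ch sᶜ d.1 := by rw [h2, one_mul]
    _ = ch s d.1 * (ch s d.1 * ch sᶜ d.1) := by ring
    _ = ch s d.1 := by rw [h1, mul_one]

theorem m_compl (s : Finset α) : m ρ W hW sᶜ = m ρ W hW s := by
  have : Ws ρ W hW sᶜ = Ws ρ W hW s := by
    ext w
    constructor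
    · intro h d
      rw [← ch_compl]; exact h d
    · intro h d
      rw [ch_compl]; exact h d
  rw [m, m, this]

/-- signed permutations -/
theorem exists_signed (x₀ : α) (σ : Equiv.Perm α) : ∃ g : Matrix α α ℝ, IsSO g ∧
    ∀ d : α → ℤˣ, g * dm d = dm (fun i => d (σ⁻¹ i)) * g := by
  classical
  let η : α → ℤˣ := fun i => if i = x₀ then Equiv.Perm.sign σ else 1
  have hη : ∏ i, η i = Equiv.Perm.sign σ := by
    simp [η, Finset.prod_ite_eq']
  have hη1 : (dm η).det = ((Equiv.Perm.sign σ : ℤ) : ℝ) := by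
    rw [dm, Matrix.det_diagonal]
    have : ∏ i, rv η i = (((∏ i, η i : ℤˣ) : ℤ) : ℝ) := by
      simp [rv, Units.coe_prod]
    rw [this, hη]
  have hη2 : (dm η)ᵀ * dm η = 1 := by
    rw [dm, Matrix.diagonal_transpose, Matrix.diagonal_mul_diagonal]
    have : (fun i => rv η i * rv η i) = fun _ => (1 : ℝ) := funext fun i => rv_sq η i
    rw [this]; exact Matrix.diagonal_one
  refine ⟨dm η * pm σ, ⟨?_, ?_⟩, ?_⟩
  · rw [Matrix.transpose_mul, Matrix.mul_assoc, ← Matrix.mul_assoc (dm η)ᵀ, hη2, Matrix.one_mul,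
      pm_orth]
  · rw [Matrix.det_mul, hη1, pm_det]
    rcases Int.units_eq_one_or (Equiv.Perm.sign σ) with h | h <;> simp [h]
  · intro d
    have h1 : pm σ * dm d = dm (fun i => d (σ⁻¹ i)) * pm σ := by
      ext i j
      rw [dm, dm, Matrix.mul_diagonal, Matrix.diagonal_mul, pm_apply]
      by_cases h : i = σ j
      · subst h
        simp [rv]
      · simp [h]
    rw [Matrix.mul_assoc, h1, ← Matrix.mul_assoc, ← Matrix.mul_assoc]
    congr 1
    rw [dm, dm, Matrix.diagonal_mul_diagonal, Matrix.diagonal_mul_diagonal]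
    congr 1
    funext i
    ring

theorem m_map_le (x₀ : α) (σ : Equiv.Perm α) (s t : Finset α) (hst : ∀ i, i ∈ s ↔ σ i ∈ t) :
    m ρ W hW s ≤ m ρ W hW t := by
  obtain ⟨g, hg, hgd⟩ := exists_signed x₀ σ
  have hmem : ∀ w ∈ Ws ρ W hW s, (ρ.R g).restrict (hW g hg) w ∈ Ws ρ W hW t := by
    intro w hw d
    apply Subtype.ext
    show ρ.R (dm d.1) (ρ.R g w) = ch t d.1 • ρ.R g w
    have hd' : (fun i => d.1 (σ i)) ∈ Dg α := by
      show ∏ i, d.1 (σ i) = 1
      rw [Equiv.prod_comp σ (fun i => d.1 i)]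
      exact d.2
    have h1 := hw ⟨_, hd'⟩
    have h2 : ρ.R (dm (fun i => d.1 (σ i))) w = ch s (fun i => d.1 (σ i)) • (w : V) :=
      congrArg Subtype.val h1
    have h3 := hgd (fun i => d.1 (σ i))
    have h4 : (fun i => (fun i => d.1 (σ i)) (σ⁻¹ i)) = d.1 := by
      funext i; simp
    rw [h4] at h3
    rw [← ρ.mul, ← h3, ρ.mul, h2, map_smul]
    congr 1
    rw [ch, ch]
    refine Finset.prod_bij (fun i _ => σ i) (fun i hi => (hst i).mp hi)
      (fun i _ j _ h => σ.injective h) (fun j hj => ⟨σ⁻¹ j, ?_, by simp⟩) (fun i _ => rfl)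
    rw [hst]; simpa using hj
  have hinj : Function.Injective (((ρ.R g).restrict (hW g hg)).restrict hmem) := by
    intro a b hab
    have h1 := congrArg (fun x : Ws ρ W hW t => ((x : W) : V)) hab
    have h2 : ρ.R g ((a : W) : V) = ρ.R g ((b : W) : V) := h1
    have h3 := congrArg (ρ.R gᵀ) h2
    rw [ρ.R_inv g hg.1, ρ.R_inv g hg.1] at h3
    exact Subtype.ext (Subtype.ext h3)
  rw [m, m]
  exact_mod_cast LinearMap.finrank_le_finrank_of_injective hinj

theorem m_card (x₀ : α) (s t : Finset α) (hst : s.card = t.card) :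
    m ρ W hW s = m ρ W hW t := by
  have key : ∀ s t : Finset α, s.card = t.card → m ρ W hW s ≤ m ρ W hW t := by
    intro s t hst
    have e : {x // x ∈ s} ≃ {x // x ∈ t} := Finset.equivOfCardEq hst
    refine m_map_le ρ W hW x₀ e.extendSubtype s t ?_
    intro i
    constructor
    · intro hi
      exact e.extendSubtype_mem i hi
    · intro hi
      by_contra hcon
      exact e.extendSubtype_not_mem i hcon hi
  exact le_antisymm (key s t hst) (key t s hst.symm)

/-- subspaces stable under rotations are stable under skew matrices -/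
theorem D_mem (hW : ∀ g, IsSO g → ∀ w ∈ W, ρ.R g w ∈ W) (Z : Matrix α α ℝ) (hZ : Zᵀ = -Z) (w : V) (hw : w ∈ W) : ρ.D Z w ∈ W := by
  have horth : ∀ t : ℝ, IsSO (NormedSpace.exp (t • Z) : Matrix α α ℝ) := by
    intro t
    have horth : ∀ t : ℝ, (NormedSpace.exp (t • Z) : Matrix α α ℝ)ᵀ * NormedSpace.exp (t • Z) = 1 := by
      intro t
      have h3 := exp_mul_exp_neg (-Z) t
      rw [neg_neg] at h3
      have : (NormedSpace.exp (t • Z) : Matrix α α ℝ)ᵀ = NormedSpace.exp (t • (-Z)) := by
        rw [← Matrix.exp_transpose, Matrix.transpose_smul, hZ]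
      rw [this]
      exact h3
    refine ⟨horth t, ?_⟩
    have h3 : (NormedSpace.exp (t • Z) : Matrix α α ℝ) =
        NormedSpace.exp ((t / 2) • Z) * NormedSpace.exp ((t / 2) • Z) := by
      rw [← Matrix.exp_add_of_commute _ _ (Commute.refl _), ← add_smul]
      congr 2
      ring
    have h4 := congrArg Matrix.det (horth (t / 2))
    rw [Matrix.det_mul, Matrix.det_transpose, Matrix.det_one] at h4
    rw [h3, Matrix.det_mul, h4]
  have h1 : ∀ z ∈ Wᗮ, inner ℝ z (ρ.D Z w) = 0 := by
    intro z hz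
    have h2 := ρ.der (fun t => NormedSpace.exp (t • Z)) Z (by simp) (exp_entry Z) w
    have h3 := (hasDerivAt_const (0 : ℝ) z).inner ℝ h2
    have h4 : (fun t : ℝ => inner ℝ z (ρ.R (NormedSpace.exp (t • Z)) w)) = fun _ => (0 : ℝ) := by
      funext t
      rw [real_inner_comm]
      exact (Submodule.mem_orthogonal W z).mp hz _ (hW _ (horth t) w hw)
    rw [h4] at h3
    have h5 := h3.unique (hasDerivAt_const (0 : ℝ) (0 : ℝ))
    simpa using h5
  have : ρ.D Z w ∈ Wᗮᗮ := by
    rw [Submodule.mem_orthogonal]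
    exact h1
  rwa [Submodule.orthogonal_orthogonal] at this

theorem m_empty_le (hWi : W ≤ (ρ.inv (so α))ᗮ) (x₀ : α) :
    m ρ W hW ∅ ≤ ∑ j ∈ Finset.univ.erase x₀, m ρ W hW {x₀, j} := by
  classical
  -- the map
  have hmem : ∀ j : {j : α // j ≠ x₀}, ∀ w ∈ Ws ρ W hW ∅,
      (ρ.D (EE x₀ j.1)).restrict (fun w hw => D_mem ρ W hW _ (EE_skew x₀ j.1) w hw) w ∈
        Ws ρ W hW {x₀, j.1} := by
    intro j w hw d
    apply Subtype.ext
    show ρ.R (dm d.1) (ρ.D (EE x₀ j.1) w) = ch {x₀, j.1} d.1 • ρ.D (EE x₀ j.1) w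
    have h1 : ρ.R (dm d.1) w = (w : V) := by
      have := congrArg Subtype.val (hw d)
      simp only [ch, Finset.prod_empty, one_smul] at this
      exact this
    have h2 : (ch {x₀, j.1} d.1 • EE x₀ j.1) * dm d.1 = dm d.1 * EE x₀ j.1 := by
      have hch : ch {x₀, j.1} d.1 = rv d.1 x₀ * rv d.1 j.1 := by
        rw [ch, Finset.prod_pair (Ne.symm j.2)]
      rw [hch]
      ext a b
      rw [dm, Matrix.mul_diagonal, Matrix.diagonal_mul, Matrix.smul_apply, smul_eq_mul]
      have hx := rv_sq d.1 x₀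
      have hj := rv_sq d.1 j.1
      by_cases h3 : a = x₀ ∧ b = j.1
      · obtain ⟨rfl, rfl⟩ := h3
        linear_combination (rv d.1 a * EE a j.1 a j.1) * hj
      · by_cases h4 : a = j.1 ∧ b = x₀
        · obtain ⟨rfl, rfl⟩ := h4
          linear_combination (rv d.1 j.1 * EE b j.1 j.1 b) * hx
        · have : EE x₀ j.1 a b = 0 := by
            rw [EE, Matrix.sub_apply, Matrix.single_apply, Matrix.single_apply, if_neg, if_neg, sub_self]
            · rintro ⟨h5, h6⟩; exact h4 ⟨h5.symm, h6.symm⟩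
            · rintro ⟨h5, h6⟩; exact h3 ⟨h5.symm, h6.symm⟩
          rw [this]; ring
    have h5 := ρ.R_D h2 (w : V)
    rw [h1, map_smul, LinearMap.smul_apply] at h5
    exact h5.symm
  let Φ : Ws ρ W hW ∅ →ₗ[ℝ] ((j : {j : α // j ≠ x₀}) → Ws ρ W hW {x₀, j.1}) :=
    LinearMap.pi fun j => ((ρ.D (EE x₀ j.1)).restrict
      (fun w hw => D_mem ρ W hW _ (EE_skew x₀ j.1) w hw)).restrict (hmem j)
  have hinj : Function.Injective Φ := by
    rw [← LinearMap.ker_eq_bot, LinearMap.ker_eq_bot']
    intro w hw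
    have h1 : ∀ j, ρ.D (EE x₀ j) ((w : W) : V) = 0 := by
      intro j
      by_cases hj : j = x₀
      · subst hj; rw [EE_self]; simp
      · have := congrFun hw ⟨j, hj⟩
        have h2 := congrArg (fun x : Ws ρ W hW {x₀, j} => ((x : W) : V)) this
        exact h2
    have h2 : ((w : W) : V) ∈ ρ.inv (so α) := by
      rw [mem_inv_so_iff]
      intro i j
      by_cases hij : i = j
      · subst hij; rw [EE_self]; simp
      by_cases hi : i = x₀
      · rw [hi]; exact h1 j
      by_cases hj : j = x₀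
      · rw [hj, EE_swap, map_neg, LinearMap.neg_apply, h1 i, neg_zero]
      have h3 := ρ.bracket (EE i x₀) (EE x₀ j) ((w : W) : V)
      rw [h1 j, map_zero, EE_swap x₀ i, map_neg, LinearMap.neg_apply, h1 i, neg_zero, map_zero,
        sub_zero] at h3
      have h4 : -EE x₀ i * EE x₀ j - EE x₀ j * -EE x₀ i = EE i j := by
        have n1 : x₀ ≠ i := Ne.symm hi
        have n2 : x₀ ≠ j := Ne.symm hj
        have n3 : j ≠ i := Ne.symm hij
        simp only [EE, neg_mul, mul_neg, mul_sub, sub_mul]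
        simp [Matrix.single_mul_single_same, Matrix.single_mul_single_of_ne, n1, n2, n3, hi, hj, hij]
      rw [h4] at h3
      exact h3.symm
    have h3 : ((w : W) : V) = 0 := by
      have h4 := (mem_orth.mp (hWi w.1.2)) _ h2
      exact inner_self_eq_zero.mp h4
    exact Subtype.ext (Subtype.ext h3)
  have hfin := LinearMap.finrank_le_finrank_of_injective hinj
  rw [Module.finrank_pi_fintype] at hfin
  have h6 : ∑ j ∈ Finset.univ.erase x₀, m ρ W hW {x₀, j} =
      ∑ j : {j : α // j ≠ x₀}, m ρ W hW {x₀, j.1} := by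
    exact Finset.sum_subtype _ (fun x => by simp) _
  rw [h6]
  simp only [m]
  exact_mod_cast hfin

end rep

theorem ch_symmDiff {α : Type} [Fintype α] [DecidableEq α] (s t : Finset α) (d : α → ℤˣ) :
    ch (symmDiff s t) d = ch s d * ch t d := by
  have h : ∀ u : Finset α, ch u d = ∏ i : α, if i ∈ u then rv d i else 1 := by
    intro u
    rw [ch, Finset.prod_ite_mem, Finset.univ_inter]
  rw [h, h, h, ← Finset.prod_mul_distrib]
  refine Finset.prod_congr rfl fun i _ => ?_
  have hsq := rv_sq d i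
  by_cases h1 : i ∈ s <;> by_cases h2 : i ∈ t <;> simp [Finset.mem_symmDiff, h1, h2, hsq]

end Pool.Agent.Helper172_SO.Dim

namespace Pool.Agent.Helper172_SO

open Matrix Dim

theorem taskDim (hC : TaskCount) : TaskDim := by
  classical
  intro α _ _ F r hn hF hFp hF1 hFm hr
  have hrv : ∀ f ∈ F, ∃ d : Dg α, rv d.1 = f := by
    intro f hf
    obtain ⟨d, hd⟩ := exists_rv f (hF f hf)
    have hp : ∏ i, rv d i = (((∏ i, d i : ℤˣ) : ℤ) : ℝ) := by
      simp [rv, Units.coe_prod]
    rw [hd, hFp f hf] at hp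
    refine ⟨⟨d, ?_⟩, hd⟩
    show ∏ i, d i = 1
    rcases Int.units_eq_one_or (∏ i, d i) with h | h
    · exact h
    · rw [h] at hp; norm_num at hp
  refine ⟨⟨?_, ?_, ?_, ?_⟩, ?_⟩
  · exact Finset.mem_image.mpr ⟨1, hF1, Matrix.diagonal_one⟩
  · intro g hg h hh
    obtain ⟨a, ha, rfl⟩ := Finset.mem_image.mp hg
    obtain ⟨b, hb, rfl⟩ := Finset.mem_image.mp hh
    exact Finset.mem_image.mpr ⟨a * b, hFm a ha b hb, by rw [Matrix.diagonal_mul_diagonal]; rfl⟩
  · intro g hg
    obtain ⟨a, ha, rfl⟩ := Finset.mem_image.mp hg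
    rw [Matrix.diagonal_transpose]
    exact hg
  · intro g hg
    obtain ⟨a, ha, rfl⟩ := Finset.mem_image.mp hg
    obtain ⟨d, rfl⟩ := hrv a ha
    exact dm_isSO d.1 d.2
  intro V _ _ _ ρ W hW hWi
  obtain ⟨x₀⟩ : Nonempty α := by
    rw [← Fintype.card_pos_iff]; omega
  set n := Fintype.card α with hndef
  set F' : Finset (Dg α) := Finset.univ.filter fun d => rv d.1 ∈ F with hF'
  have hF'1 : (1 : Dg α) ∈ F' := by
    rw [hF', Finset.mem_filter]
    exact ⟨Finset.mem_univ _, by rw [show ((1 : Dg α) : α → ℤˣ) = 1 from rfl, rv_one]; exact hF1⟩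
  have hF'm : ∀ f ∈ F', ∀ g ∈ F', f * g ∈ F' := by
    intro f hf g hg
    rw [hF', Finset.mem_filter] at hf hg ⊢
    refine ⟨Finset.mem_univ _, ?_⟩
    rw [show ((f * g : Dg α) : α → ℤˣ) = f.1 * g.1 from rfl, rv_mul]
    exact hFm _ hf.2 _ hg.2
  let U : Submodule ℝ W :=
    { carrier := {w | ∀ f ∈ F', T ρ W hW f w = w}
      zero_mem' := by intro f _; simp
      add_mem' := by
        intro a b ha hb f hf
        rw [map_add, ha f hf, hb f hf]
      smul_mem' := by
        intro c a ha f hf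
        rw [map_smul, ha f hf] }
  have hUmap : U.map W.subtype = W ⊓ ρ.fix ((F.image Matrix.diagonal : Finset _) : Set (Matrix α α ℝ)) := by
    ext v
    constructor
    · rintro ⟨w, hw, rfl⟩
      refine ⟨w.2, ?_⟩
      intro g hg
      obtain ⟨a, ha, rfl⟩ := Finset.mem_image.mp hg
      obtain ⟨d, rfl⟩ := hrv a ha
      have := hw d (by rw [hF', Finset.mem_filter]; exact ⟨Finset.mem_univ _, ha⟩)
      exact congrArg Subtype.val this
    · rintro ⟨hv1, hv2⟩
      refine ⟨⟨v, hv1⟩, ?_, rfl⟩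
      intro f hf
      rw [hF', Finset.mem_filter] at hf
      apply Subtype.ext
      exact hv2 _ (Finset.mem_image_of_mem _ hf.2)
  have hUfin : Module.finrank ℝ (W ⊓ ρ.fix ((F.image Matrix.diagonal : Finset _) : Set (Matrix α α ℝ)) :
      Submodule ℝ V) = Module.finrank ℝ U := by
    rw [← hUmap]
    exact LinearEquiv.finrank_eq (Submodule.equivSubtypeMap W U).symm
  rw [hUfin]
  -- the two dimension formulas
  have hd1 := fix_dim ρ W hW F' hF'1 hF'm U (fun w => Iff.rfl)
  have hd2 := fix_dim ρ W hW {1} (by simp) (by simp) ⊤ (fun w => by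
    simp only [Submodule.mem_top, Finset.mem_singleton, forall_eq, true_iff]
    rw [T_one]; rfl)
  have hd2' : q α * Module.finrank ℝ W = ∑ s : Finset α, m ρ W hW s := by
    rw [finrank_top] at hd2
    rw [hd2]
    refine Finset.sum_congr rfl fun s _ => ?_
    rw [if_pos]
    intro f hf
    rw [Finset.mem_singleton] at hf
    subst hf
    exact ch_one s
  -- m depends on the cardinality only
  obtain ⟨μ, hμ⟩ : ∃ μ : ℕ → ℝ, ∀ s : Finset α, m ρ W hW s = μ s.card := by
    refine ⟨fun w => if h : ∃ s : Finset α, s.card = w then m ρ W hW h.choose else 0, ?_⟩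
    intro s
    have h : ∃ s' : Finset α, s'.card = s.card := ⟨s, rfl⟩
    beta_reduce
    rw [dif_pos h]
    exact m_card ρ W hW x₀ _ _ h.choose_spec.symm
  have hμ0 : ∀ w ≤ n, 0 ≤ μ w := by
    intro w hw
    obtain ⟨s, _, hs⟩ := Finset.exists_subset_card_eq (s := (Finset.univ : Finset α)) (n := w)
      (by rw [Finset.card_univ]; exact hw)
    rw [← hs, ← hμ, m]
    positivity
  set P : Finset α → Prop := fun s => ∀ f ∈ F', ch s f.1 = 1 with hPdef
  have hsum : ∀ (c : Finset α → ℝ), ∑ s : Finset α, c s =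
      ∑ w ∈ Finset.range (n + 1), ∑ s ∈ Finset.powersetCard w Finset.univ, c s := by
    intro c
    rw [← Finset.powerset_univ, Finset.sum_powerset]
    rfl
  set a : ℕ → ℕ := fun w => ((Finset.powersetCard w (Finset.univ : Finset α)).filter P).card with ha
  have e1 : q α * Module.finrank ℝ U = ∑ w ∈ Finset.range (n + 1), μ w * a w := by
    rw [hd1, hsum]
    refine Finset.sum_congr rfl fun w _ => ?_
    rw [← Finset.sum_filter, ha]
    simp only
    rw [Finset.sum_congr rfl (g := fun _ => μ w)]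
    · rw [Finset.sum_const, nsmul_eq_mul, mul_comm]
    · intro s hs
      rw [Finset.mem_filter, Finset.mem_powersetCard] at hs
      rw [hμ, hs.1.2]
  have e2 : q α * Module.finrank ℝ W = ∑ w ∈ Finset.range (n + 1), μ w * (n.choose w : ℝ) := by
    rw [hd2', hsum]
    refine Finset.sum_congr rfl fun w _ => ?_
    rw [Finset.sum_congr rfl (g := fun _ => μ w)]
    · rw [Finset.sum_const, nsmul_eq_mul, mul_comm, Finset.card_powersetCard, Finset.card_univ]
    · intro s hs
      rw [Finset.mem_powersetCard] at hs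
      rw [hμ, hs.2]
  -- counting
  have hcount : ∀ w, 1 ≤ w → w + 1 ≤ n → (n + 2) * a w ≤ 2 * r * n.choose w := by
    intro w h1 h2
    refine hC α P r ?_ ?_ ?_ w h1 h2
    · intro f _
      simp [ch]
    · intro s t hs ht f hf
      rw [ch_symmDiff, hs f hf, ht f hf, one_mul]
    · intro x
      refine le_trans (Finset.card_le_card ?_) (hr x)
      intro y hy
      rw [Finset.mem_filter] at hy ⊢
      refine ⟨Finset.mem_univ _, ?_⟩
      intro f hf
      obtain ⟨d, rfl⟩ := hrv f hf
      have h3 := hy.2 d (by rw [hF', Finset.mem_filter]; exact ⟨Finset.mem_univ _, hf⟩)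
      rw [ch_symmDiff] at h3
      simp only [ch, Finset.prod_singleton] at h3
      have h4 := rv_sq d.1 y
      calc rv d.1 x = rv d.1 x * (rv d.1 y * rv d.1 y) := by rw [h4, mul_one]
        _ = (rv d.1 x * rv d.1 y) * rv d.1 y := by ring
        _ = rv d.1 y := by rw [h3, one_mul]
  have hμn : μ n = μ 0 := by
    have h1 := m_compl ρ W hW (∅ : Finset α)
    rw [Finset.compl_empty, hμ, hμ, Finset.card_univ, Finset.card_empty] at h1
    exact h1
  have hμn2 : μ (n - 2) = μ 2 := by
    obtain ⟨s, _, hs⟩ := Finset.exists_subset_card_eq (s := (Finset.univ : Finset α)) (n := 2)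
      (by rw [Finset.card_univ]; omega)
    have h1 := m_compl ρ W hW s
    rw [hμ, hμ, Finset.card_compl, hs] at h1
    exact h1
  have hμ02 : μ 0 ≤ (n - 1 : ℝ) * μ 2 := by
    have h1 := m_empty_le ρ W hW hWi x₀
    rw [hμ, Finset.card_empty] at h1
    refine h1.trans (le_of_eq ?_)
    rw [Finset.sum_congr rfl (g := fun _ => μ 2)]
    · rw [Finset.sum_const, Finset.card_erase_of_mem (Finset.mem_univ _), Finset.card_univ,
        nsmul_eq_mul]
      congr 1
      rw [Nat.cast_sub (by omega)]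
      simp [hndef]
    · intro j hj
      rw [hμ, Finset.card_pair (Ne.symm (Finset.ne_of_mem_erase hj))]
  -- lower bound for the total
  set Tot := ∑ w ∈ Finset.range (n + 1), μ w * (n.choose w : ℝ) with hTot
  have hnn : ∀ w ∈ Finset.range (n + 1), 0 ≤ μ w * (n.choose w : ℝ) := by
    intro w hw
    exact mul_nonneg (hμ0 w (by simpa [Nat.lt_succ_iff] using hw)) (by positivity)
  have hlow : ((n : ℝ) + 2) * μ 0 ≤ Tot := by
    have hsub : ({0, 2, n - 2, n} : Finset ℕ) ⊆ Finset.range (n + 1) := by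
      intro w hw
      simp only [Finset.mem_insert, Finset.mem_singleton] at hw
      rw [Finset.mem_range]
      omega
    have h1 := Finset.sum_le_sum_of_subset_of_nonneg hsub (fun w hw _ => hnn w hw)
    have h2 : ∑ w ∈ ({0, 2, n - 2, n} : Finset ℕ), μ w * (n.choose w : ℝ) =
        2 * μ 0 + (n * (n - 1) : ℝ) * μ 2 := by
      rw [Finset.sum_insert (by simp; omega), Finset.sum_insert (by simp; omega),
        Finset.sum_insert (by simp; omega), Finset.sum_singleton, hμn, hμn2, Nat.choose_zero_right,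
        Nat.choose_self, Nat.choose_symm (by omega : 2 ≤ n)]
      have h3 : ((n.choose 2 : ℕ) : ℝ) = n * (n - 1) / 2 := by
        rw [Nat.cast_choose_two]
      rw [h3]
      push_cast
      ring
    rw [h2] at h1
    have hn0 : (0 : ℝ) ≤ n := by positivity
    have h4 : (n : ℝ) * μ 0 ≤ n * ((n - 1) * μ 2) := mul_le_mul_of_nonneg_left hμ02 hn0
    linarith
  -- upper bound
  have hup : ((n : ℝ) + 2) * ∑ w ∈ Finset.range (n + 1), μ w * a w ≤
      ((n : ℝ) + 2) * (2 * μ 0) + 2 * r * Tot := by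
    have hterm : ∀ w ∈ Finset.range (n + 1), ((n : ℝ) + 2) * (μ w * a w) ≤
        (if w = 0 then ((n : ℝ) + 2) * μ 0 else 0) + (if w = n then ((n : ℝ) + 2) * μ 0 else 0) +
          2 * r * (μ w * (n.choose w : ℝ)) := by
      intro w hw
      have hwn : w ≤ n := by simpa [Nat.lt_succ_iff] using hw
      have hT := hnn w hw
      have hr0 : (0 : ℝ) ≤ 2 * r * (μ w * (n.choose w : ℝ)) := by positivity
      have hle : (a w : ℝ) ≤ n.choose w := by
        have : a w ≤ n.choose w := by
          rw [ha]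
          refine (Finset.card_filter_le _ _).trans ?_
          rw [Finset.card_powersetCard, Finset.card_univ]
        exact_mod_cast this
      by_cases h0 : w = 0
      · subst h0
        rw [if_pos rfl, if_neg (by omega), add_zero]
        have h1 : (a 0 : ℝ) ≤ 1 := by simpa using hle
        have h2 : μ 0 * a 0 ≤ μ 0 * 1 := mul_le_mul_of_nonneg_left h1 (hμ0 0 (by omega))
        have h3 : ((n : ℝ) + 2) * (μ 0 * a 0) ≤ ((n : ℝ) + 2) * (μ 0 * 1) :=
          mul_le_mul_of_nonneg_left h2 (by positivity)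
        linarith
      · by_cases hn' : w = n
        · subst hn'
          rw [if_neg h0, if_pos rfl, zero_add]
          have h1 : (a n : ℝ) ≤ 1 := by simpa using hle
          have h2 : μ n * a n ≤ μ n * 1 := mul_le_mul_of_nonneg_left h1 (hμ0 n le_rfl)
          have h3 : ((n : ℝ) + 2) * (μ n * a n) ≤ ((n : ℝ) + 2) * (μ n * 1) :=
            mul_le_mul_of_nonneg_left h2 (by positivity)
          rw [← hμn]
          linarith
        · rw [if_neg h0, if_neg hn', zero_add, zero_add]
          have h1 := hcount w (by omega) (by omega)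
          have h2 : ((n : ℝ) + 2) * a w ≤ 2 * r * (n.choose w : ℝ) := by exact_mod_cast h1
          have h3 := mul_le_mul_of_nonneg_left h2 (hμ0 w hwn)
          calc ((n : ℝ) + 2) * (μ w * a w) = μ w * (((n : ℝ) + 2) * a w) := by ring
            _ ≤ μ w * (2 * r * (n.choose w : ℝ)) := h3
            _ = _ := by ring
    rw [Finset.mul_sum]
    refine (Finset.sum_le_sum hterm).trans (le_of_eq ?_)
    rw [Finset.sum_add_distrib, Finset.sum_add_distrib, Finset.sum_ite_eq', Finset.sum_ite_eq',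
      if_pos (by simp), if_pos (by simp), ← Finset.mul_sum]
    ring
  have hq := q_pos (α := α)
  rw [← e1] at hup
  have hTq : Tot = q α * Module.finrank ℝ W := e2.symm
  have hfin : q α * ((((n : ℝ) + 2)) * Module.finrank ℝ U) ≤
      q α * ((2 * r + 2) * Module.finrank ℝ W) := by
    calc q α * ((((n : ℝ) + 2)) * Module.finrank ℝ U)
        = ((n : ℝ) + 2) * (q α * Module.finrank ℝ U) := by ring
      _ ≤ ((n : ℝ) + 2) * (2 * μ 0) + 2 * r * Tot := hup
      _ ≤ 2 * Tot + 2 * r * Tot := by linarith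
      _ = (2 * r + 2) * Tot := by ring
      _ = _ := by rw [hTq]; ring
  have hfin2 := le_of_mul_le_mul_left hfin hq
  rw [div_mul_eq_mul_div, le_div_iff₀ (by positivity)]
  linarith

end Pool.Agent.Helper172_SO
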