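import Pool.Agent.Helper172_SO.Stmts

set_option autoImplicit false
set_option linter.unusedSectionVars false

namespace Pool.Agent.Helper172_SO.Emb

open Matrix

variable {α β : Type} [Fintype α] [DecidableEq α] [Fintype β] [DecidableEq β] (ι : β ↪ α)

/-- the complement of the range -/
abbrev Co : Type := {x : α // x ∉ Set.range ι}

noncomputable instance : Fintype (Co ι) := by classical exact Fintype.ofFinite _

/-- splitting the index set -/
noncomputable def eq : β ⊕ Co ι ≃ α := by
  classical
  exact (Equiv.sumCongr (Equiv.ofInjective ι ι.injective) (Equiv.refl _)).trans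
    (Equiv.Set.sumCompl (Set.range ι))

theorem eq_inl (b : β) : eq ι (Sum.inl b) = ι b := by
  simp only [eq, Equiv.trans_apply, Equiv.sumCongr_apply, Sum.map_inl]
  exact Equiv.Set.sumCompl_apply_inl _ _

theorem eq_inr (c : Co ι) : eq ι (Sum.inr c) = c.1 := by
  simp only [eq, Equiv.trans_apply, Equiv.sumCongr_apply, Sum.map_inr]
  exact Equiv.Set.sumCompl_apply_inr _ _

/-- transport of block matrices -/
noncomputable def tr (M : Matrix (β ⊕ Co ι) (β ⊕ Co ι) ℝ) : Matrix α α ℝ :=
  M.submatrix (eq ι).symm (eq ι).symm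

theorem tr_apply (M : Matrix (β ⊕ Co ι) (β ⊕ Co ι) ℝ) (a b : β ⊕ Co ι) :
    tr ι M (eq ι a) (eq ι b) = M a b := by simp [tr]

theorem ext_eq {M N : Matrix α α ℝ} (h : ∀ a b, M (eq ι a) (eq ι b) = N (eq ι a) (eq ι b)) :
    M = N := by
  ext x y
  have := h ((eq ι).symm x) ((eq ι).symm y)
  simpa using this

theorem blk_inl (g : Matrix β β ℝ) (a b : β) : blk ι g (ι a) (ι b) = g a b := by
  classical
  unfold blk
  rw [Matrix.of_apply, dif_pos ⟨⟨a, rfl⟩, ⟨b, rfl⟩⟩]
  generalize_proofs h1 h2
  rw [ι.injective h1.choose_spec, ι.injective h2.choose_spec]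

theorem blk_else (g : Matrix β β ℝ) (x y : α) (h : ¬ ((∃ b, ι b = x) ∧ (∃ b, ι b = y))) :
    blk ι g x y = if x = y then 1 else 0 := by
  classical
  unfold blk
  rw [Matrix.of_apply, dif_neg h]

theorem blk_eq (g : Matrix β β ℝ) : blk ι g = tr ι (fromBlocks g 0 0 1) := by
  classical
  apply ext_eq ι
  intro a b
  rw [tr_apply]
  rcases a with a | a <;> rcases b with b | b
  · rw [eq_inl, eq_inl, blk_inl]; rfl
  · rw [eq_inl, eq_inr, blk_else]
    · rw [if_neg]
      · rfl
      · intro h; exact b.2 ⟨a, h⟩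
    · rintro ⟨_, h⟩; exact b.2 h
  · rw [eq_inl, eq_inr, blk_else]
    · rw [if_neg]
      · rfl
      · intro h; exact a.2 ⟨b, h.symm⟩
    · rintro ⟨h, _⟩; exact a.2 h
  · rw [eq_inr, eq_inr, blk_else]
    · rw [fromBlocks_apply₂₂, Matrix.one_apply]
      simp [Subtype.ext_iff]
    · rintro ⟨_, h⟩; exact b.2 h

theorem tr_mul (M N : Matrix (β ⊕ Co ι) (β ⊕ Co ι) ℝ) : tr ι (M * N) = tr ι M * tr ι N := by
  classical
  rw [tr, tr, tr, Matrix.submatrix_mul_equiv]

theorem tr_add (M N : Matrix (β ⊕ Co ι) (β ⊕ Co ι) ℝ) : tr ι (M + N) = tr ι M + tr ι N := rfl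

theorem tr_one : tr ι (1 : Matrix (β ⊕ Co ι) (β ⊕ Co ι) ℝ) = 1 := by
  simp [tr]

theorem tr_transpose (M : Matrix (β ⊕ Co ι) (β ⊕ Co ι) ℝ) : tr ι Mᵀ = (tr ι M)ᵀ := rfl

/-- linear part -/
noncomputable def psi : Matrix β β ℝ →ₗ[ℝ] Matrix α α ℝ where
  toFun X := tr ι (fromBlocks X 0 0 0)
  map_add' X Y := by
    rw [← tr_add, fromBlocks_add]; simp
  map_smul' r X := by
    rw [RingHom.id_apply]
    apply ext_eq ι
    intro a b
    rw [Matrix.smul_apply, tr_apply, tr_apply]
    rcases a with a | a <;> rcases b with b | b <;> simp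

theorem psi_add (X : Matrix β β ℝ) : psi ι X + tr ι (fromBlocks 0 0 0 1) = tr ι (fromBlocks X 0 0 1) := by
  show tr ι (fromBlocks X 0 0 0) + _ = _
  rw [← tr_add, fromBlocks_add]; simp

theorem taskEmb' : (∀ g : Matrix β β ℝ, IsSO g → IsSO (blk ι g)) ∧
    ∀ (V : Type) [NormedAddCommGroup V] [InnerProductSpace ℝ V] (ρ : PRep α V),
      ∃ ρ' : PRep β V, (∀ g, ρ'.R g = ρ.R (blk ι g)) ∧
        ρ'.inv (so β) = ρ.inv (soOn (Finset.univ.map ι)) := by
  classical
  refine ⟨?_, ?_⟩
  · rintro g ⟨h1, h2⟩
    rw [blk_eq]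
    refine ⟨?_, ?_⟩
    · rw [← tr_transpose, ← tr_mul, fromBlocks_transpose, fromBlocks_multiply]
      simp [h1, tr_one]
    · rw [tr, Matrix.det_submatrix_equiv_self, Matrix.det_fromBlocks_zero₂₁, h2, Matrix.det_one,
        one_mul]
  · intro V _ _ ρ
    refine ⟨ρ.pull (psi ι) (tr ι (fromBlocks 0 0 0 1)) ?_ ?_ ?_, ?_, ?_⟩
    · rw [psi_add, fromBlocks_one, tr_one]
    · intro g h
      rw [psi_add, psi_add, psi_add, ← tr_mul, fromBlocks_multiply]
      simp
    · intro g
      rw [psi_add, psi_add, ← tr_transpose, fromBlocks_transpose]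
      simp
    · intro g
      show ρ.R (psi ι g + _) = _
      rw [psi_add, blk_eq]
    · ext v
      constructor
      · intro hv Z hZ
        obtain ⟨hZ1, hZ2⟩ := hZ
        set X : Matrix β β ℝ := Matrix.of fun a b => Z (ι a) (ι b) with hX
        have hXs : Xᵀ = -X := by
          ext a b
          have := congrFun (congrFun hZ1 (ι a)) (ι b)
          simpa [hX] using this
        have := hv X hXs
        have e : psi ι X = Z := by
          apply ext_eq ι
          intro a b
          show tr ι (fromBlocks X 0 0 0) _ _ = _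
          rw [tr_apply]
          have hout : ∀ x y : α, ¬ (x ∈ Set.range ι ∧ y ∈ Set.range ι) → Z x y = 0 := by
            intro x y h
            by_contra h0
            obtain ⟨h1, h2⟩ := hZ2 x y h0
            apply h
            simp only [Finset.mem_map, Finset.mem_univ, true_and] at h1 h2
            exact ⟨h1, h2⟩
          rcases a with a | a <;> rcases b with b | b
          · rw [eq_inl, eq_inl]; rfl
          · rw [eq_inl, eq_inr, hout _ _ (fun h => b.2 h.2)]; rfl
          · rw [eq_inl, eq_inr, hout _ _ (fun h => a.2 h.1)]; rfl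
          · rw [eq_inr, eq_inr, hout _ _ (fun h => a.2 h.1)]; rfl
        rw [← e]
        exact this
      · intro hv X hX
        show ρ.D (psi ι X) v = 0
        apply hv
        refine ⟨?_, ?_⟩
        · show (tr ι (fromBlocks X 0 0 0))ᵀ = -psi ι X
          rw [← tr_transpose, fromBlocks_transpose, ← map_neg]
          have : Xᵀ = -X := hX
          simp [this, psi]
        · have key : ∀ a b, (psi ι X) (eq ι a) (eq ι b) ≠ 0 →
              eq ι a ∈ Finset.univ.map ι ∧ eq ι b ∈ Finset.univ.map ι := by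
            intro a b h
            have h' : (fromBlocks X 0 0 0 : Matrix (β ⊕ Co ι) (β ⊕ Co ι) ℝ) a b ≠ 0 := by
              have e := tr_apply ι (fromBlocks X 0 0 0) a b
              rw [← e]; exact h
            rcases a with a | a <;> rcases b with b | b
            · rw [eq_inl, eq_inl]; simp
            · simp at h'
            · simp at h'
            · simp at h'
          intro i j h
          have := key ((eq ι).symm i) ((eq ι).symm j)
          simp only [Equiv.apply_symm_apply] at this
          exact this h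

end Pool.Agent.Helper172_SO.Emb

namespace Pool.Agent.Helper172_SO

theorem taskEmb : TaskEmb := by
  intro α β _ _ _ _ ι
  exact Emb.taskEmb' ι

end Pool.Agent.Helper172_SO
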