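import Pool.Agent.Helper172_SO.Stmts

set_option autoImplicit false
set_option linter.unusedSectionVars false

namespace Pool.Agent.Helper172_SO.Exp

variable {Γ : Type} [Group Γ] [Finite Γ] {V : Type} [NormedAddCommGroup V] [InnerProductSpace ℝ V]
  [FiniteDimensional ℝ V]

open Classical in
theorem dist_proj_le (π : Γ →* (V →ₗ[ℝ] V)) (A : Subgroup Γ)
    (P : Submodule ℝ V) (hP : ∀ w, w ∈ P ↔ ∀ a ∈ A, π a w = w) (S : Finset Γ)
    (hS : ∀ a ∈ A, a ∈ S) (v : V) :
    ‖v - P.starProjection v‖ ^ 2 ≤ ∑ s ∈ S, ‖π s v - v‖ ^ 2 := by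
  haveI : Fintype Γ := Fintype.ofFinite Γ
  set n : ℝ := (Fintype.card A : ℝ) with hn
  have hn0 : 0 < n := by
    rw [hn]; exact_mod_cast Fintype.card_pos
  have hn1 : 1 ≤ n := by
    rw [hn]; exact_mod_cast Fintype.card_pos
  set y : V := n⁻¹ • ∑ a : A, π (a : Γ) v with hy
  have hyP : y ∈ P := by
    rw [hP]
    intro b hb
    rw [hy, map_smul, map_sum]
    congr 1
    have : ∀ a : A, π b (π (a : Γ) v) = π (((⟨b, hb⟩ : A) * a : A) : Γ) v := by
      intro a
      rw [Subgroup.coe_mul, map_mul]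
      rfl
    rw [Finset.sum_congr rfl (fun a _ => this a)]
    exact Equiv.sum_comp (Equiv.mulLeft (⟨b, hb⟩ : A)) (fun a : A => π (a : Γ) v)
  have h1 : ‖v - P.starProjection v‖ ≤ ‖v - y‖ := by
    rw [P.starProjection_minimal v]
    exact ciInf_le ⟨0, by rintro _ ⟨w, rfl⟩; exact norm_nonneg _⟩ (⟨y, hyP⟩ : P)
  have h2 : v - y = n⁻¹ • ∑ a : A, (v - π (a : Γ) v) := by
    rw [Finset.sum_sub_distrib, smul_sub, hy, Finset.sum_const, Finset.card_univ,
      ← Nat.cast_smul_eq_nsmul ℝ, smul_smul, ← hn, inv_mul_cancel₀ hn0.ne', one_smul]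
  have h3 : ‖v - y‖ ≤ n⁻¹ * ∑ a : A, ‖π (a : Γ) v - v‖ := by
    rw [h2, norm_smul, Real.norm_eq_abs, abs_of_pos (inv_pos.mpr hn0)]
    refine mul_le_mul_of_nonneg_left ?_ (inv_pos.mpr hn0).le
    refine (norm_sum_le _ _).trans (Finset.sum_le_sum fun a _ => ?_)
    rw [norm_sub_rev]
  have h4 : (∑ a : A, ‖π (a : Γ) v - v‖) ^ 2 ≤ n * ∑ a : A, ‖π (a : Γ) v - v‖ ^ 2 := by
    have := @sq_sum_le_card_mul_sum_sq A ℝ _ _ _ _ Finset.univ (fun a : A => ‖π (a : Γ) v - v‖)
    rw [Finset.card_univ] at this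
    exact this
  have h5 : ∑ a : A, ‖π (a : Γ) v - v‖ ^ 2 ≤ ∑ s ∈ S, ‖π s v - v‖ ^ 2 := by
    have e : ∑ a : A, ‖π (a : Γ) v - v‖ ^ 2 =
        ∑ s ∈ (Finset.univ : Finset A).map ⟨Subtype.val, Subtype.val_injective⟩, ‖π s v - v‖ ^ 2 := by
      rw [Finset.sum_map]; rfl
    rw [e]
    refine Finset.sum_le_sum_of_subset_of_nonneg ?_ (fun _ _ _ => sq_nonneg _)
    intro s hs
    simp only [Finset.mem_map, Finset.mem_univ, true_and, Function.Embedding.coeFn_mk] at hs
    obtain ⟨a, rfl⟩ := hs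
    exact hS _ a.2
  calc ‖v - P.starProjection v‖ ^ 2 ≤ ‖v - y‖ ^ 2 := pow_le_pow_left₀ (norm_nonneg _) h1 2
    _ ≤ (n⁻¹ * ∑ a : A, ‖π (a : Γ) v - v‖) ^ 2 := pow_le_pow_left₀ (norm_nonneg _) h3 2
    _ = n⁻¹ ^ 2 * (∑ a : A, ‖π (a : Γ) v - v‖) ^ 2 := by ring
    _ ≤ n⁻¹ ^ 2 * (n * ∑ a : A, ‖π (a : Γ) v - v‖ ^ 2) :=
        mul_le_mul_of_nonneg_left h4 (by positivity)
    _ = n⁻¹ * ∑ a : A, ‖π (a : Γ) v - v‖ ^ 2 := by field_simp
    _ ≤ 1 * ∑ a : A, ‖π (a : Γ) v - v‖ ^ 2 :=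
        mul_le_mul_of_nonneg_right (inv_le_one_of_one_le₀ hn1) (Finset.sum_nonneg fun _ _ => sq_nonneg _)
    _ ≤ ∑ s ∈ S, ‖π s v - v‖ ^ 2 := by rw [one_mul]; exact h5

end Pool.Agent.Helper172_SO.Exp

namespace Pool.Agent.Helper172_SO

open Classical in
theorem taskExp (hT : TaskTri) (hG : TaskGen) : TaskExp := by
  obtain ⟨K, hK⟩ := hG
  refine ⟨1 / 12, K, by norm_num, ?_⟩
  intro k hk
  obtain ⟨A₁, A₂, A₃, Z₁₂, Z₂₃, Z₁₃, h12, h23, h13, hc1, hc2, hcK, hA1, hA2, hA3, hgen⟩ := hK k hk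
  have hfin : ∀ A : Subgroup (Equiv.Perm (C (9 * k))), (A : Set (Equiv.Perm (C (9 * k)))).Finite :=
    fun A => Set.toFinite _
  set S₁ := (hfin A₁).toFinset
  set S₂ := (hfin A₂).toFinset
  set S₃ := (hfin A₃).toFinset
  have hcard : ∀ A : Subgroup (Equiv.Perm (C (9 * k))), (hfin A).toFinset.card = Nat.card A := by
    intro A
    rw [← Set.ncard_eq_toFinset_card _ (hfin A), Set.ncard_def, Set.encard]
    rfl
  have m1 : ∀ a, a ∈ S₁ ↔ a ∈ A₁ := fun a =>
    (Set.Finite.mem_toFinset _).trans SetLike.mem_coe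
  have m2 : ∀ a, a ∈ S₂ ↔ a ∈ A₂ := fun a =>
    (Set.Finite.mem_toFinset _).trans SetLike.mem_coe
  have m3 : ∀ a, a ∈ S₃ ↔ a ∈ A₃ := fun a =>
    (Set.Finite.mem_toFinset _).trans SetLike.mem_coe
  refine ⟨S₁ ∪ S₂ ∪ S₃, ?_, ?_, ?_⟩
  · calc (S₁ ∪ S₂ ∪ S₃).card ≤ (S₁ ∪ S₂).card + S₃.card := Finset.card_union_le _ _
      _ ≤ S₁.card + S₂.card + S₃.card := by
          have := Finset.card_union_le S₁ S₂
          omega
      _ = Nat.card A₁ + Nat.card A₂ + Nat.card A₃ := by rw [hcard, hcard, hcard]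
      _ ≤ K := hcK
  · intro s hs
    simp only [Finset.mem_union, m1, m2, m3] at hs
    rcases hs with (h | h) | h
    · exact hA1 h
    · exact hA2 h
    · exact hA3 h
  · intro V _ _ _ π hπ P hP v
    let fx : Subgroup (Equiv.Perm (C (9 * k))) → Submodule ℝ V := fun A =>
      { carrier := {w | ∀ a ∈ A, π a w = w}
        zero_mem' := by intro a _; simp
        add_mem' := by
          intro x y hx hy a ha
          rw [map_add, hx a ha, hy a ha]
        smul_mem' := by
          intro c x hx a ha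
          rw [map_smul, hx a ha] }
    have hfx : ∀ A w, w ∈ fx A ↔ ∀ a ∈ A, π a w = w := fun A w => Iff.rfl
    have hPe : P = fx A₁ ⊓ fx A₂ ⊓ fx A₃ := by
      ext w
      rw [hP]
      simp only [Submodule.mem_inf, hfx]
      constructor
      · intro h
        let st : Subgroup (Equiv.Perm (C (9 * k))) :=
          { carrier := {a | π a w = w}
            one_mem' := by simp
            mul_mem' := by
              intro a b ha hb
              show π (a * b) w = w
              rw [map_mul]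
              show π a (π b w) = w
              rw [hb, ha]
            inv_mem' := by
              intro a ha
              show π a⁻¹ w = w
              have h1 : π a⁻¹ (π a w) = w := by
                have : (π a⁻¹ * π a) w = w := by rw [← map_mul, inv_mul_cancel, map_one]; rfl
                exact this
              rw [ha] at h1
              exact h1 }
        have hst : Subgroup.closure (TV (9 * k)) ≤ st := by
          rw [Subgroup.closure_le]
          intro σ hσ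
          exact h σ hσ
        exact ⟨⟨fun a ha => hst (hA1 ha), fun a ha => hst (hA2 ha)⟩, fun a ha => hst (hA3 ha)⟩
      · rintro ⟨⟨h1, h2⟩, h3⟩ σ hσ
        let st : Subgroup (Equiv.Perm (C (9 * k))) :=
          { carrier := {a | π a w = w}
            one_mem' := by simp
            mul_mem' := by
              intro a b ha hb
              show π (a * b) w = w
              rw [map_mul]
              show π a (π b w) = w
              rw [hb, ha]
            inv_mem' := by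
              intro a ha
              show π a⁻¹ w = w
              have h1 : π a⁻¹ (π a w) = w := by
                have : (π a⁻¹ * π a) w = w := by rw [← map_mul, inv_mul_cancel, map_one]; rfl
                exact this
              rw [ha] at h1
              exact h1 }
        have hst : A₁ ⊔ A₂ ⊔ A₃ ≤ st := sup_le (sup_le (fun a ha => h1 a ha) (fun a ha => h2 a ha))
          (fun a ha => h3 a ha)
        exact hst (hgen hσ)
    have hmain := hT _ A₁ A₂ A₃ Z₁₂ Z₂₃ Z₁₃ h12 h23 h13 hc1 hc2 V π hπ P (fx A₁) (fx A₂) (fx A₃)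
      (hfx A₁) (hfx A₂) (hfx A₃) hPe v
    have d1 := Exp.dist_proj_le π A₁ (fx A₁) (hfx A₁) (S₁ ∪ S₂ ∪ S₃) (fun a ha => by simp [m1, ha]) v
    have d2 := Exp.dist_proj_le π A₂ (fx A₂) (hfx A₂) (S₁ ∪ S₂ ∪ S₃) (fun a ha => by simp [m2, ha]) v
    have d3 := Exp.dist_proj_le π A₃ (fx A₃) (hfx A₃) (S₁ ∪ S₂ ∪ S₃) (fun a ha => by simp [m3, ha]) v
    linarith

end Pool.Agent.Helper172_SO
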