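import Pool.Agent.Helper172_SO.Util

set_option autoImplicit false

namespace Pool.Agent.Helper172_SO

namespace GenAux

open Matrix

section elem
variable {n : Type} [Fintype n] [DecidableEq n] {R : Type} [Ring R]

/-- elementary unit -/
def eu (i j : n) (h : i ≠ j) (r : R) : (Matrix n n R)ˣ where
  val := 1 + single i j r
  inv := 1 - single i j r
  val_inv := by
    have h0 : single i j r * single i j r = 0 := single_mul_single_of_ne r i j i h.symm r
    rw [add_mul, one_mul, mul_sub, mul_one, h0]; abel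
  inv_val := by
    have h0 : single i j r * single i j r = 0 := single_mul_single_of_ne r i j i h.symm r
    rw [sub_mul, one_mul, mul_add, mul_one, h0]; abel

theorem eu_add (i j : n) (h : i ≠ j) (a b : R) : eu i j h (a + b) = eu i j h a * eu i j h b := by
  apply Units.ext
  show 1 + single i j (a + b) = (1 + single i j a) * (1 + single i j b)
  have h0 : single i j a * single i j b = 0 := single_mul_single_of_ne a i j i h.symm b
  rw [add_mul, one_mul, mul_add, mul_one, h0, single_add]; abel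

theorem eu_zero (i j : n) (h : i ≠ j) : eu i j h (0 : R) = 1 := by
  apply Units.ext
  show 1 + single i j (0 : R) = 1
  rw [single_zero, add_zero]

theorem eu_neg (i j : n) (h : i ≠ j) (a : R) : eu i j h (-a) = (eu i j h a)⁻¹ := by
  rw [eq_inv_iff_mul_eq_one, ← eu_add, neg_add_cancel, eu_zero]

theorem eu_inj (i j : n) (h : i ≠ j) {a b : R} (he : eu i j h a = eu i j h b) : a = b := by
  have h1 := congrArg (fun g : (Matrix n n R)ˣ => g.val i j) he
  change (1 + single i j a) i j = (1 + single i j b) i j at h1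
  simpa [Matrix.add_apply] using h1

theorem eu_comm {i j k : n} (hij : i ≠ j) (hjk : j ≠ k) (hik : i ≠ k) (a b : R) :
    eu i j hij a * eu j k hjk b = eu i k hik (a * b) * eu j k hjk b * eu i j hij a := by
  apply Units.ext
  show (1 + single i j a) * (1 + single j k b) =
    (1 + single i k (a * b)) * (1 + single j k b) * (1 + single i j a)
  have h1 : single i j a * single j k b = single i k (a * b) := single_mul_single_same a i j k b
  have h2 : single i k (a * b) * single j k b = 0 :=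
    single_mul_single_of_ne (a * b) i k j hjk.symm b
  have h3 : single i k (a * b) * single i j a = 0 :=
    single_mul_single_of_ne (a * b) i k i hik.symm a
  have h4 : single j k b * single i j a = 0 := single_mul_single_of_ne b j k i hik.symm a
  simp only [add_mul, mul_add, one_mul, mul_one, h1, h2, h3, h4, add_zero]
  abel

theorem eu_bracket {i j k : n} (hij : i ≠ j) (hjk : j ≠ k) (hik : i ≠ k) (a b : R) :
    eu i j hij a * eu j k hjk b * (eu i j hij a)⁻¹ * (eu j k hjk b)⁻¹ = eu i k hik (a * b) := by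
  rw [eu_comm hij hjk hik]; group

theorem eu_bracket' {i j k : n} (hij : i ≠ j) (hjk : j ≠ k) (hik : i ≠ k) (a b : R) :
    eu j k hjk b * eu i j hij a * (eu j k hjk b)⁻¹ * (eu i j hij a)⁻¹ =
      eu i k hik (-(a * b)) := by
  rw [eu_neg, ← eu_bracket hij hjk hik]; group

theorem eu_cL {i j k : n} (hij : i ≠ j) (hik : i ≠ k) (t a : R) :
    eu i k hik t * eu i j hij a = eu i j hij a * eu i k hik t := by
  apply Units.ext
  show (1 + single i k t) * (1 + single i j a) = (1 + single i j a) * (1 + single i k t)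
  have h1 : single i k t * single i j a = 0 := single_mul_single_of_ne t i k i hik.symm a
  have h2 : single i j a * single i k t = 0 := single_mul_single_of_ne a i j i hij.symm t
  simp only [add_mul, mul_add, one_mul, mul_one, h1, h2]
  abel

theorem eu_cR {i j k : n} (hjk : j ≠ k) (hik : i ≠ k) (t b : R) :
    eu i k hik t * eu j k hjk b = eu j k hjk b * eu i k hik t := by
  apply Units.ext
  show (1 + single i k t) * (1 + single j k b) = (1 + single j k b) * (1 + single i k t)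
  have h1 : single i k t * single j k b = 0 := single_mul_single_of_ne t i k j hjk.symm b
  have h2 : single j k b * single i k t = 0 := single_mul_single_of_ne b j k i hik.symm t
  simp only [add_mul, mul_add, one_mul, mul_one, h1, h2]
  abel

/-- elementary subgroup -/
def EU (i j : n) (h : i ≠ j) (U : AddSubgroup R) : Subgroup (Matrix n n R)ˣ where
  carrier := {g | ∃ u ∈ U, g = eu i j h u}
  mul_mem' := by
    rintro _ _ ⟨u, hu, rfl⟩ ⟨v, hv, rfl⟩
    exact ⟨u + v, U.add_mem hu hv, (eu_add i j h u v).symm⟩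
  one_mem' := ⟨0, U.zero_mem, (eu_zero i j h).symm⟩
  inv_mem' := by
    rintro _ ⟨u, hu, rfl⟩
    exact ⟨-u, U.neg_mem hu, (eu_neg i j h u).symm⟩

theorem hpair1 {i j k : n} (hij : i ≠ j) (hjk : j ≠ k) (hik : i ≠ k) (U W T : AddSubgroup R)
    (hm : ∀ u ∈ U, ∀ w ∈ W, u * w ∈ T)
    (hs : ∀ u ∈ U, u ≠ 0 → ∀ t ∈ T, ∃ w ∈ W, u * w = t) :
    HPair (EU i j hij U) (EU j k hjk W) (EU i k hik T) where
  comm := by
    rintro _ ⟨u, hu, rfl⟩ _ ⟨w, hw, rfl⟩
    exact ⟨u * w, hm u hu w hw, eu_bracket hij hjk hik u w⟩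
  zA := by
    rintro _ ⟨t, _, rfl⟩ _ ⟨u, _, rfl⟩
    exact eu_cL hij hik t u
  zB := by
    rintro _ ⟨t, _, rfl⟩ _ ⟨w, _, rfl⟩
    exact eu_cR hjk hik t w
  surj := by
    rintro _ ⟨u, hu, rfl⟩ hne _ ⟨t, ht, rfl⟩
    obtain ⟨w, hw, h⟩ := hs u hu (fun h0 => hne (by rw [h0, eu_zero])) t ht
    exact ⟨_, ⟨w, hw, rfl⟩, by rw [eu_bracket hij hjk hik, h]⟩

theorem hpair2 {i j k : n} (hij : i ≠ j) (hjk : j ≠ k) (hik : i ≠ k) (U W T : AddSubgroup R)
    (hm : ∀ u ∈ U, ∀ w ∈ W, u * w ∈ T)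
    (hs : ∀ w ∈ W, w ≠ 0 → ∀ t ∈ T, ∃ u ∈ U, u * w = t) :
    HPair (EU j k hjk W) (EU i j hij U) (EU i k hik T) where
  comm := by
    rintro _ ⟨w, hw, rfl⟩ _ ⟨u, hu, rfl⟩
    exact ⟨-(u * w), T.neg_mem (hm u hu w hw), eu_bracket' hij hjk hik u w⟩
  zA := by
    rintro _ ⟨t, _, rfl⟩ _ ⟨w, _, rfl⟩
    exact eu_cR hjk hik t w
  zB := by
    rintro _ ⟨t, _, rfl⟩ _ ⟨u, _, rfl⟩
    exact eu_cL hij hik t u
  surj := by
    rintro _ ⟨w, hw, rfl⟩ hne _ ⟨t, ht, rfl⟩
    obtain ⟨u, hu, h⟩ := hs w hw (fun h0 => hne (by rw [h0, eu_zero])) (-t) (T.neg_mem ht)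
    exact ⟨_, ⟨u, hu, rfl⟩, by rw [eu_bracket' hij hjk hik, h, neg_neg]⟩

end elem

theorem hpair_map {Γ Γ' : Type} [Group Γ] [Group Γ'] (f : Γ →* Γ') {A B Z : Subgroup Γ}
    (h : HPair A B Z) : HPair (A.map f) (B.map f) (Z.map f) where
  comm := by
    rintro _ ⟨a, ha, rfl⟩ _ ⟨b, hb, rfl⟩
    exact ⟨_, h.comm a ha b hb, by simp⟩
  zA := by
    rintro _ ⟨z, hz, rfl⟩ _ ⟨a, ha, rfl⟩
    rw [← map_mul, ← map_mul, h.zA z hz a ha]
  zB := by
    rintro _ ⟨z, hz, rfl⟩ _ ⟨a, ha, rfl⟩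
    rw [← map_mul, ← map_mul, h.zB z hz a ha]
  surj := by
    rintro _ ⟨a, ha, rfl⟩ hne _ ⟨z, hz, rfl⟩
    obtain ⟨b, hb, hc⟩ := h.surj a ha (fun h0 => hne (by rw [h0, map_one])) z hz
    exact ⟨f b, ⟨b, hb, rfl⟩, by rw [← hc]; simp⟩

section gen3
variable {R : Type} [Ring R]

/-- all elementary units are in the group generated by the three subgroups -/
theorem all_of_base (G : Subgroup (Matrix (Fin 3) (Fin 3) R)ˣ) (v : R)
    (h1 : eu 0 1 (by decide) (1 : R) ∈ G) (h2 : eu 1 2 (by decide) (1 : R) ∈ G)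
    (h3 : eu 2 0 (by decide) v ∈ G) :
    ∀ (i j : Fin 3) (h : i ≠ j), eu i j h v ∈ G := by
  have br : ∀ {i j k : Fin 3} (hij : i ≠ j) (hjk : j ≠ k) (hik : i ≠ k) (a b : R),
      eu i j hij a ∈ G → eu j k hjk b ∈ G → eu i k hik (a * b) ∈ G := by
    intro i j k hij hjk hik a b ha hb
    rw [← eu_bracket hij hjk hik]
    exact G.mul_mem (G.mul_mem (G.mul_mem ha hb) (G.inv_mem ha)) (G.inv_mem hb)
  have e20 : eu 2 0 (by decide) v ∈ G := h3
  have e10 : eu 1 0 (by decide) v ∈ G := by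
    have := br (i := 1) (j := 2) (k := 0) (by decide) (by decide) (by decide) 1 v h2 h3
    rwa [one_mul] at this
  have e21 : eu 2 1 (by decide) v ∈ G := by
    have := br (i := 2) (j := 0) (k := 1) (by decide) (by decide) (by decide) v 1 h3 h1
    rwa [mul_one] at this
  have e02' : eu 0 2 (by decide) (1 : R) ∈ G := by
    have := br (i := 0) (j := 1) (k := 2) (by decide) (by decide) (by decide) 1 1 h1 h2
    rwa [one_mul] at this
  have e01 : eu 0 1 (by decide) v ∈ G := by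
    have := br (i := 0) (j := 2) (k := 1) (by decide) (by decide) (by decide) 1 v e02' e21
    rwa [one_mul] at this
  have e12 : eu 1 2 (by decide) v ∈ G := by
    have := br (i := 1) (j := 0) (k := 2) (by decide) (by decide) (by decide) v 1 e10 e02'
    rwa [mul_one] at this
  have e02 : eu 0 2 (by decide) v ∈ G := by
    have := br (i := 0) (j := 1) (k := 2) (by decide) (by decide) (by decide) v 1 e01 h2
    rwa [mul_one] at this
  intro i j h
  fin_cases i <;> fin_cases j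
  · exact absurd rfl h
  · exact e01
  · exact e02
  · exact e10
  · exact absurd rfl h
  · exact e12
  · exact e20
  · exact e21
  · exact absurd rfl h

theorem third (i j : Fin 3) : ∃ k, i ≠ k ∧ k ≠ j := by
  revert i j; decide

/-- the ring of the entries -/
def LL (G : Subgroup (Matrix (Fin 3) (Fin 3) R)ˣ) : NonUnitalSubring R where
  carrier := {r | ∀ (i j : Fin 3) (h : i ≠ j), eu i j h r ∈ G}
  zero_mem' := by
    intro i j h
    rw [eu_zero]; exact G.one_mem
  add_mem' := by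
    intro a b ha hb i j h
    rw [eu_add]; exact G.mul_mem (ha i j h) (hb i j h)
  neg_mem' := by
    intro a ha i j h
    rw [eu_neg]; exact G.inv_mem (ha i j h)
  mul_mem' := by
    intro a b ha hb i j h
    obtain ⟨k, hik, hkj⟩ := third i j
    rw [← eu_bracket hik hkj h]
    exact G.mul_mem (G.mul_mem (G.mul_mem (ha _ _ _) (hb _ _ _)) (G.inv_mem (ha _ _ _)))
      (G.inv_mem (hb _ _ _))

end gen3

/-- three by three matrices over the field with two elements -/
abbrev Q : Type := Matrix (Fin 3) (Fin 3) (ZMod 2)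

/-- three bits -/
abbrev X3 : Type := ZMod 2 × ZMod 2 × ZMod 2

/-- the field with eight elements -/
def g8 (x : X3) : Q :=
  !![x.1, x.2.2, x.2.1; x.2.1, x.1 + x.2.2, x.2.1 + x.2.2; x.2.2, x.2.1, x.1 + x.2.2]

theorem g8_add (x y : X3) : g8 (x + y) = g8 x + g8 y := by
  ext i j
  fin_cases i <;> fin_cases j <;> simp [g8] <;> ring

/-- product in the field with eight elements -/
def m8 (x y : X3) : X3 :=
  (x.1 * y.1 + (x.2.1 * y.2.2 + x.2.2 * y.2.1),
   x.1 * y.2.1 + x.2.1 * y.1 + (x.2.1 * y.2.2 + x.2.2 * y.2.1) + x.2.2 * y.2.2,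
   x.1 * y.2.2 + x.2.1 * y.2.1 + x.2.2 * y.1 + x.2.2 * y.2.2)

theorem g8_mul : ∀ x y : X3, g8 x * g8 y = g8 (m8 x y) := by
  decide

theorem g8_one : g8 (1, 0, 0) = 1 := by decide

theorem m8_inv : ∀ x : X3, x ≠ 0 → ∃ y : X3, m8 x y = (1, 0, 0) ∧ m8 y x = (1, 0, 0) := by
  decide

theorem g8_inj : Function.Injective g8 := by
  intro x y h
  revert h
  revert x y
  decide

section blocks
variable (k : ℕ)

/-- block matrices -/
abbrev R1 : Type := Matrix (Fin (k + 1)) (Fin (k + 1)) Q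

/-- block scalars -/
def ph : Q →+* R1 k := Matrix.scalar (Fin (k + 1))

/-- lower shift -/
def s1 : R1 k := Matrix.of fun a b => if a.val = b.val + 1 then 1 else 0

/-- upper shift -/
def s2 : R1 k := Matrix.of fun a b => if a.val + 1 = b.val then 1 else 0

theorem ph_apply (x : Q) : ph k x = Matrix.diagonal fun _ => x := rfl

theorem ph_s1 (x : Q) : ph k x * s1 k = s1 k * ph k x := by
  ext i j : 2
  rw [ph_apply, Matrix.diagonal_mul, Matrix.mul_diagonal]
  simp only [s1, Matrix.of_apply]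
  split_ifs <;> simp

theorem ph_s2 (x : Q) : ph k x * s2 k = s2 k * ph k x := by
  ext i j : 2
  rw [ph_apply, Matrix.diagonal_mul, Matrix.mul_diagonal]
  simp only [s2, Matrix.of_apply]
  split_ifs <;> simp

theorem ph_single (x M : Q) : ph k x * single 0 0 M = single 0 0 (x * M) := by
  ext i j : 2
  rw [ph_apply, Matrix.diagonal_mul]
  simp only [Matrix.single_apply]
  split_ifs <;> simp

theorem single_ph (x M : Q) : single 0 0 M * ph k x = single 0 0 (M * x) := by
  ext i j : 2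
  rw [ph_apply, Matrix.mul_diagonal]
  simp only [Matrix.single_apply]
  split_ifs <;> simp

/-- the eight scalars -/
def vf : X3 →+ R1 k := AddMonoidHom.mk' (fun x => ph k (g8 x)) (fun x y => by
  rw [g8_add, map_add])

/-- the big additive group -/
def vh : Q × X3 × X3 × X3 →+ R1 k := AddMonoidHom.mk'
  (fun q => single 0 0 q.1 + ph k (g8 q.2.1) + s1 k * ph k (g8 q.2.2.1) +
    s2 k * ph k (g8 q.2.2.2)) (fun x y => by
  simp only [Prod.fst_add, Prod.snd_add, g8_add, map_add, mul_add, single_add]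
  abel)

theorem vf_apply (x : X3) : vf k x = ph k (g8 x) := rfl

theorem vh_apply (q : Q × X3 × X3 × X3) : vh k q = single 0 0 q.1 + ph k (g8 q.2.1) +
    s1 k * ph k (g8 q.2.2.1) + s2 k * ph k (g8 q.2.2.2) := rfl

/-- the scalars -/
def UF : AddSubgroup (R1 k) := (vf k).range

/-- the big group -/
def UV : AddSubgroup (R1 k) := (vh k).range

theorem UF_mul {u w : R1 k} (hu : u ∈ UF k) (hw : w ∈ UF k) : u * w ∈ UF k := by
  obtain ⟨x, rfl⟩ := hu
  obtain ⟨y, rfl⟩ := hw
  exact ⟨m8 x y, by rw [vf_apply, vf_apply, vf_apply, ← map_mul, g8_mul]⟩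

theorem UF_UV {u w : R1 k} (hu : u ∈ UF k) (hw : w ∈ UV k) : u * w ∈ UV k := by
  obtain ⟨x, rfl⟩ := hu
  obtain ⟨⟨M, a, b, c⟩, rfl⟩ := hw
  refine ⟨(g8 x * M, m8 x a, m8 x b, m8 x c), ?_⟩
  rw [vh_apply, vh_apply, vf_apply]
  simp only [mul_add]
  rw [ph_single, ← mul_assoc, ← mul_assoc, ph_s1, ph_s2, mul_assoc, mul_assoc, ← map_mul,
    ← map_mul, ← map_mul, g8_mul, g8_mul, g8_mul]

theorem UV_UF {u w : R1 k} (hu : u ∈ UV k) (hw : w ∈ UF k) : u * w ∈ UV k := by
  obtain ⟨x, rfl⟩ := hw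
  obtain ⟨⟨M, a, b, c⟩, rfl⟩ := hu
  refine ⟨(M * g8 x, m8 a x, m8 b x, m8 c x), ?_⟩
  rw [vh_apply, vh_apply, vf_apply]
  simp only [add_mul]
  rw [single_ph, mul_assoc, mul_assoc, ← map_mul, ← map_mul, ← map_mul, g8_mul, g8_mul, g8_mul]

theorem UF_inv {u : R1 k} (hu : u ∈ UF k) (hne : u ≠ 0) :
    ∃ w ∈ UF k, u * w = 1 ∧ w * u = 1 := by
  obtain ⟨x, rfl⟩ := hu
  have hx : x ≠ 0 := by
    rintro rfl
    exact hne (map_zero _)
  obtain ⟨y, h1, h2⟩ := m8_inv x hx
  refine ⟨vf k y, ⟨y, rfl⟩, ?_, ?_⟩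
  · rw [vf_apply, vf_apply, ← map_mul, g8_mul, h1, g8_one, map_one]
  · rw [vf_apply, vf_apply, ← map_mul, g8_mul, h2, g8_one, map_one]

theorem one_UF : (1 : R1 k) ∈ UF k := ⟨(1, 0, 0), by rw [vf_apply, g8_one, map_one]⟩

theorem UF_le_UV : UF k ≤ UV k := by
  rintro _ ⟨x, rfl⟩
  refine ⟨(0, x, 0, 0), ?_⟩
  have h0 : g8 0 = 0 := by decide
  rw [vh_apply, vf_apply]
  simp [h0]

theorem single_UV (M : Q) : single 0 0 M ∈ UV k := by
  refine ⟨(M, 0, 0, 0), ?_⟩
  have h0 : g8 0 = 0 := by decide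
  rw [vh_apply]
  simp [h0]

theorem s1_UV : s1 k ∈ UV k := by
  refine ⟨(0, 0, (1, 0, 0), 0), ?_⟩
  have h0 : g8 0 = 0 := by decide
  rw [vh_apply]
  simp [h0, g8_one]

theorem s2_UV : s2 k ∈ UV k := by
  refine ⟨(0, 0, 0, (1, 0, 0)), ?_⟩
  have h0 : g8 0 = 0 := by decide
  rw [vh_apply]
  simp [h0, g8_one]

theorem s1_single (i : ℕ) (hi : i + 1 < k + 1) (j : Fin (k + 1)) (M : Q) :
    s1 k * single ⟨i, by omega⟩ j M = single ⟨i + 1, hi⟩ j M := by
  ext a b : 2
  by_cases hb : b = j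
  · subst hb
    rw [Matrix.mul_single_apply_same]
    simp only [s1, Matrix.of_apply, Matrix.single_apply]
    by_cases ha : a.val = i + 1
    · have : (⟨i + 1, hi⟩ : Fin (k + 1)) = a := Fin.ext ha.symm
      simp [ha, this]
    · have : (⟨i + 1, hi⟩ : Fin (k + 1)) ≠ a := fun h => ha (by rw [← h])
      simp [ha, this]
  · rw [Matrix.mul_single_apply_of_ne _ _ _ _ _ hb, Matrix.single_apply_of_col_ne _ _ (Ne.symm hb)]

theorem single_s2 (i : Fin (k + 1)) (j : ℕ) (hj : j + 1 < k + 1) (M : Q) :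
    single i ⟨j, by omega⟩ M * s2 k = single i ⟨j + 1, hj⟩ M := by
  ext a b : 2
  by_cases ha : a = i
  · subst ha
    rw [Matrix.single_mul_apply_same]
    simp only [s2, Matrix.of_apply, Matrix.single_apply]
    by_cases hb : j + 1 = b.val
    · simp [hb]
    · have : (⟨j + 1, hj⟩ : Fin (k + 1)) ≠ b := fun h => hb (by rw [← h])
      simp [hb, this]
  · rw [Matrix.single_mul_apply_of_ne _ _ _ _ _ ha, Matrix.single_apply_of_row_ne (Ne.symm ha)]

/-- the big group generates the ring -/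
theorem gen_ring (L : NonUnitalSubring (R1 k)) (h : ∀ v ∈ UV k, v ∈ L) (r : R1 k) : r ∈ L := by
  have h1 : ∀ (i : ℕ) (hi : i < k + 1) (M : Q), single ⟨i, hi⟩ 0 M ∈ L := by
    intro i
    induction i with
    | zero => intro hi M; exact h _ (single_UV k M)
    | succ i ih =>
      intro hi M
      rw [← s1_single k i hi]
      exact L.mul_mem (h _ (s1_UV k)) (ih (by omega) M)
  have h2 : ∀ (j : ℕ) (hj : j < k + 1) (i : Fin (k + 1)) (M : Q), single i ⟨j, hj⟩ M ∈ L := by
    intro j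
    induction j with
    | zero => intro hj i M; exact h1 i.val i.2 M
    | succ j ih =>
      intro hj i M
      rw [← single_s2 k i j hj]
      exact L.mul_mem (ih (by omega) i M) (h _ (s2_UV k))
  induction r using Matrix.induction_on' with
  | h_zero => exact L.zero_mem
  | h_add p q hp hq => exact L.add_mem hp hq
  | h_std_basis i j x => exact h2 j.val j.2 i x

end blocks

section perm

/-- units act by permutations -/
def Ph (m : ℕ) : (Matrix (Fin m) (Fin m) (ZMod 2))ˣ →* Equiv.Perm (C m) where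
  toFun g :=
    { toFun := fun x => g.val *ᵥ x
      invFun := fun x => g⁻¹.val *ᵥ x
      left_inv := fun x => by
        show g⁻¹.val *ᵥ (g.val *ᵥ x) = x
        rw [Matrix.mulVec_mulVec, Units.inv_mul, Matrix.one_mulVec]
      right_inv := fun x => by
        show g.val *ᵥ (g⁻¹.val *ᵥ x) = x
        rw [Matrix.mulVec_mulVec, Units.mul_inv, Matrix.one_mulVec] }
  map_one' := by
    ext x : 1
    exact Matrix.one_mulVec x
  map_mul' g h := by
    ext x : 1
    exact (Matrix.mulVec_mulVec x g.val h.val).symm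

theorem Ph_apply (m : ℕ) (g : (Matrix (Fin m) (Fin m) (ZMod 2))ˣ) (x : C m) :
    Ph m g x = g.val *ᵥ x := rfl

theorem Ph_inj (m : ℕ) : Function.Injective (Ph m) := by
  intro g h he
  apply Units.ext
  apply (Matrix.toLin' (R := ZMod 2) (m := Fin m) (n := Fin m)).injective
  apply LinearMap.ext
  intro x
  rw [Matrix.toLin'_apply, Matrix.toLin'_apply, ← Ph_apply, ← Ph_apply, he]

theorem Ph_eu (m : ℕ) (s t : Fin m) (h : s ≠ t) (x : C m) :
    Ph m (eu s t h 1) x = x + Pi.single s (x t) := by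
  rw [Ph_apply]
  show (1 + single s t (1 : ZMod 2)) *ᵥ x = _
  rw [Matrix.add_mulVec, Matrix.one_mulVec]
  congr 1
  funext a
  rw [Matrix.mulVec, dotProduct]
  by_cases ha : a = s
  · subst ha
    rw [Pi.single_eq_same, Finset.sum_eq_single t]
    · simp
    · intro b _ hb
      rw [Matrix.single_apply_of_col_ne _ _ hb.symm, zero_mul]
    · intro hc; exact absurd (Finset.mem_univ _) hc
  · rw [Pi.single_eq_of_ne ha]
    apply Finset.sum_eq_zero
    intro b _
    rw [Matrix.single_apply_of_row_ne (Ne.symm ha), zero_mul]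

theorem mem_TV_iff (m : ℕ) (σ : Equiv.Perm (C m)) :
    σ ∈ TV m ↔ ∃ (s t : Fin m) (h : s ≠ t), σ = Ph m (eu s t h 1) := by
  constructor
  · rintro ⟨s, t, h, hx⟩
    refine ⟨s, t, h, ?_⟩
    ext x : 1
    rw [hx, Ph_eu]
  · rintro ⟨s, t, h, rfl⟩
    exact ⟨s, t, h, fun x => Ph_eu m s t h x⟩

variable (k : ℕ)

/-- the index set -/
abbrev Ix : Type := (Fin 3 × Fin (k + 1)) × Fin 3

/-- numbering of the index set -/
noncomputable def ei : Ix k ≃ Fin (9 * (k + 1)) :=
  Fintype.equivFinOfCardEq (by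
    simp only [Fintype.card_prod, Fintype.card_fin]; ring)

/-- the identification of the matrix rings -/
noncomputable def Th : Matrix (Fin 3) (Fin 3) (R1 k) ≃+*
    Matrix (Fin (9 * (k + 1))) (Fin (9 * (k + 1))) (ZMod 2) :=
  ((Matrix.compRingEquiv (Fin 3) (Fin (k + 1)) Q).trans
    (Matrix.compRingEquiv (Fin 3 × Fin (k + 1)) (Fin 3) (ZMod 2))).trans
    (Matrix.reindexRingEquiv (ZMod 2) (ei k))

theorem Th_single (i j : Fin 3) (p q : Fin (k + 1)) (a b : Fin 3) (c : ZMod 2) :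
    Th k (single i j (single p q (single a b c))) =
      single (ei k ((i, p), a)) (ei k ((j, q), b)) c := by
  simp only [Th, RingEquiv.trans_apply, Matrix.compRingEquiv_apply, Matrix.comp_single_single]
  ext x y
  change (Matrix.reindex (ei k) (ei k) (single ((i, p), a) ((j, q), b) c)) x y = _
  simp only [Matrix.reindex_apply, Matrix.submatrix_apply, Matrix.single_apply]
  congr 1
  apply propext
  constructor
  · rintro ⟨h1, h2⟩
    exact ⟨by rw [h1]; simp, by rw [h2]; simp⟩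
  · rintro ⟨h1, h2⟩
    exact ⟨by rw [← h1]; simp, by rw [← h2]; simp⟩

/-- the homomorphism to the permutations -/
noncomputable def Om : (Matrix (Fin 3) (Fin 3) (R1 k))ˣ →*
    (Matrix (Fin (9 * (k + 1))) (Fin (9 * (k + 1))) (ZMod 2))ˣ :=
  Units.map (Th k : Matrix (Fin 3) (Fin 3) (R1 k) →*
    Matrix (Fin (9 * (k + 1))) (Fin (9 * (k + 1))) (ZMod 2))

theorem Om_inj : Function.Injective (Om k) :=
  Units.map_injective (Th k).injective

theorem Om_eu (i j : Fin 3) (h : i ≠ j) (p q : Fin (k + 1)) (a b : Fin 3)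
    (h' : ei k ((i, p), a) ≠ ei k ((j, q), b)) :
    Om k (eu i j h (single p q (single a b (1 : ZMod 2)))) =
      eu (ei k ((i, p), a)) (ei k ((j, q), b)) h' 1 := by
  apply Units.ext
  show Th k (1 + single i j (single p q (single a b (1 : ZMod 2)))) = 1 + single _ _ 1
  rw [map_add, map_one, Th_single]

/-- the composite -/
noncomputable def Ps : (Matrix (Fin 3) (Fin 3) (R1 k))ˣ →* Equiv.Perm (C (9 * (k + 1))) :=
  (Ph _).comp (Om k)

theorem Ps_inj : Function.Injective (Ps k) := (Ph_inj _).comp (Om_inj k)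

theorem ei_ne {i j : Fin 3} (h : i ≠ j) (p q : Fin (k + 1)) (a b : Fin 3) :
    ei k ((i, p), a) ≠ ei k ((j, q), b) := by
  intro he
  have := (ei k).injective he
  simp only [Prod.mk.injEq] at this
  exact h this.1.1

theorem Ps_mem (i j : Fin 3) (h : i ≠ j) (r : R1 k) :
    Ps k (eu i j h r) ∈ Subgroup.closure (TV (9 * (k + 1))) := by
  induction r using Matrix.induction_on' with
  | h_zero => rw [eu_zero, map_one]; exact Subgroup.one_mem _
  | h_add p q hp hq => rw [eu_add, map_mul]; exact Subgroup.mul_mem _ hp hq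
  | h_std_basis p q x =>
    induction x using Matrix.induction_on' with
    | h_zero => rw [single_zero, eu_zero, map_one]; exact Subgroup.one_mem _
    | h_add y z hy hz => rw [single_add, eu_add, map_mul]; exact Subgroup.mul_mem _ hy hz
    | h_std_basis a b c =>
      have hc : c = 0 ∨ c = 1 := by revert c; decide
      rcases hc with rfl | rfl
      · rw [single_zero, single_zero, eu_zero, map_one]; exact Subgroup.one_mem _
      · apply Subgroup.subset_closure
        rw [mem_TV_iff]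
        exact ⟨_, _, ei_ne k h p q a b, by rw [← Om_eu k i j h]; rfl⟩

theorem TV_mem (G : Subgroup (Matrix (Fin 3) (Fin 3) (R1 k))ˣ)
    (hG : ∀ (i j : Fin 3) (h : i ≠ j) (r : R1 k), eu i j h r ∈ G) :
    TV (9 * (k + 1)) ⊆ (G.map (Ps k) : Subgroup (Equiv.Perm (C (9 * (k + 1))))) := by
  intro σ hσ
  rw [mem_TV_iff] at hσ
  obtain ⟨s, t, hst, rfl⟩ := hσ
  have key : ∀ (i j : Fin 3) (p q : Fin (k + 1)) (a b : Fin 3) (h : i ≠ j),
      eu (ei k ((i, p), a)) (ei k ((j, q), b)) (ei_ne k h p q a b) (1 : ZMod 2) ∈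
        G.map (Om k) := by
    intro i j p q a b h
    exact ⟨_, hG i j h _, Om_eu k i j h p q a b _⟩
  obtain ⟨⟨⟨i, p⟩, a⟩, rfl⟩ := (ei k).surjective s
  obtain ⟨⟨⟨j, q⟩, b⟩, rfl⟩ := (ei k).surjective t
  have hmem : eu (ei k ((i, p), a)) (ei k ((j, q), b)) hst (1 : ZMod 2) ∈ G.map (Om k) := by
    by_cases hij : i = j
    · obtain ⟨r, hir, hrj⟩ := third i j
      have h1 := key i r p p a a hir
      have h2 := key r j p q a b hrj
      have h3 := eu_bracket (ei_ne k hir p p a a) (ei_ne k hrj p q a b) hst (1 : ZMod 2) 1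
      rw [mul_one] at h3
      rw [← h3]
      exact Subgroup.mul_mem _ (Subgroup.mul_mem _ (Subgroup.mul_mem _ h1 h2)
        (Subgroup.inv_mem _ h1)) (Subgroup.inv_mem _ h2)
    · exact key i j p q a b hij
  obtain ⟨g, hg, he⟩ := hmem
  exact ⟨g, hg, by rw [← he]; rfl⟩

theorem card_le8 {X : Type} [AddGroup X] [Finite X] (f : X →+ R1 k) (i j : Fin 3) (h : i ≠ j) :
    Nat.card ((EU i j h f.range).map (Ps k)) ≤ Nat.card X := by
  refine Nat.card_le_card_of_surjective (fun x => ⟨Ps k (eu i j h (f x)),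
    ⟨_, ⟨_, ⟨x, rfl⟩, rfl⟩, rfl⟩⟩) ?_
  rintro ⟨_, ⟨_, ⟨_, ⟨x, rfl⟩, rfl⟩, rfl⟩⟩
  exact ⟨x, rfl⟩

theorem le_card8 {X : Type} [AddGroup X] (f : X →+ R1 k) (hf : Function.Injective f)
    (i j : Fin 3) (h : i ≠ j) : Nat.card X ≤ Nat.card ((EU i j h f.range).map (Ps k)) := by
  refine Nat.card_le_card_of_injective (fun x => ⟨Ps k (eu i j h (f x)),
    ⟨_, ⟨_, ⟨x, rfl⟩, rfl⟩, rfl⟩⟩) ?_
  intro x y he
  have h1 : Ps k (eu i j h (f x)) = Ps k (eu i j h (f y)) := congrArg Subtype.val he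
  exact hf (eu_inj i j h (Ps_inj k h1))

theorem vf_inj : Function.Injective (vf k) := by
  intro x y h
  rw [vf_apply, vf_apply, ph_apply, ph_apply] at h
  have h1 := congrFun (congrFun h 0) 0
  rw [Matrix.diagonal_apply_eq, Matrix.diagonal_apply_eq] at h1
  exact g8_inj h1

theorem card_X3 : Nat.card X3 = 8 := by
  rw [Nat.card_eq_fintype_card]; rfl

end perm

end GenAux

open GenAux in
theorem taskGen : TaskGen := by
  classical
  refine ⟨Nat.card X3 + Nat.card X3 + Nat.card (Q × X3 × X3 × X3), ?_⟩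
  intro k hk
  obtain ⟨k, rfl⟩ : ∃ k', k = k' + 1 := ⟨k - 1, by omega⟩
  have n01 : (0 : Fin 3) ≠ 1 := by decide
  have n12 : (1 : Fin 3) ≠ 2 := by decide
  have n20 : (2 : Fin 3) ≠ 0 := by decide
  have n02 : (0 : Fin 3) ≠ 2 := by decide
  have n10 : (1 : Fin 3) ≠ 0 := by decide
  have n21 : (2 : Fin 3) ≠ 1 := by decide
  have hsF : ∀ T : AddSubgroup (R1 k), (∀ u ∈ UF k, ∀ w ∈ T, u * w ∈ T) →
      ∀ u ∈ UF k, u ≠ 0 → ∀ t ∈ T, ∃ w ∈ T, u * w = t := by
    intro T hT u hu hne t ht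
    obtain ⟨w, hw, h1, h2⟩ := UF_inv k hu hne
    exact ⟨w * t, hT w hw t ht, by rw [← mul_assoc, h1, one_mul]⟩
  refine ⟨(EU 0 1 n01 (UF k)).map (Ps k), (EU 1 2 n12 (UF k)).map (Ps k),
    (EU 2 0 n20 (UV k)).map (Ps k), (EU 0 2 n02 (UF k)).map (Ps k),
    (EU 1 0 n10 (UV k)).map (Ps k), (EU 2 1 n21 (UV k)).map (Ps k), ?_, ?_, ?_, ?_, ?_, ?_, ?_,
    ?_, ?_, ?_⟩
  · exact hpair_map _ (hpair1 n01 n12 n02 (UF k) (UF k) (UF k)
      (fun u hu w hw => UF_mul k hu hw) (hsF _ fun u hu w hw => UF_mul k hu hw))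
  · exact hpair_map _ (hpair1 n12 n20 n10 (UF k) (UV k) (UV k)
      (fun u hu w hw => UF_UV k hu hw) (hsF _ fun u hu w hw => UF_UV k hu hw))
  · refine hpair_map _ (hpair2 n20 n01 n21 (UV k) (UF k) (UV k)
      (fun u hu w hw => UV_UF k hu hw) ?_)
    intro w hw hne t ht
    obtain ⟨w', hw', h1, h2⟩ := UF_inv k hw hne
    exact ⟨t * w', UV_UF k ht hw', by rw [mul_assoc, h2, mul_one]⟩
  · rw [← card_X3]; exact le_card8 k (vf k) (vf_inj k) _ _ _
  · rw [← card_X3]; exact le_card8 k (vf k) (vf_inj k) _ _ _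
  · exact Nat.add_le_add (Nat.add_le_add (card_le8 k (vf k) _ _ _) (card_le8 k (vf k) _ _ _))
      (card_le8 k (vh k) _ _ _)
  · rintro _ ⟨_, ⟨u, _, rfl⟩, rfl⟩
    exact Ps_mem k _ _ _ u
  · rintro _ ⟨_, ⟨u, _, rfl⟩, rfl⟩
    exact Ps_mem k _ _ _ u
  · rintro _ ⟨_, ⟨u, _, rfl⟩, rfl⟩
    exact Ps_mem k _ _ _ u
  · rw [← Subgroup.map_sup, ← Subgroup.map_sup]
    apply TV_mem
    set G := EU 0 1 n01 (UF k) ⊔ EU 1 2 n12 (UF k) ⊔ EU 2 0 n20 (UV k) with hG
    have b1 : EU 0 1 n01 (UF k) ≤ G := le_sup_of_le_left le_sup_left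
    have b2 : EU 1 2 n12 (UF k) ≤ G := le_sup_of_le_left le_sup_right
    have b3 : EU 2 0 n20 (UV k) ≤ G := le_sup_right
    intro i j h r
    exact gen_ring k (LL G) (fun v hv => all_of_base G v (b1 ⟨1, one_UF k, rfl⟩)
      (b2 ⟨1, one_UF k, rfl⟩) (b3 ⟨v, hv, rfl⟩)) r i j h

end Pool.Agent.Helper172_SO
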