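import Pool.Agent.Helper172_SO.Blocks

set_option autoImplicit false

namespace Pool.Agent.Helper172_SO

open Matrix

theorem good_conj {α : Type} [Fintype α] [DecidableEq α] (β : ℝ) (F : Finset (Matrix α α ℝ))
    (h : Matrix α α ℝ) (hh : hᵀ * h = 1) (hF : Good β F) :
    Good β (F.image fun f => h * f * hᵀ) := by
  obtain ⟨hG, hgood⟩ := hF
  have hh' : h * hᵀ = 1 := mul_eq_one_comm.mp hh
  have hdet : h.det * h.det = 1 := by
    have := congrArg Matrix.det hh
    rw [Matrix.det_mul, Matrix.det_transpose, Matrix.det_one] at this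
    exact this
  have hmul : ∀ a b : Matrix α α ℝ, h * a * hᵀ * (h * b * hᵀ) = h * (a * b) * hᵀ := by
    intro a b
    calc h * a * hᵀ * (h * b * hᵀ) = h * a * (hᵀ * h) * b * hᵀ := by
          simp only [Matrix.mul_assoc]
      _ = h * (a * b) * hᵀ := by rw [hh, Matrix.mul_one]; simp only [Matrix.mul_assoc]
  have htr : ∀ a : Matrix α α ℝ, (h * a * hᵀ)ᵀ = h * aᵀ * hᵀ := by
    intro a
    rw [Matrix.transpose_mul, Matrix.transpose_mul, Matrix.transpose_transpose, Matrix.mul_assoc]
  have hSO : ∀ g, IsSO g → IsSO (h * g * hᵀ) := by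
    intro g hg
    refine ⟨?_, ?_⟩
    · rw [htr, hmul, hg.1, Matrix.mul_one, hh']
    · rw [Matrix.det_mul, Matrix.det_mul, Matrix.det_transpose, hg.2, mul_one, hdet]
  refine ⟨⟨?_, ?_, ?_, ?_⟩, ?_⟩
  · exact Finset.mem_image.mpr ⟨1, hG.one, by rw [Matrix.mul_one, hh']⟩
  · intro a ha b hb
    obtain ⟨a', ha', rfl⟩ := Finset.mem_image.mp ha
    obtain ⟨b', hb', rfl⟩ := Finset.mem_image.mp hb
    exact Finset.mem_image.mpr ⟨a' * b', hG.mul a' ha' b' hb', (hmul a' b').symm⟩
  · intro a ha
    obtain ⟨a', ha', rfl⟩ := Finset.mem_image.mp ha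
    exact Finset.mem_image.mpr ⟨a'ᵀ, hG.tr a' ha', (htr a').symm⟩
  · intro a ha
    obtain ⟨a', ha', rfl⟩ := Finset.mem_image.mp ha
    exact hSO a' (hG.isSO a' ha')
  · intro V _ _ _ ρ W hW hWo
    have hinj : Function.Injective (ρ.R hᵀ) := by
      intro v w hvw
      have h1 := congrArg (ρ.R h) hvw
      rwa [ρ.R_inv' h hh, ρ.R_inv' h hh] at h1
    have h1 := hgood V ρ (W.map (ρ.R hᵀ)) (by
      rintro g hg _ ⟨w, hw, rfl⟩
      refine ⟨ρ.R (h * g * hᵀ) w, hW _ (hSO g hg) w hw, ?_⟩
      rw [← ρ.mul, ← ρ.mul]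
      congr 1
      rw [← Matrix.mul_assoc, ← Matrix.mul_assoc, hh, Matrix.one_mul]) (by
      rintro _ ⟨w, hw, rfl⟩
      exact R_mem_orth ρ (by rw [Matrix.transpose_transpose]; exact hh') (hWo hw))
    have h2 : Module.finrank ℝ (W.map (ρ.R hᵀ)) = Module.finrank ℝ W :=
      (Submodule.equivMapOfInjective (ρ.R hᵀ) hinj W).finrank_eq.symm
    have h3 : Module.finrank ℝ ((W ⊓ ρ.fix ((F.image fun f => h * f * hᵀ : Finset _) :
        Set (Matrix α α ℝ)) : Submodule ℝ V).map (ρ.R hᵀ)) = Module.finrank ℝ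
        (W ⊓ ρ.fix ((F.image fun f => h * f * hᵀ : Finset _) : Set (Matrix α α ℝ)) :
          Submodule ℝ V) :=
      (Submodule.equivMapOfInjective (ρ.R hᵀ) hinj _).finrank_eq.symm
    have h4 : (W ⊓ ρ.fix ((F.image fun f => h * f * hᵀ : Finset _) :
        Set (Matrix α α ℝ)) : Submodule ℝ V).map (ρ.R hᵀ) ≤
        W.map (ρ.R hᵀ) ⊓ ρ.fix (F : Set (Matrix α α ℝ)) := by
      rintro _ ⟨w, ⟨hw1, hw2⟩, rfl⟩
      refine ⟨⟨w, hw1, rfl⟩, ?_⟩
      intro f hf
      have h5 : ρ.R (h * f * hᵀ) w = w := hw2 _ (by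
        rw [Finset.mem_coe]
        exact Finset.mem_image_of_mem _ hf)
      conv_rhs => rw [← h5]
      rw [← ρ.mul, ← ρ.mul]
      congr 1
      rw [← Matrix.mul_assoc, ← Matrix.mul_assoc, hh, Matrix.one_mul]
    have h5 := Submodule.finrank_mono h4
    rw [h3] at h5
    rw [h2] at h1
    have h6 : (Module.finrank ℝ (W ⊓ ρ.fix ((F.image fun f => h * f * hᵀ : Finset _) :
        Set (Matrix α α ℝ)) : Submodule ℝ V) : ℝ) ≤
        Module.finrank ℝ (W.map (ρ.R hᵀ) ⊓ ρ.fix (F : Set (Matrix α α ℝ)) : Submodule ℝ V) := by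
      exact_mod_cast h5
    exact h6.trans h1

theorem good_sgn_add (z w : ZMod 2) : sgn (z + w) = sgn z * sgn w := by
  unfold sgn
  revert z w
  have h : ∀ z w : ZMod 2, (z + w = 0) ↔ ((z = 0 ∧ w = 0) ∨ (z ≠ 0 ∧ w ≠ 0)) := by decide
  intro z w
  by_cases hz : z = 0 <;> by_cases hw : w = 0
  · simp [hz, hw]
  · simp [hz, hw]
  · simp [hz, hw]
  · have : z + w = 0 := (h z w).mpr (Or.inr ⟨hz, hw⟩)
    simp [hz, hw, this]

theorem good_sgn_sq (z : ZMod 2) : sgn z * sgn z = 1 := by
  unfold sgn; split_ifs <;> norm_num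

theorem good_dot_add {j : ℕ} (b x y : C j) :
    ∑ i, b i * (x + y) i = ∑ i, b i * x i + ∑ i, b i * y i := by
  rw [← Finset.sum_add_distrib]
  exact Finset.sum_congr rfl fun i _ => by rw [Pi.add_apply, mul_add]

theorem good_dot_add' {j : ℕ} (b x y : C j) :
    ∑ i, (b + x) i * y i = ∑ i, b i * y i + ∑ i, x i * y i := by
  rw [← Finset.sum_add_distrib]
  exact Finset.sum_congr rfl fun i _ => by rw [Pi.add_apply, add_mul]

theorem good_dot_single {j : ℕ} (b : C j) (i : Fin j) :
    ∑ k, b k * (Pi.single i 1 : C j) k = b i := by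
  rw [Finset.sum_eq_single i]
  · simp
  · intro k _ hk; simp [Pi.single_eq_of_ne hk]
  · simp

theorem good_dot_single' {j : ℕ} (b : C j) (i : Fin j) :
    ∑ k, (Pi.single i 1 : C j) k * b k = b i := by
  rw [Finset.sum_eq_single i]
  · simp
  · intro k _ hk; simp [Pi.single_eq_of_ne hk]
  · simp

theorem good_add_self {j : ℕ} (x : C j) : x + x = 0 := by
  funext i
  exact CharTwo.add_self_eq_zero (x i)

theorem good_exists_c {j : ℕ} (hj : 3 ≤ j) (b : C j) : ∃ c : C j, c ≠ 0 ∧ ∑ i, b i * c i = 0 := by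
  let i0 : Fin j := ⟨0, by omega⟩
  let i1 : Fin j := ⟨1, by omega⟩
  have h01 : i0 ≠ i1 := by
    intro h
    have := congrArg Fin.val h
    simp [i0, i1] at this
  by_cases h0 : b i0 = 0
  · refine ⟨Pi.single i0 1, ?_, ?_⟩
    · intro h
      have := congrFun h i0
      simp at this
    · rw [good_dot_single, h0]
  by_cases h1 : b i1 = 0
  · refine ⟨Pi.single i1 1, ?_, ?_⟩
    · intro h
      have := congrFun h i1
      simp at this
    · rw [good_dot_single, h1]
  refine ⟨Pi.single i0 1 + Pi.single i1 1, ?_, ?_⟩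
  · intro h
    have := congrFun h i0
    simp [Pi.single_eq_of_ne h01] at this
  · rw [good_dot_add, good_dot_single, good_dot_single]
    have key : ∀ z w : ZMod 2, z ≠ 0 → w ≠ 0 → z + w = 0 := by decide
    exact key _ _ h0 h1

theorem taskGoodZ (hD : TaskDim) : TaskGoodZ := by
  intro j hj
  classical
  have hcard : Fintype.card (C j) = 2 ^ j := by
    simp [C, ZMod.card]
  have h8 : 8 ≤ 2 ^ j := by
    calc 8 = 2 ^ 3 := by norm_num
      _ ≤ 2 ^ j := Nat.pow_le_pow_right (by norm_num) hj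
  have hone : (fun x : C j => sgn (∑ i, (0 : C j) i * x i)) = 1 := by
    funext x
    simp [sgn]
  have h1 := hD (C j) (Finset.univ.image fun b : C j => fun x : C j => sgn (∑ i, b i * x i)) 1
    (by rw [hcard]; omega)
    (by
      intro f hf x
      obtain ⟨b, _, rfl⟩ := Finset.mem_image.mp hf
      simp only [sgn]
      split_ifs
      · exact Or.inl rfl
      · exact Or.inr rfl)
    (by
      intro f hf
      obtain ⟨b, _, rfl⟩ := Finset.mem_image.mp hf
      obtain ⟨c, hc0, hc⟩ := good_exists_c hj b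
      refine Finset.prod_involution (fun x _ => x + c) ?_ ?_ ?_ ?_
      · intro x _
        rw [good_dot_add, hc, add_zero, good_sgn_sq]
      · intro x _ _ h
        exact hc0 (by simpa using h)
      · intro x _; exact Finset.mem_univ _
      · intro x _
        rw [add_assoc, good_add_self, add_zero])
    (Finset.mem_image.mpr ⟨0, Finset.mem_univ _, hone⟩)
    (by
      intro f hf g hg
      obtain ⟨b, _, rfl⟩ := Finset.mem_image.mp hf
      obtain ⟨c, _, rfl⟩ := Finset.mem_image.mp hg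
      refine Finset.mem_image.mpr ⟨b + c, Finset.mem_univ _, ?_⟩
      funext x
      rw [Pi.mul_apply, good_dot_add', good_sgn_add])
    (by
      intro x
      rw [Finset.card_le_one]
      have key : ∀ y : C j, (∀ f ∈ (Finset.univ.image fun b : C j =>
          fun x : C j => sgn (∑ i, b i * x i)), f x = f y) → x = y := by
        intro y hy'
        by_contra hne
        obtain ⟨i, hi⟩ := Function.ne_iff.mp hne
        have h2 := hy' _ (Finset.mem_image.mpr ⟨Pi.single i 1, Finset.mem_univ _, rfl⟩)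
        simp only [good_dot_single'] at h2
        have h3 : ∀ z w : ZMod 2, z ≠ w → (z = 0 ∧ w ≠ 0) ∨ (z ≠ 0 ∧ w = 0) := by decide
        rcases h3 _ _ hi with ⟨ha, hb⟩ | ⟨ha, hb⟩
        · simp [sgn, ha, hb] at h2
          norm_num at h2
        · simp [sgn, ha, hb] at h2
          norm_num at h2
      intro a ha b hb
      rw [← key a (Finset.mem_filter.mp ha).2, ← key b (Finset.mem_filter.mp hb).2])
  have h2 : (Finset.univ.image fun b : C j => fun x : C j => sgn (∑ i, b i * x i)).image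
      Matrix.diagonal = FZ j := by
    unfold FZ
    rw [Finset.image_image]
    rfl
  rw [h2, hcard] at h1
  have h3 : ((2 * ((1 : ℕ) : ℝ) + 2) / (((2 ^ j : ℕ) : ℝ) + 2)) = 4 / (2 ^ j + 2) := by
    push_cast
    norm_num
  rw [h3] at h1
  exact h1

/-- Hadamard matrices -/
noncomputable def goodH (j : ℕ) : Matrix (C j) (C j) ℝ :=
  Matrix.of fun x y => (Real.sqrt (2 ^ j))⁻¹ * sgn (∑ i, x i * y i)

theorem goodH_symm (j : ℕ) : (goodH j)ᵀ = goodH j := by
  ext x y
  simp only [goodH, Matrix.transpose_apply, Matrix.of_apply]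
  congr 2
  exact Finset.sum_congr rfl fun i _ => mul_comm _ _

theorem goodH_sq (j : ℕ) : goodH j * goodH j = 1 := by
  ext x y
  rw [Matrix.mul_apply]
  have hs : Real.sqrt (2 ^ j) * Real.sqrt (2 ^ j) = 2 ^ j := Real.mul_self_sqrt (by positivity)
  have h1 : ∀ z : C j, goodH j x z * goodH j z y =
      ((2 : ℝ) ^ j)⁻¹ * sgn (∑ i, (x + y) i * z i) := by
    intro z
    simp only [goodH, Matrix.of_apply]
    have hs' : ((2 : ℝ) ^ j)⁻¹ = (Real.sqrt (2 ^ j))⁻¹ * (Real.sqrt (2 ^ j))⁻¹ := by
      rw [← mul_inv, hs]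
    rw [good_dot_add', good_sgn_add, hs']
    have : ∑ i, z i * y i = ∑ i, y i * z i := Finset.sum_congr rfl fun i _ => mul_comm _ _
    rw [this]
    ring
  rw [Finset.sum_congr rfl fun z _ => h1 z, ← Finset.mul_sum]
  by_cases hxy : x = y
  · subst hxy
    rw [Matrix.one_apply_eq, good_add_self]
    have h2 : ∀ z : C j, sgn (∑ i, (0 : C j) i * z i) = 1 := by
      intro z; simp [sgn]
    rw [Finset.sum_congr rfl fun z _ => h2 z, Finset.sum_const, Finset.card_univ]
    have hcard : Fintype.card (C j) = 2 ^ j := by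
      simp [C, ZMod.card]
    rw [hcard]
    simp
  · rw [Matrix.one_apply_ne hxy]
    have h3 : ∑ z : C j, sgn (∑ i, (x + y) i * z i) = 0 := by
      obtain ⟨i, hi⟩ := Function.ne_iff.mp hxy
      have hi' : (x + y) i = 1 := by
        have key : ∀ z w : ZMod 2, z ≠ w → z + w = 1 := by decide
        exact key _ _ hi
      refine Finset.sum_involution (fun z _ => z + Pi.single i 1) ?_ ?_ ?_ ?_
      · intro z _
        rw [good_dot_add, good_dot_single, hi', good_sgn_add]
        have : sgn 1 = -1 := by simp [sgn]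
        rw [this]; ring
      · intro z _ _ h
        have := congrFun h i
        simp at this
      · intro z _; exact Finset.mem_univ _
      · intro z _
        rw [add_assoc, good_add_self, add_zero]
    rw [h3, mul_zero]

theorem goodH_pm (j : ℕ) (a : C j) : pm (Equiv.addRight a) * goodH j =
    goodH j * Matrix.diagonal (fun x => sgn (∑ i, a i * x i)) := by
  ext x y
  rw [Matrix.mul_diagonal, Matrix.mul_apply]
  have h1 : ∀ z : C j, pm (Equiv.addRight a) x z * goodH j z y =
      if z = x + a then goodH j z y else 0 := by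
    intro z
    have h2 : x = z + a ↔ z = x + a := by
      constructor
      · rintro rfl; rw [add_assoc, good_add_self, add_zero]
      · rintro rfl; rw [add_assoc, good_add_self, add_zero]
    simp only [pm, Matrix.of_apply, Equiv.coe_addRight]
    by_cases h : z = x + a
    · rw [if_pos h, if_pos (h2.mpr h), one_mul]
    · rw [if_neg h, if_neg (fun h' => h (h2.mp h')), zero_mul]
  rw [Finset.sum_congr rfl fun z _ => h1 z, Finset.sum_ite_eq' Finset.univ (x + a)
    (fun z => goodH j z y), if_pos (Finset.mem_univ _)]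
  simp only [goodH, Matrix.of_apply]
  rw [good_dot_add', good_sgn_add]
  ring

theorem taskGoodX (hZ : TaskGoodZ) : TaskGoodX := by
  intro j hj
  have hh : (goodH j)ᵀ * goodH j = 1 := by rw [goodH_symm, goodH_sq]
  have h1 := good_conj _ (FZ j) (goodH j) hh (hZ j hj)
  have h2 : ((FZ j).image fun f => goodH j * f * (goodH j)ᵀ) = FX j := by
    unfold FZ FX
    rw [Finset.image_image]
    apply Finset.image_congr
    intro a _
    show goodH j * Matrix.diagonal (fun x => sgn (∑ i, a i * x i)) * (goodH j)ᵀ =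
      pm (Equiv.addRight a)
    rw [← goodH_pm, goodH_symm, Matrix.mul_assoc, goodH_sq, Matrix.mul_one]
  rw [h2] at h1
  exact h1

end Pool.Agent.Helper172_SO
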