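import Pool.Agent.Helper172_SO.Stmts

set_option autoImplicit false

namespace Pool.Agent.Helper172_SO

open Matrix

section J
variable {α : Type} [Fintype α] [DecidableEq α]

/-- signed permutation matrix -/
def jm (σ : α → α) (s : α → ℝ) : Matrix α α ℝ := Matrix.of fun x y => if x = σ y then s y else 0

omit [Fintype α] in
theorem jm_apply (σ : α → α) (s : α → ℝ) (x y : α) :
    jm σ s x y = if x = σ y then s y else 0 := rfl

theorem jm_sq {σ : α → α} {s : α → ℝ} (hσ : ∀ x, σ (σ x) = x) (hs1 : ∀ x, s x = 1 ∨ s x = -1)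
    (hs2 : ∀ x, s (σ x) = - s x) : jm σ s * jm σ s = -1 := by
  ext x z
  rw [Matrix.mul_apply, Finset.sum_eq_single (σ z)]
  · rw [jm_apply, jm_apply, hσ, hs2, if_pos rfl, Matrix.neg_apply, Matrix.one_apply]
    by_cases h : x = z
    · rw [if_pos h, if_pos h]
      rcases hs1 z with h1 | h1 <;> rw [h1] <;> norm_num
    · rw [if_neg h, if_neg h]; simp
  · intro y _ hy
    rw [jm_apply σ s y z, if_neg hy, mul_zero]
  · intro h; exact absurd (Finset.mem_univ _) h

theorem jm_tr {σ : α → α} {s : α → ℝ} (hσ : ∀ x, σ (σ x) = x)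
    (hs2 : ∀ x, s (σ x) = - s x) : (jm σ s)ᵀ = - jm σ s := by
  ext x y
  rw [Matrix.transpose_apply, Matrix.neg_apply, jm_apply, jm_apply]
  by_cases h : x = σ y
  · have h' : y = σ x := by rw [h, hσ]
    rw [if_pos h', if_pos h, h, hs2]
  · have h' : ¬ y = σ x := by
      intro h'; exact h (by rw [h', hσ])
    rw [if_neg h', if_neg h, neg_zero]

theorem jm_orth {σ : α → α} {s : α → ℝ} (hσ : ∀ x, σ (σ x) = x) (hs1 : ∀ x, s x = 1 ∨ s x = -1)
    (hs2 : ∀ x, s (σ x) = - s x) : (jm σ s)ᵀ * jm σ s = 1 := by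
  rw [jm_tr hσ hs2, neg_mul, jm_sq hσ hs1 hs2, neg_neg]

theorem det_of_sq (J : Matrix α α ℝ) (h1 : J * J = -1) (h2 : Jᵀ = -J) : J.det = 1 := by
  set M : Matrix α α ℝ := (Real.sqrt 2)⁻¹ • (1 + J) with hM
  have hc : (Real.sqrt 2)⁻¹ * (Real.sqrt 2)⁻¹ = (1 / 2 : ℝ) := by
    rw [← mul_inv, Real.mul_self_sqrt (by norm_num)]; norm_num
  have e1 : M * M = J := by
    rw [hM, smul_mul_smul_comm, hc]
    have : (1 + J) * (1 + J) = (2 : ℝ) • J := by
      rw [add_mul, mul_add, mul_add, h1, one_mul, one_mul, mul_one, two_smul]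
      abel
    rw [this, smul_smul]; norm_num
  have e2 : Mᵀ * M = 1 := by
    rw [hM, Matrix.transpose_smul, smul_mul_smul_comm, hc, Matrix.transpose_add,
      Matrix.transpose_one, h2]
    have : (1 + -J) * (1 + J) = (2 : ℝ) • (1 : Matrix α α ℝ) := by
      rw [add_mul, mul_add, mul_add, neg_mul, neg_mul, h1, one_mul, one_mul, mul_one, two_smul]
      abel
    rw [this, smul_smul]; norm_num
  have e3 := congrArg Matrix.det e2
  rw [Matrix.det_mul, Matrix.det_transpose, Matrix.det_one] at e3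
  rw [← e1, Matrix.det_mul, e3]

theorem diag_jm (σ : α → α) (s d : α → ℝ) :
    diagonal d * jm σ s = jm σ s * diagonal (fun x => d (σ x)) := by
  ext x y
  rw [Matrix.diagonal_mul, Matrix.mul_diagonal, jm_apply]
  by_cases h : x = σ y
  · rw [if_pos h, h, mul_comm]
  · rw [if_neg h]; simp

theorem conj_jm {σ : α → α} {s : α → ℝ} (hσ : ∀ x, σ (σ x) = x)
    (hs1 : ∀ x, s x = 1 ∨ s x = -1) (hs2 : ∀ x, s (σ x) = - s x) (d : α → ℝ) :
    (jm σ s)ᵀ * diagonal d * jm σ s * (diagonal d)ᵀ = diagonal (fun x => d (σ x) * d x) := by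
  rw [mul_assoc (jm σ s)ᵀ, diag_jm, ← mul_assoc, jm_orth hσ hs1 hs2, one_mul,
    Matrix.diagonal_transpose, Matrix.diagonal_mul_diagonal]

theorem conj_jm' {σ : α → α} {s : α → ℝ} (hσ : ∀ x, σ (σ x) = x)
    (hs1 : ∀ x, s x = 1 ∨ s x = -1) (hs2 : ∀ x, s (σ x) = - s x) (f : α → ℝ)
    (hf : ∀ x, f (σ x) = f x) :
    jm σ s * diagonal f * (jm σ s)ᵀ = diagonal f := by
  have h1 : jm σ s * diagonal f = diagonal f * jm σ s := by
    rw [diag_jm]; congr 2; funext x; exact (hf x).symm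
  rw [h1, mul_assoc, mul_eq_one_comm.mp (jm_orth hσ hs1 hs2), mul_one]

/-- sign functions with product `1` -/
noncomputable def sg (α : Type) [Fintype α] [DecidableEq α] : Finset (α → ℝ) :=
  (Fintype.piFinset fun _ : α => ({1, -1} : Finset ℝ)).filter fun d => ∏ x, d x = 1

theorem mem_sg {d : α → ℝ} : d ∈ sg α ↔ (∀ x, d x = 1 ∨ d x = -1) ∧ ∏ x, d x = 1 := by
  simp [sg, Fintype.mem_piFinset]

theorem sg_mul {d e : α → ℝ} (hd : d ∈ sg α) (he : e ∈ sg α) : d * e ∈ sg α := by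
  rw [mem_sg] at *
  refine ⟨fun x => ?_, ?_⟩
  · rcases hd.1 x with h | h <;> rcases he.1 x with h' | h' <;> simp [h, h']
  · simp only [Pi.mul_apply, Finset.prod_mul_distrib, hd.2, he.2, mul_one]

theorem sg_one : (1 : α → ℝ) ∈ sg α := by
  rw [mem_sg]; simp

theorem sg_grp : FinGrp ((sg α).image Matrix.diagonal) where
  one := Finset.mem_image.2 ⟨1, sg_one, Matrix.diagonal_one⟩
  mul := by
    intro g hg h hh
    rw [Finset.mem_image] at *
    obtain ⟨d, hd, rfl⟩ := hg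
    obtain ⟨e, he, rfl⟩ := hh
    exact ⟨d * e, sg_mul hd he, by rw [Matrix.diagonal_mul_diagonal]; rfl⟩
  tr := by
    intro g hg
    rw [Finset.mem_image] at hg
    obtain ⟨d, hd, rfl⟩ := hg
    rw [Matrix.diagonal_transpose]
    exact Finset.mem_image_of_mem _ hd
  isSO := by
    intro g hg
    rw [Finset.mem_image] at hg
    obtain ⟨d, hd, rfl⟩ := hg
    rw [mem_sg] at hd
    refine ⟨?_, ?_⟩
    · rw [Matrix.diagonal_transpose, Matrix.diagonal_mul_diagonal, ← Matrix.diagonal_one]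
      congr 1
      funext x
      rcases hd.1 x with h | h <;> rw [h] <;> norm_num
    · rw [Matrix.det_diagonal, hd.2]

/-- the function `x ↦ d (σ x) * d x` -/
def tw (σ : α → α) (d : α → ℝ) : α → ℝ := fun x => d (σ x) * d x

omit [Fintype α] [DecidableEq α] in
theorem tw_mul (σ : α → α) (d e : α → ℝ) : tw σ (d * e) = tw σ d * tw σ e := by
  funext x; simp only [tw, Pi.mul_apply]; ring

/-- `F'` -/
noncomputable def FJ (σ : α → α) : Finset (α → ℝ) := (sg α).image (tw σ)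

theorem mem_FJ {σ : α → α} {f : α → ℝ} : f ∈ FJ σ ↔ ∃ d ∈ sg α, tw σ d = f := by
  simp [FJ]

theorem good_FJ (hD : TaskDim) (hc : 8 ≤ Fintype.card α) {σ : α → α} (hσ : ∀ x, σ (σ x) = x)
    (hne : ∀ x, σ x ≠ x) :
    Good (6 / (Fintype.card α + 2)) ((FJ σ).image Matrix.diagonal) := by
  have key := hD α (FJ σ) 2 (by omega) ?_ ?_ ?_ ?_ ?_
  · have h6 : (2 * ((2 : ℕ) : ℝ) + 2) / ((Fintype.card α : ℝ) + 2) = 6 / (Fintype.card α + 2) := by
      norm_num
    rw [h6] at key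
    exact key
  · intro f hf x
    obtain ⟨d, hd, rfl⟩ := mem_FJ.1 hf
    have h1 := (mem_sg.1 hd).1
    rcases h1 x with h | h <;> rcases h1 (σ x) with h' | h' <;> simp [tw, h, h']
  · intro f hf
    obtain ⟨d, hd, rfl⟩ := mem_FJ.1 hf
    have h1 := (mem_sg.1 hd).2
    simp only [tw, Finset.prod_mul_distrib, h1, mul_one]
    rw [← h1]
    exact Function.Bijective.prod_comp (Function.Involutive.bijective hσ) d
  · exact mem_FJ.2 ⟨1, sg_one, by funext x; simp [tw]⟩
  · intro f hf g hg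
    obtain ⟨d, hd, rfl⟩ := mem_FJ.1 hf
    obtain ⟨e, he, rfl⟩ := mem_FJ.1 hg
    exact mem_FJ.2 ⟨d * e, sg_mul hd he, tw_mul _ _ _⟩
  · intro x
    refine le_trans (Finset.card_le_card (t := {x, σ x}) ?_) Finset.card_le_two
    intro y hy
    rw [Finset.mem_filter] at hy
    by_contra hxy
    rw [Finset.mem_insert, Finset.mem_singleton, not_or] at hxy
    obtain ⟨z, hz⟩ : ∃ z, z ∉ ({x, σ x, y, σ y} : Finset α) := by
      by_contra hcon
      push Not at hcon
      have h1 : Fintype.card α ≤ ({x, σ x, y, σ y} : Finset α).card := by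
        rw [← Finset.card_univ]
        exact Finset.card_le_card fun z _ => hcon z
      have h2 := Finset.card_le_four (a := x) (b := σ x) (c := y) (d := σ y)
      omega
    simp only [Finset.mem_insert, Finset.mem_singleton, not_or] at hz
    obtain ⟨z1, z2, z3, z4⟩ := hz
    let d : α → ℝ := fun u => (if u = x then -1 else 1) * (if u = z then -1 else 1)
    have hd : d ∈ sg α := by
      rw [mem_sg]
      refine ⟨fun u => ?_, ?_⟩
      · show (if u = x then (-1 : ℝ) else 1) * (if u = z then -1 else 1) = 1 ∨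
          (if u = x then (-1 : ℝ) else 1) * (if u = z then -1 else 1) = -1
        split_ifs <;> norm_num
      · show ∏ u, ((if u = x then (-1 : ℝ) else 1) * (if u = z then -1 else 1)) = 1
        rw [Finset.prod_mul_distrib, Finset.prod_ite_eq', Finset.prod_ite_eq']
        simp
    have h1 := hy.2 (tw σ d) (mem_FJ.2 ⟨d, hd, rfl⟩)
    have e1 : tw σ d x = -1 := by
      show ((if σ x = x then (-1 : ℝ) else 1) * (if σ x = z then -1 else 1)) *
        ((if x = x then (-1 : ℝ) else 1) * (if x = z then -1 else 1)) = -1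
      rw [if_neg (hne x), if_neg (Ne.symm z2), if_pos rfl, if_neg (Ne.symm z1)]
      norm_num
    have h3 : ¬ σ y = x := fun h => hxy.2 (by rw [← h, hσ])
    have e2 : tw σ d y = 1 := by
      show ((if σ y = x then (-1 : ℝ) else 1) * (if σ y = z then -1 else 1)) *
        ((if y = x then (-1 : ℝ) else 1) * (if y = z then -1 else 1)) = 1
      rw [if_neg h3, if_neg (Ne.symm z4), if_neg hxy.1, if_neg (Ne.symm z3)]
      norm_num
    rw [e1, e2] at h1
    norm_num at h1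

theorem coef_jm (hD : TaskDim) (hC : TaskCoef) (hc : 8 ≤ Fintype.card α) {σ : α → α}
    {s : α → ℝ} (hσ : ∀ x, σ (σ x) = x) (hne : ∀ x, σ x ≠ x) (hs1 : ∀ x, s x = 1 ∨ s x = -1)
    (hs2 : ∀ x, s (σ x) = - s x) :
    IsSO (jm σ s) ∧ (jm σ s)ᵀ = - jm σ s ∧ CoefBd α (6 / (Fintype.card α + 2)) (jm σ s) := by
  have hSO : IsSO (jm σ s) :=
    ⟨jm_orth hσ hs1 hs2, det_of_sq _ (jm_sq hσ hs1 hs2) (jm_tr hσ hs2)⟩
  refine ⟨hSO, jm_tr hσ hs2, ?_⟩
  refine hC α (6 / (Fintype.card α + 2)) (jm σ s) ((sg α).image Matrix.diagonal)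
    ((FJ σ).image Matrix.diagonal) hSO sg_grp (good_FJ hD hc hσ hne) ?_ ?_ ?_ ?_
  · intro b hb
    rw [Finset.mem_image] at hb
    obtain ⟨d, hd, rfl⟩ := hb
    rw [conj_jm hσ hs1 hs2]
    exact Finset.mem_image_of_mem _ (mem_FJ.2 ⟨d, hd, rfl⟩)
  · intro f hf
    rw [Finset.mem_image] at hf
    obtain ⟨g, hg, rfl⟩ := hf
    obtain ⟨d, hd, rfl⟩ := mem_FJ.1 hg
    exact ⟨diagonal d, Finset.mem_image_of_mem _ hd, (conj_jm hσ hs1 hs2 d).symm⟩
  · intro b hb c hc'
    rw [Finset.mem_image] at hb hc'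
    obtain ⟨d, hd, rfl⟩ := hb
    obtain ⟨e, he, rfl⟩ := hc'
    rw [Matrix.diagonal_mul_diagonal, conj_jm hσ hs1 hs2, conj_jm hσ hs1 hs2,
      conj_jm hσ hs1 hs2, Matrix.diagonal_mul_diagonal]
    congr 1
    funext x
    ring
  · intro f hf
    rw [Finset.mem_image] at hf
    obtain ⟨g, hg, rfl⟩ := hf
    rw [conj_jm' hσ hs1 hs2]
    · exact Finset.mem_image_of_mem _ hg
    · intro x
      obtain ⟨d, hd, rfl⟩ := mem_FJ.1 hg
      simp only [tw, hσ]
      ring

end J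

theorem taskJ (hD : TaskDim) (hC : TaskCoef) : TaskJ := by
  intro j hj
  have h0 : 0 < j := by omega
  have hcard : Fintype.card (C j) = 2 ^ j := by
    simp [C, ZMod.card]
  have h8 : 8 ≤ Fintype.card (C j) := by
    rw [hcard]
    calc 8 = 2 ^ 3 := by norm_num
      _ ≤ 2 ^ j := Nat.pow_le_pow_right (by norm_num) hj
  let σ : C j → C j := fun x => x + Pi.single (⟨0, h0⟩ : Fin j) (1 : ZMod 2)
  let s : C j → ℝ := fun x => if x ⟨0, h0⟩ = 0 then 1 else -1
  have h2 : (1 : ZMod 2) + 1 = 0 := by decide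
  have hσ : ∀ x, σ (σ x) = x := by
    intro x
    show x + Pi.single (⟨0, h0⟩ : Fin j) (1 : ZMod 2) + Pi.single (⟨0, h0⟩ : Fin j) (1 : ZMod 2) = x
    rw [add_assoc, ← Pi.single_add, h2, Pi.single_zero, add_zero]
  have hσ0 : ∀ x, σ x ⟨0, h0⟩ = x ⟨0, h0⟩ + 1 := by
    intro x
    show (x + Pi.single (⟨0, h0⟩ : Fin j) (1 : ZMod 2) : C j) ⟨0, h0⟩ = _
    rw [Pi.add_apply, Pi.single_eq_same]
  have hne : ∀ x, σ x ≠ x := by
    intro x h
    have h3 := hσ0 x
    rw [h] at h3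
    exact absurd (left_eq_add.mp h3) (by decide)
  have hs1 : ∀ x, s x = 1 ∨ s x = -1 := by
    intro x
    show (if x ⟨0, h0⟩ = 0 then (1 : ℝ) else -1) = 1 ∨ (if x ⟨0, h0⟩ = 0 then (1 : ℝ) else -1) = -1
    split_ifs <;> simp
  have hs2 : ∀ x, s (σ x) = - s x := by
    intro x
    show (if σ x ⟨0, h0⟩ = 0 then (1 : ℝ) else -1) = -(if x ⟨0, h0⟩ = 0 then (1 : ℝ) else -1)
    rw [hσ0]
    generalize x ⟨0, h0⟩ = a
    have h4 : a = 0 ∨ a = 1 := by
      revert a; decide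
    rcases h4 with h4 | h4
    · subst h4; simp
    · subst h4; rw [h2]; simp
  obtain ⟨a, b, c⟩ := coef_jm hD hC h8 hσ hne hs1 hs2
  refine ⟨jm σ s, a, b, ?_⟩
  have h5 : (6 / ((Fintype.card (C j) : ℝ) + 2)) = 6 / (2 ^ j + 2) := by
    rw [hcard]; norm_num
  rw [h5] at c
  exact c

end Pool.Agent.Helper172_SO
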