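import Pool.Agent.Helper172_SO.Stmts

set_option autoImplicit false

/-!
Task L2A for MP_839d28_al: polynomials of degree at most `d` in the entries of a matrix are matrix
coefficients of one representation, the `d`-th tensor power of `x ⊕ 1`.
-/

namespace Pool.Agent.Helper172_SO

open Matrix

namespace L2a

variable {n : ℕ}

/-- `x ⊕ 1` -/
def xp (x : Matrix (Fin n) (Fin n) ℝ) : Matrix (Option (Fin n)) (Option (Fin n)) ℝ :=
  Matrix.of fun a b => match a, b with
    | some i, some j => x i j
    | none, none => 1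
    | _, _ => 0

/-- `x ⊕ 0` -/
def xl (x : Matrix (Fin n) (Fin n) ℝ) : Matrix (Option (Fin n)) (Option (Fin n)) ℝ :=
  Matrix.of fun a b => match a, b with
    | some i, some j => x i j
    | _, _ => 0

lemma xp_one : xp (1 : Matrix (Fin n) (Fin n) ℝ) = 1 := by
  ext a b
  cases a <;> cases b <;> simp [xp, Matrix.one_apply]

lemma xp_mul (x y : Matrix (Fin n) (Fin n) ℝ) : xp (x * y) = xp x * xp y := by
  ext a b
  cases a <;> cases b <;> simp [xp, Matrix.mul_apply, Fintype.sum_option]

lemma xp_tr (x : Matrix (Fin n) (Fin n) ℝ) : xp xᵀ = (xp x)ᵀ := by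
  ext a b
  cases a <;> cases b <;> simp [xp]

lemma xl_add (x y : Matrix (Fin n) (Fin n) ℝ) : xl (x + y) = xl x + xl y := by
  ext a b
  cases a <;> cases b <;> simp [xl]

lemma xl_smul (r : ℝ) (x : Matrix (Fin n) (Fin n) ℝ) : xl (r • x) = r • xl x := by
  ext a b
  cases a <;> cases b <;> simp [xl]

/-- indices of the tensor power -/
abbrev J (n d : ℕ) : Type := Fin d → Option (Fin n)

/-- the tensor power of `x ⊕ 1` -/
def R0 (d : ℕ) (x : Matrix (Fin n) (Fin n) ℝ) : Matrix (J n d) (J n d) ℝ :=
  Matrix.of fun I K => ∏ k, xp x (I k) (K k)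

/-- its derivative at `1` -/
noncomputable def D0 (d : ℕ) (X : Matrix (Fin n) (Fin n) ℝ) : Matrix (J n d) (J n d) ℝ :=
  Matrix.of fun I K => ∑ k, (∏ l ∈ Finset.univ.erase k,
    (1 : Matrix (Option (Fin n)) (Option (Fin n)) ℝ) (I l) (K l)) • xl X (I k) (K k)

lemma R0_one (d : ℕ) : R0 d (1 : Matrix (Fin n) (Fin n) ℝ) = 1 := by
  ext I K
  simp only [R0, Matrix.of_apply, xp_one, Matrix.one_apply, Finset.prod_boole]
  simp [funext_iff]

lemma R0_mul (d : ℕ) (x y : Matrix (Fin n) (Fin n) ℝ) : R0 d (x * y) = R0 d x * R0 d y := by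
  ext I K
  simp only [R0, Matrix.of_apply, xp_mul, Matrix.mul_apply, Finset.prod_univ_sum,
    Fintype.piFinset_univ, Finset.prod_mul_distrib]

lemma R0_tr (d : ℕ) (x : Matrix (Fin n) (Fin n) ℝ) : R0 d xᵀ = (R0 d x)ᵀ := by
  ext I K
  simp [R0, xp_tr]

lemma D0_add (d : ℕ) (x y : Matrix (Fin n) (Fin n) ℝ) : D0 d (x + y) = D0 d x + D0 d y := by
  ext I K
  simp only [D0, Matrix.of_apply, xl_add, Matrix.add_apply, smul_add, Finset.sum_add_distrib]

lemma D0_smul (d : ℕ) (r : ℝ) (x : Matrix (Fin n) (Fin n) ℝ) : D0 d (r • x) = r • D0 d x := by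
  ext I K
  simp only [D0, Matrix.of_apply, xl_smul, Matrix.smul_apply, Finset.smul_sum]
  exact Finset.sum_congr rfl fun k _ => smul_comm _ _ _

lemma der0 (d : ℕ) (c : ℝ → Matrix (Fin n) (Fin n) ℝ) (X : Matrix (Fin n) (Fin n) ℝ)
    (h0 : c 0 = 1) (hc : ∀ i j, HasDerivAt (fun t => c t i j) (X i j) 0) (I K : J n d) :
    HasDerivAt (fun t => R0 d (c t) I K) (D0 d X I K) 0 := by
  have h1 : ∀ a b, HasDerivAt (fun t => xp (c t) a b) (xl X a b) 0 := by
    intro a b
    cases a with
    | none =>
      cases b with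
      | none => exact hasDerivAt_const _ _
      | some j => exact hasDerivAt_const _ _
    | some i =>
      cases b with
      | none => exact hasDerivAt_const _ _
      | some j => exact hc i j
  have h2 := HasDerivAt.fun_finsetProd (u := (Finset.univ : Finset (Fin d)))
    (f := fun k t => xp (c t) (I k) (K k)) (f' := fun k => xl X (I k) (K k)) (x := (0 : ℝ))
    (fun k _ => h1 (I k) (K k))
  rw [h0, xp_one] at h2
  exact h2

/-- the space of matrices -/
abbrev V (n d : ℕ) : Type := EuclideanSpace ℝ (J n d × J n d)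

/-- left multiplication -/
noncomputable def act {d : ℕ} (M : Matrix (J n d) (J n d) ℝ) : V n d →ₗ[ℝ] V n d where
  toFun v := WithLp.toLp 2 fun p => ∑ L, M p.1 L * v (L, p.2)
  map_add' v w := by
    ext p
    simp [mul_add, Finset.sum_add_distrib]
  map_smul' r v := by
    ext p
    simp [Finset.mul_sum, mul_left_comm]

lemma act_apply {d : ℕ} (M : Matrix (J n d) (J n d) ℝ) (v : V n d) (p : J n d × J n d) :
    act M v p = ∑ L, M p.1 L * v (L, p.2) := rfl

/-- the representation -/
noncomputable def rep (n d : ℕ) : PRep (Fin n) (V n d) where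
  R x := act (R0 d x)
  D :=
    { toFun := fun X => act (D0 d X)
      map_add' := fun X Y => by
        ext v p
        simp [act_apply, D0_add, add_mul, Finset.sum_add_distrib]
      map_smul' := fun r X => by
        ext v p
        simp [act_apply, D0_smul, Finset.mul_sum, mul_assoc] }
  one v := by
    ext p
    rw [act_apply, R0_one]
    simp [Matrix.one_apply]
  mul g h v := by
    ext p
    simp only [act_apply, R0_mul, Matrix.mul_apply, Finset.sum_mul, Finset.mul_sum]
    rw [Finset.sum_comm]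
    exact Finset.sum_congr rfl fun L _ => Finset.sum_congr rfl fun L' _ => by ring
  adj g v w := by
    simp only [PiLp.inner_apply, act_apply, R0_tr, Fintype.sum_prod_type, Matrix.transpose_apply,
      RCLike.inner_apply, conj_trivial, Finset.sum_mul, Finset.mul_sum]
    rw [Finset.sum_comm]
    refine Eq.trans ?_ Finset.sum_comm
    refine Finset.sum_congr rfl fun K _ => ?_
    rw [Finset.sum_comm]
    exact Finset.sum_congr rfl fun L _ => Finset.sum_congr rfl fun L' _ => by ring
  der c X h0 hc v := by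
    have h1 : HasDerivAt (fun t => (fun p : J n d × J n d => ∑ L, R0 d (c t) p.1 L * v (L, p.2)))
        (fun p : J n d × J n d => ∑ L, D0 d X p.1 L * v (L, p.2)) 0 := by
      rw [hasDerivAt_pi]
      intro p
      exact HasDerivAt.fun_sum fun L _ => (der0 d c X h0 hc p.1 L).mul_const _
    exact (PiLp.continuousLinearEquiv 2 ℝ
      (fun _ : J n d × J n d => ℝ)).symm.toContinuousLinearMap.hasFDerivAt.comp_hasDerivAt (0 : ℝ) h1

/-- the identity -/
noncomputable def idv (n d : ℕ) : V n d := WithLp.toLp 2 fun p => if p.1 = p.2 then 1 else 0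

lemma rep_idv (n d : ℕ) (x : Matrix (Fin n) (Fin n) ℝ) (p : J n d × J n d) :
    (rep n d).R x (idv n d) p = R0 d x p.1 p.2 := by
  change act (R0 d x) (idv n d) p = _
  rw [act_apply]
  simp [idv]

lemma exists_mono (n : ℕ) : ∀ (d : ℕ) (s : (Fin n × Fin n) →₀ ℕ), (s.sum fun _ e => e) ≤ d →
    ∃ I K : J n d, ∀ x : Matrix (Fin n) (Fin n) ℝ,
      R0 d x I K = s.prod fun ij e => x ij.1 ij.2 ^ e := by
  intro d
  induction d with
  | zero =>
    intro s hs
    have h0 : s = 0 := by
      ext ij
      by_contra h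
      have h1 : ij ∈ s.support := Finsupp.mem_support_iff.2 h
      have h2 : s ij ≤ s.sum fun _ e => e := Finset.single_le_sum (fun _ _ => Nat.zero_le _) h1
      exact h (by simpa using h2.trans hs)
    refine ⟨Fin.elim0, Fin.elim0, fun x => ?_⟩
    simp [h0, R0]
  | succ d ih =>
    intro s hs
    by_cases h0 : s = 0
    · refine ⟨fun _ => none, fun _ => none, fun x => ?_⟩
      simp [h0, R0, xp]
    · obtain ⟨a, ha⟩ := Finsupp.support_nonempty_iff.2 h0
      have ha' : s a ≠ 0 := Finsupp.mem_support_iff.1 ha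
      have hle : Finsupp.single a 1 ≤ s := by
        rw [Finsupp.single_le_iff]
        exact Nat.one_le_iff_ne_zero.2 ha'
      obtain ⟨s', hs'⟩ := exists_add_of_le hle
      have hsum : (s.sum fun _ e => e) = 1 + s'.sum fun _ e => e := by
        rw [hs', Finsupp.sum_add_index' (fun _ => rfl) (fun _ _ _ => rfl),
          Finsupp.sum_single_index rfl]
      obtain ⟨I, K, hIK⟩ := ih s' (by omega)
      refine ⟨Fin.cons (some a.1) I, Fin.cons (some a.2) K, fun x => ?_⟩
      have h1 := hIK x
      have h3 : ((Finsupp.single a 1).prod fun (ij : Fin n × Fin n) (e : ℕ) => x ij.1 ij.2 ^ e) =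
          x a.1 a.2 := by
        refine (Finsupp.prod_single_index ?_).trans (pow_one _)
        exact pow_zero _
      have h2 : (s.prod fun ij e => x ij.1 ij.2 ^ e) =
          x a.1 a.2 * s'.prod fun ij e => x ij.1 ij.2 ^ e := by
        rw [hs', Finsupp.prod_add_index' (fun _ => pow_zero _) (fun _ _ _ => pow_add _ _ _), h3]
      simp only [R0, Matrix.of_apply] at h1 ⊢
      rw [Fin.prod_univ_succ, h2, ← h1]
      rfl

end L2a

open L2a in
theorem taskL2a : TaskL2a := by
  intro n d
  refine ⟨L2a.V n d, inferInstance, inferInstance, inferInstance, rep n d, idv n d, fun p hp => ?_⟩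
  have h1 : ∀ s : (Fin n × Fin n) →₀ ℕ, ∃ q : J n d × J n d, s ∈ p.support →
      ∀ x : Matrix (Fin n) (Fin n) ℝ, R0 d x q.1 q.2 = s.prod fun ij e => x ij.1 ij.2 ^ e := by
    intro s
    by_cases hs : s ∈ p.support
    · obtain ⟨I, K, h⟩ := exists_mono n d s ((MvPolynomial.le_totalDegree hs).trans hp)
      exact ⟨(I, K), fun _ => h⟩
    · exact ⟨(fun _ => none, fun _ => none), fun h => absurd h hs⟩
  choose q hq using h1
  refine ⟨∑ s ∈ p.support, EuclideanSpace.single (q s) (p.coeff s), fun x => ?_⟩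
  rw [inner_sum, MvPolynomial.eval_eq]
  refine Finset.sum_congr rfl fun s hs => ?_
  rw [EuclideanSpace.inner_single_right, rep_idv, hq s hs x]
  rfl

end Pool.Agent.Helper172_SO
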