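import Pool.Agent.Helper172_SO.Util

set_option autoImplicit false

namespace Pool.Agent.Helper172_SO

open Matrix MeasureTheory

section finite

variable {V : Type} [NormedAddCommGroup V] [InnerProductSpace ℝ V] [FiniteDimensional ℝ V]

/-- commuting symmetric operators, one of them positive -/
theorem l2b_commute_gap (G T : V →ₗ[ℝ] V) (hG : ∀ x y, inner ℝ (G x) y = inner ℝ x (G y))
    (hT : ∀ x y, inner ℝ (T x) y = inner ℝ x (T y)) (hGT : ∀ x, G (T x) = T (G x))
    (hpos : ∀ x, 0 ≤ inner ℝ (G x) x) (hker : ∀ x, inner ℝ (G x) x = 0 → G x = 0)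
    (W : Submodule ℝ V) (hWG : ∀ w ∈ W, G w ∈ W) (hWT : ∀ w ∈ W, T w ∈ W) (κ : ℝ)
    (hκ : ∀ w ∈ W, κ * ‖w‖ ^ 2 ≤ inner ℝ (T w) w) (b : V) (hb : b ∈ W) :
    κ * inner ℝ (G b) b ≤ inner ℝ (G (T b)) b := by
  by_cases hne : W = ⊥
  · rw [hne, Submodule.mem_bot] at hb
    subst hb
    simp
  let C : V →ₗ[ℝ] V := G ∘ₗ (T - κ • LinearMap.id)
  have hC : ∀ x, C x = G (T x) - κ • G x := by
    intro x
    simp [C]
  have hCsym : ∀ x y, inner ℝ (C x) y = inner ℝ x (C y) := by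
    intro x y
    rw [hC, hC, inner_sub_left, inner_sub_right, inner_smul_left, inner_smul_right, hG, hT, hGT,
      hG]
    simp only [conj_trivial]
  have hCW : ∀ w ∈ W, C w ∈ W := by
    intro w hw
    rw [hC]
    exact W.sub_mem (hWG _ (hWT _ hw)) (W.smul_mem _ (hWG _ hw))
  obtain ⟨v, hv, hv0, t, ht, hmin⟩ := exists_min_eig C hCsym W hCW hne
  have ht0 : 0 ≤ t := by
    by_contra hlt
    push Not at hlt
    set u : V := T v - κ • v with hu
    have hGu : G u = t • v := by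
      rw [hu, map_sub, map_smul, ← hC, ht]
    have h1 : inner ℝ (G u) u = t * (inner ℝ (T v) v - κ * ‖v‖ ^ 2) := by
      rw [hGu, inner_smul_left, hu, inner_sub_right, inner_smul_right, real_inner_self_eq_norm_sq,
        real_inner_comm]
      simp
    have h2 : 0 ≤ inner ℝ (T v) v - κ * ‖v‖ ^ 2 := sub_nonneg.2 (hκ v hv)
    have h3 : inner ℝ (G u) u ≤ 0 := by
      rw [h1]
      exact mul_nonpos_of_nonpos_of_nonneg hlt.le h2
    have h4 : G u = 0 := hker u (le_antisymm h3 (hpos u))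
    rw [hGu, smul_eq_zero] at h4
    rcases h4 with h4 | h4
    · exact hlt.ne h4
    · exact hv0 h4
  have h5 := hmin b hb
  rw [hC, inner_sub_left, inner_smul_left] at h5
  have h6 : 0 ≤ t * ‖b‖ ^ 2 := by positivity
  simp only [conj_trivial] at h5
  linarith

end finite

/-- left translation -/
def l2bAct {n : ℕ} (s : Matrix (Fin n) (Fin n) ℝ) (x : Fin n → Fin n → ℝ) : Fin n → Fin n → ℝ :=
  fun i j => ∑ l, s i l * x l j

theorem l2bAct_eq {n : ℕ} (s : Matrix (Fin n) (Fin n) ℝ) (x : Fin n → Fin n → ℝ) :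
    Matrix.of (l2bAct s x) = s * Matrix.of x := by
  ext i j
  rw [Matrix.mul_apply]
  rfl

theorem l2bAct_cont {n : ℕ} (s : Matrix (Fin n) (Fin n) ℝ) : Continuous (l2bAct s) := by
  unfold l2bAct
  fun_prop

section meas

variable {n : ℕ} {μ : Measure (Fin n → Fin n → ℝ)}

theorem l2b_mp (hμ : IsHaar n μ) {g : Matrix (Fin n) (Fin n) ℝ} (hg : IsSO g) :
    MeasurePreserving (l2bAct g) μ μ :=
  ⟨(l2bAct_cont g).measurable, hμ.2.2 g hg.1 hg.2⟩

theorem l2b_integral_act (hμ : IsHaar n μ) {g : Matrix (Fin n) (Fin n) ℝ} (hg : IsSO g)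
    (h : (Fin n → Fin n → ℝ) → ℝ) (hc : Continuous h) :
    ∫ x, h (l2bAct g x) ∂μ = ∫ x, h x ∂μ := by
  conv_rhs => rw [← (l2b_mp hμ hg).map_eq]
  rw [integral_map (l2bAct_cont g).measurable.aemeasurable hc.aestronglyMeasurable]

/-- orthogonal matrices -/
def l2bK (n : ℕ) : Set (Fin n → Fin n → ℝ) :=
  {x | (Matrix.of x).transpose * Matrix.of x = 1}

theorem l2bK_compact (n : ℕ) : IsCompact (l2bK n) := by
  have hcl : IsClosed (l2bK n) := by
    have h : l2bK n = ⋂ i : Fin n, ⋂ j : Fin n,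
        {x : Fin n → Fin n → ℝ | ∑ l, x l i * x l j = (1 : Matrix (Fin n) (Fin n) ℝ) i j} := by
      ext x
      simp only [l2bK, Set.mem_ofPred_eq, Set.mem_iInter]
      constructor
      · intro h i j
        rw [← h, Matrix.mul_apply]
        rfl
      · intro h
        ext i j
        rw [← h i j, Matrix.mul_apply]
        rfl
    rw [h]
    refine isClosed_iInter fun i => isClosed_iInter fun j => isClosed_eq ?_ continuous_const
    fun_prop
  refine (isCompact_closedBall (0 : Fin n → Fin n → ℝ) 1).of_isClosed_subset hcl ?_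
  intro x hx
  rw [mem_closedBall_zero_iff]
  refine (pi_norm_le_iff_of_nonneg zero_le_one).2 fun i => ?_
  refine (pi_norm_le_iff_of_nonneg zero_le_one).2 fun j => ?_
  have h1 : ∑ l, x l j * x l j = 1 := by
    have h := congrFun (congrFun (show (Matrix.of x).transpose * Matrix.of x = 1 from hx) j) j
    rw [Matrix.mul_apply, Matrix.one_apply_eq] at h
    exact h
  have h2 : x i j * x i j ≤ ∑ l, x l j * x l j :=
    Finset.single_le_sum (f := fun l => x l j * x l j) (fun l _ => mul_self_nonneg _)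
      (Finset.mem_univ i)
  rw [Real.norm_eq_abs]
  apply abs_le_one_iff_mul_self_le_one.2
  linarith

theorem l2b_ae (hμ : IsHaar n μ) : ∀ᵐ x ∂μ, IsSO (Matrix.of x) := by
  rw [ae_iff]
  exact hμ.2.1

theorem l2b_aeK (hμ : IsHaar n μ) : ∀ᵐ x ∂μ, x ∈ l2bK n :=
  (l2b_ae hμ).mono fun _ hx => hx.1

theorem l2b_int (hμ : IsHaar n μ) (h : (Fin n → Fin n → ℝ) → ℝ) (hc : Continuous h) :
    Integrable h μ := by
  have := hμ.1
  have h1 : IntegrableOn h (l2bK n) μ := hc.continuousOn.integrableOn_compact (l2bK_compact n)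
  rw [IntegrableOn, Measure.restrict_eq_self_of_ae_mem (l2b_aeK hμ)] at h1
  exact h1

/-- Gram form -/
theorem l2b_main {n : ℕ} {μ : Measure (Fin n → Fin n → ℝ)} (hμ : IsHaar n μ)
    (S : Finset (Matrix (Fin n) (Fin n) ℝ)) (κ : ℝ) (hS : ∀ s ∈ S, IsSO s)
    {V : Type} [NormedAddCommGroup V] [InnerProductSpace ℝ V] [FiniteDimensional ℝ V]
    (ρ : PRep (Fin n) V)
    (hgap : ∀ v ∈ (ρ.inv (so (Fin n)))ᗮ, κ * ‖v‖ ^ 2 ≤ ∑ s ∈ S, ‖ρ.R s v - v‖ ^ 2)
    (Ψ : V →ₗ[ℝ] ((Fin n → Fin n → ℝ) → ℝ)) (hΨc : ∀ b, Continuous (Ψ b))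
    (hΨ : ∀ g x b, Ψ b (l2bAct g x) = Ψ (ρ.R gᵀ b) x) (b : V) (hb : ∫ x, Ψ b x ∂μ = 0) :
    κ * ∫ x, Ψ b x ^ 2 ∂μ ≤ ∑ s ∈ S, ∫ x, (Ψ b (l2bAct s x) - Ψ b x) ^ 2 ∂μ := by
  -- the Gram form
  have hint : ∀ b c, Integrable (fun x => Ψ b x * Ψ c x) μ := fun b c =>
    l2b_int hμ _ ((hΨc b).mul (hΨc c))
  let B : V →ₗ[ℝ] V →ₗ[ℝ] ℝ := LinearMap.mk₂ ℝ (fun b c => ∫ x, Ψ b x * Ψ c x ∂μ)
    (by
      intro b c d
      rw [← integral_add (hint b d) (hint c d)]
      congr 1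
      ext x
      simp only [map_add, Pi.add_apply]
      ring)
    (by
      intro r b c
      rw [smul_eq_mul, ← integral_const_mul]
      congr 1
      ext x
      simp only [map_smul, Pi.smul_apply, smul_eq_mul]
      ring)
    (by
      intro b c d
      rw [← integral_add (hint b c) (hint b d)]
      congr 1
      ext x
      simp only [map_add, Pi.add_apply]
      ring)
    (by
      intro r b c
      rw [smul_eq_mul, ← integral_const_mul]
      congr 1
      ext x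
      simp only [map_smul, Pi.smul_apply, smul_eq_mul]
      ring)
  have hB : ∀ b c, B b c = ∫ x, Ψ b x * Ψ c x ∂μ := fun _ _ => rfl
  have hBsymm : ∀ b c, B b c = B c b := by
    intro b c
    rw [hB, hB]
    congr 1
    ext x
    ring
  let G : V →ₗ[ℝ] V :=
    ((InnerProductSpace.toDual ℝ V).symm.toLinearEquiv.toLinearMap.restrictScalars ℝ) ∘ₗ
      (LinearMap.toContinuousLinearMap (𝕜 := ℝ) (E := V) (F' := ℝ)).toLinearMap ∘ₗ B
  have hG : ∀ b c, inner ℝ (G b) c = B b c := by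
    intro b c
    exact InnerProductSpace.toDual_symm_apply
  have hGs : ∀ x y, inner ℝ (G x) y = inner ℝ x (G y) := by
    intro x y
    rw [hG, real_inner_comm, hG, hBsymm]
  -- invariance
  have hBinv : ∀ g, IsSO g → ∀ b c, B (ρ.R g b) c = B b (ρ.R gᵀ c) := by
    intro g hg b c
    rw [hB, hB]
    refine (l2b_integral_act hμ hg (fun x => Ψ (ρ.R g b) x * Ψ c x)
      ((hΨc _).mul (hΨc _))).symm.trans ?_
    congr 1
    ext x
    rw [hΨ, hΨ, ρ.R_inv g hg.1]
  have hadj : ∀ g v w, inner ℝ (ρ.R g v) w = inner ℝ v (ρ.R gᵀ w) := by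
    intro g v w
    rw [real_inner_comm, ← ρ.adj, real_inner_comm]
  have hRG : ∀ g, IsSO g → ∀ b, ρ.R g (G b) = G (ρ.R g b) := by
    intro g hg b
    refine ext_inner_right ℝ fun c => ?_
    rw [hadj, hG, hG, hBinv g hg]
  have hRGt : ∀ g, IsSO g → ∀ b, ρ.R gᵀ (G b) = G (ρ.R gᵀ b) := by
    intro g hg b
    rw [← ρ.R_inv g hg.1 (G (ρ.R gᵀ b)), hRG g hg, ρ.R_inv' g hg.1]
  have hGinv : ∀ b ∈ ρ.inv (so (Fin n)), G b ∈ ρ.inv (so (Fin n)) := by
    intro b hb
    refine ρ.inv_of_R _ fun g hg => ?_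
    rw [hRG g hg, ρ.R_of_inv b hb g hg]
  let T : V →ₗ[ℝ] V := ∑ s ∈ S, ((2 : ℝ) • LinearMap.id - ρ.R s - ρ.R sᵀ)
  have hT : ∀ x, T x = ∑ s ∈ S, ((2 : ℝ) • x - ρ.R s x - ρ.R sᵀ x) := by
    intro x
    simp only [T, LinearMap.sum_apply, LinearMap.sub_apply, LinearMap.smul_apply,
      LinearMap.id_apply]
  have hTs : ∀ x y, inner ℝ (T x) y = inner ℝ x (T y) := by
    intro x y
    rw [hT, hT, sum_inner, inner_sum]
    refine Finset.sum_congr rfl fun s _ => ?_
    rw [inner_sub_left, inner_sub_left, inner_sub_right, inner_sub_right, hadj, ρ.adj,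
      inner_smul_left, inner_smul_right]
    simp only [conj_trivial]
    ring
  have hGT : ∀ x, G (T x) = T (G x) := by
    intro x
    rw [hT, hT, map_sum]
    refine Finset.sum_congr rfl fun s hs => ?_
    rw [map_sub, map_sub, map_smul, hRG s (hS s hs), hRGt s (hS s hs)]
  have hTinv : ∀ x ∈ ρ.inv (so (Fin n)), T x = 0 := by
    intro x hx
    rw [hT]
    refine Finset.sum_eq_zero fun s hs => ?_
    have h1 := ρ.R_of_inv x hx s (hS s hs)
    have h2 := ρ.R_inv s (hS s hs).1 x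
    rw [h1] at h2
    rw [h1, h2]
    module
  have hpos : ∀ x, 0 ≤ inner ℝ (G x) x := by
    intro x
    rw [hG, hB]
    exact integral_nonneg fun y => mul_self_nonneg _
  have hker : ∀ x, inner ℝ (G x) x = 0 → G x = 0 := by
    intro x hx
    rw [hG, hB, integral_eq_zero_iff_of_nonneg (fun y => mul_self_nonneg _) (hint x x)] at hx
    refine ext_inner_right ℝ fun c => ?_
    rw [hG, hB, inner_zero_left]
    refine integral_eq_zero_of_ae ?_
    filter_upwards [hx] with y hy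
    have : Ψ x y = 0 := mul_self_eq_zero.1 hy
    rw [this, zero_mul]
    rfl
  have hTκ : ∀ w ∈ (ρ.inv (so (Fin n)))ᗮ, κ * ‖w‖ ^ 2 ≤ inner ℝ (T w) w := by
    intro w hw
    refine (hgap w hw).trans_eq ?_
    rw [hT, sum_inner]
    refine Finset.sum_congr rfl fun s hs => ?_
    rw [← real_inner_self_eq_norm_sq, inner_sub_left, inner_sub_right, inner_sub_right,
      inner_sub_left, inner_sub_left, inner_smul_left, ρ.inner_R s (hS s hs).1, ρ.adj,
      real_inner_comm w (ρ.R s w)]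
    simp only [conj_trivial]
    ring
  have hWG : ∀ w ∈ (ρ.inv (so (Fin n)))ᗮ, G w ∈ (ρ.inv (so (Fin n)))ᗮ := by
    intro w hw
    rw [mem_orth]
    intro z hz
    rw [← hGs]
    exact mem_orth.1 hw _ (hGinv z hz)
  have hWT : ∀ w ∈ (ρ.inv (so (Fin n)))ᗮ, T w ∈ (ρ.inv (so (Fin n)))ᗮ := by
    intro w hw
    rw [mem_orth]
    intro z hz
    rw [← hTs, hTinv z hz, inner_zero_left]
  -- decomposition
  set b1 : V := (ρ.inv (so (Fin n))).starProjection b with hb1
  set b2 : V := b - b1 with hb2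
  have hb1m : b1 ∈ ρ.inv (so (Fin n)) := proj_mem _ _
  have hb2m : b2 ∈ (ρ.inv (so (Fin n)))ᗮ := (ρ.inv (so (Fin n))).sub_starProjection_mem_orthogonal b
  have hbb : b = b1 + b2 := by rw [hb2]; abel
  have hconst : ∀ x, IsSO (Matrix.of x) → Ψ b1 x = Ψ b1 (1 : Matrix (Fin n) (Fin n) ℝ) := by
    intro x hx
    have h1 : l2bAct (Matrix.of x) (1 : Matrix (Fin n) (Fin n) ℝ) = x := by
      have h2 := l2bAct_eq (Matrix.of x) (1 : Matrix (Fin n) (Fin n) ℝ)
      have h3 : Matrix.of x * Matrix.of (1 : Matrix (Fin n) (Fin n) ℝ) = Matrix.of x :=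
        Matrix.mul_one _
      rw [h3] at h2
      exact h2
    have h2 := hΨ (Matrix.of x) (1 : Matrix (Fin n) (Fin n) ℝ) b1
    rw [h1] at h2
    rw [h2]
    have h3 := ρ.R_inv _ hx.1 b1
    rw [ρ.R_of_inv b1 hb1m _ hx] at h3
    rw [h3]
  have hB1b : B b1 b = 0 := by
    rw [hB]
    have h1 : ∫ x, Ψ b1 x * Ψ b x ∂μ =
        ∫ x, Ψ b1 (1 : Matrix (Fin n) (Fin n) ℝ) * Ψ b x ∂μ := by
      refine integral_congr_ae ?_
      filter_upwards [l2b_ae hμ] with x hx
      rw [hconst x hx]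
    rw [h1, integral_const_mul, hb, mul_zero]
  have hB12 : B b2 b1 = 0 := by
    rw [hBsymm, ← hG]
    exact mem_orth.1 hb2m _ (hGinv b1 hb1m)
  have hBb : B b b = B b2 b2 := by
    have h1 : B b b = B b1 b + B b2 b := by
      have h : B (b1 + b2) b = B b1 b + B b2 b := by rw [map_add, LinearMap.add_apply]
      rwa [← hbb] at h
    have h2 : B b2 b = B b2 b1 + B b2 b2 := by
      rw [← map_add, ← hbb]
    rw [h1, hB1b, h2, hB12]
    ring
  have hTb : T b = T b2 := by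
    rw [hbb, map_add, hTinv b1 hb1m, zero_add]
  have hfin := l2b_commute_gap G T hGs hTs hGT hpos hker _ hWG hWT κ hTκ b2 hb2m
  have hlhs : ∫ x, Ψ b x ^ 2 ∂μ = inner ℝ (G b2) b2 := by
    rw [hG, ← hBb, hB]
    congr 1
    ext x
    ring
  have hrhs : ∑ s ∈ S, ∫ x, (Ψ b (l2bAct s x) - Ψ b x) ^ 2 ∂μ = inner ℝ (G (T b2)) b2 := by
    have h1 : inner ℝ (G (T b2)) b2 = inner ℝ (G (T b)) b := by
      calc inner ℝ (G (T b2)) b2 = inner ℝ (T (G b2)) b2 := by rw [hGT]
        _ = inner ℝ (G b2) (T b2) := hTs _ _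
        _ = inner ℝ (G b2) (T b) := by rw [hTb]
        _ = inner ℝ (T (G b2)) b := (hTs _ _).symm
        _ = inner ℝ (G (T b2)) b := by rw [hGT]
        _ = inner ℝ (G (T b)) b := by rw [hTb]
    rw [h1, hT, map_sum, sum_inner]
    refine Finset.sum_congr rfl fun s hs => ?_
    have h2 : ∀ x, Ψ b (l2bAct s x) - Ψ b x = Ψ (ρ.R sᵀ b - b) x := by
      intro x
      rw [hΨ, map_sub]
      rfl
    have h3 : ∫ x, (Ψ b (l2bAct s x) - Ψ b x) ^ 2 ∂μ =
        B (ρ.R sᵀ b - b) (ρ.R sᵀ b - b) := by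
      rw [hB]
      congr 1
      ext x
      rw [h2, sq]
    rw [h3, ← hG, inner_sub_right, ← hadj, hRG s (hS s hs), ← inner_sub_left, ← map_sub G,
      map_sub (ρ.R s), ρ.R_inv' s (hS s hs).1]
    congr 2
    module
  rw [hlhs, hrhs]
  exact hfin

/-- the inequality for polynomials -/
theorem l2b_poly (h : TaskL2a) {n : ℕ} {μ : Measure (Fin n → Fin n → ℝ)} (hμ : IsHaar n μ)
    (S : Finset (Matrix (Fin n) (Fin n) ℝ)) (κ : ℝ) (hS : ∀ s ∈ S, IsSO s) (hgap : Gap S κ)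
    (p : MvPolynomial (Fin n × Fin n) ℝ)
    (hp : ∫ x : Fin n → Fin n → ℝ, MvPolynomial.eval (fun ij => x ij.1 ij.2) p ∂μ = 0) :
    κ * ∫ x : Fin n → Fin n → ℝ, MvPolynomial.eval (fun ij => x ij.1 ij.2) p ^ 2 ∂μ ≤
      ∑ s ∈ S, ∫ x : Fin n → Fin n → ℝ, (MvPolynomial.eval (fun ij => l2bAct s x ij.1 ij.2) p -
        MvPolynomial.eval (fun ij => x ij.1 ij.2) p) ^ 2 ∂μ := by
  obtain ⟨V, _, _, _, ρ, a, hV⟩ := h n p.totalDegree
  obtain ⟨b, hb⟩ := hV p le_rfl
  have hadj : ∀ g v w, inner ℝ (ρ.R g v) w = inner ℝ v (ρ.R gᵀ w) := by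
    intro g v w
    rw [real_inner_comm, ← ρ.adj, real_inner_comm]
  let V' : Submodule ℝ V :=
    { carrier := {c | Continuous fun x : Fin n → Fin n → ℝ => inner ℝ (ρ.R (Matrix.of x) a) c}
      zero_mem' := by
        simp only [Set.mem_ofPred_eq, inner_zero_right]
        exact continuous_const
      add_mem' := by
        intro c d hc hd
        simp only [Set.mem_ofPred_eq, inner_add_right] at hc hd ⊢
        exact hc.add hd
      smul_mem' := by
        intro r c hc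
        simp only [Set.mem_ofPred_eq, inner_smul_right] at hc ⊢
        exact continuous_const.mul hc }
  have hV' : ∀ g, ∀ c ∈ V', ρ.R g c ∈ V' := by
    intro g c hc
    have hc' : Continuous fun x : Fin n → Fin n → ℝ => inner ℝ (ρ.R (Matrix.of x) a) c := hc
    change Continuous fun x : Fin n → Fin n → ℝ => inner ℝ (ρ.R (Matrix.of x) a) (ρ.R g c)
    have h1 : (fun x : Fin n → Fin n → ℝ => inner ℝ (ρ.R (Matrix.of x) a) (ρ.R g c)) =
        (fun x : Fin n → Fin n → ℝ => inner ℝ (ρ.R (Matrix.of x) a) c) ∘ l2bAct gᵀ := by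
      funext x
      simp only [Function.comp_apply]
      rw [l2bAct_eq, ρ.mul, ρ.adj]
    rw [h1]
    exact hc'.comp (l2bAct_cont _)
  have hbV : b ∈ V' := by
    change Continuous fun x : Fin n → Fin n → ℝ => inner ℝ (ρ.R (Matrix.of x) a) b
    have h1 : (fun x : Fin n → Fin n → ℝ => inner ℝ (ρ.R (Matrix.of x) a) b) =
        fun x : Fin n → Fin n → ℝ => MvPolynomial.eval (fun ij => x ij.1 ij.2) p := by
      funext x
      exact hb (Matrix.of x)
    rw [h1]
    exact (MvPolynomial.continuous_eval p).comp (by fun_prop)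
  let Ψ : V →ₗ[ℝ] ((Fin n → Fin n → ℝ) → ℝ) :=
    { toFun := fun c x => inner ℝ (ρ.R (Matrix.of x) a) (V'.starProjection c)
      map_add' := by
        intro c d
        funext x
        simp only [map_add, inner_add_right, Pi.add_apply]
      map_smul' := by
        intro r c
        funext x
        simp only [map_smul, inner_smul_right, Pi.smul_apply, smul_eq_mul, RingHom.id_apply] }
  have hΨx : ∀ c x, Ψ c x = inner ℝ (ρ.R (Matrix.of x) a) (V'.starProjection c) := fun _ _ => rfl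
  have hΨc : ∀ c, Continuous (Ψ c) := fun c => proj_mem V' c
  have hΨ : ∀ g x c, Ψ c (l2bAct g x) = Ψ (ρ.R gᵀ c) x := by
    intro g x c
    rw [hΨx, hΨx, l2bAct_eq, ρ.mul, hadj,
      proj_comm V' (ρ.R gᵀ) (ρ.R g) (fun v w => ρ.adj g v w) (hV' _) (hV' _)]
  have hΨb : ∀ x : Fin n → Fin n → ℝ, Ψ b x = MvPolynomial.eval (fun ij => x ij.1 ij.2) p := by
    intro x
    rw [hΨx, proj_of_mem hbV]
    exact hb (Matrix.of x)
  have hmain := l2b_main hμ S κ hS ρ (hgap V ρ) Ψ hΨc hΨ b (by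
    simp only [hΨb]
    exact hp)
  simp only [hΨb] at hmain
  exact hmain

/-- polynomials as continuous functions -/
noncomputable def l2bPhi (n : ℕ) :
    MvPolynomial (Fin n × Fin n) ℝ →ₐ[ℝ] C(Fin n → Fin n → ℝ, ℝ) :=
  MvPolynomial.aeval fun ij : Fin n × Fin n =>
    (⟨fun x => x ij.1 ij.2, by fun_prop⟩ : C(Fin n → Fin n → ℝ, ℝ))

theorem l2bPhi_apply {n : ℕ} (p : MvPolynomial (Fin n × Fin n) ℝ) (x : Fin n → Fin n → ℝ) :
    l2bPhi n p x = MvPolynomial.eval (fun ij => x ij.1 ij.2) p := by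
  induction p using MvPolynomial.induction_on with
  | C a => simp [l2bPhi]
  | add p q hp hq => rw [map_add, ContinuousMap.add_apply, hp, hq, map_add]
  | mul_X p i hp =>
    rw [map_mul, ContinuousMap.mul_apply, hp, map_mul, MvPolynomial.eval_X]
    congr 1
    simp [l2bPhi]

theorem l2bPhi_sep (n : ℕ) : (l2bPhi n).range.SeparatesPoints := by
  intro x y hxy
  obtain ⟨i, hi⟩ := Function.ne_iff.1 hxy
  obtain ⟨j, hj⟩ := Function.ne_iff.1 hi
  refine ⟨_, ⟨l2bPhi n (MvPolynomial.X (i, j)), ⟨MvPolynomial.X (i, j), rfl⟩, rfl⟩, ?_⟩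
  change l2bPhi n (MvPolynomial.X (i, j)) x ≠ l2bPhi n (MvPolynomial.X (i, j)) y
  rw [l2bPhi_apply, l2bPhi_apply, MvPolynomial.eval_X, MvPolynomial.eval_X]
  exact hj

theorem l2b_sw {n : ℕ} (g : C(Fin n → Fin n → ℝ, ℝ)) {ε : ℝ} (hε : 0 < ε) :
    ∃ p : MvPolynomial (Fin n × Fin n) ℝ, ∀ x ∈ l2bK n,
      ‖MvPolynomial.eval (fun ij => x ij.1 ij.2) p - g x‖ < ε := by
  obtain ⟨q, hq, hp⟩ :=
    ContinuousMap.exists_mem_subalgebra_near_continuous_of_isCompact_of_separatesPoints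
      (l2bPhi_sep n) g (l2bK_compact n) hε
  obtain ⟨p, hpq⟩ := (AlgHom.mem_range _).1 hq
  refine ⟨p, fun x hx => ?_⟩
  rw [← l2bPhi_apply, hpq]
  exact hp x hx

theorem l2b_tri {n : ℕ} {μ : Measure (Fin n → Fin n → ℝ)} [IsProbabilityMeasure μ]
    (f g P : (Fin n → Fin n → ℝ) → ℝ) (hf : AEStronglyMeasurable f μ)
    (hg : AEStronglyMeasurable g μ) (hP : AEStronglyMeasurable P μ) {ε : ℝ} (hε : 0 < ε)
    (h1 : eLpNorm (f - g) 2 μ ≤ ENNReal.ofReal (ε / 2))
    (h2 : ∀ᵐ x ∂μ, ‖P x - g x‖ ≤ ε / 2) : eLpNorm (f - P) 2 μ ≤ ENNReal.ofReal ε := by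
  have h3 : eLpNorm (g - P) 2 μ ≤ ENNReal.ofReal (ε / 2) := by
    refine (eLpNorm_le_of_ae_bound (C := ε / 2) ?_).trans ?_
    · filter_upwards [h2] with x hx
      rw [Pi.sub_apply, norm_sub_rev]
      exact hx
    · rw [measure_univ, ENNReal.one_rpow, one_mul]
  have h4 : f - P = (f - g) + (g - P) := by abel
  rw [h4]
  refine (eLpNorm_add_le (hf.sub hg) (hg.sub hP) (by norm_num)).trans ?_
  refine (add_le_add h1 h3).trans ?_
  rw [← ENNReal.ofReal_add (half_pos hε).le (half_pos hε).le, add_halves]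

/-- density of polynomials -/
theorem l2b_dense {n : ℕ} {μ : Measure (Fin n → Fin n → ℝ)} (hμ : IsHaar n μ)
    (f : (Fin n → Fin n → ℝ) → ℝ) (hf : MemLp f 2 μ) (ε : ℝ) (hε : 0 < ε) :
    ∃ p : MvPolynomial (Fin n × Fin n) ℝ,
      eLpNorm (f - fun x => MvPolynomial.eval (fun ij => x ij.1 ij.2) p) 2 μ ≤
        ENNReal.ofReal ε := by
  have := hμ.1
  have hε' : ENNReal.ofReal (ε / 2) ≠ 0 := by
    rw [Ne, ENNReal.ofReal_eq_zero, not_le]
    exact half_pos hε
  obtain ⟨g, hg, -⟩ := hf.exists_boundedContinuous_eLpNorm_sub_le (by norm_num) hε'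
  obtain ⟨p, hp⟩ := l2b_sw g.toContinuousMap (half_pos hε)
  have hpc : Continuous
      (fun x : Fin n → Fin n → ℝ => MvPolynomial.eval (fun ij => x ij.1 ij.2) p) :=
    (MvPolynomial.continuous_eval p).comp (by fun_prop)
  refine ⟨p, l2b_tri f (fun x => g x) _ hf.1 g.continuous.aestronglyMeasurable
    hpc.aestronglyMeasurable hε hg ?_⟩
  filter_upwards [l2b_aeK hμ] with x hx
  exact (hp x hx).le

theorem l2b_norm_sq {n : ℕ} {μ : Measure (Fin n → Fin n → ℝ)}
    (f : (Fin n → Fin n → ℝ) → ℝ) (hf : MemLp f 2 μ) :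
    ‖hf.toLp f‖ ^ 2 = ∫ x, f x ^ 2 ∂μ := by
  rw [← real_inner_self_eq_norm_sq, L2.inner_def]
  refine integral_congr_ae ?_
  filter_upwards [hf.coeFn_toLp] with x hx
  rw [hx, real_inner_self_eq_norm_sq, Real.norm_eq_abs, sq_abs]

end meas

theorem taskL2b (h : TaskL2a) : TaskL2b := by
  intro n S κ hS hgap μ hμ f hf hf0
  have := hμ.1
  let U : S → (Lp ℝ 2 μ →+ Lp ℝ 2 μ) := fun s =>
    Lp.compMeasurePreserving (l2bAct s.1) (l2b_mp hμ (hS s.1 s.2))
  have hclosed : IsClosed {v : Lp ℝ 2 μ | κ * ‖v‖ ^ 2 ≤ ∑ s : S, ‖U s v - v‖ ^ 2} := by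
    refine isClosed_le (by fun_prop) ?_
    refine continuous_finsetSum _ fun s _ => ?_
    have h1 : Continuous (U s) :=
      (Lp.isometry_compMeasurePreserving (l2b_mp hμ (hS s.1 s.2))).continuous
    exact ((h1.sub continuous_id).norm).pow 2
  -- the polynomials of mean zero
  have hpoly : ∀ (p : MvPolynomial (Fin n × Fin n) ℝ)
      (hm : MemLp (fun x : Fin n → Fin n → ℝ => MvPolynomial.eval (fun ij => x ij.1 ij.2) p) 2 μ),
      ∫ x : Fin n → Fin n → ℝ, MvPolynomial.eval (fun ij => x ij.1 ij.2) p ∂μ = 0 →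
      hm.toLp _ ∈ {v : Lp ℝ 2 μ | κ * ‖v‖ ^ 2 ≤ ∑ s : S, ‖U s v - v‖ ^ 2} := by
    intro p hm hp0
    have h1 := l2b_poly h hμ S κ hS hgap p hp0
    change κ * ‖hm.toLp _‖ ^ 2 ≤ ∑ s : S, ‖U s (hm.toLp _) - hm.toLp _‖ ^ 2
    rw [l2b_norm_sq]
    refine h1.trans_eq ?_
    rw [← Finset.sum_coe_sort]
    refine Finset.sum_congr rfl fun s _ => ?_
    have h2 := hm.comp_measurePreserving (l2b_mp hμ (hS s.1 s.2))
    have h3 : U s (hm.toLp _) - hm.toLp _ = (h2.sub hm).toLp _ :=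
      (MemLp.toLp_sub h2 hm).symm
    rw [h3, l2b_norm_sq]
    rfl
  have hfmem : hf.toLp f ∈ {v : Lp ℝ 2 μ | κ * ‖v‖ ^ 2 ≤ ∑ s : S, ‖U s v - v‖ ^ 2} := by
    refine hclosed.closure_subset ?_
    rw [Metric.mem_closure_iff]
    intro ε hε
    obtain ⟨p, hp⟩ := l2b_dense hμ f hf (ε / 4) (by positivity)
    have hpc : Continuous
        (fun x : Fin n → Fin n → ℝ => MvPolynomial.eval (fun ij => x ij.1 ij.2) p) :=
      (MvPolynomial.continuous_eval p).comp (by fun_prop)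
    have hpi := l2b_int hμ _ hpc
    have hpm : MemLp
        (fun x : Fin n → Fin n → ℝ => MvPolynomial.eval (fun ij => x ij.1 ij.2) p) 2 μ :=
      (memLp_two_iff_integrable_sq hpc.aestronglyMeasurable).2 (l2b_int hμ _ (hpc.pow 2))
    set c : ℝ := ∫ x : Fin n → Fin n → ℝ, MvPolynomial.eval (fun ij => x ij.1 ij.2) p ∂μ with hc
    set P : (Fin n → Fin n → ℝ) → ℝ := fun x => MvPolynomial.eval (fun ij => x ij.1 ij.2) p with hP
    have hfi : Integrable f μ := hf.integrable (by norm_num)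
    have hcε : |c| ≤ ε / 4 := by
      have h1 : c = ∫ x, -((f - P) x) ∂μ := by
        rw [integral_neg, Pi.sub_def, integral_sub hfi hpi, hf0, zero_sub, neg_neg]
      rw [h1, ← Real.norm_eq_abs]
      refine (norm_integral_le_integral_norm _).trans ?_
      simp only [norm_neg]
      have h2 : ∫ x, ‖(f - P) x‖ ∂μ = (eLpNorm (f - P) 1 μ).toReal := by
        rw [eLpNorm_one_eq_lintegral_enorm, integral_norm_eq_lintegral_enorm (hf.1.sub hpm.1)]
      rw [h2]
      refine ENNReal.toReal_le_of_le_ofReal (by positivity) ?_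
      exact (eLpNorm_le_eLpNorm_of_exponent_le (by norm_num) (hf.1.sub hpm.1)).trans hp
    have hq : ∀ x : Fin n → Fin n → ℝ,
        MvPolynomial.eval (fun ij => x ij.1 ij.2) (p - MvPolynomial.C c) = P x - c := by
      intro x
      simp [hP]
    have hqm : MemLp (fun x : Fin n → Fin n → ℝ =>
        MvPolynomial.eval (fun ij => x ij.1 ij.2) (p - MvPolynomial.C c)) 2 μ := by
      simp only [hq]
      exact hpm.sub (memLp_const c)
    refine ⟨hqm.toLp _, hpoly _ hqm ?_, ?_⟩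
    · simp only [hq]
      rw [integral_sub hpi (integrable_const c), integral_const]
      simp [hc, hP]
    · rw [dist_eq_norm, ← MemLp.toLp_sub hf hqm, Lp.norm_toLp]
      have h1 : (f - fun x : Fin n → Fin n → ℝ =>
          MvPolynomial.eval (fun ij => x ij.1 ij.2) (p - MvPolynomial.C c)) =
          (f - P) + fun _ => c := by
        funext x
        simp only [Pi.sub_apply, hq, Pi.add_apply]
        ring
      rw [h1]
      have h2 : eLpNorm ((f - P) + fun _ => c) 2 μ ≤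
          ENNReal.ofReal (ε / 4) + ENNReal.ofReal (ε / 4) := by
        refine (eLpNorm_add_le (hf.1.sub hpm.1) aestronglyMeasurable_const (by norm_num)).trans ?_
        refine add_le_add hp ?_
        refine (eLpNorm_le_of_ae_bound (C := ε / 4) (ae_of_all _ fun _ => hcε)).trans ?_
        rw [measure_univ, ENNReal.one_rpow, one_mul]
      have h3 : (eLpNorm ((f - P) + fun _ => c) 2 μ).toReal ≤ ε / 4 + ε / 4 := by
        refine ENNReal.toReal_le_of_le_ofReal (by positivity) ?_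
        rwa [ENNReal.ofReal_add (by positivity) (by positivity)]
      linarith
  have hfin : κ * ‖hf.toLp f‖ ^ 2 ≤ ∑ s : S, ‖U s (hf.toLp f) - hf.toLp f‖ ^ 2 := hfmem
  rw [l2b_norm_sq] at hfin
  refine hfin.trans_eq ?_
  rw [← Finset.sum_coe_sort S]
  refine Finset.sum_congr rfl fun s _ => ?_
  have h2 := hf.comp_measurePreserving (l2b_mp hμ (hS s.1 s.2))
  have h3 : U s (hf.toLp f) - hf.toLp f = (h2.sub hf).toLp _ :=
    (MemLp.toLp_sub h2 hf).symm
  rw [h3, l2b_norm_sq]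
  rfl

end Pool.Agent.Helper172_SO
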