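import Pool.Agent.Helper172_SO.Util
import Pool.Agent.Helper172_SO.Sign

set_option autoImplicit false

namespace Pool.Agent.Helper172_SO

open Matrix
open scoped Kronecker

namespace LevelAux

/-- last coordinates -/
abbrev Tl (j m : ℕ) : Type := {i : Fin m // j ≤ i.val} → ZMod 2

/-- splitting of the coordinates -/
def spl (j m : ℕ) (h : j ≤ m) : C m ≃ C j × Tl j m where
  toFun x := (fun i => x (Fin.castLE h i), fun i => x i.1)
  invFun p := fun i => if hi : i.val < j then p.1 ⟨i.val, hi⟩ else p.2 ⟨i, not_lt.mp hi⟩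
  left_inv x := by
    funext i
    by_cases hi : i.val < j
    · simp only [hi, dif_pos]
      rfl
    · simp only [hi, dif_neg, not_false_eq_true]
  right_inv p := by
    refine Prod.ext ?_ ?_
    · funext i
      simp only [Fin.val_castLE, i.2, dif_pos]
    · funext i
      have : ¬ i.1.val < j := not_lt.mpr i.2
      simp only [this, dif_neg, not_false_eq_true]

theorem up_eq (j m : ℕ) (h : j ≤ m) (A : Matrix (C j) (C j) ℝ) :
    up j m h A = (A ⊗ₖ (1 : Matrix (Tl j m) (Tl j m) ℝ)).submatrix (spl j m h) (spl j m h) := by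
  ext x y
  rw [submatrix_apply, kroneckerMap_apply]
  by_cases hxy : ∀ i : Fin m, j ≤ i.val → x i = y i
  · have h2 : (spl j m h x).2 = (spl j m h y).2 := funext fun i => hxy i.1 i.2
    rw [h2, Matrix.one_apply_eq, mul_one]
    exact if_pos hxy
  · have h2 : (spl j m h x).2 ≠ (spl j m h y).2 := fun h' =>
      hxy fun i hi => congrFun h' ⟨i, hi⟩
    rw [Matrix.one_apply_ne h2, mul_zero]
    exact if_neg hxy

theorem up_mul (j m : ℕ) (h : j ≤ m) (A B : Matrix (C j) (C j) ℝ) :
    up j m h (A * B) = up j m h A * up j m h B := by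
  rw [up_eq, up_eq, up_eq, submatrix_mul_equiv, ← mul_kronecker_mul, Matrix.one_mul]

theorem up_one (j m : ℕ) (h : j ≤ m) : up j m h 1 = 1 := by
  rw [up_eq, one_kronecker_one, submatrix_one_equiv]

theorem up_transpose (j m : ℕ) (h : j ≤ m) (A : Matrix (C j) (C j) ℝ) :
    up j m h Aᵀ = (up j m h A)ᵀ := by
  ext x y
  simp only [up, of_apply, transpose_apply]
  by_cases hxy : ∀ i : Fin m, j ≤ i.val → x i = y i
  · rw [if_pos hxy, if_pos (fun i hi => (hxy i hi).symm)]
  · rw [if_neg hxy, if_neg (fun h' => hxy fun i hi => (h' i hi).symm)]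

/-- `up` as a linear map -/
def upL (j m : ℕ) (h : j ≤ m) : Matrix (C j) (C j) ℝ →ₗ[ℝ] Matrix (C m) (C m) ℝ where
  toFun := up j m h
  map_add' A B := by
    ext x y
    simp only [up, of_apply, Matrix.add_apply]
    split_ifs <;> simp
  map_smul' c A := by
    ext x y
    simp only [up, of_apply, Matrix.smul_apply, RingHom.id_apply]
    split_ifs <;> simp

theorem up_isSO (j m : ℕ) (h : j ≤ m) (g : Matrix (C j) (C j) ℝ) (hg : IsSO g) :
    IsSO (up j m h g) := by
  refine ⟨?_, ?_⟩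
  · rw [← up_transpose, ← up_mul, hg.1, up_one]
  · rw [up_eq, det_submatrix_equiv_self, det_kronecker, hg.2, det_one]
    simp

end LevelAux

open LevelAux

theorem taskUp : TaskUp := by
  intro j m h
  refine ⟨up_isSO j m h, ?_⟩
  intro V _ _ ρ
  refine ⟨ρ.pull (upL j m h) 0 (by rw [add_zero]; exact up_one j m h)
    (fun g k => by simp only [add_zero]; exact up_mul j m h g k)
    (fun g => by simp only [add_zero]; exact up_transpose j m h g), ?_, ?_, ?_⟩
  · intro g
    show ρ.R (upL j m h g + 0) = ρ.R (up j m h g)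
    rw [add_zero]
    rfl
  · intro X
    rfl
  · ext v
    constructor
    · rintro hv Z ⟨X, hX, rfl⟩
      exact hv X hX
    · intro hv X hX
      exact hv _ ⟨X, hX, rfl⟩

namespace LevelAux

/-- splitting off the last coordinate -/
def eS (j : ℕ) : C (j + 1) ≃ C j ⊕ C j where
  toFun x := if x (Fin.last j) = 0 then Sum.inl (fun i => x i.castSucc)
    else Sum.inr (fun i => x i.castSucc)
  invFun := Sum.elim (fun a => Fin.snoc (α := fun _ => ZMod 2) a 0)
    (fun a => Fin.snoc (α := fun _ => ZMod 2) a 1)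
  left_inv x := by
    by_cases hx : x (Fin.last j) = 0
    · simp only [hx, if_true, Sum.elim_inl]
      funext i
      refine Fin.lastCases ?_ (fun i => ?_) i
      · rw [Fin.snoc_last, hx]
      · rw [Fin.snoc_castSucc]
    · have hx1 : x (Fin.last j) = 1 := by
        revert hx
        generalize x (Fin.last j) = z
        revert z
        decide
      simp only [hx, if_false, Sum.elim_inr]
      funext i
      refine Fin.lastCases ?_ (fun i => ?_) i
      · rw [Fin.snoc_last, hx1]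
      · rw [Fin.snoc_castSucc]
  right_inv s := by
    rcases s with a | a
    · simp
    · simp

/-- reindexing -/
def thL (j : ℕ) : Matrix (C j ⊕ C j) (C j ⊕ C j) ℝ →ₗ[ℝ] Matrix (C (j + 1)) (C (j + 1)) ℝ where
  toFun M := M.submatrix (eS j) (eS j)
  map_add' _ _ := rfl
  map_smul' _ _ := rfl

theorem thL_mul (j : ℕ) (A B : Matrix (C j ⊕ C j) (C j ⊕ C j) ℝ) :
    thL j (A * B) = thL j A * thL j B := by
  show (A * B).submatrix _ _ = A.submatrix _ _ * B.submatrix _ _
  rw [submatrix_mul_equiv]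

theorem thL_one (j : ℕ) : thL j 1 = 1 := by
  show (1 : Matrix (C j ⊕ C j) (C j ⊕ C j) ℝ).submatrix _ _ = 1
  rw [submatrix_one_equiv]

theorem thL_transpose (j : ℕ) (A : Matrix (C j ⊕ C j) (C j ⊕ C j) ℝ) :
    thL j Aᵀ = (thL j A)ᵀ := rfl

/-- the code of a point -/
def cd (j m : ℕ) (h : j + 1 ≤ m) (x : C m) : C j ⊕ C j :=
  if x ⟨j, h⟩ = 0 then Sum.inl (fun i => x (Fin.castLE (Nat.le_of_succ_le h) i))
  else Sum.inr (fun i => x (Fin.castLE (Nat.le_of_succ_le h) i))

theorem upth_apply (j m : ℕ) (h : j + 1 ≤ m) (M : Matrix (C j ⊕ C j) (C j ⊕ C j) ℝ) (x y : C m) :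
    up (j + 1) m h (thL j M) x y =
      if ∀ i : Fin m, j + 1 ≤ i.val → x i = y i then M (cd j m h x) (cd j m h y) else 0 := rfl

/-- both the tail and the code are equal -/
theorem eq_iff (j m : ℕ) (h : j + 1 ≤ m) (x y : C m) :
    x = y ↔ (∀ i : Fin m, j + 1 ≤ i.val → x i = y i) ∧ x ⟨j, h⟩ = y ⟨j, h⟩ ∧
      ∀ i : Fin j, x (Fin.castLE (Nat.le_of_succ_le h) i) = y (Fin.castLE (Nat.le_of_succ_le h) i) := by
  constructor
  · rintro rfl
    exact ⟨fun _ _ => rfl, rfl, fun _ => rfl⟩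
  · rintro ⟨h1, h2, h3⟩
    funext i
    rcases lt_trichotomy i.val j with hi | hi | hi
    · exact h3 ⟨i.val, hi⟩
    · have : i = ⟨j, h⟩ := Fin.ext hi
      rw [this]; exact h2
    · exact h1 i hi

/-- the pulled back representation -/
noncomputable def rho' {V : Type} [NormedAddCommGroup V] [InnerProductSpace ℝ V]
    (j m : ℕ) (h : j + 1 ≤ m) (ρ : PRep (C m) V) : PRep (C j ⊕ C j) V :=
  ρ.pull (upL (j + 1) m h ∘ₗ thL j) 0
    (by
      rw [add_zero, LinearMap.comp_apply, thL_one]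
      exact up_one _ _ _)
    (fun g k => by
      simp only [add_zero, LinearMap.comp_apply, thL_mul]
      exact up_mul _ _ _ _ _)
    (fun g => by
      simp only [add_zero, LinearMap.comp_apply, thL_transpose]
      exact up_transpose _ _ _ _)

section
variable {V : Type} [NormedAddCommGroup V] [InnerProductSpace ℝ V]

theorem rho'_R (j m : ℕ) (h : j + 1 ≤ m) (ρ : PRep (C m) V)
    (M : Matrix (C j ⊕ C j) (C j ⊕ C j) ℝ) :
    (rho' j m h ρ).R M = ρ.R (up (j + 1) m h (thL j M)) := by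
  show ρ.R ((upL (j + 1) m h ∘ₗ thL j) M + 0) = _
  rw [add_zero]
  rfl

theorem rho'_D (j m : ℕ) (h : j + 1 ≤ m) (ρ : PRep (C m) V)
    (M : Matrix (C j ⊕ C j) (C j ⊕ C j) ℝ) :
    (rho' j m h ρ).D M = ρ.D (up (j + 1) m h (thL j M)) := rfl

theorem rho'_inv_so (j m : ℕ) (h : j + 1 ≤ m) (ρ : PRep (C m) V) :
    (rho' j m h ρ).inv (so (C j ⊕ C j)) = ρ.inv (lvl (j + 1) m h) := by
  ext v
  constructor
  · rintro hv Z ⟨X, hX, rfl⟩
    have h1 : X = thL j (X.submatrix (eS j).symm (eS j).symm) := by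
      ext a b
      show X a b = X ((eS j).symm (eS j a)) ((eS j).symm (eS j b))
      rw [Equiv.symm_apply_apply, Equiv.symm_apply_apply]
    have h2 := hv (X.submatrix (eS j).symm (eS j).symm) (by
      show (X.submatrix (eS j).symm (eS j).symm)ᵀ = -(X.submatrix (eS j).symm (eS j).symm)
      rw [transpose_submatrix, hX]
      rfl)
    rw [rho'_D, ← h1] at h2
    exact h2
  · intro hv X hX
    rw [rho'_D]
    refine hv _ ⟨thL j X, ?_, rfl⟩
    rw [← thL_transpose, show Xᵀ = -X from hX, map_neg]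

theorem up_diag (j m : ℕ) (h : j + 1 ≤ m) (X : Matrix (C j) (C j) ℝ) :
    up (j + 1) m h (thL j (fromBlocks X 0 0 X)) = up j m (Nat.le_of_succ_le h) X := by
  ext x y
  rw [upth_apply]
  simp only [up, of_apply, cd]
  by_cases h1 : ∀ i : Fin m, j + 1 ≤ i.val → x i = y i
  · rw [if_pos h1]
    by_cases h2 : x ⟨j, h⟩ = y ⟨j, h⟩
    · have h3 : ∀ i : Fin m, j ≤ i.val → x i = y i := by
        intro i hi
        rcases hi.eq_or_lt with hi | hi
        · have : i = ⟨j, h⟩ := Fin.ext hi.symm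
          rw [this]; exact h2
        · exact h1 i hi
      rw [if_pos h3]
      by_cases h4 : y ⟨j, h⟩ = 0
      · rw [if_pos (h2.trans h4), if_pos h4, fromBlocks_apply₁₁]
      · rw [if_neg (fun h5 => h4 (h2.symm.trans h5)), if_neg h4, fromBlocks_apply₂₂]
    · have h3 : ¬ ∀ i : Fin m, j ≤ i.val → x i = y i := fun h4 => h2 (h4 ⟨j, h⟩ le_rfl)
      rw [if_neg h3]
      by_cases h4 : x ⟨j, h⟩ = 0
      · have h5 : y ⟨j, h⟩ ≠ 0 := fun h6 => h2 (h4.trans h6.symm)
        rw [if_pos h4, if_neg h5, fromBlocks_apply₁₂]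
        rfl
      · have h5 : y ⟨j, h⟩ = 0 := by
          revert h2 h4
          generalize x ⟨j, h⟩ = a
          generalize y ⟨j, h⟩ = b
          revert a b
          decide
        rw [if_neg h4, if_pos h5, fromBlocks_apply₂₁]
        rfl
  · have h3 : ¬ ∀ i : Fin m, j ≤ i.val → x i = y i := fun h4 => h1 fun i hi => h4 i (by omega)
    rw [if_neg h1, if_neg h3]

theorem rho'_inv_soD (j m : ℕ) (h : j + 1 ≤ m) (ρ : PRep (C m) V) :
    (rho' j m h ρ).inv (soD (C j)) = ρ.inv (lvl j m (Nat.le_of_succ_le h)) := by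
  ext v
  constructor
  · rintro hv Z ⟨X, hX, rfl⟩
    have h2 := hv (fromBlocks X 0 0 X) ⟨X, hX, rfl⟩
    rw [rho'_D, up_diag] at h2
    exact h2
  · rintro hv Z ⟨X, hX, rfl⟩
    rw [rho'_D, up_diag]
    exact hv _ ⟨X, hX, rfl⟩

theorem fix_closure (m : ℕ) (ρ : PRep (C m) V) (v : V) (hv : ∀ σ ∈ TV m, ρ.R (pm σ) v = v)
    {σ : Equiv.Perm (C m)} (hσ : σ ∈ Subgroup.closure (TV m)) : ρ.R (pm σ) v = v := by
  induction hσ using Subgroup.closure_induction with
  | mem σ hσ => exact hv σ hσ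
  | one => rw [pm_one, ρ.one]
  | mul σ τ _ _ h1 h2 => rw [pm_mul, ρ.mul, h2, h1]
  | inv σ _ h1 =>
    have h2 := ρ.R_inv (pm σ) (pm_orth σ) v
    rw [h1, pm_transpose] at h2
    exact h2

end

theorem ex1 {m : ℕ} (j : Fin m) (a : C m) (S : Finset (Fin m)) (hS : j ∉ S) :
    ∃ σ ∈ Subgroup.closure (TV m), ∀ x : C m, ∀ i, σ x i = x i + if i ∈ S then a i * x j else 0 := by
  induction S using Finset.induction_on with
  | empty => exact ⟨1, one_mem _, fun x i => by simp⟩
  | insert s S hs ih =>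
    obtain ⟨σ, hσ, h1⟩ := ih (fun h => hS (Finset.mem_insert_of_mem h))
    have hsj : s ≠ j := fun h => hS (h ▸ Finset.mem_insert_self s S)
    have hjS : j ∉ S := fun h => hS (Finset.mem_insert_of_mem h)
    by_cases ha : a s = 0
    · refine ⟨σ, hσ, fun x i => ?_⟩
      rw [h1]
      by_cases hi : i = s
      · subst hi
        rw [if_neg hs, if_pos (Finset.mem_insert_self _ _), ha, zero_mul]
      · have : i ∈ insert s S ↔ i ∈ S := by simp [hi]
        simp only [this]
    · have ha1 : a s = 1 := by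
        revert ha
        generalize a s = z
        revert z
        decide
      refine ⟨tv s j hsj * σ, mul_mem (Subgroup.subset_closure (tv_mem s j hsj)) hσ, fun x i => ?_⟩
      rw [Equiv.Perm.mul_apply, tv_apply, Pi.add_apply, h1, h1, if_neg hjS, add_zero]
      by_cases hi : i = s
      · subst hi
        rw [if_neg hs, if_pos (Finset.mem_insert_self _ _), ha1, one_mul, Pi.single_eq_same,
          add_zero]
      · have : i ∈ insert s S ↔ i ∈ S := by simp [hi]
        simp only [this, Pi.single_eq_of_ne hi, add_zero]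

theorem ex2 {m : ℕ} (j : Fin m) (b : C m) (S : Finset (Fin m)) (hS : j ∉ S) :
    ∃ σ ∈ Subgroup.closure (TV m), ∀ x : C m,
      σ x = x + Pi.single j (∑ s ∈ S, b s * x s) := by
  induction S using Finset.induction_on with
  | empty => exact ⟨1, one_mem _, fun x => by simp⟩
  | insert s S hs ih =>
    obtain ⟨σ, hσ, h1⟩ := ih (fun h => hS (Finset.mem_insert_of_mem h))
    have hsj : s ≠ j := fun h => hS (h ▸ Finset.mem_insert_self s S)
    by_cases hb : b s = 0
    · refine ⟨σ, hσ, fun x => ?_⟩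
      rw [h1, Finset.sum_insert hs, hb, zero_mul, zero_add]
    · have hb1 : b s = 1 := by
        revert hb
        generalize b s = z
        revert z
        decide
      refine ⟨tv j s hsj.symm * σ, mul_mem (Subgroup.subset_closure (tv_mem j s hsj.symm)) hσ,
        fun x => ?_⟩
      rw [Equiv.Perm.mul_apply, tv_apply, h1, Finset.sum_insert hs, hb1, one_mul, Pi.add_apply,
        Pi.single_eq_of_ne hsj, add_zero, Pi.single_add, add_assoc, add_comm (Pi.single j _)]

theorem z2 (z : ZMod 2) (h : z ≠ 0) : z = 1 := by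
  revert h
  revert z
  decide

theorem one_sq (j : ℕ) (x y : C j) :
    (1 : Matrix (C j) (C j) ℝ) x y = if x = y then 1 else 0 := Matrix.one_apply

theorem upth_eq_pm (j m : ℕ) (h : j + 1 ≤ m) (M : Matrix (C j ⊕ C j) (C j ⊕ C j) ℝ)
    (σ : Equiv.Perm (C m)) (h1 : ∀ y : C m, ∀ i : Fin m, j + 1 ≤ i.val → σ y i = y i)
    (h2 : ∀ x y : C m, M (cd j m h x) (cd j m h y) = if x ⟨j, h⟩ = σ y ⟨j, h⟩ ∧
      ∀ i : Fin j, x (Fin.castLE (Nat.le_of_succ_le h) i) =
        σ y (Fin.castLE (Nat.le_of_succ_le h) i) then 1 else 0) :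
    up (j + 1) m h (thL j M) = pm σ := by
  ext x y
  rw [upth_apply, pm_apply]
  by_cases h4 : ∀ i : Fin m, j + 1 ≤ i.val → x i = y i
  · rw [if_pos h4, h2]
    have h5 : (x = σ y) ↔ (x ⟨j, h⟩ = σ y ⟨j, h⟩ ∧
      ∀ i : Fin j, x (Fin.castLE (Nat.le_of_succ_le h) i) =
        σ y (Fin.castLE (Nat.le_of_succ_le h) i)) := by
      rw [eq_iff j m h x (σ y)]
      constructor
      · exact fun hc => hc.2
      · exact fun hc => ⟨fun i hi => (h4 i hi).trans (h1 y i hi).symm, hc⟩
    by_cases h6 : x = σ y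
    · rw [if_pos h6, if_pos (h5.1 h6)]
    · rw [if_neg h6, if_neg (fun hc => h6 (h5.2 hc))]
  · rw [if_neg h4, if_neg]
    intro hc
    exact h4 fun i hi => by rw [hc, h1 y i hi]

theorem x_blk (j m : ℕ) (h : j + 1 ≤ m) (a : C j) : ∃ σ ∈ Subgroup.closure (TV m),
    up (j + 1) m h (thL j (fromBlocks 1 0 0 (pm (Equiv.addRight a)))) = pm σ := by
  obtain ⟨σ, hσ, h1⟩ := ex1 (⟨j, h⟩ : Fin m)
    (fun i => if hi : i.val < j then a ⟨i.val, hi⟩ else 0)
    (Finset.univ.filter fun i => i.val < j) (by simp)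
  have h2 : ∀ y : C m, ∀ i : Fin m, j ≤ i.val → σ y i = y i := by
    intro y i hi
    rw [h1, if_neg, add_zero]
    simp only [Finset.mem_filter, Finset.mem_univ, true_and]
    omega
  have h3 : ∀ y : C m, ∀ i : Fin j, σ y (Fin.castLE (Nat.le_of_succ_le h) i) =
      y (Fin.castLE (Nat.le_of_succ_le h) i) + a i * y ⟨j, h⟩ := by
    intro y i
    rw [h1, if_pos]
    · simp only [Fin.val_castLE, i.2, dif_pos]
    · simp only [Finset.mem_filter, Finset.mem_univ, true_and, Fin.val_castLE, i.2]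
  refine ⟨σ, hσ, upth_eq_pm j m h _ σ (fun y i hi => h2 y i (by omega)) fun x y => ?_⟩
  rw [h2 y ⟨j, h⟩ le_rfl]
  simp only [h3]
  by_cases hx : x ⟨j, h⟩ = 0
  · have hcx : cd j m h x = Sum.inl (fun i => x (Fin.castLE (Nat.le_of_succ_le h) i)) :=
      if_pos hx
    by_cases hy : y ⟨j, h⟩ = 0
    · have hcy : cd j m h y = Sum.inl (fun i => y (Fin.castLE (Nat.le_of_succ_le h) i)) :=
        if_pos hy
      rw [hcx, hcy, fromBlocks_apply₁₁, one_sq]
      simp only [hx, hy, mul_zero, add_zero, true_and, funext_iff]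
    · have hcy : cd j m h y = Sum.inr (fun i => y (Fin.castLE (Nat.le_of_succ_le h) i)) :=
        if_neg hy
      rw [hcx, hcy, fromBlocks_apply₁₂, if_neg (fun hc => hy (hc.1.symm.trans hx))]
      rfl
  · have hcx : cd j m h x = Sum.inr (fun i => x (Fin.castLE (Nat.le_of_succ_le h) i)) :=
      if_neg hx
    by_cases hy : y ⟨j, h⟩ = 0
    · have hcy : cd j m h y = Sum.inl (fun i => y (Fin.castLE (Nat.le_of_succ_le h) i)) :=
        if_pos hy
      rw [hcx, hcy, fromBlocks_apply₂₁, if_neg (fun hc => hx (hc.1.trans hy))]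
      rfl
    · have hcy : cd j m h y = Sum.inr (fun i => y (Fin.castLE (Nat.le_of_succ_le h) i)) :=
        if_neg hy
      rw [hcx, hcy, fromBlocks_apply₂₂, pm_apply]
      simp only [z2 _ hx, z2 _ hy, mul_one, true_and, funext_iff]
      rfl

theorem gPQ_blk (j : ℕ) (f : Matrix (C j) (C j) ℝ) :
    gPQ (C j) * fromBlocks 1 0 0 f * gPQ (C j) =
      fromBlocks ((1 / 2 : ℝ) • (1 + f)) ((1 / 2 : ℝ) • (1 - f)) ((1 / 2 : ℝ) • (1 - f))
        ((1 / 2 : ℝ) • (1 + f)) := by
  have h1 : (Real.sqrt 2)⁻¹ * (Real.sqrt 2)⁻¹ = (1 / 2 : ℝ) := by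
    rw [← mul_inv, Real.mul_self_sqrt (by norm_num)]
    norm_num
  unfold gPQ
  rw [smul_mul_assoc, smul_mul_assoc, mul_smul_comm, smul_smul, h1, fromBlocks_multiply,
    fromBlocks_multiply, fromBlocks_smul]
  congr 1
  · congr 1; simp
  · congr 1; simp [sub_eq_add_neg]
  · congr 1; simp [sub_eq_add_neg]
  · congr 1; simp

theorem sgn_cases (z : ZMod 2) : (z = 0 ∧ sgn z = 1) ∨ (z = 1 ∧ sgn z = -1) := by
  by_cases h : z = 0
  · exact Or.inl ⟨h, if_pos h⟩
  · exact Or.inr ⟨z2 z h, if_neg h⟩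

theorem z_entry (s t : ZMod 2) (P : Prop) [Decidable P] (z : ZMod 2) (d : ℝ)
    (hd : (z = 0 ∧ d = 1) ∨ (z = 1 ∧ d = -1)) :
    (if s = t then (1 / 2 : ℝ) * ((if P then 1 else 0) + (if P then d else 0))
      else (1 / 2 : ℝ) * ((if P then 1 else 0) - (if P then d else 0))) =
      if s = t + z ∧ P then 1 else 0 := by
  by_cases hP : P
  · simp only [hP, if_true, and_true]
    rcases hd with ⟨rfl, rfl⟩ | ⟨rfl, rfl⟩
    · by_cases hst : s = t
      · simp only [hst, if_true, add_zero]; norm_num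
      · simp only [hst, if_false, add_zero]; norm_num
    · have : (s = t + 1) ↔ ¬ (s = t) := by
        revert s t
        decide
      by_cases hst : s = t
      · have h2 : ¬ (s = t + 1) := fun h => (this.1 h) hst
        rw [if_pos hst, if_neg h2]; norm_num
      · have h2 : s = t + 1 := this.2 hst
        rw [if_neg hst, if_pos h2]; norm_num
  · simp [hP]

theorem z_blk (j m : ℕ) (h : j + 1 ≤ m) (b : C j) : ∃ σ ∈ Subgroup.closure (TV m),
    up (j + 1) m h (thL j (gPQ (C j) * fromBlocks 1 0 0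
      (Matrix.diagonal fun x : C j => sgn (∑ i, b i * x i)) * gPQ (C j))) = pm σ := by
  obtain ⟨σ, hσ, h1⟩ := ex2 (⟨j, h⟩ : Fin m)
    (fun i => if hi : i.val < j then b ⟨i.val, hi⟩ else 0)
    (Finset.univ.map (Fin.castLEEmb (Nat.le_of_succ_le h))) (by
      simp only [Finset.mem_map, Finset.mem_univ, true_and, not_exists]
      intro i hi
      have := congrArg Fin.val hi
      simp only [Fin.coe_castLEEmb, Fin.val_castLE] at this
      have h2 := i.2
      omega)
  have h2 : ∀ y : C m, ∀ i : Fin m, i.val ≠ j → σ y i = y i := by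
    intro y i hi
    rw [h1, Pi.add_apply, Pi.single_eq_of_ne, add_zero]
    intro h'
    exact hi (congrArg Fin.val h')
  have h3 : ∀ y : C m, σ y ⟨j, h⟩ = y ⟨j, h⟩ +
      ∑ i : Fin j, b i * y (Fin.castLE (Nat.le_of_succ_le h) i) := by
    intro y
    rw [h1, Pi.add_apply, Pi.single_eq_same, Finset.sum_map]
    congr 1
    refine Finset.sum_congr rfl fun i _ => ?_
    have h5 : (Fin.castLE (Nat.le_of_succ_le h) i).val < j := i.2
    show (if hi : (Fin.castLE (Nat.le_of_succ_le h) i).val < j then b ⟨_, hi⟩ else 0) *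
      y (Fin.castLE (Nat.le_of_succ_le h) i) = _
    rw [dif_pos h5]
    rfl
  have h6 : ∀ y : C m, ∀ i : Fin j, σ y (Fin.castLE (Nat.le_of_succ_le h) i) =
      y (Fin.castLE (Nat.le_of_succ_le h) i) := fun y i => h2 y _ (by
        simp only [Fin.val_castLE]; have := i.2; omega)
  refine ⟨σ, hσ, upth_eq_pm j m h _ σ (fun y i hi => h2 y i (by omega)) fun x y => ?_⟩
  rw [h3 y, gPQ_blk]
  simp only [h6]
  have h7 := z_entry (x ⟨j, h⟩) (y ⟨j, h⟩)
    (∀ i : Fin j, x (Fin.castLE (Nat.le_of_succ_le h) i) = y (Fin.castLE (Nat.le_of_succ_le h) i))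
    (∑ i : Fin j, b i * y (Fin.castLE (Nat.le_of_succ_le h) i))
    (sgn (∑ i : Fin j, b i * y (Fin.castLE (Nat.le_of_succ_le h) i))) (sgn_cases _)
  have h8 : ∀ (u w : C j), (Matrix.diagonal fun x : C j => sgn (∑ i, b i * x i)) u w =
      if u = w then sgn (∑ i, b i * w i) else 0 := by
    intro u w
    by_cases huw : u = w
    · rw [huw, Matrix.diagonal_apply_eq, if_pos rfl]
    · rw [Matrix.diagonal_apply_ne _ huw, if_neg huw]
  have h9 : ∀ (u w : C j), ((1 / 2 : ℝ) • (1 + Matrix.diagonal fun x : C j => sgn (∑ i, b i * x i))) u w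
      = (1 / 2 : ℝ) * ((if ∀ i, u i = w i then 1 else 0) +
        (if ∀ i, u i = w i then sgn (∑ i, b i * w i) else 0)) := by
    intro u w
    rw [Matrix.smul_apply, Matrix.add_apply, h8, one_sq, smul_eq_mul]
    simp only [funext_iff]
  have h10 : ∀ (u w : C j), ((1 / 2 : ℝ) • (1 - Matrix.diagonal fun x : C j => sgn (∑ i, b i * x i))) u w
      = (1 / 2 : ℝ) * ((if ∀ i, u i = w i then 1 else 0) -
        (if ∀ i, u i = w i then sgn (∑ i, b i * w i) else 0)) := by
    intro u w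
    rw [Matrix.smul_apply, Matrix.sub_apply, h8, one_sq, smul_eq_mul]
    simp only [funext_iff]
  rw [← h7]
  by_cases hx : x ⟨j, h⟩ = 0
  · have hcx : cd j m h x = Sum.inl (fun i => x (Fin.castLE (Nat.le_of_succ_le h) i)) :=
      if_pos hx
    by_cases hy : y ⟨j, h⟩ = 0
    · have hcy : cd j m h y = Sum.inl (fun i => y (Fin.castLE (Nat.le_of_succ_le h) i)) :=
        if_pos hy
      rw [hcx, hcy, fromBlocks_apply₁₁, h9, if_pos (hx.trans hy.symm)]
    · have hcy : cd j m h y = Sum.inr (fun i => y (Fin.castLE (Nat.le_of_succ_le h) i)) :=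
        if_neg hy
      have hne : ¬ (x ⟨j, h⟩ = y ⟨j, h⟩) := fun hc => hy (hc.symm.trans hx)
      rw [hcx, hcy, fromBlocks_apply₁₂, h10, if_neg hne]
  · have hcx : cd j m h x = Sum.inr (fun i => x (Fin.castLE (Nat.le_of_succ_le h) i)) :=
      if_neg hx
    by_cases hy : y ⟨j, h⟩ = 0
    · have hcy : cd j m h y = Sum.inl (fun i => y (Fin.castLE (Nat.le_of_succ_le h) i)) :=
        if_pos hy
      have hne : ¬ (x ⟨j, h⟩ = y ⟨j, h⟩) := fun hc => hx (hc.trans hy)
      rw [hcx, hcy, fromBlocks_apply₂₁, h10, if_neg hne]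
    · have hcy : cd j m h y = Sum.inr (fun i => y (Fin.castLE (Nat.le_of_succ_le h) i)) :=
        if_neg hy
      rw [hcx, hcy, fromBlocks_apply₂₂, h9, if_pos ((z2 _ hx).trans (z2 _ hy).symm)]

end LevelAux

theorem taskLevel (hS : TaskStep) (hU : TaskUp) : TaskLevel := by
  have _ := hU
  intro j m h β τ hβ0 hβ1 hτβ hτ hX hZ hT V _ _ _ ρ v hv
  have h1 := hS (C j) β τ (FX j) (FZ j) hβ0 hβ1 hτβ hτ hX hZ hT V (rho' j m h ρ) v ?_ ?_
  · simp only [rho'_inv_so, rho'_inv_soD] at h1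
    exact h1
  · intro f hf
    obtain ⟨a, -, rfl⟩ := Finset.mem_image.1 hf
    obtain ⟨σ, hσ, h2⟩ := x_blk j m h a
    rw [rho'_R, h2]
    exact fix_closure m ρ v hv hσ
  · intro f hf
    obtain ⟨b, -, rfl⟩ := Finset.mem_image.1 hf
    obtain ⟨σ, hσ, h2⟩ := z_blk j m h b
    rw [rho'_R, h2]
    exact fix_closure m ρ v hv hσ

end Pool.Agent.Helper172_SO
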