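import Pool.Agent.Helper172_SO.Blocks

set_option autoImplicit false
set_option linter.unusedSectionVars false

namespace Pool.Agent.Helper172_SO

open Matrix

section
variable {α : Type} [Fintype α] [DecidableEq α]

theorem gPQ_tr : (gPQ α)ᵀ = gPQ α := by
  rw [gPQ, transpose_smul, fromBlocks_transpose]
  simp

theorem gPQ_mul : gPQ α * gPQ α = 1 := by
  rw [gPQ, smul_mul_smul_comm, fromBlocks_multiply]
  have h2 : (Real.sqrt 2)⁻¹ * (Real.sqrt 2)⁻¹ = (2 : ℝ)⁻¹ := by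
    rw [← mul_inv, Real.mul_self_sqrt (by norm_num)]
  rw [h2]
  simp only [Matrix.one_mul, Matrix.mul_one, Matrix.mul_neg, Matrix.neg_mul, neg_neg]
  rw [fromBlocks_smul, ← fromBlocks_one]
  congr 1
  · rw [← two_smul ℝ (1 : Matrix α α ℝ), smul_smul]; norm_num
  · simp
  · simp
  · rw [← two_smul ℝ (1 : Matrix α α ℝ), smul_smul]; norm_num

theorem gPQ_orth : (gPQ α)ᵀ * gPQ α = 1 := by rw [gPQ_tr, gPQ_mul]

/-- conjugation by `gPQ` exchanges the commutants of `P` and `Q` -/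
theorem gPQ_conj (X Y : Matrix α α ℝ) :
    gPQ α * fromBlocks X Y Y X * gPQ α = fromBlocks (X + Y) 0 0 (X - Y) := by
  rw [gPQ, smul_mul_assoc, smul_mul_smul_comm, fromBlocks_multiply, fromBlocks_multiply]
  have h2 : (Real.sqrt 2)⁻¹ * (Real.sqrt 2)⁻¹ = (2 : ℝ)⁻¹ := by
    rw [← mul_inv, Real.mul_self_sqrt (by norm_num)]
  rw [h2]
  simp only [Matrix.one_mul, Matrix.mul_one, Matrix.mul_neg, Matrix.neg_mul, neg_neg]
  rw [fromBlocks_smul]
  congr 1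
  · rw [show X + Y + (Y + X) = (2 : ℝ) • (X + Y) by rw [two_smul]; abel, smul_smul]; norm_num
  · rw [show X + Y + -(Y + X) = 0 by abel, smul_zero]
  · rw [show X + -Y + (Y + -X) = 0 by abel, smul_zero]
  · rw [show X + -Y + -(Y + -X) = (2 : ℝ) • (X - Y) by rw [two_smul]; abel, smul_smul]; norm_num

end

section
variable {α : Type} [Fintype α] [DecidableEq α] {V : Type} [NormedAddCommGroup V]
  [InnerProductSpace ℝ V] [FiniteDimensional ℝ V]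

theorem pyth (P : Submodule ℝ V) (v : V) :
    ‖v‖ ^ 2 = ‖P.starProjection v‖ ^ 2 + ‖v - P.starProjection v‖ ^ 2 := by
  have h0 : inner ℝ (P.starProjection v) (v - P.starProjection v) = 0 :=
    (mem_orth.mp (P.sub_starProjection_mem_orthogonal v)) _ (proj_mem P v)
  have h1 : v = P.starProjection v + (v - P.starProjection v) := by abel
  conv_lhs => rw [h1]
  rw [norm_add_sq_real, h0]; ring

/-- corollary of the transfer lemma: for `x` invariant under the diagonal group -/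
theorem transferA (hT : TaskTransfer) (β : ℝ) (F : Finset (Matrix α α ℝ)) (hF : Good β F)
    (hβ : 0 ≤ β) (ρ : PRep (α ⊕ α) V) (x : V) (hx : x ∈ ρ.inv (soD α)) :
    ‖(ρ.fix ((fun f => fromBlocks 1 0 0 f) '' (F : Set (Matrix α α ℝ)))).starProjection x‖ ^ 2 ≤
      ‖(ρ.inv (soSS α)).starProjection x‖ ^ 2 + β * ‖x‖ ^ 2 := by
  set K := ρ.fix ((fun f => fromBlocks 1 0 0 f) '' (F : Set (Matrix α α ℝ))) with hK
  set x₁ := (ρ.inv (soSS α)).starProjection x with hx₁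
  set x₂ := x - x₁ with hx₂
  have m1 : x₁ ∈ ρ.inv (soSS α) := proj_mem _ _
  have m2 : x₂ ∈ (ρ.inv (soSS α))ᗮ := (ρ.inv (soSS α)).sub_starProjection_mem_orthogonal x
  have m2' : x₂ ∈ ρ.inv (soD α) := Submodule.sub_mem _ hx (invSS_le_invD ρ m1)
  have mK : x₁ ∈ K := by
    rintro _ ⟨f, hf, rfl⟩
    exact R_of_invSS ρ m1 isSO_one (hF.1.isSO f hf)
  have e : K.starProjection x = x₁ + K.starProjection x₂ := by
    have : x = x₁ + x₂ := by rw [hx₂]; abel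
    conv_lhs => rw [this]
    rw [map_add, proj_of_mem mK]
  have o : inner ℝ x₁ (K.starProjection x₂) = 0 := by
    rw [← proj_sym, proj_of_mem mK]
    exact (mem_orth.mp m2) _ m1
  have hn : ‖K.starProjection x‖ ^ 2 = ‖x₁‖ ^ 2 + ‖K.starProjection x₂‖ ^ 2 := by
    rw [e, norm_add_sq_real, o]; ring
  have ht := hT α β F hF V ρ x₂ ⟨m2', m2⟩
  have hs : ‖x₂‖ ^ 2 ≤ ‖x‖ ^ 2 := by
    have := pyth (ρ.inv (soSS α)) x
    nlinarith [sq_nonneg ‖x₁‖]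
  rw [hn]
  nlinarith

end

theorem taskStep (hT : TaskTransfer) : TaskStep := by
  intro α _ _ β τ F₁ F₂ hβ0 hβ1 hτβ hτ0 hF₁ hF₂ hτ V _ _ _ ρ v hv1 hv2
  set P0 := (ρ.inv (so (α ⊕ α))).starProjection v with hP0
  set PP := (ρ.inv (soSS α)).starProjection v with hPP
  set PD := (ρ.inv (soD α)).starProjection v with hPD
  have le0 : ρ.inv (so (α ⊕ α)) ≤ ρ.inv (soSS α) := inv_so_le ρ _ fun Z => skew_SS
  have le1 := invSS_le_invD ρ
  have mP0 : P0 ∈ ρ.inv (so (α ⊕ α)) := proj_mem _ _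
  have mPP : PP ∈ ρ.inv (soSS α) := proj_mem _ _
  have mPD : PD ∈ ρ.inv (soD α) := proj_mem _ _
  have oP0 : ∀ z ∈ ρ.inv (so (α ⊕ α)), inner ℝ z (v - P0) = 0 :=
    mem_orth.mp ((ρ.inv (so (α ⊕ α))).sub_starProjection_mem_orthogonal v)
  have oPP : ∀ z ∈ ρ.inv (soSS α), inner ℝ z (v - PP) = 0 :=
    mem_orth.mp ((ρ.inv (soSS α)).sub_starProjection_mem_orthogonal v)
  have oPD : ∀ z ∈ ρ.inv (soD α), inner ℝ z (v - PD) = 0 :=
    mem_orth.mp ((ρ.inv (soD α)).sub_starProjection_mem_orthogonal v)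
  have s0 : ‖v‖ ^ 2 - ‖P0‖ ^ 2 = ‖v - P0‖ ^ 2 := by
    have := pyth (ρ.inv (so (α ⊕ α))) v
    linarith
  have sP : ‖v‖ ^ 2 - ‖PP‖ ^ 2 = ‖v - PP‖ ^ 2 := by
    have := pyth (ρ.inv (soSS α)) v
    linarith
  -- part (i)
  have hi : ‖PD - PP‖ ^ 2 ≤ β * ‖v - PP‖ ^ 2 := by
    set u := PD - PP with hu
    have muD : u ∈ ρ.inv (soD α) := Submodule.sub_mem _ mPD (le1 mPP)
    have muO : u ∈ (ρ.inv (soSS α))ᗮ := by
      rw [mem_orth]
      intro z hz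
      have a := oPP z hz
      have b := oPD z (le1 hz)
      have : u = (v - PP) - (v - PD) := by rw [hu]; abel
      rw [this, inner_sub_right, a, b, sub_zero]
    have e1 : ‖u‖ ^ 2 = inner ℝ u (v - PP) := by
      have a := oPD u muD
      have : v - PP = (v - PD) + u := by rw [hu]; abel
      rw [this, inner_add_right, a, zero_add, real_inner_self_eq_norm_sq]
    set K := ρ.fix ((fun f => fromBlocks 1 0 0 f) '' (F₁ : Set (Matrix α α ℝ))) with hK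
    have mK : v - PP ∈ K := by
      apply Submodule.sub_mem
      · rintro _ ⟨f, hf, rfl⟩
        exact hv1 f hf
      · rintro _ ⟨f, hf, rfl⟩
        exact R_of_invSS ρ mPP isSO_one (hF₁.1.isSO f hf)
    have e2 : inner ℝ u (v - PP) = inner ℝ (K.starProjection u) (v - PP) := by
      rw [proj_sym, proj_of_mem mK]
    have ht := hT α β F₁ hF₁ V ρ u ⟨muD, muO⟩
    have cs := real_inner_le_norm (K.starProjection u) (v - PP)
    have e3 : ‖u‖ ^ 2 ≤ ‖K.starProjection u‖ * ‖v - PP‖ := by rw [e1, e2]; exact cs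
    have e4 : (‖u‖ ^ 2) ^ 2 ≤ β * ‖u‖ ^ 2 * ‖v - PP‖ ^ 2 := by
      calc (‖u‖ ^ 2) ^ 2 ≤ (‖K.starProjection u‖ * ‖v - PP‖) ^ 2 := by
            apply pow_le_pow_left₀ (by positivity) e3
        _ = ‖K.starProjection u‖ ^ 2 * ‖v - PP‖ ^ 2 := by ring
        _ ≤ β * ‖u‖ ^ 2 * ‖v - PP‖ ^ 2 := by
            apply mul_le_mul_of_nonneg_right ht (by positivity)
    by_cases h0 : ‖u‖ ^ 2 = 0
    · rw [h0]; positivity
    · have hpos : 0 < ‖u‖ ^ 2 := lt_of_le_of_ne (by positivity) (Ne.symm h0)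
      have : ‖u‖ ^ 2 * ‖u‖ ^ 2 ≤ ‖u‖ ^ 2 * (β * ‖v - PP‖ ^ 2) := by nlinarith
      exact le_of_mul_le_mul_left this hpos
  -- part (ii)
  have hii : ‖PP - P0‖ ^ 2 ≤ (τ ^ 2 + β) * ‖v - P0‖ ^ 2 := by
    set u := PP - P0 with hu
    have muP : u ∈ ρ.inv (soSS α) := Submodule.sub_mem _ mPP (le0 mP0)
    have muO : u ∈ (ρ.inv (so (α ⊕ α)))ᗮ := by
      rw [mem_orth]
      intro z hz
      have a := oP0 z hz
      have b := oPP z (le0 hz)
      have : u = (v - P0) - (v - PP) := by rw [hu]; abel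
      rw [this, inner_sub_right, a, b, sub_zero]
    have e1 : ‖u‖ ^ 2 = inner ℝ u (v - P0) := by
      have a := oPP u muP
      have : v - P0 = (v - PP) + u := by rw [hu]; abel
      rw [this, inner_add_right, a, zero_add, real_inner_self_eq_norm_sq]
    set g := gPQ α with hg
    set x := ρ.R g u with hx
    set y := ρ.R g (v - P0) with hy
    have nx : ‖x‖ = ‖u‖ := ρ.norm_R g gPQ_orth u
    have ny : ‖y‖ = ‖v - P0‖ := ρ.norm_R g gPQ_orth _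
    have exy : inner ℝ u (v - P0) = inner ℝ x y := (ρ.inner_R g gPQ_orth _ _).symm
    have mxQ : x ∈ ρ.inv (soQ α) := by
      refine R_mem_inv ρ gPQ_orth (soSS α) (soQ α) ?_ muP
      rintro _ ⟨X, Y, hX, hY, rfl⟩
      rw [gPQ_tr, gPQ_conj]
      exact ⟨X + Y, X - Y, by rw [transpose_add, hX, hY]; abel,
        by rw [transpose_sub, hX, hY]; abel, rfl⟩
    have mxO : x ∈ (ρ.inv (so (α ⊕ α)))ᗮ := R_mem_orth ρ gPQ_orth muO
    have mxD : x ∈ ρ.inv (soD α) := invQ_le_invD ρ mxQ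
    set K := ρ.fix ((fun f => fromBlocks 1 0 0 f) '' (F₂ : Set (Matrix α α ℝ))) with hK
    have myK : y ∈ K := by
      rintro _ ⟨f, hf, rfl⟩
      have hf1 : ρ.R (g * fromBlocks 1 0 0 f * g) (v - P0) = v - P0 := by
        rw [map_sub, hv2 f hf]
        congr 1
        apply ρ.R_of_inv P0 mP0
        have hfs := isSO_blocks isSO_one (hF₂.1.isSO f hf)
        refine ⟨?_, ?_⟩
        · rw [Matrix.transpose_mul, Matrix.transpose_mul, hg, gPQ_tr]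
          calc gPQ α * ((fromBlocks 1 0 0 f)ᵀ * gPQ α) * (gPQ α * fromBlocks 1 0 0 f * gPQ α)
              = gPQ α * ((fromBlocks 1 0 0 f)ᵀ * (gPQ α * gPQ α) * fromBlocks 1 0 0 f) * gPQ α := by
                simp only [Matrix.mul_assoc]
            _ = 1 := by rw [gPQ_mul, Matrix.mul_one, hfs.1, Matrix.mul_one, gPQ_mul]
        · have hd : (gPQ α).det * (gPQ α).det = 1 := by rw [← det_mul, gPQ_mul, det_one]
          rw [det_mul, det_mul, hfs.2, mul_one, hg, hd]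
      have h3 : fromBlocks 1 0 0 f * g = g * (g * fromBlocks 1 0 0 f * g) := by
        rw [← Matrix.mul_assoc, ← Matrix.mul_assoc, hg, gPQ_mul, Matrix.one_mul]
      show ρ.R (fromBlocks 1 0 0 f) (ρ.R g (v - P0)) = ρ.R g (v - P0)
      rw [← ρ.mul, h3, ρ.mul, hf1]
    have e2 : inner ℝ x y = inner ℝ (K.starProjection x) y := by
      rw [proj_sym, proj_of_mem myK]
    have ht := transferA hT β F₂ hF₂ hβ0 ρ x mxD
    -- the `τ` bound
    set x₁ := (ρ.inv (soSS α)).starProjection x with hx₁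
    have mx₁ : x₁ ∈ ρ.inv (soSS α) := proj_mem _ _
    have mx₁O : x₁ ∈ (ρ.inv (so (α ⊕ α)))ᗮ := by
      rw [mem_orth]
      intro z hz
      rw [hx₁, ← proj_sym, proj_of_mem (le0 hz)]
      exact (mem_orth.mp mxO) z hz
    have hb := hτ V ρ x₁ ⟨mx₁, mx₁O⟩ x ⟨mxQ, mxO⟩
    have e5 : inner ℝ x₁ x = ‖x₁‖ ^ 2 := by
      have := mem_orth.mp ((ρ.inv (soSS α)).sub_starProjection_mem_orthogonal x) x₁ mx₁
      rw [inner_sub_right, sub_eq_zero, real_inner_self_eq_norm_sq] at this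
      exact this
    rw [e5, abs_of_nonneg (by positivity)] at hb
    have h6 : ‖x₁‖ ^ 2 ≤ τ ^ 2 * ‖x‖ ^ 2 := by
      by_cases h0 : ‖x₁‖ = 0
      · rw [h0, zero_pow two_ne_zero]; positivity
      · have hpos : 0 < ‖x₁‖ := lt_of_le_of_ne (norm_nonneg _) (Ne.symm h0)
        have h7 : ‖x₁‖ ≤ τ * ‖x‖ := by
          have : ‖x₁‖ * ‖x₁‖ ≤ ‖x₁‖ * (τ * ‖x‖) := by nlinarith
          exact le_of_mul_le_mul_left this hpos
        calc ‖x₁‖ ^ 2 ≤ (τ * ‖x‖) ^ 2 := pow_le_pow_left₀ (norm_nonneg _) h7 2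
          _ = τ ^ 2 * ‖x‖ ^ 2 := by ring
    have h8 : ‖K.starProjection x‖ ^ 2 ≤ (τ ^ 2 + β) * ‖x‖ ^ 2 := by nlinarith
    have cs := real_inner_le_norm (K.starProjection x) y
    have e3 : ‖u‖ ^ 2 ≤ ‖K.starProjection x‖ * ‖y‖ := by rw [e1, exy, e2]; exact cs
    have e4 : (‖u‖ ^ 2) ^ 2 ≤ (τ ^ 2 + β) * ‖u‖ ^ 2 * ‖v - P0‖ ^ 2 := by
      calc (‖u‖ ^ 2) ^ 2 ≤ (‖K.starProjection x‖ * ‖y‖) ^ 2 := by
            apply pow_le_pow_left₀ (by positivity) e3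
        _ = ‖K.starProjection x‖ ^ 2 * ‖y‖ ^ 2 := by ring
        _ ≤ (τ ^ 2 + β) * ‖x‖ ^ 2 * ‖y‖ ^ 2 :=
            mul_le_mul_of_nonneg_right h8 (sq_nonneg _)
        _ = (τ ^ 2 + β) * ‖u‖ ^ 2 * ‖v - P0‖ ^ 2 := by rw [nx, ny]
    by_cases h0 : ‖u‖ ^ 2 = 0
    · rw [h0]; exact mul_nonneg (add_nonneg (sq_nonneg _) hβ0) (sq_nonneg _)
    · have hpos : 0 < ‖u‖ ^ 2 := lt_of_le_of_ne (by positivity) (Ne.symm h0)
      have : ‖u‖ ^ 2 * ‖u‖ ^ 2 ≤ ‖u‖ ^ 2 * ((τ ^ 2 + β) * ‖v - P0‖ ^ 2) := by nlinarith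
      exact le_of_mul_le_mul_left this hpos
  -- Pythagoras
  have p1 : ‖v‖ ^ 2 - ‖PD‖ ^ 2 = ‖v - PP‖ ^ 2 - ‖PD - PP‖ ^ 2 := by
    have a : ‖v‖ ^ 2 = ‖PD‖ ^ 2 + ‖v - PD‖ ^ 2 := pyth _ v
    have b : inner ℝ (PD - PP) (v - PD) = 0 := oPD _ (Submodule.sub_mem _ mPD (le1 mPP))
    have c : v - PP = (PD - PP) + (v - PD) := by abel
    have d : ‖v - PP‖ ^ 2 = ‖PD - PP‖ ^ 2 + ‖v - PD‖ ^ 2 := by
      rw [c, norm_add_sq_real, b]; ring
    linarith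
  have p2 : ‖v‖ ^ 2 - ‖PP‖ ^ 2 = ‖v - P0‖ ^ 2 - ‖PP - P0‖ ^ 2 := by
    have a : ‖v‖ ^ 2 = ‖PP‖ ^ 2 + ‖v - PP‖ ^ 2 := pyth _ v
    have b : inner ℝ (PP - P0) (v - PP) = 0 := oPP _ (Submodule.sub_mem _ mPP (le0 mP0))
    have c : v - P0 = (PP - P0) + (v - PP) := by abel
    have d : ‖v - P0‖ ^ 2 = ‖PP - P0‖ ^ 2 + ‖v - PP‖ ^ 2 := by
      rw [c, norm_add_sq_real, b]; ring
    linarith
  have q1 : (1 - β) * ‖v - PP‖ ^ 2 ≤ ‖v‖ ^ 2 - ‖PD‖ ^ 2 := by rw [p1]; linarith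
  have q2 : (1 - β - τ ^ 2) * ‖v - P0‖ ^ 2 ≤ ‖v - PP‖ ^ 2 := by
    rw [← sP, p2]; linarith
  rw [s0]
  calc (1 - β) * (1 - β - τ ^ 2) * ‖v - P0‖ ^ 2 = (1 - β) * ((1 - β - τ ^ 2) * ‖v - P0‖ ^ 2) := by
        ring
    _ ≤ (1 - β) * ‖v - PP‖ ^ 2 := mul_le_mul_of_nonneg_left q2 (by linarith)
    _ ≤ _ := q1

end Pool.Agent.Helper172_SO
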