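import Pool.Agent.Helper172_SO.Stmts

set_option autoImplicit false

namespace Pool.Agent.Helper172_SO

open Matrix MeasureTheory Topology

namespace TopAux

theorem isSO_mul_Top {α : Type} [Fintype α] [DecidableEq α] {g h : Matrix α α ℝ} (hg : IsSO g)
    (hh : IsSO h) : IsSO (g * h) := by
  refine ⟨?_, ?_⟩
  · rw [Matrix.transpose_mul, Matrix.mul_assoc, ← Matrix.mul_assoc gᵀ, hg.1, Matrix.one_mul, hh.1]
  · rw [Matrix.det_mul, hg.2, hh.2, mul_one]

theorem isSO_one_Top {α : Type} [Fintype α] [DecidableEq α] : IsSO (1 : Matrix α α ℝ) := by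
  refine ⟨?_, ?_⟩ <;> simp

theorem isSO_tr_Top {α : Type} [Fintype α] [DecidableEq α] {g : Matrix α α ℝ} (hg : IsSO g) :
    IsSO gᵀ := by
  refine ⟨?_, ?_⟩
  · rw [Matrix.transpose_transpose]
    exact mul_eq_one_comm.mp hg.1
  · rw [Matrix.det_transpose, hg.2]

/-- the group of rotations -/
def Rot (n : ℕ) : Type := {g : Matrix (Fin n) (Fin n) ℝ // IsSO g}

instance instTopRot (n : ℕ) : TopologicalSpace (Rot n) := instTopologicalSpaceSubtype

instance instGroupRot (n : ℕ) : Group (Rot n) where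
  mul g h := ⟨g.1 * h.1, isSO_mul_Top g.2 h.2⟩
  one := ⟨1, isSO_one_Top⟩
  inv g := ⟨g.1ᵀ, isSO_tr_Top g.2⟩
  mul_assoc a b c := Subtype.ext (Matrix.mul_assoc a.1 b.1 c.1)
  one_mul a := Subtype.ext (Matrix.one_mul a.1)
  mul_one a := Subtype.ext (Matrix.mul_one a.1)
  inv_mul_cancel a := Subtype.ext a.2.1

/-- constructor -/
def mkRot {n : ℕ} (g : Matrix (Fin n) (Fin n) ℝ) (h : IsSO g) : Rot n := ⟨g, h⟩

theorem mkRot_val {n : ℕ} (g : Matrix (Fin n) (Fin n) ℝ) (h : IsSO g) : (mkRot g h).1 = g := rfl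

theorem rot_mul_val (n : ℕ) (a b : Rot n) : (a * b).1 = a.1 * b.1 := rfl

theorem rot_one_val (n : ℕ) : (1 : Rot n).1 = 1 := rfl

theorem rot_inv_val (n : ℕ) (a : Rot n) : (a⁻¹).1 = a.1ᵀ := rfl

theorem rot_val_cont (n : ℕ) : Continuous (fun a : Rot n => a.1) := continuous_subtype_val

instance instTopGroupRot (n : ℕ) : IsTopologicalGroup (Rot n) where
  continuous_mul := by
    refine Continuous.subtype_mk ?_ _
    exact ((rot_val_cont n).comp continuous_fst).matrix_mul ((rot_val_cont n).comp continuous_snd)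
  continuous_inv := by
    refine Continuous.subtype_mk ?_ _
    exact (rot_val_cont n).matrix_transpose

instance instT2Rot (n : ℕ) : T2Space (Rot n) :=
  inferInstanceAs (T2Space {g : Matrix (Fin n) (Fin n) ℝ // IsSO g})

theorem isClosed_SO_Top (n : ℕ) : IsClosed {g : Matrix (Fin n) (Fin n) ℝ | IsSO g} := by
  have h1 : IsClosed {g : Matrix (Fin n) (Fin n) ℝ | gᵀ * g = 1} :=
    isClosed_eq (continuous_id.matrix_transpose.matrix_mul continuous_id) continuous_const
  have h2 : IsClosed {g : Matrix (Fin n) (Fin n) ℝ | g.det = 1} :=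
    isClosed_eq continuous_id.matrix_det continuous_const
  exact h1.inter h2

theorem entry_le_Top {n : ℕ} {g : Matrix (Fin n) (Fin n) ℝ} (hg : IsSO g) (i j : Fin n) :
    g i j ∈ Set.Icc (-1 : ℝ) 1 := by
  have h := congrFun (congrFun hg.1 j) j
  rw [Matrix.mul_apply, Matrix.one_apply_eq] at h
  have h1 : g i j ^ 2 ≤ 1 := by
    rw [← h]
    have : g i j ^ 2 = gᵀ j i * g i j := by rw [Matrix.transpose_apply]; ring
    rw [this]
    refine Finset.single_le_sum (f := fun k => gᵀ j k * g k j) (fun k _ => ?_) (Finset.mem_univ i)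
    simp only [Matrix.transpose_apply]
    exact mul_self_nonneg _
  constructor <;> nlinarith

theorem isCompact_SO_Top (n : ℕ) : IsCompact {g : Matrix (Fin n) (Fin n) ℝ | IsSO g} := by
  have h : IsCompact (Set.pi Set.univ (fun _ : Fin n => Set.pi Set.univ
      (fun _ : Fin n => Set.Icc (-1 : ℝ) 1))) :=
    isCompact_univ_pi fun _ => isCompact_univ_pi fun _ => isCompact_Icc
  refine IsCompact.of_isClosed_subset h (isClosed_SO_Top n) ?_
  intro g hg i _ j _
  exact entry_le_Top hg i j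

instance instCompactRot (n : ℕ) : CompactSpace (Rot n) :=
  isCompact_iff_compactSpace.1 (isCompact_SO_Top n)

instance instMeasRot (n : ℕ) : MeasurableSpace (Rot n) := borel (Rot n)

instance instBorelRot (n : ℕ) : BorelSpace (Rot n) := ⟨rfl⟩

/-- inclusion -/
def inc (n : ℕ) (g : Rot n) : Fin n → Fin n → ℝ := fun i j => g.1 i j

theorem inc_cont (n : ℕ) : Continuous (inc n) := rot_val_cont n

theorem inc_emb (n : ℕ) : MeasurableEmbedding (inc n) := by
  have : IsClosedEmbedding (inc n) := by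
    refine (inc_cont n).isClosedEmbedding ?_
    intro a b hab
    exact Subtype.ext hab
  exact this.measurableEmbedding

/-- Haar probability measure -/
noncomputable def nuRot (n : ℕ) : Measure (Rot n) := Measure.haarMeasure ⊤

instance instProbRot (n : ℕ) : IsProbabilityMeasure (nuRot n) :=
  ⟨Measure.haarMeasure_self⟩

instance instHaarRot (n : ℕ) : (nuRot n).IsHaarMeasure := by
  unfold nuRot
  infer_instance

theorem isHaar_map_Top (n : ℕ) : IsHaar n ((nuRot n).map (inc n)) := by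
  refine ⟨Measure.isProbabilityMeasure_map (inc_cont n).measurable.aemeasurable, ?_, ?_⟩
  · rw [(inc_emb n).map_apply]
    convert measure_empty (μ := nuRot n)
    ext g
    rw [Set.mem_empty_iff_false, iff_false]
    intro h
    exact h g.2
  · intro g h1 h2
    have e : (fun x : Fin n → Fin n → ℝ => fun i j => ∑ l, g i l * x l j) ∘ inc n =
        inc n ∘ (fun y : Rot n => mkRot g ⟨h1, h2⟩ * y) := by
      funext y
      funext i j
      simp only [Function.comp_apply, inc, rot_mul_val, Matrix.mul_apply]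
      rfl
    have hm : Measurable (fun x : Fin n → Fin n → ℝ => fun i j => ∑ l, g i l * x l j) := by
      refine Continuous.measurable ?_
      fun_prop
    rw [Measure.map_map hm (inc_cont n).measurable, e,
      ← Measure.map_map (inc_cont n).measurable (measurable_const_mul _), map_mul_left_eq_self]

end TopAux

open TopAux in
theorem taskTop : TaskTop := by
  intro n S κ hκ hS hSt hgap g hg
  by_contra hcon
  obtain ⟨g', hg'⟩ : ∃ g' : Rot n, g'.1 = g := ⟨⟨g, hg⟩, rfl⟩
  obtain ⟨H, hH⟩ : ∃ H : Subgroup (Rot n),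
    H = (Subgroup.closure {s : Rot n | s.1 ∈ S}).topologicalClosure := ⟨_, rfl⟩
  have hHcl : IsClosed (H : Set (Rot n)) := by
    rw [hH]
    exact Subgroup.isClosed_topologicalClosure _
  have hSH : ∀ s : Rot n, s.1 ∈ S → s ∈ H := by
    intro s hs
    rw [hH]
    exact Subgroup.le_topologicalClosure _ (Subgroup.subset_closure hs)
  have htr : ∀ x ∈ Submonoid.closure (S : Set (Matrix (Fin n) (Fin n) ℝ)),
      xᵀ ∈ Submonoid.closure (S : Set (Matrix (Fin n) (Fin n) ℝ)) := by
    intro x hx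
    induction hx using Submonoid.closure_induction with
    | mem x hx => exact Submonoid.subset_closure (hSt x hx)
    | one => rw [Matrix.transpose_one]; exact Submonoid.one_mem _
    | mul x y _ _ hx hy => rw [Matrix.transpose_mul]; exact Submonoid.mul_mem _ hy hx
  have hval : ∀ x ∈ Subgroup.closure {s : Rot n | s.1 ∈ S},
      x.1 ∈ Submonoid.closure (S : Set (Matrix (Fin n) (Fin n) ℝ)) := by
    intro x hx
    induction hx using Subgroup.closure_induction with
    | mem x hx => exact Submonoid.subset_closure hx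
    | one => exact Submonoid.one_mem _
    | mul x y _ _ hx hy => exact Submonoid.mul_mem _ hx hy
    | inv x _ hx => exact htr _ hx
  have hgH : g' ∉ H := by
    intro h
    apply hcon
    rw [hH] at h
    have h1 : g' ∈ closure ((Subgroup.closure {s : Rot n | s.1 ∈ S} : Subgroup (Rot n)) :
        Set (Rot n)) := h
    have h2 := image_closure_subset_closure_image (rot_val_cont n) ⟨g', h1, hg'⟩
    refine closure_mono ?_ h2
    rintro _ ⟨x, hx, rfl⟩
    exact hval x hx
  -- separating neighbourhoods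
  obtain ⟨U, O, hUo, hOo, h1U, hgO, hUO⟩ : ∃ U O : Set (Rot n), IsOpen U ∧ IsOpen O ∧
      (1 : Rot n) ∈ U ∧ g' ∈ O ∧ ∀ u ∈ U, ∀ o ∈ O, o * u⁻¹ ∉ H := by
    have hc : Continuous (fun p : Rot n × Rot n => p.2 * p.1⁻¹) := by fun_prop
    have hop : IsOpen ((fun p : Rot n × Rot n => p.2 * p.1⁻¹) ⁻¹' ((H : Set (Rot n))ᶜ)) :=
      hHcl.isOpen_compl.preimage hc
    have hmem : ((1 : Rot n), g') ∈ ((fun p : Rot n × Rot n => p.2 * p.1⁻¹) ⁻¹'
        ((H : Set (Rot n))ᶜ)) := by
      simp only [Set.mem_preimage, inv_one, mul_one, Set.mem_compl_iff, SetLike.mem_coe]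
      exact hgH
    obtain ⟨U, O, hU, hO, h1, h2, h3⟩ := isOpen_prod_iff.1 hop _ _ hmem
    exact ⟨U, O, hU, hO, h1, h2, fun u hu o ho => h3 (Set.mk_mem_prod hu ho)⟩
  -- the invariant set
  obtain ⟨E, hE⟩ : ∃ E : Set (Rot n), E = {y | ∃ h ∈ H, ∃ u ∈ U, y = h * u} := ⟨_, rfl⟩
  have hEo : IsOpen E := by
    have : E = ⋃ h ∈ H, (fun y => h⁻¹ * y) ⁻¹' U := by
      ext y
      rw [hE]
      simp only [Set.mem_iUnion, Set.mem_preimage, exists_prop]
      constructor
      · rintro ⟨h, hh, u, hu, rfl⟩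
        exact ⟨h, hh, by simpa using hu⟩
      · rintro ⟨h, hh, hu⟩
        exact ⟨h, hh, _, hu, by simp⟩
    rw [this]
    exact isOpen_biUnion fun h _ => hUo.preimage (by fun_prop)
  have h1E : (1 : Rot n) ∈ E := by
    rw [hE]
    exact ⟨1, H.one_mem, 1, h1U, by simp⟩
  have hOE : ∀ o ∈ O, o ∉ E := by
    intro o ho hoE
    rw [hE] at hoE
    obtain ⟨h, hh, u, hu, e⟩ := hoE
    apply hUO u hu o ho
    rw [e]
    simpa using hh
  have hinv : ∀ s ∈ H, ∀ y : Rot n, s * y ∈ E ↔ y ∈ E := by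
    intro s hs y
    rw [hE]
    constructor
    · rintro ⟨h, hh, u, hu, e⟩
      refine ⟨s⁻¹ * h, H.mul_mem (H.inv_mem hs) hh, u, hu, ?_⟩
      rw [mul_assoc, ← e]
      simp
    · rintro ⟨h, hh, u, hu, e⟩
      refine ⟨s * h, H.mul_mem hs hh, u, hu, ?_⟩
      rw [e, mul_assoc]
  -- the function
  obtain ⟨μ, hμ⟩ : ∃ μ : Measure (Fin n → Fin n → ℝ), μ = (nuRot n).map (inc n) := ⟨_, rfl⟩
  have hHaar : IsHaar n μ := by rw [hμ]; exact isHaar_map_Top n
  have hprob : IsProbabilityMeasure μ := hHaar.1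
  have hEm : MeasurableSet (inc n '' E) := (inc_emb n).measurableSet_image.2 hEo.measurableSet
  obtain ⟨c, hc⟩ : ∃ c : ℝ, c = μ.real (inc n '' E) := ⟨_, rfl⟩
  obtain ⟨f, hf⟩ : ∃ f : (Fin n → Fin n → ℝ) → ℝ,
    f = fun x => (inc n '' E).indicator (fun _ => (1 : ℝ)) x - c := ⟨_, rfl⟩
  have hinj := (inc_emb n).injective
  have hfE : ∀ y ∈ E, f (inc n y) = 1 - c := by
    intro y hy
    rw [hf]
    simp only
    rw [Set.indicator_of_mem (Set.mem_image_of_mem _ hy)]
  have hfN : ∀ y, y ∉ E → f (inc n y) = 0 - c := by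
    intro y hy
    rw [hf]
    simp only
    rw [Set.indicator_of_notMem]
    intro h
    exact hy (hinj.mem_set_image.1 h)
  have hfLp : MemLp f 2 μ := by
    rw [hf]
    exact (memLp_indicator_const 2 hEm 1 (Or.inr (measure_ne_top μ _))).sub (memLp_const c)
  have hf0 : ∫ x, f x ∂μ = 0 := by
    rw [hf]
    rw [integral_sub ((integrable_const (1 : ℝ)).indicator hEm) (integrable_const c),
      integral_indicator_const _ hEm, integral_const, ← hc]
    simp
  have hgap' := hgap μ hHaar f hfLp hf0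
  have hsum : ∑ s ∈ S, ∫ x, (f (fun i j => ∑ l, s i l * x l j) - f x) ^ 2 ∂μ = 0 := by
    refine Finset.sum_eq_zero fun s hs => ?_
    rw [hμ, (inc_emb n).integral_map]
    refine integral_eq_zero_of_ae (Filter.Eventually.of_forall fun y => ?_)
    have e : (fun i j => ∑ l, s i l * inc n y l j) = inc n (mkRot s (hS s hs) * y) := by
      funext i j
      simp only [inc, rot_mul_val, mkRot_val, Matrix.mul_apply]
    have e2 : f (inc n (mkRot s (hS s hs) * y)) = f (inc n y) := by
      have hi := hinv (mkRot s (hS s hs)) (hSH _ hs) y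
      by_cases hy : y ∈ E
      · rw [hfE _ hy, hfE _ (hi.2 hy)]
      · rw [hfN _ hy, hfN _ (fun h => hy (hi.1 h))]
    simp only [e, e2, sub_self, Pi.zero_apply]
    norm_num
  rw [hsum] at hgap'
  have hsq : ∫ x, f x ^ 2 ∂μ = 0 := by
    have h0 : 0 ≤ ∫ x, f x ^ 2 ∂μ := integral_nonneg fun x => sq_nonneg _
    nlinarith
  have hsq2 : ∫ y, f (inc n y) ^ 2 ∂(nuRot n) = 0 := by
    rw [hμ, (inc_emb n).integral_map] at hsq
    exact hsq
  have hint : Integrable (fun y => f (inc n y) ^ 2) (nuRot n) := by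
    have h1 := hfLp.integrable_sq
    rw [hμ, (inc_emb n).integrable_map_iff] at h1
    exact h1
  have hae := (integral_eq_zero_iff_of_nonneg (fun y => sq_nonneg _) hint).1 hsq2
  have hex : ∀ W : Set (Rot n), IsOpen W → W.Nonempty → ∃ y ∈ W, f (inc n y) = 0 := by
    intro W hW hne
    have hpos : (nuRot n) W ≠ 0 := (hW.measure_pos (nuRot n) hne).ne'
    obtain ⟨y, hyW, hy⟩ := Filter.Frequently.exists
      ((frequently_ae_mem_iff.2 hpos).and_eventually hae)
    refine ⟨y, hyW, ?_⟩
    simpa using hy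
  obtain ⟨y1, hy1, e1⟩ := hex E hEo ⟨1, h1E⟩
  obtain ⟨y2, hy2, e2⟩ := hex O hOo ⟨g', hgO⟩
  rw [hfE _ hy1] at e1
  rw [hfN _ (hOE y2 hy2)] at e2
  linarith

end Pool.Agent.Helper172_SO
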