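import Pool.Agent.Helper172_SO.Cover

set_option autoImplicit false
set_option linter.unusedSectionVars false

namespace Pool.Agent.Helper172_SO

open Matrix

section hs
variable {V : Type} [NormedAddCommGroup V] [InnerProductSpace ℝ V] [FiniteDimensional ℝ V]

/-- Hilbert Schmidt pairing -/
noncomputable def HS (S T : V →ₗ[ℝ] V) : ℝ := LinearMap.trace ℝ V (LinearMap.adjoint S * T)

theorem adj_mul (S T : V →ₗ[ℝ] V) :
    LinearMap.adjoint (S * T) = LinearMap.adjoint T * LinearMap.adjoint S :=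
  LinearMap.adjoint_comp S T

theorem adj_adj (S : V →ₗ[ℝ] V) : LinearMap.adjoint (LinearMap.adjoint S) = S :=
  LinearMap.adjoint_adjoint S

theorem HS_eq (S T : V →ₗ[ℝ] V) :
    HS S T = ∑ i, inner ℝ (S (stdOrthonormalBasis ℝ V i)) (T (stdOrthonormalBasis ℝ V i)) := by
  rw [HS, LinearMap.trace_eq_sum_inner _ (stdOrthonormalBasis ℝ V)]
  refine Finset.sum_congr rfl fun i _ => ?_
  rw [Module.End.mul_apply, LinearMap.adjoint_inner_right]

theorem HS_comm (S T : V →ₗ[ℝ] V) : HS S T = HS T S := by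
  rw [HS_eq, HS_eq]
  refine Finset.sum_congr rfl fun i _ => real_inner_comm _ _

theorem HS_sub_right (S T T' : V →ₗ[ℝ] V) : HS S (T - T') = HS S T - HS S T' := by
  rw [HS, HS, HS, mul_sub, map_sub]

theorem HS_self_eq_zero (S : V →ₗ[ℝ] V) (h : HS S S = 0) : S = 0 := by
  rw [HS_eq] at h
  have h1 := (Finset.sum_eq_zero_iff_of_nonneg (fun i _ => real_inner_self_nonneg)).mp h
  refine (stdOrthonormalBasis ℝ V).toBasis.ext fun i => ?_
  have h2 := h1 i (Finset.mem_univ i)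
  rw [inner_self_eq_zero] at h2
  simpa using h2

theorem HS_mul_left (A S T : V →ₗ[ℝ] V) : HS (A * S) T = HS S (LinearMap.adjoint A * T) := by
  rw [HS, HS, adj_mul, mul_assoc]

theorem HS_mul_right (A S T : V →ₗ[ℝ] V) : HS (S * A) T = HS S (T * LinearMap.adjoint A) := by
  rw [HS, HS, adj_mul, mul_assoc, LinearMap.trace_mul_comm, mul_assoc]

theorem HS_adj (S T : V →ₗ[ℝ] V) : HS (LinearMap.adjoint S) T = HS S (LinearMap.adjoint T) := by
  rw [HS, HS, adj_adj, ← adj_mul]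
  have key : ∀ A : V →ₗ[ℝ] V, LinearMap.trace ℝ V (LinearMap.adjoint A) = LinearMap.trace ℝ V A := by
    intro A
    rw [LinearMap.trace_eq_sum_inner _ (stdOrthonormalBasis ℝ V),
      LinearMap.trace_eq_sum_inner _ (stdOrthonormalBasis ℝ V)]
    refine Finset.sum_congr rfl fun i _ => ?_
    rw [LinearMap.adjoint_inner_right, real_inner_comm]
  rw [key, LinearMap.trace_mul_comm]

/-- projections with respect to the Hilbert Schmidt pairing -/
theorem exists_HS_proj (C : Submodule ℝ (V →ₗ[ℝ] V)) (T : V →ₗ[ℝ] V) :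
    ∃ T0 ∈ C, ∀ S ∈ C, HS S T0 = HS S T := by
  let Φ : (V →ₗ[ℝ] V) →ₗ[ℝ] Module.Dual ℝ C :=
    { toFun := fun X =>
        { toFun := fun S => HS (S : V →ₗ[ℝ] V) X
          map_add' := fun a b => by
            rw [HS, HS, HS, Submodule.coe_add, map_add, add_mul, map_add]
          map_smul' := fun r a => by
            rw [HS, HS, Submodule.coe_smul, map_smulₛₗ, smul_mul_assoc, map_smul]
            rfl }
      map_add' := fun a b => by
        ext S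
        show HS _ _ = HS _ _ + HS _ _
        rw [HS, HS, HS, mul_add, map_add]
      map_smul' := fun r a => by
        ext S
        show HS _ _ = r • HS _ _
        rw [HS, HS, mul_smul_comm, map_smul] }
  have hinj : Function.Injective (Φ ∘ₗ C.subtype) := by
    rw [injective_iff_map_eq_zero]
    intro X hX
    have h1 : HS (X : V →ₗ[ℝ] V) X = 0 := congrArg (fun f : Module.Dual ℝ C => f X) hX
    exact Subtype.ext (HS_self_eq_zero _ h1)
  have hsurj : Function.Surjective (Φ ∘ₗ C.subtype) :=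
    (LinearMap.injective_iff_surjective_of_finrank_eq_finrank Subspace.dual_finrank_eq.symm).mp hinj
  obtain ⟨T0, hT0⟩ := hsurj (Φ T)
  exact ⟨T0, T0.2, fun S hS => congrArg (fun f : Module.Dual ℝ C => f ⟨S, hS⟩) hT0⟩

theorem HS_proj_unique (C : Submodule ℝ (V →ₗ[ℝ] V)) (A B : V →ₗ[ℝ] V) (hA : A ∈ C) (hB : B ∈ C)
    (h : ∀ S ∈ C, HS S A = HS S B) : A = B := by
  have h1 := h (A - B) (C.sub_mem hA hB)
  have h2 : HS (A - B) (A - B) = 0 := by rw [HS_sub_right, h1, sub_self]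
  exact sub_eq_zero.mp (HS_self_eq_zero _ h2)

/-- the rank one operator -/
noncomputable def r1 (u : V) : V →ₗ[ℝ] V where
  toFun x := (inner ℝ u x : ℝ) • u
  map_add' x y := by rw [inner_add_right, add_smul]
  map_smul' r x := by rw [inner_smul_right, mul_smul]; rfl

theorem HS_r1 (S : V →ₗ[ℝ] V) (u : V) : HS S (r1 u) = inner ℝ (S u) u := by
  rw [HS_eq]
  have h1 : ∀ i, inner ℝ (S (stdOrthonormalBasis ℝ V i)) (r1 u (stdOrthonormalBasis ℝ V i)) =
      inner ℝ u (stdOrthonormalBasis ℝ V i) * inner ℝ (stdOrthonormalBasis ℝ V i) (LinearMap.adjoint S u) := by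
    intro i
    show inner ℝ (S (stdOrthonormalBasis ℝ V i)) ((inner ℝ u (stdOrthonormalBasis ℝ V i) : ℝ) • u) = _
    rw [inner_smul_right, LinearMap.adjoint_inner_right]
  rw [Finset.sum_congr rfl fun i _ => h1 i, OrthonormalBasis.sum_inner_mul_inner,
    LinearMap.adjoint_inner_right]

end hs

section tr
variable {α : Type} [Fintype α] [DecidableEq α] {V : Type} [NormedAddCommGroup V]
  [InnerProductSpace ℝ V] [FiniteDimensional ℝ V]

theorem PRep.R_mul (ρ : PRep α V) (g h : Matrix α α ℝ) : ρ.R (g * h) = ρ.R g * ρ.R h := by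
  ext v
  exact ρ.mul g h v

theorem PRep.R_adj (ρ : PRep α V) (g : Matrix α α ℝ) : LinearMap.adjoint (ρ.R g) = ρ.R gᵀ := by
  symm
  rw [LinearMap.eq_adjoint_iff]
  exact fun x y => ρ.adj g x y

theorem PRep.R_one' (ρ : PRep α V) : ρ.R 1 = 1 := by
  ext v
  exact ρ.one v

theorem IsSO.tr {g : Matrix α α ℝ} (hg : IsSO g) : IsSO gᵀ :=
  ⟨by rw [Matrix.transpose_transpose]; exact mul_eq_one_comm.mp hg.1, by
    rw [Matrix.det_transpose]; exact hg.2⟩

theorem IsSO.mul {g h : Matrix α α ℝ} (hg : IsSO g) (hh : IsSO h) : IsSO (g * h) := by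
  refine ⟨?_, ?_⟩
  · rw [Matrix.transpose_mul, Matrix.mul_assoc, ← Matrix.mul_assoc gᵀ, hg.1, Matrix.one_mul, hh.1]
  · rw [Matrix.det_mul, hg.2, hh.2, one_mul]

/-- first factor -/
noncomputable def PRep.fst (ρ : PRep (α ⊕ α) V) : PRep α V :=
  ρ.pull
    { toFun := fun g => fromBlocks g 0 0 0
      map_add' := fun a b => by rw [Matrix.fromBlocks_add]; simp
      map_smul' := fun r a => by rw [Matrix.fromBlocks_smul]; simp }
    (fromBlocks 0 0 0 1)
    (by show fromBlocks _ _ _ _ + fromBlocks _ _ _ _ = _; rw [Matrix.fromBlocks_add]; simp)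
    (fun g h => by
      show fromBlocks _ _ _ _ + fromBlocks _ _ _ _ =
        (fromBlocks _ _ _ _ + fromBlocks _ _ _ _) * (fromBlocks _ _ _ _ + fromBlocks _ _ _ _)
      simp only [Matrix.fromBlocks_add, Matrix.fromBlocks_multiply]
      simp)
    (fun g => by
      show fromBlocks _ _ _ _ + fromBlocks _ _ _ _ = (fromBlocks _ _ _ _ + fromBlocks _ _ _ _)ᵀ
      simp only [Matrix.fromBlocks_add, Matrix.fromBlocks_transpose]
      simp)

theorem PRep.fst_R (ρ : PRep (α ⊕ α) V) (g : Matrix α α ℝ) : ρ.fst.R g = ρ.R (fromBlocks g 0 0 1) := by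
  show ρ.R (fromBlocks _ _ _ _ + fromBlocks _ _ _ _) = _
  rw [Matrix.fromBlocks_add]; simp

theorem PRep.fst_D (ρ : PRep (α ⊕ α) V) (g : Matrix α α ℝ) : ρ.fst.D g = ρ.D (fromBlocks g 0 0 0) :=
  rfl

/-- second factor -/
noncomputable def PRep.snd (ρ : PRep (α ⊕ α) V) : PRep α V :=
  ρ.pull
    { toFun := fun g => fromBlocks 0 0 0 g
      map_add' := fun a b => by rw [Matrix.fromBlocks_add]; simp
      map_smul' := fun r a => by rw [Matrix.fromBlocks_smul]; simp }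
    (fromBlocks 1 0 0 0)
    (by show fromBlocks _ _ _ _ + fromBlocks _ _ _ _ = _; rw [Matrix.fromBlocks_add]; simp)
    (fun g h => by
      show fromBlocks _ _ _ _ + fromBlocks _ _ _ _ =
        (fromBlocks _ _ _ _ + fromBlocks _ _ _ _) * (fromBlocks _ _ _ _ + fromBlocks _ _ _ _)
      simp only [Matrix.fromBlocks_add, Matrix.fromBlocks_multiply]
      simp)
    (fun g => by
      show fromBlocks _ _ _ _ + fromBlocks _ _ _ _ = (fromBlocks _ _ _ _ + fromBlocks _ _ _ _)ᵀ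
      simp only [Matrix.fromBlocks_add, Matrix.fromBlocks_transpose]
      simp)

theorem PRep.snd_R (ρ : PRep (α ⊕ α) V) (g : Matrix α α ℝ) : ρ.snd.R g = ρ.R (fromBlocks 1 0 0 g) := by
  show ρ.R (fromBlocks _ _ _ _ + fromBlocks _ _ _ _) = _
  rw [Matrix.fromBlocks_add]; simp

theorem PRep.snd_D (ρ : PRep (α ⊕ α) V) (g : Matrix α α ℝ) : ρ.snd.D g = ρ.D (fromBlocks 0 0 0 g) :=
  rfl

/-- diagonal -/
noncomputable def PRep.dia (ρ : PRep (α ⊕ α) V) : PRep α V :=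
  ρ.pull
    { toFun := fun g => fromBlocks g 0 0 g
      map_add' := fun a b => by rw [Matrix.fromBlocks_add]; simp
      map_smul' := fun r a => by rw [Matrix.fromBlocks_smul]; simp }
    0
    (by show fromBlocks _ _ _ _ + _ = _; simp)
    (fun g h => by
      show fromBlocks _ _ _ _ + _ =
        (fromBlocks _ _ _ _ + _) * (fromBlocks _ _ _ _ + _)
      simp only [add_zero, Matrix.fromBlocks_multiply]
      simp)
    (fun g => by
      show fromBlocks _ _ _ _ + _ = (fromBlocks _ _ _ _ + _)ᵀ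
      simp only [add_zero, Matrix.fromBlocks_transpose]
      simp)

theorem PRep.dia_R (ρ : PRep (α ⊕ α) V) (g : Matrix α α ℝ) : ρ.dia.R g = ρ.R (fromBlocks g 0 0 g) := by
  show ρ.R (fromBlocks _ _ _ _ + _) = _
  rw [add_zero]

theorem PRep.dia_D (ρ : PRep (α ⊕ α) V) (g : Matrix α α ℝ) : ρ.dia.D g = ρ.D (fromBlocks g 0 0 g) :=
  rfl

theorem PRep.dia_eq (ρ : PRep (α ⊕ α) V) (g : Matrix α α ℝ) : ρ.dia.R g = ρ.fst.R g * ρ.snd.R g := by
  rw [ρ.dia_R, ρ.fst_R, ρ.snd_R, ← ρ.R_mul, Matrix.fromBlocks_multiply]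
  simp

theorem PRep.fst_snd (ρ : PRep (α ⊕ α) V) (g h : Matrix α α ℝ) :
    ρ.fst.R g * ρ.snd.R h = ρ.snd.R h * ρ.fst.R g := by
  rw [ρ.fst_R, ρ.snd_R, ← ρ.R_mul, ← ρ.R_mul, Matrix.fromBlocks_multiply,
    Matrix.fromBlocks_multiply]
  simp

theorem orth_U2 (ρ : PRep (α ⊕ α) V) (u : V) (hu : u ∈ ρ.inv (soD α))
    (hu' : u ∈ (ρ.inv (soSS α))ᗮ) : u ∈ (ρ.snd.inv (so α))ᗮ := by
  have hfix : ∀ g, IsSO g → ρ.dia.R g u = u := by
    intro g hg
    refine PRep.R_of_inv ρ.dia u ?_ g hg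
    intro X hX
    rw [ρ.dia_D]
    exact hu _ ⟨X, hX, rfl⟩
  have hconj : ∀ g h : Matrix α α ℝ, IsSO g →
      ρ.snd.R h * ρ.dia.R g = ρ.dia.R g * ρ.snd.R (gᵀ * h * g) := by
    intro g h hg
    rw [ρ.snd_R, ρ.snd_R, ρ.dia_R, ← ρ.R_mul, ← ρ.R_mul, Matrix.fromBlocks_multiply,
      Matrix.fromBlocks_multiply]
    have h1 : g * (gᵀ * h * g) = h * g := by
      rw [← Matrix.mul_assoc, ← Matrix.mul_assoc, mul_eq_one_comm.mp hg.1, Matrix.one_mul]
    simp [h1]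
  have hpres : ∀ g, IsSO g → ∀ v ∈ ρ.snd.inv (so α), ρ.dia.R g v ∈ ρ.snd.inv (so α) := by
    intro g hg v hv
    refine PRep.inv_of_R ρ.snd _ ?_
    intro h hh
    have h1 := congrArg (fun f : V →ₗ[ℝ] V => f v) (hconj g h hg)
    have h2 : ρ.snd.R h (ρ.dia.R g v) = ρ.dia.R g (ρ.snd.R (gᵀ * h * g) v) := h1
    rw [h2, PRep.R_of_inv ρ.snd v hv _ ((hg.tr.mul hh).mul hg)]
  set y := (ρ.snd.inv (so α)).starProjection u with hy
  have hyU : y ∈ ρ.snd.inv (so α) := proj_mem _ _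
  have hyfix : ∀ g, IsSO g → ρ.dia.R g y = y := by
    intro g hg
    have h1 := proj_comm (ρ.snd.inv (so α)) (ρ.dia.R g) (ρ.dia.R gᵀ)
      (fun a b => by rw [← ρ.dia.adj gᵀ, Matrix.transpose_transpose]) (hpres g hg)
      (hpres gᵀ hg.tr) u
    rw [hfix g hg] at h1
    exact h1
  have hy1 : y ∈ ρ.fst.inv (so α) := by
    refine PRep.inv_of_R ρ.fst _ ?_
    intro g hg
    have h1 := hyfix g hg
    rw [ρ.dia_eq] at h1
    have h2 : ρ.fst.R g (ρ.snd.R g y) = y := h1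
    rw [PRep.R_of_inv ρ.snd y hyU g hg] at h2
    exact h2
  have hy2 : y ∈ ρ.inv (soSS α) := by
    rintro Z ⟨X, Y, hX, hY, rfl⟩
    have h1 : fromBlocks X 0 0 Y = fromBlocks X 0 0 0 + fromBlocks 0 0 0 Y := by
      rw [Matrix.fromBlocks_add]; simp
    rw [h1, map_add, LinearMap.add_apply]
    have h2 := hy1 X hX
    have h3 := hyU Y hY
    rw [ρ.fst_D] at h2
    rw [ρ.snd_D] at h3
    rw [h2, h3, add_zero]
  have h1 : inner ℝ y u = 0 := mem_orth.mp hu' y hy2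
  have h2 : inner ℝ y y = 0 := by
    rw [← h1]
    conv_lhs => rw [hy]
    rw [← proj_sym, proj_of_mem (proj_mem _ _)]
  have h3 : y = 0 := inner_self_eq_zero.mp h2
  rw [hy, Submodule.starProjection_apply_eq_zero_iff] at h3
  exact h3

/-- commutant of the first factor -/
def CC (ρ : PRep (α ⊕ α) V) : Submodule ℝ (V →ₗ[ℝ] V) where
  carrier := {T | ∀ g, IsSO g → T * ρ.fst.R g = ρ.fst.R g * T}
  zero_mem' := by intro g _; simp
  add_mem' := by
    intro a b ha hb g hg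
    rw [add_mul, mul_add, ha g hg, hb g hg]
  smul_mem' := by
    intro c a ha g hg
    rw [smul_mul_assoc, mul_smul_comm, ha g hg]

/-- commutant of both factors -/
def DD (ρ : PRep (α ⊕ α) V) : Submodule ℝ (V →ₗ[ℝ] V) where
  carrier := {T | T ∈ CC ρ ∧ ∀ g, IsSO g → T * ρ.snd.R g = ρ.snd.R g * T}
  zero_mem' := ⟨(CC ρ).zero_mem, by intro g _; simp⟩
  add_mem' := by
    intro a b ha hb
    refine ⟨(CC ρ).add_mem ha.1 hb.1, ?_⟩
    intro g hg
    rw [add_mul, mul_add, ha.2 g hg, hb.2 g hg]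
  smul_mem' := by
    intro c a ha
    refine ⟨(CC ρ).smul_mem c ha.1, ?_⟩
    intro g hg
    rw [smul_mul_assoc, mul_smul_comm, ha.2 g hg]

theorem CC_adj (ρ : PRep (α ⊕ α) V) {T : V →ₗ[ℝ] V} (hT : T ∈ CC ρ) :
    LinearMap.adjoint T ∈ CC ρ := by
  intro g hg
  have h1 := congrArg LinearMap.adjoint (hT gᵀ hg.tr)
  rw [adj_mul, adj_mul, ρ.fst.R_adj, Matrix.transpose_transpose] at h1
  exact h1.symm

theorem DD_adj (ρ : PRep (α ⊕ α) V) {T : V →ₗ[ℝ] V} (hT : T ∈ DD ρ) :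
    LinearMap.adjoint T ∈ DD ρ := by
  refine ⟨CC_adj ρ hT.1, ?_⟩
  intro g hg
  have h1 := congrArg LinearMap.adjoint (hT.2 gᵀ hg.tr)
  rw [adj_mul, adj_mul, ρ.snd.R_adj, Matrix.transpose_transpose] at h1
  exact h1.symm

theorem CC_conj (ρ : PRep (α ⊕ α) V) {T : V →ₗ[ℝ] V} (hT : T ∈ CC ρ) {g : Matrix α α ℝ}
    (hg : IsSO g) : ρ.dia.R g * T * ρ.dia.R gᵀ ∈ CC ρ := by
  intro h hh
  have c1 : ρ.fst.R h * ρ.dia.R g = ρ.dia.R g * ρ.fst.R (gᵀ * h * g) := by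
    rw [ρ.fst_R, ρ.fst_R, ρ.dia_R, ← ρ.R_mul, ← ρ.R_mul, Matrix.fromBlocks_multiply,
      Matrix.fromBlocks_multiply]
    have h1 : g * (gᵀ * h * g) = h * g := by
      rw [← Matrix.mul_assoc, ← Matrix.mul_assoc, mul_eq_one_comm.mp hg.1, Matrix.one_mul]
    simp [h1]
  have c2 : ρ.fst.R (gᵀ * h * g) * ρ.dia.R gᵀ = ρ.dia.R gᵀ * ρ.fst.R h := by
    rw [ρ.fst_R, ρ.fst_R, ρ.dia_R, ← ρ.R_mul, ← ρ.R_mul, Matrix.fromBlocks_multiply,
      Matrix.fromBlocks_multiply]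
    have h1 : gᵀ * h * g * gᵀ = gᵀ * h := by
      rw [Matrix.mul_assoc, mul_eq_one_comm.mp hg.1, Matrix.mul_one]
    simp [h1]
  have c3 := hT (gᵀ * h * g) ((hg.tr.mul hh).mul hg)
  calc ρ.dia.R g * T * ρ.dia.R gᵀ * ρ.fst.R h
      = ρ.dia.R g * T * (ρ.dia.R gᵀ * ρ.fst.R h) := by rw [mul_assoc]
    _ = ρ.dia.R g * (T * ρ.fst.R (gᵀ * h * g)) * ρ.dia.R gᵀ := by rw [← c2]; simp only [mul_assoc]
    _ = (ρ.dia.R g * ρ.fst.R (gᵀ * h * g)) * T * ρ.dia.R gᵀ := by rw [c3]; simp only [mul_assoc]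
    _ = ρ.fst.R h * (ρ.dia.R g * T * ρ.dia.R gᵀ) := by rw [← c1]; simp only [mul_assoc]

theorem exists_B0 (ρ : PRep (α ⊕ α) V) (u : V) (hu : ∀ g, IsSO g → ρ.dia.R g u = u)
    (T : V →ₗ[ℝ] V) (hT : T ∈ CC ρ) :
    ∃ B0 ∈ DD ρ, (∀ S ∈ DD ρ, HS S B0 = HS S T) ∧ inner ℝ (T u) u = inner ℝ (B0 u) u := by
  obtain ⟨N, hN, hN'⟩ := exists_HS_proj (CC ρ) (r1 u)
  have hconj : ∀ g, IsSO g → ρ.dia.R g * N * ρ.dia.R gᵀ = N := by
    intro g hg
    refine HS_proj_unique (CC ρ) _ _ (CC_conj ρ hN hg) hN ?_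
    intro S hS
    have hS' : ρ.dia.R gᵀ * S * ρ.dia.R g ∈ CC ρ := by
      have := CC_conj ρ hS hg.tr
      rwa [Matrix.transpose_transpose] at this
    have e1 : HS (ρ.dia.R gᵀ * S * ρ.dia.R g) N = HS S (ρ.dia.R g * N * ρ.dia.R gᵀ) := by
      rw [HS_mul_right, HS_mul_left, ρ.dia.R_adj, ρ.dia.R_adj, Matrix.transpose_transpose,
        mul_assoc]
    rw [← e1, hN' _ hS', hN' _ hS, HS_r1, HS_r1]
    show inner ℝ (ρ.dia.R gᵀ (S (ρ.dia.R g u))) u = _
    rw [ρ.dia.adj, hu g hg]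
  have hcomm : ∀ g, IsSO g → N * ρ.dia.R g = ρ.dia.R g * N := by
    intro g hg
    have h1 : ρ.dia.R g * N * ρ.dia.R gᵀ * ρ.dia.R g = N * ρ.dia.R g := by rw [hconj g hg]
    rw [mul_assoc, ← ρ.dia.R_mul, hg.1, ρ.dia.R_one', mul_one] at h1
    exact h1.symm
  have hND : N ∈ DD ρ := by
    refine ⟨hN, ?_⟩
    intro g hg
    have h1 : ρ.snd.R g = ρ.dia.R g * ρ.fst.R gᵀ := by
      rw [ρ.snd_R, ρ.dia_R, ρ.fst_R, ← ρ.R_mul, Matrix.fromBlocks_multiply]
      simp [mul_eq_one_comm.mp hg.1]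
    rw [h1, ← mul_assoc, hcomm g hg, mul_assoc, hN gᵀ hg.tr, mul_assoc]
  obtain ⟨B0, hB0, hB0'⟩ := exists_HS_proj (DD ρ) T
  refine ⟨B0, hB0, hB0', ?_⟩
  rw [← HS_r1, ← hN' T hT, HS_comm, ← hB0' N hND, HS_comm, hN' B0 hB0.1, HS_r1]

theorem B0_symm (ρ : PRep (α ⊕ α) V) (T B0 : V →ₗ[ℝ] V) (hB0 : B0 ∈ DD ρ)
    (h : ∀ S ∈ DD ρ, HS S B0 = HS S T) (hT : LinearMap.adjoint T = T) :
    LinearMap.adjoint B0 = B0 := by
  refine HS_proj_unique (DD ρ) _ _ (DD_adj ρ hB0) hB0 ?_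
  intro S hS
  rw [← HS_adj, h _ (DD_adj ρ hS), h _ hS, HS_adj, hT]

theorem trace_proj_mul (E B : V →ₗ[ℝ] V) (W K : Submodule ℝ V)
    (hE : ∀ x, E x = W.starProjection x) (hB : ∀ x, B x = K.starProjection x)
    (hc : ∀ x, E (B x) = B (E x)) :
    LinearMap.trace ℝ V (E * B) = Module.finrank ℝ (W ⊓ K : Submodule ℝ V) := by
  have hp : LinearMap.IsProj (W ⊓ K) (E * B) := by
    refine ⟨?_, ?_⟩
    · intro x
      refine ⟨?_, ?_⟩
      · show E (B x) ∈ W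
        rw [hE]; exact proj_mem _ _
      · show E (B x) ∈ K
        rw [hc, hB]; exact proj_mem _ _
    · intro x hx
      show E (B x) = x
      rw [hB, proj_of_mem hx.2, hE, proj_of_mem hx.1]
  exact hp.trace

end tr

theorem taskTransfer : TaskTransfer := by
  intro α _ _ β F hF V _ _ _ ρ u hu
  classical
  have hK : ρ.fix ((fun f => fromBlocks 1 0 0 f) '' (F : Set (Matrix α α ℝ))) =
      ρ.snd.fix (F : Set (Matrix α α ℝ)) := by
    ext v
    constructor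
    · intro h g hg
      rw [ρ.snd_R]
      exact h _ ⟨g, hg, rfl⟩
    · rintro h _ ⟨g, hg, rfl⟩
      have := h g hg
      rw [ρ.snd_R] at this
      exact this
  simp only [hK]
  set K := ρ.snd.fix (F : Set (Matrix α α ℝ)) with hKdef
  set B : V →ₗ[ℝ] V := (K.starProjection : V →ₗ[ℝ] V) with hBdef
  have hB : ∀ x, B x = K.starProjection x := fun _ => rfl
  have hfixu : ∀ g, IsSO g → ρ.dia.R g u = u := by
    intro g hg
    refine PRep.R_of_inv ρ.dia u ?_ g hg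
    intro X hX
    rw [ρ.dia_D]
    exact hu.1 _ ⟨X, hX, rfl⟩
  have huU := orth_U2 ρ u hu.1 hu.2
  have hBadj : LinearMap.adjoint B = B := by
    symm
    rw [LinearMap.eq_adjoint_iff]
    exact fun x y => proj_sym K x y
  have hBCC : B ∈ CC ρ := by
    intro g hg
    have hst : ∀ g, IsSO g → ∀ x ∈ K, ρ.fst.R g x ∈ K := by
      intro g hg x hx f hf
      have h1 := congrArg (fun T : V →ₗ[ℝ] V => T x) (ρ.fst_snd g f)
      have h2 : ρ.fst.R g (ρ.snd.R f x) = ρ.snd.R f (ρ.fst.R g x) := h1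
      rw [← h2, hx f hf]
    ext x
    show B (ρ.fst.R g x) = ρ.fst.R g (B x)
    rw [hB, hB]
    exact (proj_comm K (ρ.fst.R g) (ρ.fst.R gᵀ)
      (fun a b => by rw [← ρ.fst.adj gᵀ, Matrix.transpose_transpose]) (hst g hg)
      (hst gᵀ hg.tr) x).symm
  obtain ⟨B0, hB0, hB0', hB0u⟩ := exists_B0 ρ u hfixu B hBCC
  have hB0adj := B0_symm ρ B B0 hB0 hB0' hBadj
  have hB0sym : ∀ x y, inner ℝ (B0 x) y = inner ℝ x (B0 y) := by
    intro x y
    conv_lhs => rw [← hB0adj]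
    rw [LinearMap.adjoint_inner_left]
  set U := ρ.snd.inv (so α) with hU
  have hnorm : ‖K.starProjection u‖ ^ 2 = inner ℝ (B u) u := by
    rw [hB, ← real_inner_self_eq_norm_sq, ← proj_sym, proj_of_mem (proj_mem _ _)]
  rw [hnorm, hB0u]
  -- stability of the complement
  have hUst : ∀ x ∈ U, B0 x ∈ U := by
    intro x hx
    refine PRep.inv_of_R ρ.snd _ ?_
    intro g hg
    have h1 := congrArg (fun T : V →ₗ[ℝ] V => T x) (hB0.2 g hg)
    have h2 : B0 (ρ.snd.R g x) = ρ.snd.R g (B0 x) := h1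
    rw [← h2, PRep.R_of_inv ρ.snd x hx g hg]
  have hUo : ∀ x ∈ Uᗮ, B0 x ∈ Uᗮ := by
    intro x hx
    rw [mem_orth]
    intro z hz
    rw [← hB0sym]
    exact mem_orth.mp hx _ (hUst z hz)
  by_cases hbot : Uᗮ = ⊥
  · have : u = 0 := by
      rw [hbot] at huU; simpa using huU
    subst this
    simp
  obtain ⟨v0, hv0, hv0ne, t, hvt, ht⟩ := exists_max_eig B0 hB0sym Uᗮ hUo hbot
  refine le_trans (ht u huU) ?_
  refine mul_le_mul_of_nonneg_right ?_ (sq_nonneg _)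
  -- eigenspace
  let W : Submodule ℝ V := Uᗮ ⊓ Module.End.eigenspace B0 t
  have hW : ∀ x, x ∈ W ↔ x ∈ Uᗮ ∧ B0 x = t • x := by
    intro x
    show x ∈ Uᗮ ∧ x ∈ Module.End.eigenspace B0 t ↔ _
    rw [Module.End.mem_eigenspace_iff]
  have hR1 : ∀ g, IsSO g → ∀ x ∈ U, ρ.fst.R g x ∈ U := by
    intro g hg x hx
    refine PRep.inv_of_R ρ.snd _ ?_
    intro h hh
    have h1 := congrArg (fun T : V →ₗ[ℝ] V => T x) (ρ.fst_snd g h)
    have h2 : ρ.fst.R g (ρ.snd.R h x) = ρ.snd.R h (ρ.fst.R g x) := h1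
    rw [← h2, PRep.R_of_inv ρ.snd x hx h hh]
  have hR2 : ∀ g, IsSO g → ∀ x ∈ U, ρ.snd.R g x ∈ U := by
    intro g hg x hx
    rw [PRep.R_of_inv ρ.snd x hx g hg]
    exact hx
  have hW1 : ∀ g, IsSO g → ∀ x ∈ W, ρ.fst.R g x ∈ W := by
    intro g hg x hx
    rw [hW] at hx ⊢
    refine ⟨?_, ?_⟩
    · rw [mem_orth]
      intro z hz
      have h1 := ρ.fst.adj g z x
      rw [← h1]
      exact mem_orth.mp hx.1 _ (hR1 gᵀ hg.tr z hz)
    · have h1 := congrArg (fun T : V →ₗ[ℝ] V => T x) (hB0.1 g hg)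
      have h2 : B0 (ρ.fst.R g x) = ρ.fst.R g (B0 x) := h1
      rw [h2, hx.2, map_smul]
  have hW2 : ∀ g, IsSO g → ∀ x ∈ W, ρ.snd.R g x ∈ W := by
    intro g hg x hx
    rw [hW] at hx ⊢
    refine ⟨?_, ?_⟩
    · rw [mem_orth]
      intro z hz
      have h1 := ρ.snd.adj g z x
      rw [← h1]
      exact mem_orth.mp hx.1 _ (hR2 gᵀ hg.tr z hz)
    · have h1 := congrArg (fun T : V →ₗ[ℝ] V => T x) (hB0.2 g hg)
      have h2 : B0 (ρ.snd.R g x) = ρ.snd.R g (B0 x) := h1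
      rw [h2, hx.2, map_smul]
  set E : V →ₗ[ℝ] V := (W.starProjection : V →ₗ[ℝ] V) with hEdef
  have hE : ∀ x, E x = W.starProjection x := fun _ => rfl
  have hE1 : ∀ g, IsSO g → E * ρ.fst.R g = ρ.fst.R g * E := by
    intro g hg
    ext x
    show E (ρ.fst.R g x) = ρ.fst.R g (E x)
    rw [hE, hE]
    exact (proj_comm W (ρ.fst.R g) (ρ.fst.R gᵀ)
      (fun a b => by rw [← ρ.fst.adj gᵀ, Matrix.transpose_transpose]) (hW1 g hg)
      (hW1 gᵀ hg.tr) x).symm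
  have hE2 : ∀ g, IsSO g → E * ρ.snd.R g = ρ.snd.R g * E := by
    intro g hg
    ext x
    show E (ρ.snd.R g x) = ρ.snd.R g (E x)
    rw [hE, hE]
    exact (proj_comm W (ρ.snd.R g) (ρ.snd.R gᵀ)
      (fun a b => by rw [← ρ.snd.adj gᵀ, Matrix.transpose_transpose]) (hW2 g hg)
      (hW2 gᵀ hg.tr) x).symm
  have hEDD : E ∈ DD ρ := ⟨hE1, hE2⟩
  have hEadj : LinearMap.adjoint E = E := by
    symm
    rw [LinearMap.eq_adjoint_iff]
    exact fun x y => proj_sym W x y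
  have hEK : ∀ x ∈ K, E x ∈ K := by
    intro x hx f hf
    have h1 := congrArg (fun T : V →ₗ[ℝ] V => T x) (hE2 f (hF.1.isSO f hf))
    have h2 : E (ρ.snd.R f x) = ρ.snd.R f (E x) := h1
    rw [← h2, hx f hf]
  have hEB : ∀ x, E (B x) = B (E x) := by
    intro x
    exact proj_comm K E E (fun a b => proj_sym W a b) hEK hEK x
  have e1 : HS E B = Module.finrank ℝ (W ⊓ K : Submodule ℝ V) := by
    rw [HS, hEadj]
    exact trace_proj_mul E B W K hE hB hEB
  have e2 : HS E B0 = t * Module.finrank ℝ W := by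
    rw [HS, hEadj, LinearMap.trace_mul_comm]
    have h1 : B0 * E = t • E := by
      ext x
      show B0 (E x) = t • E x
      exact ((hW (E x)).mp (proj_mem W x)).2
    have h2 : LinearMap.IsProj W E := ⟨fun x => proj_mem W x, fun x hx => proj_of_mem hx⟩
    rw [h1, map_smul, h2.trace, smul_eq_mul]
  have e3 := hB0' E hEDD
  rw [e1, e2] at e3
  have e4 := hF.2 V ρ.snd W hW2 (fun x hx => ((hW x).mp hx).1)
  rw [← hKdef, ← e3] at e4
  have hWne : W ≠ ⊥ := by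
    intro h0
    have h1 : v0 ∈ W := (hW v0).mpr ⟨hv0, hvt⟩
    rw [h0] at h1
    exact hv0ne (by simpa using h1)
  have hpos : 0 < (Module.finrank ℝ W : ℝ) := by
    have : Nontrivial W := Submodule.nontrivial_iff_ne_bot.mpr hWne
    exact_mod_cast Module.finrank_pos
  exact le_of_mul_le_mul_right e4 hpos

end Pool.Agent.Helper172_SO
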