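import Pool.Agent.Helper172_SO.Util

set_option autoImplicit false

namespace Pool.Agent.Helper172_SO

namespace Tri

variable {V : Type} [NormedAddCommGroup V] [InnerProductSpace ℝ V]

/-- a symmetric idempotent operator -/
structure Proj (P : V → V) : Prop where
  add : ∀ x y, P (x + y) = P x + P y
  sub : ∀ x y, P (x - y) = P x - P y
  sym : ∀ x y, inner ℝ (P x) y = inner ℝ x (P y)
  idem : ∀ x, P (P x) = P x

namespace Proj

variable {P : V → V}

theorem inner_self (h : Proj P) (x : V) : inner ℝ (P x) x = ‖P x‖ ^ 2 := by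
  rw [← real_inner_self_eq_norm_sq, ← h.sym (P x) x, h.idem x]

theorem inner_self' (h : Proj P) (x : V) : inner ℝ x (P x) = ‖P x‖ ^ 2 := by
  rw [← h.sym]; exact h.inner_self x

theorem zero (h : Proj P) : P 0 = 0 := by
  have := h.sub 0 0
  simpa using this

end Proj

/-- complementary projection -/
def co (P : V → V) : V → V := fun x => x - P x

theorem Proj.co {P : V → V} (h : Proj P) : Proj (co P) where
  add x y := by simp only [Tri.co, h.add]; abel
  sub x y := by simp only [Tri.co, h.sub]; abel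
  sym x y := by simp only [Tri.co, inner_sub_left, inner_sub_right, h.sym]
  idem x := by simp only [Tri.co, h.sub, h.idem]; abel

/-- the real inequality behind the pair estimate -/
theorem real_pair (V s ρ ε : ℝ) (hs : 0 ≤ s) (hε : 0 ≤ ε) (hε1 : ε ≤ 1)
    (h1 : 2 * |ρ| ≤ ε * s) (h2 : s ^ 2 ≤ V ^ 2 * (s + 2 * ρ)) :
    0 ≤ 2 * (V ^ 2 - s + ρ) + ε * (2 * V ^ 2 - s) := by
  have hρ := le_abs_self ρ
  have hρ' := neg_abs_le ρ
  rcases eq_or_lt_of_le hs with h0 | hs'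
  · subst h0
    have : |ρ| = 0 := le_antisymm (by nlinarith) (abs_nonneg _)
    have hρ0 : ρ = 0 := abs_eq_zero.mp this
    subst hρ0
    nlinarith [sq_nonneg V]
  · have hVV : 0 < V ^ 2 := by
      rcases eq_or_lt_of_le (sq_nonneg V) with h | h
      · exfalso
        rw [← h] at h2
        nlinarith
      · exact h
    have h3 : s ≤ (1 + ε) * V ^ 2 := by
      have : s ^ 2 ≤ V ^ 2 * ((1 + ε) * s) := by
        refine h2.trans (mul_le_mul_of_nonneg_left ?_ hVV.le)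
        linarith
      have h4 : s * s ≤ ((1 + ε) * V ^ 2) * s := by nlinarith
      exact le_of_mul_le_mul_right h4 hs'
    have h4 : 0 ≤ (2 * V ^ 2 - s) * ((1 + ε) * V ^ 2 - s) := by
      apply mul_nonneg
      · nlinarith
      · linarith
    have h5 : 0 ≤ V ^ 2 * (2 * (V ^ 2 - s + ρ) + ε * (2 * V ^ 2 - s)) := by
      nlinarith
    exact nonneg_of_mul_nonneg_right h5 hVV

/-- pair estimate for two projections with small inner products -/
theorem pair_small {P P' : V → V} (h : Proj P) (h' : Proj P') (ε : ℝ) (hε : 0 ≤ ε) (hε1 : ε ≤ 1)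
    (v : V) (hs : |inner ℝ (P v) (P' v)| ≤ ε * (‖P v‖ * ‖P' v‖)) :
    0 ≤ 2 * (inner ℝ (co P v) (co P' v)) + ε * (‖co P v‖ ^ 2 + ‖co P' v‖ ^ 2) := by
  set x := P v with hx
  set y := P' v with hy
  have e1 : inner ℝ v x = ‖x‖ ^ 2 := h.inner_self' v
  have e1' : inner ℝ x v = ‖x‖ ^ 2 := h.inner_self v
  have e2 : inner ℝ v y = ‖y‖ ^ 2 := h'.inner_self' v
  have ev : inner ℝ v v = ‖v‖ ^ 2 := real_inner_self_eq_norm_sq v
  have c1 : inner ℝ (co P v) (co P' v) = ‖v‖ ^ 2 - (‖x‖ ^ 2 + ‖y‖ ^ 2) + inner ℝ x y := by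
    simp only [co, inner_sub_left, inner_sub_right]
    rw [← hx, ← hy, ev, e2, e1']
    ring
  have c2 : ‖co P v‖ ^ 2 = ‖v‖ ^ 2 - ‖x‖ ^ 2 := by
    change ‖v - x‖ ^ 2 = _
    rw [norm_sub_sq_real, e1]; ring
  have c3 : ‖co P' v‖ ^ 2 = ‖v‖ ^ 2 - ‖y‖ ^ 2 := by
    change ‖v - y‖ ^ 2 = _
    rw [norm_sub_sq_real, e2]; ring
  have c4 : ‖x + y‖ ^ 2 = (‖x‖ ^ 2 + ‖y‖ ^ 2) + 2 * (inner ℝ x y) := by
    rw [norm_add_sq_real]
    ring
  have c5 : (‖x‖ ^ 2 + ‖y‖ ^ 2) ≤ ‖v‖ * ‖x + y‖ := by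
    have : inner ℝ v (x + y) = ‖x‖ ^ 2 + ‖y‖ ^ 2 := by
      rw [inner_add_right, e1, e2]
    rw [← this]
    exact real_inner_le_norm _ _
  have c6 : (‖x‖ ^ 2 + ‖y‖ ^ 2) ^ 2 ≤ ‖v‖ ^ 2 * ((‖x‖ ^ 2 + ‖y‖ ^ 2) + 2 * (inner ℝ x y)) := by
    rw [← c4, ← mul_pow]
    exact pow_le_pow_left₀ (by positivity) c5 2
  have c7 : 2 * |inner ℝ x y| ≤ ε * (‖x‖ ^ 2 + ‖y‖ ^ 2) := by
    have h2 : 2 * (‖x‖ * ‖y‖) ≤ ‖x‖ ^ 2 + ‖y‖ ^ 2 := by nlinarith [sq_nonneg (‖x‖ - ‖y‖)]
    nlinarith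
  have := real_pair ‖v‖ (‖x‖ ^ 2 + ‖y‖ ^ 2) (inner ℝ x y) ε (by positivity) hε hε1 c7 c6
  rw [c1, c2, c3]
  linarith

/-- pair estimate for commuting projections -/
theorem pair_comm {P P' : V → V} (h : Proj P) (h' : Proj P')
    (v : V) (hc : P (P' v) = P' (P v)) :
    0 ≤ inner ℝ (co P v) (co P' v) := by
  have hQ := h.co
  have hQ' := h'.co
  have hcc : co P' (co P v) = co P (co P' v) := by
    simp only [co, h.sub, h'.sub, hc]; abel
  have : inner ℝ (co P v) (co P' v) = inner ℝ (co P (co P' v)) (co P' v) := by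
    rw [← hcc, hQ'.sym, hQ'.idem]
  rw [this, hQ.inner_self]
  positivity

section avg

variable {K : Type} [Group K] [Fintype K]

/-- averaging over a finite group -/
noncomputable def avg (σ : K →* (V →ₗ[ℝ] V)) : V → V :=
  fun x => ((Fintype.card K : ℝ)⁻¹) • ∑ a, σ a x

theorem cardK_pos (K : Type) [Group K] [Fintype K] : (0 : ℝ) < Fintype.card K := by
  have : 0 < Fintype.card K := Fintype.card_pos_iff.mpr ⟨1⟩
  exact_mod_cast this

variable {σ : K →* (V →ₗ[ℝ] V)}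

omit [Fintype K] in
theorem inner_map (hσ : ∀ g v, ‖σ g v‖ = ‖v‖) (g : K) (x y : V) :
    inner ℝ (σ g x) (σ g y) = inner ℝ x y := by
  let L : V →ₗᵢ[ℝ] V := ⟨σ g, hσ g⟩
  exact L.inner_map_map x y

omit [Fintype K] in
theorem inner_left (hσ : ∀ g v, ‖σ g v‖ = ‖v‖) (g : K) (x y : V) :
    inner ℝ (σ g x) y = inner ℝ x (σ g⁻¹ y) := by
  rw [← inner_map hσ g⁻¹ (σ g x) y, ← Module.End.mul_apply, ← map_mul, inv_mul_cancel, map_one,
    Module.End.one_apply]

theorem fix_avg (b : K) (x : V) : σ b (avg σ x) = avg σ x := by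
  simp only [avg, map_smul, map_sum]
  congr 1
  rw [← Equiv.sum_comp (Equiv.mulLeft b) (fun a => σ a x)]
  refine Finset.sum_congr rfl fun a _ => ?_
  rw [Equiv.coe_mulLeft, map_mul, Module.End.mul_apply]

theorem avg_of_fix (x : V) (hx : ∀ a, σ a x = x) : avg σ x = x := by
  simp only [avg, hx, Finset.sum_const, Finset.card_univ]
  rw [← Nat.cast_smul_eq_nsmul ℝ, smul_smul, inv_mul_cancel₀ (cardK_pos K).ne', one_smul]

theorem avg_proj (hσ : ∀ g v, ‖σ g v‖ = ‖v‖) : Proj (avg σ) where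
  add x y := by simp only [avg, map_add, Finset.sum_add_distrib, smul_add]
  sub x y := by simp only [avg, map_sub, Finset.sum_sub_distrib, smul_sub]
  sym x y := by
    simp only [avg, inner_smul_left, inner_smul_right, sum_inner, inner_sum]
    congr 1
    rw [← Equiv.sum_comp (Equiv.inv K) (fun a => inner ℝ x (σ a y))]
    refine Finset.sum_congr rfl fun a _ => ?_
    rw [inner_left hσ]; rfl
  idem x := avg_of_fix _ (fun a => fix_avg a x)

theorem avg_comm (B : V →ₗ[ℝ] V) (hB : ∀ a x, B (σ a x) = σ a (B x)) (x : V) :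
    B (avg σ x) = avg σ (B x) := by
  simp only [avg, map_smul, map_sum, hB]

theorem avg_smul (c : ℝ) (x : V) : avg σ (c • x) = c • avg σ x := by
  simp only [avg, map_smul, ← Finset.smul_sum]
  rw [smul_comm]

theorem avg_sum {ι : Type} (s : Finset ι) (f : ι → V) :
    avg σ (∑ i ∈ s, f i) = ∑ i ∈ s, avg σ (f i) := by
  simp only [avg, map_sum]
  rw [Finset.sum_comm, Finset.smul_sum]

theorem star_eq_avg [FiniteDimensional ℝ V] (hσ : ∀ g v, ‖σ g v‖ = ‖v‖) (F : Submodule ℝ V)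
    (hF : ∀ w, w ∈ F ↔ ∀ a, σ a w = w) (v : V) : F.starProjection v = avg σ v := by
  apply proj_unique
  · rw [hF]
    exact fun a => fix_avg a v
  · rw [mem_orth]
    intro z hz
    rw [inner_sub_right, ← (avg_proj hσ).sym, avg_of_fix z ((hF z).mp hz), sub_self]

end avg

section heis

variable {Γ : Type} [Group Γ] {A B Z : Subgroup Γ} [Fintype A] [Fintype B] [Fintype Z]
  (π : Γ →* (V →ₗ[ℝ] V))

/-- restriction to a subgroup -/
def res (A : Subgroup Γ) : A →* (V →ₗ[ℝ] V) := π.comp A.subtype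

omit [Fintype A] in
theorem res_apply (a : A) (x : V) : res π A a x = π (a : Γ) x := rfl

variable {π}

omit [Fintype A] [Fintype B] in
theorem heis_zero (hp : HPair A B Z) (hπ : ∀ g v, ‖π g v‖ = ‖v‖) (y : V)
    (hy : ∀ b ∈ B, π b y = y) (hE : avg (res π Z) y = 0) (a : Γ) (ha : a ∈ A) (ha1 : a ≠ 1) :
    inner ℝ (π a y) y = 0 := by
  have h1 : ∀ z : Z, inner ℝ (π a y) y = inner ℝ (π a (π z y)) y := by
    intro z
    obtain ⟨b, hb, hz⟩ := hp.surj a ha ha1 z z.2
    have e0 : a * b = z * b * a := by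
      rw [← hz]; group
    have e1 : (z : Γ) * a = a * z := hp.zA z z.2 a ha
    have e2 : (z : Γ) * b = b * z := hp.zB z z.2 b hb
    have e3 : a * b = b * (a * z) := by
      rw [e0, e2, mul_assoc, e1]
    calc inner ℝ (π a y) y = inner ℝ (π a (π b y)) y := by rw [hy b hb]
      _ = inner ℝ (π (a * b) y) y := by rw [map_mul]; rfl
      _ = inner ℝ (π b (π (a * z) y)) y := by rw [e3, map_mul]; rfl
      _ = inner ℝ (π b (π (a * z) y)) (π b y) := by rw [hy b hb]
      _ = inner ℝ (π (a * z) y) y := inner_map hπ b _ _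
      _ = inner ℝ (π a (π z y)) y := by rw [map_mul]; rfl
  have h2 : ∑ z : Z, inner ℝ (π a (π z y)) y = 0 := by
    have e2 : (∑ z : Z, π (z : Γ) y) = 0 := by
      have : ((Fintype.card Z : ℝ)⁻¹) • ∑ z : Z, π (z : Γ) y = 0 := hE
      rcases smul_eq_zero.mp this with h | h
      · exact absurd h (inv_ne_zero (cardK_pos Z).ne')
      · exact h
    rw [← sum_inner, ← map_sum, e2]
    simp
  rw [← Finset.sum_congr rfl (fun b _ => h1 b)] at h2
  rw [Finset.sum_const, Finset.card_univ, nsmul_eq_mul] at h2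
  rcases mul_eq_zero.mp h2 with h | h
  · exact absurd h (cardK_pos Z).ne'
  · exact h

omit [Fintype A] in
theorem res_norm (hπ : ∀ g v, ‖π g v‖ = ‖v‖) (A : Subgroup Γ) : ∀ g v, ‖res π A g v‖ = ‖v‖ :=
  fun g v => hπ g v

theorem heis_norm (hp : HPair A B Z) (hπ : ∀ g v, ‖π g v‖ = ‖v‖)
    (y : V) (hy : ∀ b ∈ B, π b y = y) (hE : avg (res π Z) y = 0) :
    ‖avg (res π A) y‖ ^ 2 = ((Fintype.card A : ℝ)⁻¹) * ‖y‖ ^ 2 := by
  have h0 := (avg_proj (res_norm hπ A)).inner_self y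
  have h1 : inner ℝ (avg (res π A) y) y = ((Fintype.card A : ℝ)⁻¹) * inner ℝ y y := by
    simp only [avg, inner_smul_left, sum_inner]
    congr 1
    rw [Finset.sum_eq_single (1 : A)]
    · rw [map_one, Module.End.one_apply]
    · intro a _ ha
      exact heis_zero hp hπ y hy hE a a.2 (fun h => ha (Subtype.ext h))
    · intro h; exact absurd (Finset.mem_univ _) h
  rw [h0, real_inner_self_eq_norm_sq] at h1
  exact h1

/-- the pair estimate for a Heisenberg pair -/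
theorem heis_pair (hp : HPair A B Z) (hπ : ∀ g v, ‖π g v‖ = ‖v‖)
    (ε : ℝ) (hε : 0 ≤ ε) (hε1 : ε ≤ 1) (hq : (Fintype.card A : ℝ)⁻¹ ≤ ε ^ 2) (v : V) :
    0 ≤ 2 * (inner ℝ (co (avg (res π A)) v) (co (avg (res π B)) v)) +
      ε * (‖co (avg (res π A)) v‖ ^ 2 + ‖co (avg (res π B)) v‖ ^ 2) := by
  set P := avg (res π A) with hP
  set P' := avg (res π B) with hP'
  set E := avg (res π Z) with hEd
  have pP : Proj P := avg_proj (res_norm hπ A)
  have pP' : Proj P' := avg_proj (res_norm hπ B)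
  have pE : Proj E := avg_proj (res_norm hπ Z)
  -- E commutes with P and P'
  have hEU : ∀ (b : A) x, π b (E x) = E (π b x) := fun b x =>
    avg_comm (π b) (fun a x => by
      change (π b * π a) x = (π a * π b) x
      rw [← map_mul, ← map_mul, hp.zA a a.2 b b.2]) x
  have hEU' : ∀ (b : B) x, π b (E x) = E (π b x) := fun b x =>
    avg_comm (π b) (fun a x => by
      change (π b * π a) x = (π a * π b) x
      rw [← map_mul, ← map_mul, hp.zB a a.2 b b.2]) x
  have hEP : ∀ x, P (E x) = E (P x) := by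
    intro x
    have e1 : P (E x) = ((Fintype.card A : ℝ)⁻¹) • ∑ b : A, E (π b x) := by
      simp only [hP, avg, res_apply, ← hEU]
    have e2 : E (P x) = ((Fintype.card A : ℝ)⁻¹) • ∑ b : A, E (π b x) := by
      have : E (P x) = ((Fintype.card A : ℝ)⁻¹) • E (∑ b : A, π b x) := by
        rw [hP]; simp only [avg]; exact avg_smul _ _
      rw [this]
      congr 1
      exact avg_sum _ _
    rw [e1, e2]
  have hEP' : ∀ x, P' (E x) = E (P' x) := by
    intro x
    have e1 : P' (E x) = ((Fintype.card B : ℝ)⁻¹) • ∑ b : B, E (π b x) := by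
      simp only [hP', avg, res_apply, ← hEU']
    have e2 : E (P' x) = ((Fintype.card B : ℝ)⁻¹) • ∑ b : B, E (π b x) := by
      have : E (P' x) = ((Fintype.card B : ℝ)⁻¹) • E (∑ b : B, π b x) := by
        rw [hP']; simp only [avg]; exact avg_smul _ _
      rw [this]
      congr 1
      exact avg_sum _ _
    rw [e1, e2]
  set v0 := E v with hv0
  set v1 := v - E v with hv1
  have hE0 : E v0 = v0 := pE.idem v
  have hE1 : E v1 = 0 := by rw [hv1, pE.sub, pE.idem, sub_self]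
  -- commutation on v0
  have hfix0 : ∀ c ∈ Z, π c v0 = v0 := fun c hc => by
    rw [hv0]; exact fix_avg (σ := res π Z) ⟨c, hc⟩ v
  have hcomm : P (P' v0) = P' (P v0) := by
    have e : ∀ (a : A) (b : B), π a (π b v0) = π b (π a v0) := by
      intro a b
      have hz := hp.comm a a.2 b b.2
      set z := (a : Γ) * b * (a : Γ)⁻¹ * (b : Γ)⁻¹ with hzd
      have e1 : (a : Γ) * b = z * b * a := by rw [hzd]; group
      have e2 : z * (b : Γ) = b * z := hp.zB z hz b b.2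
      have e3 : z * (a : Γ) = a * z := hp.zA z hz a a.2
      have e4 : (a : Γ) * b = b * (a * z) := by rw [e1, e2, mul_assoc, e3]
      change (π a * π b) v0 = _
      rw [← map_mul, e4, map_mul, map_mul]
      change π b (π a (π z v0)) = _
      rw [hfix0 z hz]
    simp only [hP, hP', avg, map_smul, map_sum, res_apply, e]
    rw [← Finset.smul_sum, ← Finset.smul_sum, smul_comm]
    congr 2
    exact Finset.sum_comm
  have t0 := pair_comm pP pP' v0 hcomm
  -- smallness on v1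
  have hEy : E (P' v1) = 0 := by rw [← hEP', hE1, pP'.zero]
  have hn : ‖P (P' v1)‖ ^ 2 = ((Fintype.card A : ℝ)⁻¹) * ‖P' v1‖ ^ 2 :=
    heis_norm hp hπ (P' v1) (fun b hb => fix_avg (σ := res π B) ⟨b, hb⟩ v1) hEy
  have hn' : ‖P (P' v1)‖ ≤ ε * ‖P' v1‖ := by
    apply le_of_sq_le_sq _ (by positivity)
    rw [hn, mul_pow]
    exact mul_le_mul_of_nonneg_right hq (by positivity)
  have hsm : |inner ℝ (P v1) (P' v1)| ≤ ε * (‖P v1‖ * ‖P' v1‖) := by
    have e : inner ℝ (P v1) (P' v1) = inner ℝ (P v1) (P (P' v1)) := by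
      rw [← pP.sym, pP.idem]
    rw [e]
    refine (abs_real_inner_le_norm _ _).trans ?_
    calc ‖P v1‖ * ‖P (P' v1)‖ ≤ ‖P v1‖ * (ε * ‖P' v1‖) :=
          mul_le_mul_of_nonneg_left hn' (norm_nonneg _)
      _ = _ := by ring
  have t1 := pair_small pP pP' ε hε hε1 v1 hsm
  -- decomposition
  have hsum : v = v0 + v1 := by rw [hv0, hv1]; abel
  have q1 : co P v = co P v0 + co P v1 := by
    rw [← pP.co.add, ← hsum]
  have q2 : co P' v = co P' v0 + co P' v1 := by
    rw [← pP'.co.add, ← hsum]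
  have a0 : E (co P v0) = co P v0 := by
    simp only [co, pE.sub, ← hEP, hE0]
  have a0' : E (co P' v0) = co P' v0 := by
    simp only [co, pE.sub, ← hEP', hE0]
  have a1 : E (co P v1) = 0 := by
    simp only [co, pE.sub, ← hEP, hE1, pP.zero, sub_self]
  have a1' : E (co P' v1) = 0 := by
    simp only [co, pE.sub, ← hEP', hE1, pP'.zero, sub_self]
  have orth : ∀ x y : V, E x = x → E y = 0 → inner ℝ x y = 0 := by
    intro x y hx hy
    rw [← hx, pE.sym, hy, inner_zero_right]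
  have orth' : ∀ x y : V, E x = 0 → E y = y → inner ℝ x y = 0 := by
    intro x y hx hy
    rw [← hy, ← pE.sym, hx, inner_zero_left]
  have i1 : inner ℝ (co P v) (co P' v) = inner ℝ (co P v0) (co P' v0) + inner ℝ (co P v1) (co P' v1) := by
    rw [q1, q2, inner_add_left, inner_add_right, inner_add_right,
      orth _ _ a0 a1', orth' _ _ a1 a0']
    simp
  have i2 : ‖co P v‖ ^ 2 = ‖co P v0‖ ^ 2 + ‖co P v1‖ ^ 2 := by
    rw [q1, norm_add_sq_real, orth _ _ a0 a1]
    simp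
  have i3 : ‖co P' v‖ ^ 2 = ‖co P' v0‖ ^ 2 + ‖co P' v1‖ ^ 2 := by
    rw [q2, norm_add_sq_real, orth _ _ a0' a1']
    simp
  rw [i1, i2, i3]
  have : 0 ≤ ε * (‖co P v0‖ ^ 2 + ‖co P' v0‖ ^ 2) := by positivity
  nlinarith

end heis

theorem star_pair {Γ : Type} [Group Γ] [Finite Γ] [FiniteDimensional ℝ V] {A B Z : Subgroup Γ}
    (π : Γ →* (V →ₗ[ℝ] V)) (hp : HPair A B Z) (hπ : ∀ g v, ‖π g v‖ = ‖v‖)
    (ε : ℝ) (hε : 0 ≤ ε) (hε1 : ε ≤ 1) (hq : (Nat.card A : ℝ)⁻¹ ≤ ε ^ 2)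
    (P P' : Submodule ℝ V) (hP : ∀ w, w ∈ P ↔ ∀ a ∈ A, π a w = w)
    (hP' : ∀ w, w ∈ P' ↔ ∀ a ∈ B, π a w = w) (v : V) :
    0 ≤ 2 * (inner ℝ (v - P.starProjection v) (v - P'.starProjection v)) +
      ε * (‖v - P.starProjection v‖ ^ 2 + ‖v - P'.starProjection v‖ ^ 2) := by
  let _ := Fintype.ofFinite A
  let _ := Fintype.ofFinite B
  let _ := Fintype.ofFinite Z
  rw [star_eq_avg (σ := res π A) (res_norm hπ A) P (fun w => by
      rw [hP]
      exact ⟨fun h a => h a a.2, fun h a ha => h ⟨a, ha⟩⟩) v,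
    star_eq_avg (σ := res π B) (res_norm hπ B) P' (fun w => by
      rw [hP']
      exact ⟨fun h a => h a a.2, fun h a ha => h ⟨a, ha⟩⟩) v]
  refine heis_pair hp hπ ε hε hε1 ?_ v
  rw [Nat.card_eq_fintype_card] at hq
  exact hq

end Tri

theorem taskTri : TaskTri := by
  intro Γ _ _ A₁ A₂ A₃ Z₁₂ Z₂₃ Z₁₃ h12 h23 h13 hc1 hc2 V _ _ _ π hπ P P₁ P₂ P₃ hP1 hP2 hP3 hP v
  set ε : ℝ := (Real.sqrt 8)⁻¹ with hεd
  have h8 : (0 : ℝ) < Real.sqrt 8 := Real.sqrt_pos.mpr (by norm_num)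
  have hsq : Real.sqrt 8 ^ 2 = 8 := Real.sq_sqrt (by norm_num)
  have hε2 : ε ^ 2 = 8⁻¹ := by rw [hεd, inv_pow, hsq]
  have hε0 : 0 ≤ ε := by positivity
  have hε38 : ε ≤ 3 / 8 := by nlinarith
  have hε1 : ε ≤ 1 := by linarith
  have hq1 : (Nat.card A₁ : ℝ)⁻¹ ≤ ε ^ 2 := by
    rw [hε2]
    apply inv_anti₀ (by norm_num)
    exact_mod_cast hc1
  have hq2 : (Nat.card A₂ : ℝ)⁻¹ ≤ ε ^ 2 := by
    rw [hε2]
    apply inv_anti₀ (by norm_num)
    exact_mod_cast hc2
  have p12 := Tri.star_pair π h12 hπ ε hε0 hε1 hq1 P₁ P₂ hP1 hP2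
  have p23 := Tri.star_pair π h23 hπ ε hε0 hε1 hq2 P₂ P₃ hP2 hP3
  have p13 := Tri.star_pair π h13 hπ ε hε0 hε1 hq1 P₁ P₃ hP1 hP3
  let D : V →ₗ[ℝ] V := (3 : ℝ) • LinearMap.id - (P₁.starProjection : V →ₗ[ℝ] V) -
    (P₂.starProjection : V →ₗ[ℝ] V) - (P₃.starProjection : V →ₗ[ℝ] V)
  have hD : ∀ x, D x = (x - P₁.starProjection x) + (x - P₂.starProjection x) +
      (x - P₃.starProjection x) := by
    intro x
    simp only [D, LinearMap.sub_apply, LinearMap.smul_apply, LinearMap.id_apply,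
      ContinuousLinearMap.coe_coe]
    module
  have hsymQ : ∀ (Q : Submodule ℝ V) (x y : V), inner ℝ (x - Q.starProjection x) y =
      inner ℝ x (y - Q.starProjection y) := by
    intro Q x y
    rw [inner_sub_left, inner_sub_right, proj_sym]
  have hDs : ∀ x y, inner ℝ (D x) y = inner ℝ x (D y) := by
    intro x y
    rw [hD, hD, inner_add_left, inner_add_left, inner_add_right, inner_add_right, hsymQ, hsymQ,
      hsymQ]
  have hDP : ∀ z ∈ P, D z = 0 := by
    intro z hz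
    rw [hP] at hz
    obtain ⟨⟨h1, h2⟩, h3⟩ := hz
    rw [hD, proj_of_mem h1, proj_of_mem h2, proj_of_mem h3]
    simp
  have hWst : ∀ w ∈ Pᗮ, D w ∈ Pᗮ := by
    intro w _
    rw [mem_orth]
    intro z hz
    rw [← hDs, hDP z hz, inner_zero_left]
  have hDin : ∀ x, inner ℝ (D x) x = ‖x - P₁.starProjection x‖ ^ 2 +
      ‖x - P₂.starProjection x‖ ^ 2 + ‖x - P₃.starProjection x‖ ^ 2 := by
    intro x
    rw [hD, inner_add_left, inner_add_left, norm_sq_split', norm_sq_split', norm_sq_split']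
  -- reduction to w
  set w := v - P.starProjection v with hw
  have hwP : w ∈ Pᗮ := P.sub_starProjection_mem_orthogonal v
  have hPv := proj_mem P v
  have hPv' := hPv
  rw [hP] at hPv'
  obtain ⟨⟨m1, m2⟩, m3⟩ := hPv'
  rw [← hP] at m1 m2 m3
  have hQ : ∀ Q : Submodule ℝ V, P.starProjection v ∈ Q →
      w - Q.starProjection w = v - Q.starProjection v := by
    intro Q hQ
    rw [hw, map_sub, proj_of_mem hQ]
    abel
  rw [← hQ P₁ m1, ← hQ P₂ m2, ← hQ P₃ m3, ← hDin]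
  by_cases hne : Pᗮ = ⊥
  · have : w = 0 := by
      rw [hne] at hwP
      simpa using hwP
    rw [this]; simp
  obtain ⟨u, hu, hu0, t, htu, hmin⟩ := exists_min_eig D hDs Pᗮ hWst hne
  have hun : 0 < ‖u‖ := norm_pos_iff.mpr hu0
  have e1 : t * ‖u‖ ^ 2 = ‖u - P₁.starProjection u‖ ^ 2 +
      ‖u - P₂.starProjection u‖ ^ 2 + ‖u - P₃.starProjection u‖ ^ 2 := by
    rw [← hDin, htu, inner_smul_left, real_inner_self_eq_norm_sq]
    simp
  have e2 : t ^ 2 * ‖u‖ ^ 2 = ‖D u‖ ^ 2 := by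
    rw [htu, norm_smul, mul_pow, Real.norm_eq_abs, sq_abs]
  have e3 : ‖D u‖ ^ 2 = ‖u - P₁.starProjection u‖ ^ 2 +
      ‖u - P₂.starProjection u‖ ^ 2 + ‖u - P₃.starProjection u‖ ^ 2 +
      2 * inner ℝ (u - P₁.starProjection u) (u - P₂.starProjection u) +
      2 * inner ℝ (u - P₂.starProjection u) (u - P₃.starProjection u) +
      2 * inner ℝ (u - P₁.starProjection u) (u - P₃.starProjection u) := by
    rw [hD, norm_add_sq_real, norm_add_sq_real, inner_add_left]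
    ring
  have e4 : (1 - 2 * ε) * (t * ‖u‖ ^ 2) ≤ t ^ 2 * ‖u‖ ^ 2 := by
    rw [e2, e3, e1]
    have := p12 u
    have := p23 u
    have := p13 u
    linarith
  have ht0 : 0 < t := by
    by_contra hneg
    push Not at hneg
    have h0 : t * ‖u‖ ^ 2 ≤ 0 := mul_nonpos_of_nonpos_of_nonneg hneg (by positivity)
    rw [e1] at h0
    have z1 : ‖u - P₁.starProjection u‖ ^ 2 = 0 := by
      nlinarith [sq_nonneg ‖u - P₁.starProjection u‖, sq_nonneg ‖u - P₂.starProjection u‖,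
        sq_nonneg ‖u - P₃.starProjection u‖]
    have z2 : ‖u - P₂.starProjection u‖ ^ 2 = 0 := by
      nlinarith [sq_nonneg ‖u - P₁.starProjection u‖, sq_nonneg ‖u - P₂.starProjection u‖,
        sq_nonneg ‖u - P₃.starProjection u‖]
    have z3 : ‖u - P₃.starProjection u‖ ^ 2 = 0 := by
      nlinarith [sq_nonneg ‖u - P₁.starProjection u‖, sq_nonneg ‖u - P₂.starProjection u‖,
        sq_nonneg ‖u - P₃.starProjection u‖]
    have key : ∀ Q : Submodule ℝ V, ‖u - Q.starProjection u‖ ^ 2 = 0 → u ∈ Q := by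
      intro Q hQ
      have := sub_eq_zero.mp (norm_eq_zero.mp (pow_eq_zero_iff (two_ne_zero)|>.mp hQ))
      rw [this]
      exact proj_mem Q u
    have huP : u ∈ P := by
      rw [hP]
      exact ⟨⟨key _ z1, key _ z2⟩, key _ z3⟩
    have := (mem_orth.mp hu) u huP
    exact hu0 (inner_self_eq_zero.mp this)
  have ht : 1 / 4 ≤ t := by
    have h1 : (1 - 2 * ε) * (t * ‖u‖ ^ 2) ≤ t * (t * ‖u‖ ^ 2) := by
      calc _ ≤ _ := e4
        _ = _ := by ring
    have h2 : 1 - 2 * ε ≤ t := le_of_mul_le_mul_right h1 (by positivity)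
    linarith
  have := hmin w hwP
  nlinarith [sq_nonneg ‖w‖]

end Pool.Agent.Helper172_SO
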