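import Pool.Agent.Helper172_SO.Pow

set_option autoImplicit false
set_option linter.unusedSectionVars false

namespace Pool.Agent.Helper172_SO

open Matrix

theorem Gap.mono {α : Type} [Fintype α] [DecidableEq α] {S : Finset (Matrix α α ℝ)} {κ κ' : ℝ}
    (h : Gap S κ) (hle : κ' ≤ κ) : Gap S κ' := by
  intro V _ _ _ ρ v hv
  exact (mul_le_mul_of_nonneg_right hle (sq_nonneg _)).trans (h V ρ v hv)

/-- large `n`, from the powers of `2^9` -/
theorem large_gap (hC : TaskCover) (hE : TaskEmb) (κ : ℝ) (K : ℕ) (hκ : 0 < κ)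
    (hpow : ∀ k : ℕ, 1 ≤ k → ∃ S : Finset (Matrix (C (9 * k)) (C (9 * k)) ℝ),
      S.card ≤ K ∧ (∀ s ∈ S, IsSO s) ∧ Gap S κ) (n : ℕ) (hn : 512 ≤ n) :
    ∃ S : Finset (Matrix (Fin n) (Fin n) ℝ),
      S.card ≤ 1024 * 1024 * K ∧ (∀ s ∈ S, IsSO s) ∧ Gap S (κ / (1024 * 1024)) := by
  classical
  -- choose k
  obtain ⟨k, hk1, hk2, hk3⟩ : ∃ k : ℕ, 1 ≤ k ∧ 2 ^ (9 * k) ≤ n ∧ n < 2 ^ (9 * k) * 512 := by
    set k := Nat.log 512 n with hk
    refine ⟨k, ?_, ?_, ?_⟩
    · have := Nat.log_mono_right (b := 512) hn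
      rw [show Nat.log 512 512 = 1 from by
        rw [Nat.log_eq_one_iff']; norm_num] at this
      exact this
    · have := Nat.pow_log_le_self 512 (x := n) (by omega)
      rw [pow_mul]
      exact this
    · have := Nat.lt_pow_succ_log_self (b := 512) (by norm_num) n
      rw [pow_succ] at this
      rw [pow_mul]
      exact this
  obtain ⟨S, hSc, hSO, hS⟩ := hpow k hk1
  set N := 2 ^ (9 * k) with hN
  obtain ⟨h, hh⟩ : ∃ h, N = 2 * h := by
    refine ⟨2 ^ (9 * k - 1), ?_⟩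
    rw [hN, ← pow_succ']; congr 1; omega
  have hh0 : 0 < h := by
    have : 0 < N := by rw [hN]; positivity
    omega
  have hcardC : Fintype.card (C (9 * k)) = N := by
    rw [Fintype.card_fun, ZMod.card, Fintype.card_fin]
  -- blocks
  let B : Fin 1024 → Finset (Fin n) := fun i => Finset.univ.filter fun x => x.val / h = i.val
  have hB : ∀ i, (B i).card ≤ h := by
    intro i
    have : (B i).card ≤ (Finset.range h).card := by
      apply Finset.card_le_card_of_injOn (fun x => x.val % h)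
      · intro x _
        simp only [Finset.coe_range, Set.mem_Iio]
        exact Nat.mod_lt _ hh0
      · intro x hx y hy hxy
        simp only [B, Finset.coe_filter, Finset.mem_univ, true_and, Set.mem_ofPred_eq] at hx hy hxy
        apply Fin.ext
        rw [← Nat.div_add_mod x.val h, ← Nat.div_add_mod y.val h, hx, hy, hxy]
    simpa using this
  have hR : ∀ j : Fin 1024 × Fin 1024, ∃ R : Finset (Fin n), B j.1 ∪ B j.2 ⊆ R ∧ R.card = N := by
    intro j
    apply Finset.exists_superset_card_eq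
    · have := Finset.card_union_le (B j.1) (B j.2)
      have := hB j.1
      have := hB j.2
      omega
    · rw [Fintype.card_fin]; exact hk2
  choose R hR1 hR2 using hR
  have hι : ∀ j, Nonempty (C (9 * k) ≃ R j) := by
    intro j
    rw [← Fintype.card_eq, hcardC, Fintype.card_coe, hR2]
  let e : ∀ j, C (9 * k) ≃ R j := fun j => (hι j).some
  obtain ⟨T, hT1, hT2, hT3⟩ := cov_gap hC hE S κ hκ hSO hS (Fin 1024 × Fin 1024)
    (fun j => (e j).toEmbedding.trans (Function.Embedding.subtype _)) (by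
    intro x y _
    have hdiv : ∀ x : Fin n, x.val / h < 1024 := by
      intro x
      rw [Nat.div_lt_iff_lt_mul hh0]
      have := x.2
      omega
    refine ⟨(⟨x.val / h, hdiv x⟩, ⟨y.val / h, hdiv y⟩), ?_, ?_⟩
    · have hx : x ∈ R (⟨x.val / h, hdiv x⟩, ⟨y.val / h, hdiv y⟩) :=
        hR1 _ (Finset.mem_union_left _ (by simp [B]))
      exact ⟨(e _).symm ⟨x, hx⟩, by simp⟩
    · have hy : y ∈ R (⟨x.val / h, hdiv x⟩, ⟨y.val / h, hdiv y⟩) :=
        hR1 _ (Finset.mem_union_right _ (by simp [B]))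
      exact ⟨(e _).symm ⟨y, hy⟩, by simp⟩)
  have hcardJ : Fintype.card (Fin 1024 × Fin 1024) = 1024 * 1024 := by simp
  rw [hcardJ] at hT1 hT3
  refine ⟨T, hT1.trans (Nat.mul_le_mul_left _ hSc), hT2, ?_⟩
  have : ((1024 * 1024 : ℕ) : ℝ) = 1024 * 1024 := by norm_num
  rw [this] at hT3
  exact hT3

theorem taskUnif (hC : TaskCover) (hE : TaskEmb) (h3 : TaskSO3) (hU : TaskUp) (hL : TaskLevel)
    (hX : TaskGoodX) (hZ : TaskGoodZ) (hJ : TaskJ) (h2 : TaskB2) (hexp : TaskExp)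
    (hsign : TaskSign) : TaskUnif := by
  classical
  obtain ⟨κ₁, K₁, hκ₁, hpow⟩ := pow_gap hC hE h3 hU hL hX hZ hJ h2 hexp hsign
  have hsmall : ∀ n : ℕ, ∃ (S : Finset (Matrix (Fin n) (Fin n) ℝ)) (κ : ℝ), 0 < κ ∧
      (3 ≤ n → (∀ s ∈ S, IsSO s) ∧ Gap S κ) := by
    intro n
    by_cases hn : 3 ≤ n
    · obtain ⟨S, κ, h1, h2, h3⟩ := fixed_gap hC hE h3 (Fin n) (by simpa using hn)
      exact ⟨S, κ, h1, fun _ => ⟨h2, h3⟩⟩
    · exact ⟨∅, 1, one_pos, fun h => absurd h hn⟩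
  choose S κ hκ hS using hsmall
  obtain ⟨κ₂, hκ₂, hκ₂'⟩ : ∃ κ₂ : ℝ, 0 < κ₂ ∧ ∀ n < 512, κ₂ ≤ κ n := by
    obtain ⟨n₀, _, h⟩ := (Finset.range 512).exists_min_image κ ⟨0, by simp⟩
    exact ⟨κ n₀, hκ n₀, fun n hn => h n (by simpa using hn)⟩
  refine ⟨min κ₂ (κ₁ / (1024 * 1024)), max ((Finset.range 512).sup fun n => (S n).card)
    (1024 * 1024 * K₁), by positivity, ?_⟩
  intro n hn
  by_cases hlt : n < 512
  · obtain ⟨h4, h5⟩ := hS n hn
    refine ⟨S n, ?_, h4, h5.mono ((min_le_left _ _).trans (hκ₂' n hlt))⟩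
    exact le_max_of_le_left (Finset.le_sup (f := fun n => (S n).card) (by simpa using hlt))
  · obtain ⟨T, h4, h5, h6⟩ := large_gap hC hE κ₁ K₁ hκ₁ hpow n (by omega)
    exact ⟨T, h4.trans (le_max_right _ _), h5, h6.mono (min_le_right _ _)⟩

end Pool.Agent.Helper172_SO
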