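import Pool.Agent.Helper172_SO.Final
import Pool.Agent.Helper172_SO.UnifB
import Pool.Agent.Helper172_SO.Cover
import Pool.Agent.Helper172_SO.Emb
import Pool.Agent.Helper172_SO.Sign
import Pool.Agent.Helper172_SO.Exp
import Pool.Agent.Helper172_SO.Count
import Pool.Agent.Helper172_SO.Dim
import Pool.Agent.Helper172_SO.Transfer
import Pool.Agent.Helper172_SO.Coef
import Pool.Agent.Helper172_SO.Step
import Pool.Agent.Helper172_SO.Level
import Pool.Agent.Helper172_SO.GoodXZ
import Pool.Agent.Helper172_SO.JEx
import Pool.Agent.Helper172_SO.B1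
import Pool.Agent.Helper172_SO.B2
import Pool.Agent.Helper172_SO.Tri
import Pool.Agent.Helper172_SO.Gen
import Pool.Agent.Helper172_SO.L2a
import Pool.Agent.Helper172_SO.L2b
import Pool.Agent.Helper172_SO.Top

set_option autoImplicit false

namespace Pool.Agent.Helper172_SO

theorem unifOf (h3 : TaskSO3) : TaskUnif :=
  taskUnif taskCover taskEmb h3 taskUp (taskLevel (taskStep taskTransfer) taskUp)
    (taskGoodX (taskGoodZ (taskDim taskCount))) (taskGoodZ (taskDim taskCount))
    (taskJ (taskDim taskCount) (taskCoef taskTransfer)) (taskB2 taskB1)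
    (taskExp taskTri taskGen) taskSign

end Pool.Agent.Helper172_SO
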