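import Pool.Agent.Helper172_SO.Cover

set_option autoImplicit false
set_option linter.unusedSectionVars false

namespace Pool.Agent.Helper172_SO

open Matrix

section b1
variable {α : Type} [Fintype α] [DecidableEq α]

section abs
variable {V : Type} [NormedAddCommGroup V] [InnerProductSpace ℝ V]

theorem b1_key (hα : 3 ≤ Fintype.card α) (f : α → α → V)
    (hL : ∀ i i' : α, i ≠ i' → ∃ A : V →ₗ[ℝ] V, (∀ x y, inner ℝ (A x) y = - inner ℝ x (A y)) ∧
      (∀ j, A (f i' j) = f i j) ∧ (∀ j, A (f i j) = - f i' j) ∧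
      (∀ k j, k ≠ i → k ≠ i' → A (f k j) = 0))
    (hR : ∀ j j' : α, j ≠ j' → ∃ A : V →ₗ[ℝ] V, (∀ x y, inner ℝ (A x) y = - inner ℝ x (A y)) ∧
      (∀ i, A (f i j') = f i j) ∧ (∀ i, A (f i j) = - f i j')) :
    ∃ q : ℝ, (∀ i j, ‖f i j‖ ^ 2 = q) ∧ (∀ i j, i ≠ j → inner ℝ (f i j) (f j i) = 0) := by
  have hrow : ∀ i i' j, ‖f i j‖ ^ 2 = ‖f i' j‖ ^ 2 := by
    intro i i' j
    by_cases h : i = i'
    · rw [h]
    · obtain ⟨A, hA, h1, h2, _⟩ := hL i i' h
      rw [← real_inner_self_eq_norm_sq, ← real_inner_self_eq_norm_sq]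
      have h3 := hA (f i' j) (f i j)
      rw [h1, h2, inner_neg_right, neg_neg] at h3
      exact h3
  have hcol : ∀ i j j', ‖f i j‖ ^ 2 = ‖f i j'‖ ^ 2 := by
    intro i j j'
    by_cases h : j = j'
    · rw [h]
    · obtain ⟨A, hA, h1, h2⟩ := hR j j' h
      rw [← real_inner_self_eq_norm_sq, ← real_inner_self_eq_norm_sq]
      have h3 := hA (f i j') (f i j)
      rw [h1, h2, inner_neg_right, neg_neg] at h3
      exact h3
  have hne : Nonempty α := Fintype.card_pos_iff.mp (by omega)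
  obtain ⟨a⟩ := hne
  refine ⟨‖f a a‖ ^ 2, fun i j => by rw [hrow i a j, hcol a j a], ?_⟩
  intro i j hij
  obtain ⟨k, hki, hkj⟩ : ∃ k : α, k ≠ i ∧ k ≠ j := by
    by_contra hcon
    push Not at hcon
    have h1 : (Finset.univ : Finset α) ⊆ {i, j} := by
      intro k _
      by_cases h : k = i
      · simp [h]
      · simp [hcon k h]
    have h2 := Finset.card_le_card h1
    have h3 : ({i, j} : Finset α).card ≤ 2 := Finset.card_le_two
    rw [Finset.card_univ] at h2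
    omega
  obtain ⟨A, hA, h1, _, h3⟩ := hL i k (Ne.symm hki)
  have h4 := hA (f k j) (f j i)
  rw [h1, h3 j i (Ne.symm hij) (Ne.symm hkj), inner_zero_right, neg_zero] at h4
  exact h4

end abs

/-- off diagonal part -/
def phiP (M : Matrix α α ℝ) : Matrix (α ⊕ α) (α ⊕ α) ℝ := fromBlocks 0 M (-Mᵀ) 0

/-- its conjugate -/
noncomputable def phiQ (M : Matrix α α ℝ) : Matrix (α ⊕ α) (α ⊕ α) ℝ :=
  (1 / 2 : ℝ) • fromBlocks (M - Mᵀ) (-(M + Mᵀ)) (M + Mᵀ) (-(M - Mᵀ))

theorem fromBlocks_sub' (A B C D A' B' C' D' : Matrix α α ℝ) :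
    fromBlocks A B C D - fromBlocks A' B' C' D' =
      fromBlocks (A - A') (B - B') (C - C') (D - D') := by
  ext i j
  rcases i with i | i <;> rcases j with j | j <;> simp

theorem brP1 (K M : Matrix α α ℝ) (hK : Kᵀ = -K) :
    fromBlocks K 0 0 0 * phiP M - phiP M * fromBlocks K 0 0 0 = phiP (K * M) := by
  simp only [phiP, fromBlocks_multiply, fromBlocks_sub']
  congr 1 <;> simp [Matrix.transpose_mul, hK]

theorem brP2 (K M : Matrix α α ℝ) (hK : Kᵀ = -K) :
    fromBlocks 0 0 0 K * phiP M - phiP M * fromBlocks 0 0 0 K = phiP (-(M * K)) := by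
  simp only [phiP, fromBlocks_multiply, fromBlocks_sub']
  congr 1 <;> simp [Matrix.transpose_mul, hK]

theorem brQ1 (K M : Matrix α α ℝ) (hK : Kᵀ = -K) :
    ((1 / 2 : ℝ) • fromBlocks K K K K) * phiQ M - phiQ M * ((1 / 2 : ℝ) • fromBlocks K K K K) =
      phiQ (K * M) := by
  simp only [phiQ, smul_mul_assoc, mul_smul_comm, fromBlocks_multiply, ← smul_sub,
    fromBlocks_sub', smul_smul]
  have e : (1 / 2 : ℝ) • fromBlocks (K * M - (K * M)ᵀ) (-(K * M + (K * M)ᵀ)) (K * M + (K * M)ᵀ)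
      (-(K * M - (K * M)ᵀ)) = (1 / 2 * (1 / 2) : ℝ) • fromBlocks ((2 : ℝ) • (K * M - (K * M)ᵀ))
      ((2 : ℝ) • (-(K * M + (K * M)ᵀ))) ((2 : ℝ) • (K * M + (K * M)ᵀ))
      ((2 : ℝ) • (-(K * M - (K * M)ᵀ))) := by
    rw [← fromBlocks_smul, smul_smul]
    norm_num
  rw [e]
  congr 2 <;> simp only [Matrix.transpose_mul, hK, mul_sub, sub_mul, mul_add, add_mul, mul_neg,
    neg_mul, two_smul] <;> abel

theorem brQ2 (K M : Matrix α α ℝ) (hK : Kᵀ = -K) :
    ((1 / 2 : ℝ) • fromBlocks K (-K) (-K) K) * phiQ M -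
      phiQ M * ((1 / 2 : ℝ) • fromBlocks K (-K) (-K) K) = phiQ (-(M * K)) := by
  simp only [phiQ, smul_mul_assoc, mul_smul_comm, fromBlocks_multiply, ← smul_sub,
    fromBlocks_sub', smul_smul]
  have e : (1 / 2 : ℝ) • fromBlocks (-(M * K) - (-(M * K))ᵀ) (-(-(M * K) + (-(M * K))ᵀ))
      (-(M * K) + (-(M * K))ᵀ)
      (-(-(M * K) - (-(M * K))ᵀ)) = (1 / 2 * (1 / 2) : ℝ) • fromBlocks
      ((2 : ℝ) • (-(M * K) - (-(M * K))ᵀ))
      ((2 : ℝ) • (-(-(M * K) + (-(M * K))ᵀ))) ((2 : ℝ) • (-(M * K) + (-(M * K))ᵀ))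
      ((2 : ℝ) • (-(-(M * K) - (-(M * K))ᵀ))) := by
    rw [← fromBlocks_smul, smul_smul]
    norm_num
  rw [e]
  congr 2 <;> simp only [Matrix.transpose_mul, Matrix.transpose_neg, hK, mul_sub, sub_mul, mul_add,
    add_mul, mul_neg, neg_mul, two_smul] <;> abel

theorem EE_mul1 {i i' : α} (h : i ≠ i') (j : α) :
    EE i i' * Matrix.single i' j (1 : ℝ) = Matrix.single i j 1 := by
  rw [EE, sub_mul, Matrix.single_mul_single_same, Matrix.single_mul_single_of_ne _ _ _ _ h]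
  simp

theorem EE_mul2 {i i' : α} (h : i ≠ i') (j : α) :
    EE i i' * Matrix.single i j (1 : ℝ) = - Matrix.single i' j 1 := by
  rw [EE, sub_mul, Matrix.single_mul_single_same, Matrix.single_mul_single_of_ne _ _ _ _ (Ne.symm h)]
  simp

theorem EE_mul3 {i i' k : α} (h : k ≠ i) (h' : k ≠ i') (j : α) :
    EE i i' * Matrix.single k j (1 : ℝ) = 0 := by
  rw [EE, sub_mul, Matrix.single_mul_single_of_ne _ _ _ _ (Ne.symm h'),
    Matrix.single_mul_single_of_ne _ _ _ _ (Ne.symm h)]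
  simp

theorem mul_EE1 {j j' : α} (h : j ≠ j') (i : α) :
    -(Matrix.single i j' (1 : ℝ) * EE j j') = Matrix.single i j 1 := by
  rw [EE, mul_sub, Matrix.single_mul_single_same, Matrix.single_mul_single_of_ne _ _ _ _ (Ne.symm h)]
  simp

theorem mul_EE2 {j j' : α} (h : j ≠ j') (i : α) :
    -(Matrix.single i j (1 : ℝ) * EE j j') = - Matrix.single i j' 1 := by
  rw [EE, mul_sub, Matrix.single_mul_single_same, Matrix.single_mul_single_of_ne _ _ _ _ h]
  simp

theorem phiP_neg (M : Matrix α α ℝ) : phiP (-M) = - phiP M := by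
  simp [phiP, fromBlocks_neg]

theorem phiP_zero : phiP (0 : Matrix α α ℝ) = 0 := by
  simp [phiP]

theorem phiQ_neg (M : Matrix α α ℝ) : phiQ (-M) = - phiQ M := by
  rw [phiQ, phiQ, ← smul_neg, fromBlocks_neg]
  congr 2 <;> rw [Matrix.transpose_neg] <;> abel

theorem phiQ_zero : phiQ (0 : Matrix α α ℝ) = 0 := by
  simp [phiQ]

theorem EE_ll (i j : α) : EE (Sum.inl i : α ⊕ α) (Sum.inl j) = fromBlocks (EE i j) 0 0 0 := by
  ext x y
  rcases x with x | x <;> rcases y with y | y <;> simp [EE, Matrix.single_apply]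

theorem EE_rr (i j : α) : EE (Sum.inr i : α ⊕ α) (Sum.inr j) = fromBlocks 0 0 0 (EE i j) := by
  ext x y
  rcases x with x | x <;> rcases y with y | y <;> simp [EE, Matrix.single_apply]

theorem EE_lr (i j : α) : EE (Sum.inl i : α ⊕ α) (Sum.inr j) = phiP (Matrix.single i j 1) := by
  ext x y
  rcases x with x | x <;> rcases y with y | y <;> simp [EE, phiP, Matrix.single_apply]

theorem EE_rl (i j : α) : EE (Sum.inr j : α ⊕ α) (Sum.inl i) = - phiP (Matrix.single i j 1) := by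
  rw [EE_swap, EE_lr]

section rep
variable {V : Type} [NormedAddCommGroup V] [InnerProductSpace ℝ V] [FiniteDimensional ℝ V]
  (ρ : PRep (α ⊕ α) V)

theorem D_phiP {u : V} (hu : u ∈ ρ.inv (soSS α)) {Z : Matrix (α ⊕ α) (α ⊕ α) ℝ}
    (hZ : Z ∈ soSS α) {M N : Matrix α α ℝ} (h : Z * phiP M - phiP M * Z = phiP N) :
    ρ.D Z (ρ.D (phiP M) u) = ρ.D (phiP N) u := by
  have h1 := ρ.bracket Z (phiP M) u
  rw [hu Z hZ, map_zero, sub_zero, h] at h1
  exact h1

theorem D_phiQ {u : V} (hu : u ∈ ρ.inv (soQ α)) {Z : Matrix (α ⊕ α) (α ⊕ α) ℝ}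
    (hZ : Z ∈ soQ α) {M N : Matrix α α ℝ} (h : Z * phiQ M - phiQ M * Z = phiQ N) :
    ρ.D Z (ρ.D (phiQ M) u) = ρ.D (phiQ N) u := by
  have h1 := ρ.bracket Z (phiQ M) u
  rw [hu Z hZ, map_zero, sub_zero, h] at h1
  exact h1

theorem b1_P (hα : 3 ≤ Fintype.card α) {u : V} (hu : u ∈ ρ.inv (soSS α)) :
    ∃ q : ℝ, (∀ i j, ‖ρ.D (phiP (Matrix.single i j 1)) u‖ ^ 2 = q) ∧
      (∀ i j, i ≠ j → inner ℝ (ρ.D (phiP (Matrix.single i j 1)) u)
        (ρ.D (phiP (Matrix.single j i 1)) u) = 0) := by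
  apply b1_key hα (fun i j => ρ.D (phiP (Matrix.single i j 1)) u)
  · intro i i' h
    have hZ : fromBlocks (EE i i') 0 0 0 ∈ soSS α := ⟨EE i i', 0, EE_skew i i', by simp, rfl⟩
    refine ⟨ρ.D (fromBlocks (EE i i') 0 0 0), fun x y => ρ.D_skew ?_ x y, ?_, ?_, ?_⟩
    · rw [fromBlocks_transpose, fromBlocks_neg, EE_skew]; simp
    · intro j
      rw [D_phiP ρ hu hZ (brP1 _ _ (EE_skew i i')), EE_mul1 h]
    · intro j
      rw [D_phiP ρ hu hZ (brP1 _ _ (EE_skew i i')), EE_mul2 h, phiP_neg, map_neg,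
        LinearMap.neg_apply]
    · intro k j h1 h2
      rw [D_phiP ρ hu hZ (brP1 _ _ (EE_skew i i')), EE_mul3 h1 h2, phiP_zero, map_zero,
        LinearMap.zero_apply]
  · intro j j' h
    have hZ : fromBlocks 0 0 0 (EE j j') ∈ soSS α := ⟨0, EE j j', by simp, EE_skew j j', rfl⟩
    refine ⟨ρ.D (fromBlocks 0 0 0 (EE j j')), fun x y => ρ.D_skew ?_ x y, ?_, ?_⟩
    · rw [fromBlocks_transpose, fromBlocks_neg, EE_skew]; simp
    · intro i
      rw [D_phiP ρ hu hZ (brP2 _ _ (EE_skew j j')), mul_EE1 h]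
    · intro i
      rw [D_phiP ρ hu hZ (brP2 _ _ (EE_skew j j')), mul_EE2 h, phiP_neg, map_neg,
        LinearMap.neg_apply]

theorem b1_Q (hα : 3 ≤ Fintype.card α) {u : V} (hu : u ∈ ρ.inv (soQ α)) :
    ∃ q : ℝ, (∀ i j, ‖ρ.D (phiQ (Matrix.single i j 1)) u‖ ^ 2 = q) ∧
      (∀ i j, i ≠ j → inner ℝ (ρ.D (phiQ (Matrix.single i j 1)) u)
        (ρ.D (phiQ (Matrix.single j i 1)) u) = 0) := by
  apply b1_key hα (fun i j => ρ.D (phiQ (Matrix.single i j 1)) u)
  · intro i i' h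
    have hZ : (1 / 2 : ℝ) • fromBlocks (EE i i') (EE i i') (EE i i') (EE i i') ∈ soQ α := by
      refine ⟨(1 / 2 : ℝ) • EE i i', (1 / 2 : ℝ) • EE i i', ?_, ?_, ?_⟩
      · rw [Matrix.transpose_smul, EE_skew, smul_neg]
      · rw [Matrix.transpose_smul, EE_skew, smul_neg]
      · rw [fromBlocks_smul]
    refine ⟨ρ.D ((1 / 2 : ℝ) • fromBlocks (EE i i') (EE i i') (EE i i') (EE i i')),
      fun x y => ρ.D_skew ?_ x y, ?_, ?_, ?_⟩
    · rw [Matrix.transpose_smul, fromBlocks_transpose, EE_skew, ← smul_neg, fromBlocks_neg]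
    · intro j
      rw [D_phiQ ρ hu hZ (brQ1 _ _ (EE_skew i i')), EE_mul1 h]
    · intro j
      rw [D_phiQ ρ hu hZ (brQ1 _ _ (EE_skew i i')), EE_mul2 h, phiQ_neg, map_neg,
        LinearMap.neg_apply]
    · intro k j h1 h2
      rw [D_phiQ ρ hu hZ (brQ1 _ _ (EE_skew i i')), EE_mul3 h1 h2, phiQ_zero, map_zero,
        LinearMap.zero_apply]
  · intro j j' h
    have hZ : (1 / 2 : ℝ) • fromBlocks (EE j j') (-EE j j') (-EE j j') (EE j j') ∈ soQ α := by
      refine ⟨(1 / 2 : ℝ) • EE j j', -((1 / 2 : ℝ) • EE j j'), ?_, ?_, ?_⟩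
      · rw [Matrix.transpose_smul, EE_skew, smul_neg]
      · rw [Matrix.transpose_neg, Matrix.transpose_smul, EE_skew, smul_neg]
      · rw [fromBlocks_smul, smul_neg]
    refine ⟨ρ.D ((1 / 2 : ℝ) • fromBlocks (EE j j') (-EE j j') (-EE j j') (EE j j')),
      fun x y => ρ.D_skew ?_ x y, ?_, ?_⟩
    · rw [Matrix.transpose_smul, fromBlocks_transpose, Matrix.transpose_neg, EE_skew, ← smul_neg,
        fromBlocks_neg]
    · intro i
      rw [D_phiQ ρ hu hZ (brQ2 _ _ (EE_skew j j')), mul_EE1 h]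
    · intro i
      rw [D_phiQ ρ hu hZ (brQ2 _ _ (EE_skew j j')), mul_EE2 h, phiQ_neg, map_neg,
        LinearMap.neg_apply]

/-- sums over pairs of indices -/
theorem cas_sum (u w : V) : inner ℝ (cas ρ u) w = ∑ i, ∑ j,
    (inner ℝ (ρ.D (fromBlocks (EE i j) 0 0 0) u) (ρ.D (fromBlocks (EE i j) 0 0 0) w) +
      inner ℝ (ρ.D (fromBlocks 0 0 0 (EE i j)) u) (ρ.D (fromBlocks 0 0 0 (EE i j)) w) +
      2 * inner ℝ (ρ.D (phiP (Matrix.single i j 1)) u) (ρ.D (phiP (Matrix.single i j 1)) w)) := by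
  rw [inner_cas]
  simp only [Fintype.sum_sum_type, EE_ll, EE_rr, EE_lr, EE_rl, map_neg, LinearMap.neg_apply,
    inner_neg_neg, Finset.sum_add_distrib]
  rw [Finset.sum_comm (s := Finset.univ) (t := Finset.univ)
    (f := fun x y => inner ℝ ((ρ.D (phiP (Matrix.single y x 1))) u)
      ((ρ.D (phiP (Matrix.single y x 1))) w))]
  simp only [← Finset.mul_sum]
  ring

theorem D_ll_SS {u : V} (hu : u ∈ ρ.inv (soSS α)) (i j : α) :
    ρ.D (fromBlocks (EE i j) 0 0 0) u = 0 :=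
  hu _ ⟨EE i j, 0, EE_skew i j, by simp, rfl⟩

theorem D_rr_SS {u : V} (hu : u ∈ ρ.inv (soSS α)) (i j : α) :
    ρ.D (fromBlocks 0 0 0 (EE i j)) u = 0 :=
  hu _ ⟨0, EE i j, by simp, EE_skew i j, rfl⟩

theorem D_ll_Q {w : V} (hw : w ∈ ρ.inv (soQ α)) (i j : α) :
    ρ.D (fromBlocks (EE i j) 0 0 0) w = (1 / 2 : ℝ) •
      (ρ.D (phiQ (Matrix.single i j 1)) w - ρ.D (phiQ (Matrix.single j i 1)) w) := by
  have h0 := hw (fromBlocks ((1 / 2 : ℝ) • EE i j) 0 0 ((1 / 2 : ℝ) • EE i j))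
    ⟨(1 / 2 : ℝ) • EE i j, 0, by rw [Matrix.transpose_smul, EE_skew, smul_neg], by simp, rfl⟩
  have h1 : fromBlocks (EE i j) 0 0 0 = fromBlocks ((1 / 2 : ℝ) • EE i j) 0 0 ((1 / 2 : ℝ) • EE i j)
      + (1 / 2 : ℝ) • (phiQ (Matrix.single i j 1) - phiQ (Matrix.single j i 1)) := by
    ext x y
    rcases x with x | x <;> rcases y with y | y <;>
      simp [phiQ, EE] <;> ring
  rw [h1, map_add, LinearMap.add_apply, h0, zero_add, map_smul, LinearMap.smul_apply, map_sub,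
    LinearMap.sub_apply]

theorem D_rr_Q {w : V} (hw : w ∈ ρ.inv (soQ α)) (i j : α) :
    ρ.D (fromBlocks 0 0 0 (EE i j)) w = -((1 / 2 : ℝ) •
      (ρ.D (phiQ (Matrix.single i j 1)) w - ρ.D (phiQ (Matrix.single j i 1)) w)) := by
  have h0 := hw (fromBlocks (EE i j) 0 0 (EE i j))
    ⟨EE i j, 0, EE_skew i j, by simp, rfl⟩
  have h1 : fromBlocks 0 0 0 (EE i j) = fromBlocks (EE i j) 0 0 (EE i j) -
      fromBlocks (EE i j) 0 0 0 := by
    rw [fromBlocks_sub']; simp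
  rw [h1, map_sub, LinearMap.sub_apply, h0, D_ll_Q ρ hw, zero_sub]

theorem D_lr_Q {w : V} (hw : w ∈ ρ.inv (soQ α)) (i j : α) :
    ρ.D (phiP (Matrix.single i j 1)) w = -((1 / 2 : ℝ) •
      (ρ.D (phiQ (Matrix.single i j 1)) w + ρ.D (phiQ (Matrix.single j i 1)) w)) := by
  have h0 := hw (fromBlocks 0 ((1 / 2 : ℝ) • EE i j) ((1 / 2 : ℝ) • EE i j) 0)
    ⟨0, (1 / 2 : ℝ) • EE i j, by simp, by rw [Matrix.transpose_smul, EE_skew, smul_neg], rfl⟩
  have h1 : phiP (Matrix.single i j 1) =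
      fromBlocks 0 ((1 / 2 : ℝ) • EE i j) ((1 / 2 : ℝ) • EE i j) 0
      - (1 / 2 : ℝ) • (phiQ (Matrix.single i j 1) + phiQ (Matrix.single j i 1)) := by
    ext x y
    rcases x with x | x <;> rcases y with y | y <;>
      simp [phiQ, phiP, EE] <;> ring
  rw [h1, map_sub, LinearMap.sub_apply, h0, zero_sub, map_smul, LinearMap.smul_apply, map_add,
    LinearMap.add_apply]

/-- the projections preserve the orthogonal complement of the invariants -/
theorem proj_orth (L : Set (Matrix (α ⊕ α) (α ⊕ α) ℝ)) (hL : ∀ X ∈ L, Xᵀ = -X) {v : V}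
    (hv : v ∈ (ρ.inv (so (α ⊕ α)))ᗮ) :
    (ρ.inv L).starProjection v ∈ (ρ.inv (so (α ⊕ α)))ᗮ := by
  rw [mem_orth]
  intro z hz
  have hz' : z ∈ ρ.inv L := fun X hX => hz X (hL X hX)
  rw [← proj_sym, proj_of_mem hz']
  exact mem_orth.mp hv z hz

end rep

end b1

theorem soSS_skew {α : Type} [Fintype α] [DecidableEq α] : ∀ X ∈ soSS α, Xᵀ = -X := by
  rintro _ ⟨X, Y, hX, hY, rfl⟩
  rw [fromBlocks_transpose, fromBlocks_neg, hX, hY]; simp

theorem soQ_skew {α : Type} [Fintype α] [DecidableEq α] : ∀ X ∈ soQ α, Xᵀ = -X := by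
  rintro _ ⟨X, Y, hX, hY, rfl⟩
  rw [fromBlocks_transpose, fromBlocks_neg, hX, hY]

theorem taskB1 : TaskB1 := by
  intro α _ _ hα V _ _ _ ρ u0 hu0 w0 hw0
  obtain ⟨hu0P, hu0V⟩ := hu0
  obtain ⟨hw0Q, hw0V⟩ := hw0
  set n : ℝ := (Fintype.card α : ℝ) with hn
  have hn3 : (3 : ℝ) ≤ n := by rw [hn]; exact_mod_cast hα
  set W : Submodule ℝ V := ρ.inv (soSS α) ⊓ (ρ.inv (so (α ⊕ α)))ᗮ with hW
  by_cases hbot : W = ⊥
  · have : u0 = 0 := by
      have h : u0 ∈ W := ⟨hu0P, hu0V⟩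
      rw [hbot] at h; simpa using h
    subst this
    simp
  let PP : V →ₗ[ℝ] V := ((ρ.inv (soSS α)).starProjection : V →ₗ[ℝ] V)
  let PQ : V →ₗ[ℝ] V := ((ρ.inv (soQ α)).starProjection : V →ₗ[ℝ] V)
  have hPP : ∀ x, PP x = (ρ.inv (soSS α)).starProjection x := fun _ => rfl
  have hPQ : ∀ x, PQ x = (ρ.inv (soQ α)).starProjection x := fun _ => rfl
  have sP : ∀ x y, inner ℝ (PP x) y = inner ℝ x (PP y) := fun x y => proj_sym _ x y
  have sQ : ∀ x y, inner ℝ (PQ x) y = inner ℝ x (PQ y) := fun x y => proj_sym _ x y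
  have iP : ∀ x ∈ ρ.inv (soSS α), PP x = x := fun x hx => proj_of_mem hx
  have iQ : ∀ x ∈ ρ.inv (soQ α), PQ x = x := fun x hx => proj_of_mem hx
  have mP : ∀ x, PP x ∈ ρ.inv (soSS α) := fun x => proj_mem _ x
  have mQ : ∀ x, PQ x ∈ ρ.inv (soQ α) := fun x => proj_mem _ x
  obtain ⟨u, huW, hu0', t, hut, ht⟩ := exists_max_eig (PP ∘ₗ PQ ∘ₗ PP) (by
    intro x y
    simp only [LinearMap.comp_apply]
    rw [sP, sQ, sP]) W (by
    intro x hx
    simp only [LinearMap.comp_apply]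
    refine ⟨mP _, ?_⟩
    rw [iP x hx.1]
    exact proj_orth ρ _ soSS_skew (proj_orth ρ _ soQ_skew hx.2)) hbot
  have htle : ∀ x ∈ W, ‖PQ x‖ ^ 2 ≤ t * ‖x‖ ^ 2 := by
    intro x hx
    have h1 := ht x hx
    simp only [LinearMap.comp_apply] at h1
    rw [sP, iP x hx.1, ← iQ _ (mQ x), sQ, real_inner_self_eq_norm_sq] at h1
    exact h1
  have huPV := huW
  obtain ⟨huP, huV⟩ := huPV
  have hun : 0 < ‖u‖ ^ 2 := by positivity
  have ht0 : 0 ≤ t := by
    have h1 := htle u huW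
    by_contra hneg
    push Not at hneg
    nlinarith [sq_nonneg ‖PQ u‖]
  have main : Real.sqrt t ≤ (n + 1) / (2 * n) := by
    by_cases htz : t = 0
    · rw [htz, Real.sqrt_zero]; positivity
    have htpos : 0 < t := lt_of_le_of_ne ht0 (Ne.symm htz)
    set τ := Real.sqrt t with hτ
    have hτ0 : 0 < τ := Real.sqrt_pos.mpr htpos
    have hττ : τ * τ = t := Real.mul_self_sqrt ht0
    have hut' : PP (PQ u) = t • u := by
      have := hut
      simp only [LinearMap.comp_apply] at this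
      rw [iP u huP] at this
      exact this
    set w : V := τ⁻¹ • PQ u with hw
    have hwQ : w ∈ ρ.inv (soQ α) := Submodule.smul_mem _ _ (mQ u)
    have hPw : PP w = τ • u := by
      rw [hw, map_smul, hut', smul_smul, ← hττ]
      congr 1
      field_simp
    have hQu : PQ u = τ • w := by
      rw [hw, smul_smul, mul_inv_cancel₀ hτ0.ne', one_smul]
    -- the two Casimir identities
    have hc1 : inner ℝ (cas ρ u) w = τ * inner ℝ (cas ρ u) u := by
      have h1 : PP (cas ρ u) = cas ρ u := iP _ (cas_inv ρ _ soSS_skew huP)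
      rw [← h1, sP, hPw, inner_smul_right, h1]
    have hc2 : inner ℝ (cas ρ u) w = τ * inner ℝ (cas ρ w) w := by
      have h1 : PQ (cas ρ w) = cas ρ w := iQ _ (cas_inv ρ _ soQ_skew hwQ)
      rw [cas_sym, ← h1, ← sQ, hQu, inner_smul_left, h1, cas_sym]
      simp
    have hcpos : 0 < inner ℝ (cas ρ u) u := by
      apply cas_pos
      intro hmem
      apply hu0'
      exact inner_self_eq_zero.mp ((mem_orth.mp huV) u hmem)
    obtain ⟨q, hq1, hq2⟩ := b1_P ρ hα huP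
    obtain ⟨q', hq'1, hq'2⟩ := b1_Q ρ hα hwQ
    set g : α → α → V := fun i j => ρ.D (phiP (Matrix.single i j 1)) u with hg
    set f : α → α → V := fun i j => ρ.D (phiQ (Matrix.single i j 1)) w with hf
    have hq1' : ∀ i j, ‖g i j‖ ^ 2 = q := hq1
    have hq'1' : ∀ i j, ‖f i j‖ ^ 2 = q' := hq'1
    have hq2' : ∀ i j, i ≠ j → inner ℝ (g i j) (g j i) = 0 := hq2
    have hq'2' : ∀ i j, i ≠ j → inner ℝ (f i j) (f j i) = 0 := hq'2
    have hcu : inner ℝ (cas ρ u) u = 2 * n ^ 2 * q := by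
      rw [cas_sum]
      have : ∀ i j : α, (inner ℝ (ρ.D (fromBlocks (EE i j) 0 0 0) u)
          (ρ.D (fromBlocks (EE i j) 0 0 0) u) +
          inner ℝ (ρ.D (fromBlocks 0 0 0 (EE i j)) u) (ρ.D (fromBlocks 0 0 0 (EE i j)) u) +
          2 * inner ℝ (ρ.D (phiP (Matrix.single i j 1)) u)
            (ρ.D (phiP (Matrix.single i j 1)) u)) = 2 * q := by
        intro i j
        rw [D_ll_SS ρ huP, D_rr_SS ρ huP, inner_zero_left, real_inner_self_eq_norm_sq, hq1]
        ring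
      simp only [this]
      simp only [Finset.sum_const, Finset.card_univ, nsmul_eq_mul]
      rw [← hn]
      ring
    have hcw : inner ℝ (cas ρ w) w = 2 * n ^ 2 * q' := by
      rw [cas_sum]
      have : ∀ i j : α, (inner ℝ (ρ.D (fromBlocks (EE i j) 0 0 0) w)
          (ρ.D (fromBlocks (EE i j) 0 0 0) w) +
          inner ℝ (ρ.D (fromBlocks 0 0 0 (EE i j)) w) (ρ.D (fromBlocks 0 0 0 (EE i j)) w) +
          2 * inner ℝ (ρ.D (phiP (Matrix.single i j 1)) w)
            (ρ.D (phiP (Matrix.single i j 1)) w)) = 2 * q' := by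
        intro i j
        rw [D_ll_Q ρ hwQ, D_rr_Q ρ hwQ, D_lr_Q ρ hwQ]
        show inner ℝ ((1 / 2 : ℝ) • (f i j - f j i)) ((1 / 2 : ℝ) • (f i j - f j i)) +
          inner ℝ (-((1 / 2 : ℝ) • (f i j - f j i))) (-((1 / 2 : ℝ) • (f i j - f j i))) +
          2 * inner ℝ (-((1 / 2 : ℝ) • (f i j + f j i))) (-((1 / 2 : ℝ) • (f i j + f j i))) = _
        have e1 := hq'1' i j
        have e2 := hq'1' j i
        rw [← real_inner_self_eq_norm_sq] at e1 e2
        simp only [inner_neg_neg, inner_smul_left, inner_smul_right, inner_sub_left,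
          inner_sub_right, inner_add_left, inner_add_right, e1, e2,
          real_inner_comm (f i j) (f j i)]
        simp only [conj_trivial]
        ring
      simp only [this]
      simp only [Finset.sum_const, Finset.card_univ, nsmul_eq_mul]
      rw [← hn]
      ring
    have hqq : q' = q := by
      have h1 : inner ℝ (cas ρ w) w = inner ℝ (cas ρ u) u := by
        have := hc1.symm.trans hc2
        exact (mul_left_cancel₀ hτ0.ne' this).symm
      rw [hcw, hcu] at h1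
      have h2 : (2 * n ^ 2) ≠ 0 := by positivity
      exact mul_left_cancel₀ h2 h1
    rw [hqq] at hq'1'
    have hqpos : 0 < q := by
      rw [hcu] at hcpos
      by_contra hneg
      push Not at hneg
      have : 2 * n ^ 2 * q ≤ 0 := mul_nonpos_of_nonneg_of_nonpos (by positivity) hneg
      linarith
    -- norms of the symmetrised vectors
    have hsg : ∀ i j, ‖g i j + g j i‖ ^ 2 = 2 * q + if i = j then 2 * q else 0 := by
      intro i j
      rw [norm_add_sq_real, hq1', hq1']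
      by_cases h : i = j
      · subst h
        rw [real_inner_self_eq_norm_sq, hq1', if_pos rfl]; ring
      · rw [hq2' i j h, if_neg h]; ring
    have hsf : ∀ i j, ‖f i j + f j i‖ ^ 2 = 2 * q + if i = j then 2 * q else 0 := by
      intro i j
      rw [norm_add_sq_real, hq'1', hq'1']
      by_cases h : i = j
      · subst h
        rw [real_inner_self_eq_norm_sq, hq'1', if_pos rfl]; ring
      · rw [hq'2' i j h, if_neg h]; ring
    have hcuw : inner ℝ (cas ρ u) w =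
        -((1 / 2 : ℝ) * ∑ i, ∑ j, inner ℝ (g i j + g j i) (f i j + f j i)) := by
      rw [cas_sum]
      have h1 : ∀ i j : α, (inner ℝ (ρ.D (fromBlocks (EE i j) 0 0 0) u)
          (ρ.D (fromBlocks (EE i j) 0 0 0) w) +
          inner ℝ (ρ.D (fromBlocks 0 0 0 (EE i j)) u) (ρ.D (fromBlocks 0 0 0 (EE i j)) w) +
          2 * inner ℝ (ρ.D (phiP (Matrix.single i j 1)) u)
            (ρ.D (phiP (Matrix.single i j 1)) w)) = - inner ℝ (g i j) (f i j + f j i) := by
        intro i j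
        rw [D_ll_SS ρ huP, D_rr_SS ρ huP, inner_zero_left, inner_zero_left, D_lr_Q ρ hwQ]
        show 0 + 0 + 2 * inner ℝ (g i j) (-((1 / 2 : ℝ) • (f i j + f j i))) = _
        rw [inner_neg_right, inner_smul_right]
        ring
      simp only [h1]
      have h2 : ∑ i, ∑ j, inner ℝ (g i j) (f i j + f j i) =
          ∑ i, ∑ j, inner ℝ (g j i) (f i j + f j i) := by
        rw [Finset.sum_comm]
        refine Finset.sum_congr rfl fun i _ => Finset.sum_congr rfl fun j _ => ?_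
        rw [add_comm (f j i)]
      simp only [inner_add_left, Finset.sum_add_distrib, Finset.sum_neg_distrib]
      rw [← h2]
      ring
    have hbd : |∑ i, ∑ j, inner ℝ (g i j + g j i) (f i j + f j i)| ≤
        ∑ i : α, ∑ j : α, (2 * q + if i = j then 2 * q else 0) := by
      refine (Finset.abs_sum_le_sum_abs _ _).trans (Finset.sum_le_sum fun i _ => ?_)
      refine (Finset.abs_sum_le_sum_abs _ _).trans (Finset.sum_le_sum fun j _ => ?_)
      refine (abs_real_inner_le_norm _ _).trans ?_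
      have h1 := hsg i j
      have h2 := hsf i j
      nlinarith [sq_nonneg (‖g i j + g j i‖ - ‖f i j + f j i‖)]
    have hsum : ∑ i : α, ∑ j : α, (2 * q + if i = j then 2 * q else 0) = 2 * q * (n ^ 2 + n) := by
      simp only [Finset.sum_add_distrib, Finset.sum_ite_eq, Finset.mem_univ, if_true,
        Finset.sum_const, Finset.card_univ, nsmul_eq_mul]
      rw [← hn]
      ring
    rw [hsum] at hbd
    have hfin : τ * (2 * n ^ 2 * q) ≤ q * (n ^ 2 + n) := by
      rw [← hcu, ← hc1, hcuw]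
      have := neg_abs_le (∑ i, ∑ j, inner ℝ (g i j + g j i) (f i j + f j i))
      linarith
    rw [le_div_iff₀ (by positivity)]
    have h3 : n * q * (τ * (2 * n)) ≤ n * q * (n + 1) := by nlinarith
    exact le_of_mul_le_mul_left h3 (by positivity)
  -- conclusion
  have h1 : inner ℝ u0 w0 = inner ℝ (PQ u0) w0 := by
    rw [sQ, iQ w0 hw0Q]
  rw [h1]
  refine (abs_real_inner_le_norm _ _).trans ?_
  gcongr
  have h2 := htle u0 ⟨hu0P, hu0V⟩
  have h3 : ‖PQ u0‖ ≤ Real.sqrt t * ‖u0‖ := by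
    apply le_of_sq_le_sq _ (by positivity)
    rw [mul_pow, Real.sq_sqrt ht0]
    exact h2
  refine h3.trans ?_
  gcongr

end Pool.Agent.Helper172_SO
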