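import Pool.Agent.Helper172_SO.Defs

set_option autoImplicit false

namespace Pool.Agent.Helper172_SO

open Matrix

variable {α : Type} [Fintype α] [DecidableEq α]
  {V : Type} [NormedAddCommGroup V] [InnerProductSpace ℝ V]

namespace PRep

variable (ρ : PRep α V)

theorem inner_R (g : Matrix α α ℝ) (hg : gᵀ * g = 1) (v w : V) :
    inner ℝ (ρ.R g v) (ρ.R g w) = inner ℝ v w := by
  rw [← ρ.adj, ← ρ.mul, hg, ρ.one]

theorem norm_R (g : Matrix α α ℝ) (hg : gᵀ * g = 1) (v : V) : ‖ρ.R g v‖ = ‖v‖ := by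
  have h := ρ.inner_R g hg v v
  rw [real_inner_self_eq_norm_sq, real_inner_self_eq_norm_sq] at h
  exact (sq_eq_sq₀ (norm_nonneg _) (norm_nonneg _)).mp h

theorem R_inv (g : Matrix α α ℝ) (hg : gᵀ * g = 1) (v : V) : ρ.R gᵀ (ρ.R g v) = v := by
  rw [← ρ.mul, hg, ρ.one]

theorem R_inv' (g : Matrix α α ℝ) (hg : gᵀ * g = 1) (v : V) : ρ.R g (ρ.R gᵀ v) = v := by
  rw [← ρ.mul, mul_eq_one_comm.mp hg, ρ.one]

/-- derivative along the line through `1` -/
theorem der_line (X : Matrix α α ℝ) (v : V) :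
    HasDerivAt (fun t : ℝ => ρ.R (1 + t • X) v) (ρ.D X v) 0 := by
  refine ρ.der (fun t => 1 + t • X) X (by simp) ?_ v
  intro i j
  have : HasDerivAt (fun t : ℝ => (1 : Matrix α α ℝ) i j + t * X i j) (0 + 1 * X i j) 0 :=
    (hasDerivAt_const _ _).add ((hasDerivAt_id (0 : ℝ)).mul_const _)
  simpa using this

theorem D_adj (X : Matrix α α ℝ) (v w : V) :
    inner ℝ (ρ.D Xᵀ v) w = inner ℝ v (ρ.D X w) := by
  have h1 := (ρ.der_line Xᵀ v).inner ℝ (hasDerivAt_const (0 : ℝ) w)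
  have h2 := (hasDerivAt_const (0 : ℝ) v).inner ℝ (ρ.der_line X w)
  have h3 : (fun t : ℝ => inner ℝ (ρ.R (1 + t • Xᵀ) v) w) =
      fun t : ℝ => inner ℝ v (ρ.R (1 + t • X) w) := by
    funext t
    rw [← ρ.adj]
    simp [Matrix.transpose_add, Matrix.transpose_smul]
  rw [h3] at h1
  have := h1.unique h2
  simpa using this

theorem D_skew {X : Matrix α α ℝ} (hX : Xᵀ = -X) (v w : V) :
    inner ℝ (ρ.D X v) w = - inner ℝ v (ρ.D X w) := by
  have := ρ.D_adj X v w
  rw [hX] at this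
  simp only [map_neg, LinearMap.neg_apply, inner_neg_left] at this
  linarith

end PRep

section fd
variable [FiniteDimensional ℝ V] (ρ : PRep α V)

/-- intertwining relation -/
theorem PRep.R_D {X Z g : Matrix α α ℝ} (h : Z * g = g * X) (v : V) :
    ρ.D Z (ρ.R g v) = ρ.R g (ρ.D X v) := by
  have h1 := ρ.der_line Z (ρ.R g v)
  have h2 := (LinearMap.toContinuousLinearMap (ρ.R g)).hasFDerivAt.comp_hasDerivAt (0 : ℝ)
    (ρ.der_line X v)
  have h3 : (fun t : ℝ => ρ.R (1 + t • Z) (ρ.R g v)) =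
      (fun t : ℝ => (LinearMap.toContinuousLinearMap (ρ.R g)) (ρ.R (1 + t • X) v)) := by
    funext t
    show _ = ρ.R g (ρ.R (1 + t • X) v)
    rw [← ρ.mul, ← ρ.mul]
    congr 2
    rw [add_mul, mul_add, one_mul, mul_one, smul_mul_assoc, mul_smul_comm, h]
  rw [h3] at h1
  exact h1.unique h2

theorem PRep.R_D_conj {g : Matrix α α ℝ} (hg : gᵀ * g = 1) (X : Matrix α α ℝ) (v : V) :
    ρ.R g (ρ.D X v) = ρ.D (g * X * gᵀ) (ρ.R g v) :=
  (ρ.R_D (by rw [Matrix.mul_assoc, hg, Matrix.mul_one]) v).symm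

theorem PRep.der_at (c : ℝ → Matrix α α ℝ) (X : Matrix α α ℝ) (t₀ : ℝ) (h0 : c t₀ = 1)
    (hc : ∀ i j, HasDerivAt (fun t => c t i j) (X i j) t₀) (v : V) :
    HasDerivAt (fun t => ρ.R (c t) v) (ρ.D X v) t₀ := by
  have h1 := ρ.der (fun t => c (t + t₀)) X (by simpa using h0) (fun i j => by
    have h3 : HasDerivAt (fun t => c t i j) (X i j) (0 + t₀) := by simpa using hc i j
    exact h3.comp_add_const 0 t₀) v
  have h3 : HasDerivAt (fun t => ρ.R (c (t + t₀)) v) (ρ.D X v) (t₀ - t₀) := by simpa using h1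
  have h4 := h3.comp_sub_const t₀ t₀
  simpa using h4

/-- derivative of a curve through an invertible matrix `g` -/
theorem PRep.der_mul (g : Matrix α α ℝ) (k : ℝ → Matrix α α ℝ) (X : Matrix α α ℝ) (t₀ : ℝ)
    (h0 : k t₀ = 1) (hc : ∀ i j, HasDerivAt (fun t => k t i j) (X i j) t₀) (v : V) :
    HasDerivAt (fun t => ρ.R (g * k t) v) (ρ.R g (ρ.D X v)) t₀ := by
  have h2 := (LinearMap.toContinuousLinearMap (ρ.R g)).hasFDerivAt.comp_hasDerivAt t₀
    (ρ.der_at k X t₀ h0 hc v)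
  have h3 : (fun t => ρ.R (g * k t) v) =
      (fun t => (LinearMap.toContinuousLinearMap (ρ.R g)) (ρ.R (k t) v)) := by
    funext t
    exact ρ.mul _ _ _
  rw [h3]
  exact h2

section bracket
open NormedSpace
attribute [local instance] Matrix.linftyOpNormedRing Matrix.linftyOpNormedAlgebra
  Matrix.linftyOpNormedAddCommGroup

theorem exp_entry (Y : Matrix α α ℝ) (i j : α) :
    HasDerivAt (fun t : ℝ => (exp (t • Y) : Matrix α α ℝ) i j) (Y i j) 0 := by
  have h := hasDerivAt_exp_smul_const (𝕂 := ℝ) (𝔸 := Matrix α α ℝ) Y (0 : ℝ)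
  rw [zero_smul, exp_zero, one_mul] at h
  let φ : Matrix α α ℝ →ₗ[ℝ] ℝ := Matrix.entryLinearMap ℝ ℝ i j
  exact (LinearMap.toContinuousLinearMap φ).hasFDerivAt.comp_hasDerivAt (0 : ℝ) h

theorem exp_mul_exp_neg (Y : Matrix α α ℝ) (t : ℝ) :
    (exp (t • Y) : Matrix α α ℝ) * exp (t • (-Y)) = 1 := by
  rw [← Matrix.exp_add_of_commute]
  · simp
  · rw [smul_neg]
    exact (Commute.refl _).neg_right

omit [FiniteDimensional ℝ V] in
theorem D_expand (Z : Matrix α α ℝ) (v : V) :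
    ρ.D Z v = ∑ i, ∑ j, Z i j • ρ.D (Matrix.single i j 1) v := by
  conv_lhs => rw [Matrix.matrix_eq_sum_single Z]
  simp only [map_sum, LinearMap.sum_apply]
  refine Finset.sum_congr rfl fun i _ => Finset.sum_congr rfl fun j _ => ?_
  rw [← LinearMap.smul_apply, ← map_smul, Matrix.smul_single, smul_eq_mul, mul_one]

theorem PRep.bracket (X Y : Matrix α α ℝ) (v : V) :
    ρ.D X (ρ.D Y v) - ρ.D Y (ρ.D X v) = ρ.D (X * Y - Y * X) v := by
  -- conjugate by exp (t X)
  have hX := exp_entry X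
  have hX' := exp_entry (-X)
  have hZ : ∀ i j, HasDerivAt
      (fun t : ℝ => ((exp (t • X) : Matrix α α ℝ) * Y * exp (t • (-X))) i j)
      ((X * Y - Y * X) i j) 0 := by
    intro i j
    have e : ∀ t : ℝ, ((exp (t • X) : Matrix α α ℝ) * Y * exp (t • (-X))) i j =
        ∑ b, (∑ a, (exp (t • X) : Matrix α α ℝ) i a * Y a b) * (exp (t • (-X)) : Matrix α α ℝ) b j := by
      intro t; simp only [Matrix.mul_apply]
    simp only [e]
    have h1 : HasDerivAt (fun t : ℝ => ∑ b, (∑ a, (exp (t • X) : Matrix α α ℝ) i a * Y a b) *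
        (exp (t • (-X)) : Matrix α α ℝ) b j)
        (∑ b, ((∑ a, X i a * Y a b) * (1 : Matrix α α ℝ) b j +
          (∑ a, (1 : Matrix α α ℝ) i a * Y a b) * (-X) b j)) 0 := by
      refine HasDerivAt.fun_sum fun b _ => ?_
      have h2 : HasDerivAt (fun t : ℝ => ∑ a, (exp (t • X) : Matrix α α ℝ) i a * Y a b)
          (∑ a, X i a * Y a b) 0 :=
        HasDerivAt.fun_sum fun a _ => (hX i a).mul_const _
      have h3 := h2.fun_mul (hX' b j)
      simpa using h3
    convert h1 using 1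
    rw [Finset.sum_add_distrib]
    simp only [Matrix.sub_apply, Matrix.mul_apply, Matrix.one_apply, mul_ite, mul_one, mul_zero,
      Finset.sum_ite_eq', Finset.mem_univ, if_true, ite_mul, one_mul, zero_mul, Finset.sum_ite_eq,
      Matrix.neg_apply, mul_neg, Finset.sum_neg_distrib]
    ring
  have hw : HasDerivAt (fun t : ℝ => ρ.R (exp (t • X)) v) (ρ.D X v) 0 :=
    ρ.der (fun t => exp (t • X)) X (by simp) hX v
  have hL : HasDerivAt (fun t : ℝ => ρ.D ((exp (t • X) : Matrix α α ℝ) * Y * exp (t • (-X)))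
      (ρ.R (exp (t • X)) v)) (ρ.D (X * Y - Y * X) v + ρ.D Y (ρ.D X v)) 0 := by
    have e : ∀ t : ℝ, ρ.D ((exp (t • X) : Matrix α α ℝ) * Y * exp (t • (-X)))
      (ρ.R (exp (t • X)) v) = ∑ i, ∑ j, ((exp (t • X) : Matrix α α ℝ) * Y * exp (t • (-X))) i j •
        ρ.D (Matrix.single i j 1) (ρ.R (exp (t • X)) v) := fun t => D_expand ρ _ _
    simp only [e]
    rw [D_expand ρ (X * Y - Y * X) v, D_expand ρ Y (ρ.D X v), ← Finset.sum_add_distrib]
    refine HasDerivAt.fun_sum fun i _ => ?_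
    rw [← Finset.sum_add_distrib]
    refine HasDerivAt.fun_sum fun j _ => ?_
    have h1 := (LinearMap.toContinuousLinearMap (ρ.D (Matrix.single i j 1))).hasFDerivAt.comp_hasDerivAt
      (0 : ℝ) hw
    have h2 := (hZ i j).smul h1
    simp only [zero_smul, exp_zero, Matrix.one_mul, Matrix.mul_one, Function.comp_def,
      LinearMap.coe_toContinuousLinearMap', ρ.one] at h2
    rw [add_comm] at h2
    exact h2
  have hR : HasDerivAt (fun t : ℝ => ρ.D ((exp (t • X) : Matrix α α ℝ) * Y * exp (t • (-X)))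
      (ρ.R (exp (t • X)) v)) (ρ.D X (ρ.D Y v)) 0 := by
    have e : ∀ t : ℝ, ρ.D ((exp (t • X) : Matrix α α ℝ) * Y * exp (t • (-X)))
      (ρ.R (exp (t • X)) v) = ρ.R (exp (t • X)) (ρ.D Y v) := by
      intro t
      apply ρ.R_D
      have := exp_mul_exp_neg (-X) t
      rw [neg_neg] at this
      rw [Matrix.mul_assoc, this, Matrix.mul_one]
    simp only [e]
    exact ρ.der (fun t => exp (t • X)) X (by simp) hX _
  have := hL.unique hR
  rw [← this]
  abel

end bracket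

end fd

end Pool.Agent.Helper172_SO
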