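import Pool.Agent.Helper172_SO.Cover

set_option autoImplicit false
set_option linter.unusedSectionVars false

namespace Pool.Agent.Helper172_SO

open Matrix

section
variable {α : Type} [Fintype α] [DecidableEq α] {V : Type} [NormedAddCommGroup V]
  [InnerProductSpace ℝ V]

/-- block diagonal embedding -/
def psiD (α : Type) [Fintype α] [DecidableEq α] : Matrix α α ℝ →ₗ[ℝ] Matrix (α ⊕ α) (α ⊕ α) ℝ where
  toFun X := fromBlocks X 0 0 X
  map_add' X Y := by rw [fromBlocks_add]; simp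
  map_smul' r X := by rw [fromBlocks_smul]; simp

/-- first block -/
def psiL (α : Type) [Fintype α] [DecidableEq α] : Matrix α α ℝ →ₗ[ℝ] Matrix (α ⊕ α) (α ⊕ α) ℝ where
  toFun X := fromBlocks X 0 0 0
  map_add' X Y := by rw [fromBlocks_add]; simp
  map_smul' r X := by rw [fromBlocks_smul]; simp

/-- second block -/
def psiR (α : Type) [Fintype α] [DecidableEq α] : Matrix α α ℝ →ₗ[ℝ] Matrix (α ⊕ α) (α ⊕ α) ℝ where
  toFun X := fromBlocks 0 0 0 X
  map_add' X Y := by rw [fromBlocks_add]; simp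
  map_smul' r X := by rw [fromBlocks_smul]; simp

/-- restriction to the diagonal -/
noncomputable def PRep.pullD (ρ : PRep (α ⊕ α) V) : PRep α V :=
  ρ.pull (psiD α) 0 (by simp [psiD, fromBlocks_one]) (by
    intro g h
    simp [psiD, fromBlocks_multiply]) (by
    intro g
    simp [psiD, fromBlocks_transpose])

/-- restriction to the first factor -/
noncomputable def PRep.pullL (ρ : PRep (α ⊕ α) V) : PRep α V :=
  ρ.pull (psiL α) (fromBlocks 0 0 0 1) (by
    show fromBlocks 1 0 0 0 + _ = _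
    rw [fromBlocks_add]; simp [fromBlocks_one]) (by
    intro g h
    show fromBlocks _ 0 0 0 + _ = (fromBlocks _ 0 0 0 + _) * (fromBlocks _ 0 0 0 + _)
    rw [fromBlocks_add, fromBlocks_add, fromBlocks_add, fromBlocks_multiply]; simp) (by
    intro g
    show fromBlocks _ 0 0 0 + _ = (fromBlocks _ 0 0 0 + _)ᵀ
    rw [fromBlocks_add, fromBlocks_add, fromBlocks_transpose]; simp)

/-- restriction to the second factor -/
noncomputable def PRep.pullR (ρ : PRep (α ⊕ α) V) : PRep α V :=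
  ρ.pull (psiR α) (fromBlocks 1 0 0 0) (by
    show fromBlocks 0 0 0 1 + _ = _
    rw [fromBlocks_add]; simp [fromBlocks_one]) (by
    intro g h
    show fromBlocks 0 0 0 _ + _ = (fromBlocks 0 0 0 _ + _) * (fromBlocks 0 0 0 _ + _)
    rw [fromBlocks_add, fromBlocks_add, fromBlocks_add, fromBlocks_multiply]; simp) (by
    intro g
    show fromBlocks 0 0 0 _ + _ = (fromBlocks 0 0 0 _ + _)ᵀ
    rw [fromBlocks_add, fromBlocks_add, fromBlocks_transpose]; simp)

theorem pullD_R (ρ : PRep (α ⊕ α) V) (g : Matrix α α ℝ) :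
    ρ.pullD.R g = ρ.R (fromBlocks g 0 0 g) := by
  show ρ.R (fromBlocks g 0 0 g + 0) = _
  rw [add_zero]

theorem pullL_R (ρ : PRep (α ⊕ α) V) (g : Matrix α α ℝ) :
    ρ.pullL.R g = ρ.R (fromBlocks g 0 0 1) := by
  show ρ.R (fromBlocks g 0 0 0 + fromBlocks 0 0 0 1) = _
  rw [fromBlocks_add]; simp

theorem pullR_R (ρ : PRep (α ⊕ α) V) (g : Matrix α α ℝ) :
    ρ.pullR.R g = ρ.R (fromBlocks 1 0 0 g) := by
  show ρ.R (fromBlocks 0 0 0 g + fromBlocks 1 0 0 0) = _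
  rw [fromBlocks_add]; simp

theorem pullD_D (ρ : PRep (α ⊕ α) V) (X : Matrix α α ℝ) :
    ρ.pullD.D X = ρ.D (fromBlocks X 0 0 X) := rfl

theorem pullL_D (ρ : PRep (α ⊕ α) V) (X : Matrix α α ℝ) :
    ρ.pullL.D X = ρ.D (fromBlocks X 0 0 0) := rfl

theorem pullR_D (ρ : PRep (α ⊕ α) V) (X : Matrix α α ℝ) :
    ρ.pullR.D X = ρ.D (fromBlocks 0 0 0 X) := rfl

theorem pullD_inv (ρ : PRep (α ⊕ α) V) : ρ.pullD.inv (so α) = ρ.inv (soD α) := by
  ext v
  constructor
  · rintro h _ ⟨X, hX, rfl⟩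
    exact h X hX
  · intro h X hX
    exact h _ ⟨X, hX, rfl⟩

theorem mem_invSS (ρ : PRep (α ⊕ α) V) (v : V) :
    v ∈ ρ.inv (soSS α) ↔ v ∈ ρ.pullL.inv (so α) ∧ v ∈ ρ.pullR.inv (so α) := by
  constructor
  · intro h
    refine ⟨fun X hX => ?_, fun X hX => ?_⟩
    · exact h _ ⟨X, 0, hX, by simp, rfl⟩
    · exact h _ ⟨0, X, by simp, hX, rfl⟩
  · rintro ⟨h1, h2⟩ _ ⟨X, Y, hX, hY, rfl⟩
    have : fromBlocks X 0 0 Y = fromBlocks X 0 0 0 + fromBlocks 0 0 0 Y := by
      rw [fromBlocks_add]; simp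
    rw [this, map_add, LinearMap.add_apply]
    have a1 : ρ.D (fromBlocks X 0 0 0) v = 0 := h1 X hX
    have a2 : ρ.D (fromBlocks 0 0 0 Y) v = 0 := h2 Y hY
    rw [a1, a2, add_zero]

theorem invSS_le_invD (ρ : PRep (α ⊕ α) V) : ρ.inv (soSS α) ≤ ρ.inv (soD α) := by
  rintro v hv _ ⟨X, hX, rfl⟩
  exact hv _ ⟨X, X, hX, hX, rfl⟩

theorem invQ_le_invD (ρ : PRep (α ⊕ α) V) : ρ.inv (soQ α) ≤ ρ.inv (soD α) := by
  rintro v hv _ ⟨X, hX, rfl⟩
  exact hv _ ⟨X, 0, hX, by simp, rfl⟩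

theorem skew_SS {Z : Matrix (α ⊕ α) (α ⊕ α) ℝ} (hZ : Z ∈ soSS α) : Zᵀ = -Z := by
  obtain ⟨X, Y, hX, hY, rfl⟩ := hZ
  rw [fromBlocks_transpose, fromBlocks_neg, hX, hY]; simp

theorem skew_D {Z : Matrix (α ⊕ α) (α ⊕ α) ℝ} (hZ : Z ∈ soD α) : Zᵀ = -Z := by
  obtain ⟨X, hX, rfl⟩ := hZ
  rw [fromBlocks_transpose, fromBlocks_neg, hX]; simp

theorem skew_Q {Z : Matrix (α ⊕ α) (α ⊕ α) ℝ} (hZ : Z ∈ soQ α) : Zᵀ = -Z := by
  obtain ⟨X, Y, hX, hY, rfl⟩ := hZ
  rw [fromBlocks_transpose, fromBlocks_neg, hX, hY]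

theorem inv_so_le (ρ : PRep (α ⊕ α) V) (L : Set (Matrix (α ⊕ α) (α ⊕ α) ℝ))
    (hL : ∀ Z ∈ L, Zᵀ = -Z) : ρ.inv (so (α ⊕ α)) ≤ ρ.inv L :=
  fun _ hv Z hZ => hv Z (hL Z hZ)

theorem isSO_blocks {g h : Matrix α α ℝ} (hg : IsSO g) (hh : IsSO h) :
    IsSO (fromBlocks g 0 0 h) := by
  refine ⟨?_, ?_⟩
  · rw [fromBlocks_transpose, fromBlocks_multiply]
    simp [hg.1, hh.1, fromBlocks_one]
  · rw [Matrix.det_fromBlocks_zero₂₁, hg.2, hh.2, one_mul]

theorem isSO_one : IsSO (1 : Matrix α α ℝ) := ⟨by simp, by simp⟩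

end

section fd
variable {α : Type} [Fintype α] [DecidableEq α] {V : Type} [NormedAddCommGroup V]
  [InnerProductSpace ℝ V] [FiniteDimensional ℝ V]

theorem R_of_invD (ρ : PRep (α ⊕ α) V) {v : V} (hv : v ∈ ρ.inv (soD α)) {g : Matrix α α ℝ}
    (hg : IsSO g) : ρ.R (fromBlocks g 0 0 g) v = v := by
  rw [← pullD_R]
  exact ρ.pullD.R_of_inv v (by rw [pullD_inv]; exact hv) g hg

theorem R_of_invSS (ρ : PRep (α ⊕ α) V) {v : V} (hv : v ∈ ρ.inv (soSS α)) {g h : Matrix α α ℝ}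
    (hg : IsSO g) (hh : IsSO h) : ρ.R (fromBlocks g 0 0 h) v = v := by
  obtain ⟨h1, h2⟩ := (mem_invSS ρ v).mp hv
  have e : fromBlocks g 0 0 h = fromBlocks g 0 0 1 * fromBlocks 1 0 0 h := by
    rw [fromBlocks_multiply]; simp
  have a2 : ρ.R (fromBlocks 1 0 0 h) v = v := by
    rw [← pullR_R]; exact ρ.pullR.R_of_inv v h2 h hh
  have a1 : ρ.R (fromBlocks g 0 0 1) v = v := by
    rw [← pullL_R]; exact ρ.pullL.R_of_inv v h1 g hg
  rw [e, ρ.mul, a2, a1]

/-- conjugation moves invariants -/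
theorem R_mem_inv {β : Type} [Fintype β] [DecidableEq β] (ρ : PRep β V) {g : Matrix β β ℝ}
    (hg : gᵀ * g = 1) (L L' : Set (Matrix β β ℝ)) (h : ∀ X ∈ L', gᵀ * X * g ∈ L) {v : V}
    (hv : v ∈ ρ.inv L) : ρ.R g v ∈ ρ.inv L' := by
  intro X hX
  have hg' : g * gᵀ = 1 := mul_eq_one_comm.mp hg
  have h1 : X * g = g * (gᵀ * X * g) := by
    rw [← Matrix.mul_assoc, ← Matrix.mul_assoc, hg', Matrix.one_mul]
  rw [ρ.R_D h1, hv _ (h X hX), map_zero]

/-- projections onto invariants commute with the group element normalising the set -/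
theorem R_proj {β : Type} [Fintype β] [DecidableEq β] (ρ : PRep β V) {g : Matrix β β ℝ}
    (hg : gᵀ * g = 1) (L L' : Set (Matrix β β ℝ)) (h : ∀ X ∈ L', gᵀ * X * g ∈ L)
    (h' : ∀ X ∈ L, g * X * gᵀ ∈ L') (v : V) :
    ρ.R g ((ρ.inv L).starProjection v) = (ρ.inv L').starProjection (ρ.R g v) := by
  symm
  have hg' : g * gᵀ = 1 := mul_eq_one_comm.mp hg
  apply proj_unique (R_mem_inv ρ hg L L' h (proj_mem _ v))
  rw [← map_sub, mem_orth]
  intro z hz
  rw [real_inner_comm, ← ρ.inner_R gᵀ (by rw [Matrix.transpose_transpose]; exact hg'),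
    ρ.R_inv g hg, real_inner_comm]
  refine (mem_orth.mp ((ρ.inv L).sub_starProjection_mem_orthogonal v)) _ ?_
  refine R_mem_inv ρ (by rw [Matrix.transpose_transpose]; exact hg') L' L ?_ hz
  intro X hX
  rw [Matrix.transpose_transpose]
  exact h' X hX

/-- the invariants of all skew matrices are fixed by conjugation -/
theorem R_mem_orth {β : Type} [Fintype β] [DecidableEq β] (ρ : PRep β V) {g : Matrix β β ℝ}
    (hg : gᵀ * g = 1) {v : V} (hv : v ∈ (ρ.inv (so β))ᗮ) : ρ.R g v ∈ (ρ.inv (so β))ᗮ := by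
  have hg' : g * gᵀ = 1 := mul_eq_one_comm.mp hg
  have e1 : ∀ X ∈ so β, gᵀ * X * g ∈ so β := by
    intro X hX
    have hX' : Xᵀ = -X := hX
    show (gᵀ * X * g)ᵀ = -(gᵀ * X * g)
    rw [Matrix.transpose_mul, Matrix.transpose_mul, hX', Matrix.transpose_transpose]
    simp [Matrix.mul_assoc]
  have e2 : ∀ X ∈ so β, g * X * gᵀ ∈ so β := by
    intro X hX
    have hX' : Xᵀ = -X := hX
    show (g * X * gᵀ)ᵀ = -(g * X * gᵀ)
    rw [Matrix.transpose_mul, Matrix.transpose_mul, hX', Matrix.transpose_transpose]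
    simp [Matrix.mul_assoc]
  have h1 := R_proj ρ hg (so β) (so β) e1 e2 v
  rw [proj_of_orth hv, map_zero] at h1
  have h2 := h1.symm
  rwa [Submodule.starProjection_apply_eq_zero_iff] at h2

/-- the projection onto the fixed vectors of a finite group is the average -/
theorem fix_proj {β : Type} [Fintype β] [DecidableEq β] (ρ : PRep β V) (F : Finset (Matrix β β ℝ))
    (hF : FinGrp F) (v : V) :
    (ρ.fix (F : Set (Matrix β β ℝ))).starProjection v = (F.card : ℝ)⁻¹ • ∑ f ∈ F, ρ.R f v := by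
  classical
  have hc : 0 < (F.card : ℝ) := by exact_mod_cast Finset.card_pos.mpr ⟨1, hF.one⟩
  have hinj : ∀ g ∈ F, Function.Injective (fun f : Matrix β β ℝ => g * f) := by
    intro g hg a b hab
    have h1 := congrArg (fun x => gᵀ * x) hab
    simp only [← Matrix.mul_assoc, (hF.isSO g hg).1, Matrix.one_mul] at h1
    exact h1
  have htr : ∀ g ∈ F, F.image (fun f => g * f) = F := by
    intro g hg
    apply Finset.eq_of_subset_of_card_le
    · intro x hx
      obtain ⟨f, hf, rfl⟩ := Finset.mem_image.mp hx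
      exact hF.mul g hg f hf
    · rw [Finset.card_image_of_injective _ (hinj g hg)]
  apply proj_unique
  · intro g hg
    rw [map_smul, map_sum]
    congr 1
    conv_rhs => rw [← htr g hg]
    rw [Finset.sum_image (fun a _ b _ h => hinj g hg h)]
    exact Finset.sum_congr rfl fun f _ => (ρ.mul g f v).symm
  · rw [mem_orth]
    intro z hz
    rw [inner_sub_right, inner_smul_right, inner_sum]
    have : ∀ f ∈ F, inner ℝ z (ρ.R f v) = inner ℝ z v := by
      intro f hf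
      rw [← ρ.adj, hz _ (hF.tr f hf)]
    rw [Finset.sum_congr rfl this, Finset.sum_const, nsmul_eq_mul, ← mul_assoc,
      inv_mul_cancel₀ hc.ne', one_mul, sub_self]

end fd

end Pool.Agent.Helper172_SO
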