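import Pool.Agent.Helper172_SO.Unif

set_option autoImplicit false
set_option linter.unusedSectionVars false

namespace Pool.Agent.Helper172_SO

open Matrix

/-- the angle bounds -/
theorem tau_all (hJ : TaskJ) (h2 : TaskB2) (j : ℕ) (hj : 3 ≤ j) :
    TauBd (C j) (24 / (2 ^ j + 2)) := by
  obtain ⟨J, h3, h4, h5⟩ := hJ j hj
  have hc : 3 ≤ Fintype.card (C j) := by
    rw [Fintype.card_fun, ZMod.card, Fintype.card_fin]
    calc 3 ≤ 2 ^ 3 := by norm_num
      _ ≤ 2 ^ j := Nat.pow_le_pow_right (by norm_num) hj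
  have := h2 (C j) hc (6 / (2 ^ j + 2)) J (by positivity) h3 h4 h5
  have e : (4 : ℝ) * (6 / (2 ^ j + 2)) = 24 / (2 ^ j + 2) := by ring
  rw [e] at this
  exact this

/-- the numerical estimate for one step -/
theorem step_num (x : ℝ) (hx : 128 ≤ x) :
    1 - 13 / x ≤ (1 - 4 / (x + 2)) * (1 - 4 / (x + 2) - (24 / (x + 2)) ^ 2) := by
  have h0 : 0 < x := by linarith
  have h1 : 4 / (x + 2) ≤ 4 / x := div_le_div_of_nonneg_left (by norm_num) h0 (by linarith)
  have h2 : 24 / (x + 2) ≤ 24 / x := div_le_div_of_nonneg_left (by norm_num) h0 (by linarith)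
  have h3 : 0 ≤ 4 / (x + 2) := by positivity
  have h4 : 0 ≤ 24 / (x + 2) := by positivity
  have h5 : (24 / (x + 2)) ^ 2 ≤ (24 / x) ^ 2 := pow_le_pow_left₀ h4 h2 2
  have h6 : (24 / x) ^ 2 ≤ (9 / 2) / x := by
    rw [div_pow, div_le_div_iff₀ (by positivity) h0]
    nlinarith
  have h7 : 13 / x = 4 / x + 4 / x + 5 / x := by ring
  have h8 : (9 / 2) / x ≤ 5 / x := div_le_div_of_nonneg_right (by norm_num) h0.le
  set a := 4 / (x + 2)
  set b := (24 / (x + 2)) ^ 2
  have hb : 0 ≤ b := sq_nonneg _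
  have : (1 - a) * (1 - a - b) = 1 - a - a - b + a * a + a * b := by ring
  rw [this, h7]
  have := mul_nonneg h3 h3
  have := mul_nonneg h3 hb
  linarith

theorem lvl_self (m : ℕ) : lvl m m le_rfl = so (C m) := by
  have e : ∀ X : Matrix (C m) (C m) ℝ, up m m le_rfl X = X := by
    intro X
    ext x y
    rw [up, Matrix.of_apply, if_pos]
    · rfl
    · intro i hi
      exact absurd i.2 (by omega)
  ext Z
  constructor
  · rintro ⟨X, hX, rfl⟩
    rw [e]; exact hX
  · intro hZ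
    exact ⟨Z, hZ, (e Z).symm⟩

theorem chain (hL : TaskLevel) (hX : TaskGoodX) (hZ : TaskGoodZ) (hJ : TaskJ) (h2 : TaskB2)
    (m : ℕ) (hm : 7 ≤ m) {V : Type} [NormedAddCommGroup V] [InnerProductSpace ℝ V]
    [FiniteDimensional ℝ V] (ρ : PRep (C m) V) (v : V) (hv : ∀ σ ∈ TV m, ρ.R (pm σ) v = v) :
    (51 / 64 : ℝ) * (‖v‖ ^ 2 - ‖(ρ.inv (so (C m))).starProjection v‖ ^ 2) ≤
      ‖v‖ ^ 2 - ‖(ρ.inv (lvl 7 m hm)).starProjection v‖ ^ 2 := by
  have hnn : ∀ P : Submodule ℝ V, 0 ≤ ‖v‖ ^ 2 - ‖P.starProjection v‖ ^ 2 := by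
    intro P
    have := norm_sq_split P v
    nlinarith [sq_nonneg ‖v - P.starProjection v‖]
  have key : ∀ d : ℕ, ∀ h : 7 + d ≤ m,
      (1 - 13 * (1 / 64 - 1 / 2 ^ (6 + d) : ℝ)) *
        (‖v‖ ^ 2 - ‖(ρ.inv (lvl (7 + d) m h)).starProjection v‖ ^ 2) ≤
        ‖v‖ ^ 2 - ‖(ρ.inv (lvl 7 m hm)).starProjection v‖ ^ 2 := by
    intro d
    induction d with
    | zero =>
      intro h
      have : (1 - 13 * (1 / 64 - 1 / 2 ^ (6 + 0) : ℝ)) = 1 := by norm_num
      rw [this, one_mul]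
    | succ d ih =>
      intro h
      have h' : 7 + d ≤ m := by omega
      have ih' := ih h'
      set x : ℝ := 2 ^ (7 + d) with hx
      have hx128 : 128 ≤ x := by
        rw [hx]
        calc (128 : ℝ) = 2 ^ 7 := by norm_num
          _ ≤ 2 ^ (7 + d) := pow_le_pow_right₀ (by norm_num) (by omega)
      have hb : (4 : ℝ) / (x + 2) ≤ 1 := by rw [div_le_one (by linarith)]; linarith
      have hsum : (24 / (x + 2)) ^ 2 + 4 / (x + 2) ≤ 1 := by
        have a1 : 24 / (x + 2) ≤ 24 / 130 := div_le_div_of_nonneg_left (by norm_num) (by norm_num) (by linarith)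
        have a2 : 4 / (x + 2) ≤ 4 / 130 := div_le_div_of_nonneg_left (by norm_num) (by norm_num) (by linarith)
        have a3 : (24 / (x + 2)) ^ 2 ≤ (24 / 130) ^ 2 := pow_le_pow_left₀ (by positivity) a1 2
        norm_num at a3
        linarith
      have hlev := hL (7 + d) m (by omega) (4 / (x + 2)) (24 / (x + 2)) (by positivity) hb hsum
        (by positivity) (hX (7 + d) (by omega)) (hZ (7 + d) (by omega))
        (tau_all hJ h2 (7 + d) (by omega)) V ρ v hv
      set aj := ‖v‖ ^ 2 - ‖(ρ.inv (lvl (7 + d) m h')).starProjection v‖ ^ 2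
      set aj1 := ‖v‖ ^ 2 - ‖(ρ.inv (lvl (7 + (d + 1)) m h)).starProjection v‖ ^ 2
      have hnum := step_num x hx128
      have haj1 : 0 ≤ aj1 := hnn _
      have h3 : (1 - 13 / x) * aj1 ≤ aj := (mul_le_mul_of_nonneg_right hnum haj1).trans hlev
      have hs0 : 0 ≤ (1 / 64 - 1 / 2 ^ (6 + d) : ℝ) := by
        have : (1 : ℝ) / 2 ^ (6 + d) ≤ 1 / 64 := by
          apply div_le_div_of_nonneg_left (by norm_num) (by norm_num)
          calc (64 : ℝ) = 2 ^ 6 := by norm_num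
            _ ≤ 2 ^ (6 + d) := pow_le_pow_right₀ (by norm_num) (by omega)
        linarith
      have hs1 : (1 / 64 - 1 / 2 ^ (6 + d) : ℝ) ≤ 1 / 64 := by
        have : (0 : ℝ) < 1 / 2 ^ (6 + d) := by positivity
        linarith
      set s : ℝ := 13 * (1 / 64 - 1 / 2 ^ (6 + d)) with hs
      have hs2 : 0 ≤ 1 - s := by rw [hs]; linarith
      have hs3 : 0 ≤ s := by rw [hs]; linarith
      have h4 : (1 - s) * ((1 - 13 / x) * aj1) ≤ (1 - s) * aj := mul_le_mul_of_nonneg_left h3 hs2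
      have h5 : (1 - 13 * (1 / 64 - 1 / 2 ^ (6 + (d + 1)) : ℝ)) ≤ (1 - s) * (1 - 13 / x) := by
        have e1 : (1 : ℝ) / 2 ^ (6 + (d + 1)) = 1 / x := by rw [hx]; congr 2; ring
        have e2 : (1 : ℝ) / 2 ^ (6 + d) = 2 * (1 / x) := by
          rw [hx]
          have : (2 : ℝ) ^ (7 + d) = 2 * 2 ^ (6 + d) := by rw [← pow_succ']; congr 1; ring
          rw [this]
          field_simp
        have e3 : 0 ≤ s * (13 / x) := mul_nonneg hs3 (by positivity)
        have e4 : (1 - s) * (1 - 13 / x) = 1 - s - 13 / x + s * (13 / x) := by ring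
        rw [e4, e1, hs, e2]
        have e5 : 13 / x = 13 * (1 / x) := by ring
        rw [hs, e2] at e3
        rw [e5] at e3 ⊢
        linarith
      have h6 := mul_le_mul_of_nonneg_right h5 haj1
      calc (1 - 13 * (1 / 64 - 1 / 2 ^ (6 + (d + 1)) : ℝ)) * aj1
          ≤ (1 - s) * (1 - 13 / x) * aj1 := h6
        _ = (1 - s) * ((1 - 13 / x) * aj1) := by ring
        _ ≤ (1 - s) * aj := h4
        _ ≤ _ := ih'
  obtain ⟨d, rfl⟩ : ∃ d, m = 7 + d := ⟨m - 7, by omega⟩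
  have h := key d le_rfl
  rw [lvl_self] at h
  have hpos : 0 < (1 : ℝ) / 2 ^ (6 + d) := by positivity
  refine le_trans (mul_le_mul_of_nonneg_right ?_ (hnn _)) h
  linarith

end Pool.Agent.Helper172_SO
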