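import Mathlib

set_option autoImplicit false

/-!
Definitions for MP_839d28_al: a spectral gap for `SO(n)` uniform in `n`.
-/

namespace Pool.Agent.Helper172_SO

open Matrix

/-- Representations: the monoid of all real square matrices over `α` acts on the real inner product
space `V`, transposes act by adjoints, and `D` is the derivative at `1`. -/
structure PRep (α : Type) [Fintype α] [DecidableEq α] (V : Type) [NormedAddCommGroup V]
    [InnerProductSpace ℝ V] where
  /-- the action -/
  R : Matrix α α ℝ → V →ₗ[ℝ] V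
  /-- the derivative at `1` -/
  D : Matrix α α ℝ →ₗ[ℝ] V →ₗ[ℝ] V
  one : ∀ v, R 1 v = v
  mul : ∀ g h v, R (g * h) v = R g (R h v)
  adj : ∀ g v w, inner ℝ (R gᵀ v) w = inner ℝ v (R g w)
  der : ∀ (c : ℝ → Matrix α α ℝ) (X : Matrix α α ℝ), c 0 = 1 →
    (∀ i j, HasDerivAt (fun t => c t i j) (X i j) 0) →
    ∀ v, HasDerivAt (fun t => R (c t) v) (D X v) 0

section
variable {α : Type} [Fintype α] [DecidableEq α] {β : Type} [Fintype β] [DecidableEq β]
  {V : Type} [NormedAddCommGroup V] [InnerProductSpace ℝ V]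

/-- rotations -/
def IsSO (g : Matrix α α ℝ) : Prop := gᵀ * g = 1 ∧ g.det = 1

/-- skew symmetric matrices -/
def so (α : Type) [Fintype α] [DecidableEq α] : Set (Matrix α α ℝ) := {X | Xᵀ = -X}

/-- skew symmetric matrices supported on a set of indices -/
def soOn (s : Finset α) : Set (Matrix α α ℝ) := {X | Xᵀ = -X ∧ ∀ i j, X i j ≠ 0 → i ∈ s ∧ j ∈ s}

/-- vectors killed by `D X` for `X` in `L` -/
def PRep.inv (ρ : PRep α V) (L : Set (Matrix α α ℝ)) : Submodule ℝ V where
  carrier := {v | ∀ X ∈ L, ρ.D X v = 0}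
  zero_mem' := by intro X _; simp
  add_mem' := by
    intro a b ha hb X hX
    rw [map_add, ha X hX, hb X hX, add_zero]
  smul_mem' := by
    intro c a ha X hX
    rw [map_smul, ha X hX, smul_zero]

/-- vectors fixed by `R g` for `g` in `F` -/
def PRep.fix (ρ : PRep α V) (F : Set (Matrix α α ℝ)) : Submodule ℝ V where
  carrier := {v | ∀ g ∈ F, ρ.R g v = v}
  zero_mem' := by intro X _; simp
  add_mem' := by
    intro a b ha hb X hX
    rw [map_add, ha X hX, hb X hX]
  smul_mem' := by
    intro c a ha X hX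
    rw [map_smul, ha X hX]

/-- pulling back a representation along an affine homomorphism of matrix monoids -/
noncomputable def PRep.pull (ρ : PRep β V) (ψ : Matrix α α ℝ →ₗ[ℝ] Matrix β β ℝ)
    (e : Matrix β β ℝ) (h1 : ψ 1 + e = 1) (hm : ∀ g h, ψ (g * h) + e = (ψ g + e) * (ψ h + e))
    (ht : ∀ g, ψ gᵀ + e = (ψ g + e)ᵀ) : PRep α V where
  R g := ρ.R (ψ g + e)
  D := ρ.D ∘ₗ ψ
  one v := by rw [h1, ρ.one]
  mul g h v := by rw [hm, ρ.mul]
  adj g v w := by rw [ht, ρ.adj]
  der c X h0 hc v := by
    have := ρ.der (fun t => ψ (c t) + e) (ψ X) (by rw [h0, h1]) ?_ v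
    · exact this
    · intro i j
      have hc' : HasDerivAt (fun t => (fun a b => c t a b : α → α → ℝ)) (fun a b => X a b) 0 := by
        rw [hasDerivAt_pi]; intro a
        rw [hasDerivAt_pi]; intro b
        exact hc a b
      let φ : (α → α → ℝ) →ₗ[ℝ] ℝ :=
        { toFun := fun g => ψ (Matrix.of g) i j
          map_add' := fun a b => by
            rw [show Matrix.of (a + b) = Matrix.of a + Matrix.of b from rfl, map_add]; rfl
          map_smul' := fun r a => by
            rw [show Matrix.of (r • a) = r • Matrix.of a from rfl, map_smul]; rfl }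
      have h2 := (LinearMap.toContinuousLinearMap φ).hasFDerivAt.comp_hasDerivAt (0 : ℝ) hc'
      have h3 := h2.add_const (e i j)
      exact h3

end

end Pool.Agent.Helper172_SO
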