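import Pool.Agent.Helper172_SO.Basic

set_option autoImplicit false
set_option linter.unusedSectionVars false

namespace Pool.Agent.Helper172_SO

open Matrix

variable {α : Type} [Fintype α] [DecidableEq α]

/-- reflection matrices -/
def refl (u : α → ℝ) : Matrix α α ℝ := 1 - (2 : ℝ) • vecMulVec u u

theorem refl_transpose (u : α → ℝ) : (refl u)ᵀ = refl u := by
  simp [refl, Matrix.transpose_vecMulVec]

theorem refl_mul_self (u : α → ℝ) (hu : u ⬝ᵥ u = 1) : refl u * refl u = 1 := by
  have h : vecMulVec u u * vecMulVec u u = vecMulVec u u := by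
    rw [Matrix.vecMulVec_mul_vecMulVec, hu, one_smul]
  rw [refl, sub_mul, mul_sub, one_mul, one_mul, mul_sub, mul_one, smul_mul_smul_comm, h]
  module

theorem refl_mulVec (u w : α → ℝ) : refl u *ᵥ w = w - (2 * (u ⬝ᵥ w)) • u := by
  ext i
  simp only [refl, Matrix.sub_mulVec, Matrix.one_mulVec, Matrix.smul_mulVec, Pi.sub_apply,
    Pi.smul_apply, smul_eq_mul, Matrix.vecMulVec_mulVec, MulOpposite.smul_eq_mul_unop,
    MulOpposite.unop_op]
  ring

theorem det_refl (u : α → ℝ) (hu : u ⬝ᵥ u = 1) : (refl u).det = -1 := by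
  have : refl u = 1 + replicateCol Unit ((-2 : ℝ) • u) * replicateRow Unit u := by
    ext i j
    simp [refl, Matrix.vecMulVec_apply, Matrix.mul_apply, sub_eq_add_neg]
    ring
  rw [this, Matrix.det_one_add_replicateCol_mul_replicateRow, dotProduct_smul, hu]
  norm_num

/-- every orthogonal matrix is a product of reflections -/
theorem exists_list_refl (g : Matrix α α ℝ) (hg : gᵀ * g = 1) :
    ∃ l : List (α → ℝ), (∀ u ∈ l, u ⬝ᵥ u = 1) ∧ (l.map refl).prod = g := by
  suffices H : ∀ (n : ℕ) (g : Matrix α α ℝ), gᵀ * g = 1 →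
      (Finset.univ.filter (fun x => g *ᵥ (Pi.single x 1) ≠ Pi.single x 1)).card = n →
      ∃ l : List (α → ℝ), (∀ u ∈ l, u ⬝ᵥ u = 1) ∧ (l.map refl).prod = g from H _ g hg rfl
  intro n
  induction n using Nat.strong_induction_on with
  | _ n ih =>
    intro g hg hn
    by_cases hall : ∀ x, g *ᵥ (Pi.single x 1) = Pi.single x 1
    · refine ⟨[], by simp, ?_⟩
      ext i j
      have := congrFun (hall j) i
      simp only [Matrix.mulVec_single, MulOpposite.op_one, one_smul, Matrix.col_apply] at this
      simp [this, Matrix.one_apply, Pi.single_apply]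
    · push Not at hall
      obtain ⟨x, hx⟩ := hall
      set e : α → α → ℝ := fun y => Pi.single y 1 with he
      set d : α → ℝ := g *ᵥ (e x) - e x with hd
      have hd0 : d ≠ 0 := sub_ne_zero.mpr hx
      have hdd : 0 < d ⬝ᵥ d := by
        have := Matrix.dotProduct_self_star_pos_iff (R := ℝ) (v := d)
        simpa using this.mpr hd0
      set c : ℝ := (Real.sqrt (d ⬝ᵥ d))⁻¹ with hc
      have hc2 : c * c * (d ⬝ᵥ d) = 1 := by
        rw [hc, ← mul_inv, Real.mul_self_sqrt hdd.le, inv_mul_cancel₀ hdd.ne']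
      set u : α → ℝ := c • d with hu
      have huu : u ⬝ᵥ u = 1 := by
        rw [hu, smul_dotProduct, dotProduct_smul, smul_eq_mul, smul_eq_mul, ← mul_assoc]
        exact hc2
      have hgin : ∀ v w : α → ℝ, (g *ᵥ v) ⬝ᵥ (g *ᵥ w) = v ⬝ᵥ w := by
        intro v w
        rw [Matrix.dotProduct_mulVec, ← Matrix.mulVec_transpose, Matrix.mulVec_mulVec, hg,
          Matrix.one_mulVec]
      -- the reflection maps g e_x to e_x
      have h1 : refl u *ᵥ (g *ᵥ (e x)) = e x := by
        rw [refl_mulVec]
        have h2 : 2 * (d ⬝ᵥ (g *ᵥ (e x))) = d ⬝ᵥ d := by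
          have a1 : (g *ᵥ (e x)) ⬝ᵥ (g *ᵥ (e x)) = 1 := by rw [hgin]; simp [he]
          have a2 : (e x) ⬝ᵥ (e x) = 1 := by simp [he]
          have a3 : (e x) ⬝ᵥ (g *ᵥ (e x)) = (g *ᵥ (e x)) ⬝ᵥ (e x) := dotProduct_comm _ _
          rw [hd, dotProduct_sub, sub_dotProduct, sub_dotProduct, a1, a2, a3]
          ring
        have h3 : (2 * (u ⬝ᵥ (g *ᵥ (e x)))) • u = d := by
          rw [hu, smul_dotProduct, smul_eq_mul, smul_smul]
          have : 2 * (c * (d ⬝ᵥ (g *ᵥ (e x)))) * c = 1 := by
            calc 2 * (c * (d ⬝ᵥ (g *ᵥ (e x)))) * c = c * c * (2 * (d ⬝ᵥ (g *ᵥ (e x)))) := by ring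
              _ = 1 := by rw [h2]; exact hc2
          rw [this, one_smul]
        rw [h3, hd]
        abel
      -- fixed vectors stay fixed
      have h4 : ∀ y, g *ᵥ (e y) = e y → (refl u * g) *ᵥ (e y) = e y := by
        intro y hy
        have hxy : y ≠ x := by rintro rfl; exact hx hy
        rw [← Matrix.mulVec_mulVec, hy, refl_mulVec]
        have : u ⬝ᵥ e y = 0 := by
          rw [hu, smul_dotProduct, hd, sub_dotProduct]
          have b1 : (g *ᵥ (e x)) ⬝ᵥ (e y) = (g *ᵥ (e x)) ⬝ᵥ (g *ᵥ (e y)) := by rw [hy]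
          rw [b1, hgin]
          simp
        rw [this]
        simp
      have horth : (refl u * g)ᵀ * (refl u * g) = 1 := by
        rw [Matrix.transpose_mul, refl_transpose, Matrix.mul_assoc, ← Matrix.mul_assoc (refl u),
          refl_mul_self u huu, Matrix.one_mul, hg]
      have hlt : (Finset.univ.filter (fun y => (refl u * g) *ᵥ (Pi.single y 1) ≠ Pi.single y 1)).card < n := by
        rw [← hn]
        apply Finset.card_lt_card
        rw [Finset.ssubset_iff_of_subset]
        · refine ⟨x, by simpa using hx, ?_⟩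
          simp only [Finset.mem_filter, Finset.mem_univ, true_and, not_not]
          rw [← Matrix.mulVec_mulVec]
          exact h1
        · intro y hy
          simp only [Finset.mem_filter, Finset.mem_univ, true_and] at hy ⊢
          exact fun h => hy (h4 y h)
      obtain ⟨l, hl1, hl2⟩ := ih _ hlt (refl u * g) horth rfl
      refine ⟨u :: l, ?_, ?_⟩
      · intro w hw
        rcases List.mem_cons.mp hw with rfl | hw
        · exact huu
        · exact hl1 w hw
      · rw [List.map_cons, List.prod_cons, hl2, ← Matrix.mul_assoc, refl_mul_self u huu,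
          Matrix.one_mul]

variable {V : Type} [NormedAddCommGroup V] [InnerProductSpace ℝ V] [FiniteDimensional ℝ V]

theorem refl_const_circle (ρ : PRep α V) (v : V) (hv : v ∈ ρ.inv (so α)) (a b : α → ℝ)
    (ha : a ⬝ᵥ a = 1) (hb : b ⬝ᵥ b = 1) (hab : a ⬝ᵥ b = 0) (t : ℝ) :
    ρ.R (refl (Real.cos t • a + Real.sin t • b)) v = ρ.R (refl a) v := by
  set u : ℝ → α → ℝ := fun t => Real.cos t • a + Real.sin t • b with hu
  have hba : b ⬝ᵥ a = 0 := by rw [dotProduct_comm]; exact hab
  have huu : ∀ t, u t ⬝ᵥ u t = 1 := by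
    intro t
    simp only [hu, add_dotProduct, dotProduct_add, smul_dotProduct, dotProduct_smul, smul_eq_mul,
      ha, hb, hab, hba]
    have := Real.sin_sq_add_cos_sq t
    nlinarith
  have hder : ∀ t, HasDerivAt (fun s => ρ.R (refl (u s)) v) 0 t := by
    intro t
    set u' : α → ℝ := -(Real.sin t) • a + Real.cos t • b with hu'
    have huu' : u t ⬝ᵥ u' = 0 := by
      simp only [hu, hu', add_dotProduct, dotProduct_add, smul_dotProduct, dotProduct_smul,
        smul_eq_mul, ha, hb, hab, hba]
      ring
    have hud : ∀ i, HasDerivAt (fun s => u s i) (u' i) t := by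
      intro i
      have h1 : HasDerivAt (fun s => Real.cos s * a i + Real.sin s * b i)
          (-(Real.sin t) * a i + Real.cos t * b i) t :=
        ((Real.hasDerivAt_cos t).mul_const _).add ((Real.hasDerivAt_sin t).mul_const _)
      simpa [hu, hu'] using h1
    -- derivative of the reflections
    set Y : Matrix α α ℝ := -(2 : ℝ) • (vecMulVec u' (u t) + vecMulVec (u t) u') with hY
    have hr : ∀ i j, HasDerivAt (fun s => refl (u s) i j) (Y i j) t := by
      intro i j
      have h1 : HasDerivAt (fun s => (1 : Matrix α α ℝ) i j - 2 * (u s i * u s j))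
          (0 - 2 * (u' i * u t j + u t i * u' j)) t :=
        (hasDerivAt_const _ _).sub (((hud i).mul (hud j)).const_mul 2)
      have e1 : (fun s => refl (u s) i j) = fun s => (1 : Matrix α α ℝ) i j - 2 * (u s i * u s j) := by
        funext s
        simp [refl, Matrix.vecMulVec_apply]
      have e2 : Y i j = 0 - 2 * (u' i * u t j + u t i * u' j) := by
        simp [hY, Matrix.vecMulVec_apply]
        ring
      rw [e1, e2]
      exact h1
    set X : Matrix α α ℝ := refl (u t) * Y with hX
    have hXs : Xᵀ = -X := by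
      have : X = -(2 : ℝ) • (vecMulVec u' (u t) - vecMulVec (u t) u') := by
        have e1 : refl (u t) * vecMulVec u' (u t) = vecMulVec u' (u t) := by
          rw [Matrix.mul_vecMulVec, refl_mulVec, huu']
          simp
        have e2 : refl (u t) * vecMulVec (u t) u' = - vecMulVec (u t) u' := by
          rw [Matrix.mul_vecMulVec, refl_mulVec, huu]
          ext i j
          simp [Matrix.vecMulVec_apply]
          ring
        rw [hX, hY, mul_smul_comm, mul_add, e1, e2]
        module
      rw [this, Matrix.transpose_smul, Matrix.transpose_sub, Matrix.transpose_vecMulVec,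
        Matrix.transpose_vecMulVec]
      module
    have h0 : refl (u t) * refl (u t) = 1 := refl_mul_self _ (huu t)
    have h1 := ρ.der_mul (refl (u t)) (fun s => refl (u t) * refl (u s)) X t h0 (by
      intro i j
      have : ∀ s, (refl (u t) * refl (u s)) i j = ∑ k, refl (u t) i k * refl (u s) k j := by
        intro s; rw [Matrix.mul_apply]
      simp only [this]
      rw [hX, Matrix.mul_apply]
      exact HasDerivAt.fun_sum fun k _ => (hr k j).const_mul _) v
    rw [hv X hXs, map_zero] at h1
    have e : (fun s => ρ.R (refl (u t) * (refl (u t) * refl (u s))) v) =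
        fun s => ρ.R (refl (u s)) v := by
      funext s
      rw [← Matrix.mul_assoc, h0, Matrix.one_mul]
    rw [e] at h1
    exact h1
  have hc : ∀ x y, (fun s => ρ.R (refl (u s)) v) x = (fun s => ρ.R (refl (u s)) v) y :=
    is_const_of_deriv_eq_zero (fun t => (hder t).differentiableAt) (fun t => (hder t).deriv)
  have := hc t 0
  simp only [hu] at this ⊢
  rw [this]
  simp

theorem refl_const (ρ : PRep α V) (v : V) (hv : v ∈ ρ.inv (so α)) (a w : α → ℝ)
    (ha : a ⬝ᵥ a = 1) (hw : w ⬝ᵥ w = 1) : ρ.R (refl w) v = ρ.R (refl a) v := by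
  set c : ℝ := a ⬝ᵥ w with hc
  set d : α → ℝ := w - c • a with hd
  have had : a ⬝ᵥ d = 0 := by rw [hd, dotProduct_sub, dotProduct_smul, ha]; simp [hc]
  have hdd : d ⬝ᵥ d = 1 - c ^ 2 := by
    have h1 : d ⬝ᵥ d = d ⬝ᵥ w := by
      conv_lhs => rw [hd, dotProduct_sub, dotProduct_smul, ← hd, dotProduct_comm d a, had]
      simp
    rw [h1, hd, sub_dotProduct, hw, smul_dotProduct, ← hc, smul_eq_mul]
    ring
  have hnn : 0 ≤ d ⬝ᵥ d := Finset.sum_nonneg fun i _ => mul_self_nonneg (d i)
  by_cases h0 : d ⬝ᵥ d = 0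
  · have hd0 : d = 0 := dotProduct_self_eq_zero.mp h0
    have hwc : w = c • a := by rw [hd] at hd0; exact sub_eq_zero.mp hd0
    have hc2 : c ^ 2 = 1 := by rw [h0] at hdd; linarith
    have : refl w = refl a := by
      ext i j
      simp only [refl, Matrix.sub_apply, Matrix.smul_apply, Matrix.vecMulVec_apply, smul_eq_mul, hwc,
        Pi.smul_apply]
      have : c * a i * (c * a j) = c ^ 2 * (a i * a j) := by ring
      rw [this, hc2, one_mul]
    rw [this]
  · have hpos : 0 < d ⬝ᵥ d := lt_of_le_of_ne hnn (Ne.symm h0)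
    set s : ℝ := Real.sqrt (d ⬝ᵥ d) with hs
    have hs0 : 0 < s := Real.sqrt_pos.mpr hpos
    have hss : s * s = d ⬝ᵥ d := Real.mul_self_sqrt hnn
    set b : α → ℝ := s⁻¹ • d with hb
    have hbb : b ⬝ᵥ b = 1 := by
      rw [hb, smul_dotProduct, dotProduct_smul, smul_eq_mul, smul_eq_mul, ← hss]
      field_simp
    have hab : a ⬝ᵥ b = 0 := by rw [hb, dotProduct_smul, had, smul_zero]
    -- angle
    have hcs : c ^ 2 + s ^ 2 = 1 := by rw [sq s, hss, hdd]; ring
    have hc1 : -1 ≤ c := by nlinarith
    have hc2 : c ≤ 1 := by nlinarith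
    have e1 : Real.cos (Real.arccos c) = c := Real.cos_arccos hc1 hc2
    have e2 : Real.sin (Real.arccos c) = s := by
      rw [Real.sin_arccos]
      have : 1 - c ^ 2 = s ^ 2 := by linarith
      rw [this, Real.sqrt_sq hs0.le]
    have h3 := refl_const_circle ρ v hv a b ha hbb hab (Real.arccos c)
    have h4 : c • a + s • b = w := by
      rw [hb, smul_smul, mul_inv_cancel₀ hs0.ne', one_smul, hd]
      ext i
      simp
    rw [e1, e2, h4] at h3
    exact h3

/-- vectors killed by all skew matrices are fixed by all rotations -/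
theorem PRep.R_of_inv (ρ : PRep α V) (v : V) (hv : v ∈ ρ.inv (so α)) (g : Matrix α α ℝ)
    (hg : IsSO g) : ρ.R g v = v := by
  obtain ⟨l, hl1, hl2⟩ := exists_list_refl g hg.1
  have hdet0 : ∀ l : List (α → ℝ), (∀ u ∈ l, u ⬝ᵥ u = 1) →
      (l.map refl).prod.det = (-1 : ℝ) ^ l.length := by
    intro l
    induction l with
    | nil => intro _; simp
    | cons u l ih =>
      intro h
      rw [List.map_cons, List.prod_cons, Matrix.det_mul, det_refl u (h u (by simp)),
        ih (fun w hw => h w (by simp [hw])), List.length_cons, pow_succ]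
      ring
  have hdet : (-1 : ℝ) ^ l.length = 1 := by
    rw [← hdet0 l hl1, hl2, hg.2]
  by_cases hne : l = []
  · subst hne
    simp only [List.map_nil, List.prod_nil] at hl2
    rw [← hl2, ρ.one]
  obtain ⟨a, l', rfl⟩ := List.exists_cons_of_ne_nil hne
  have ha : a ⬝ᵥ a = 1 := hl1 a (by simp)
  have key : ∀ l : List (α → ℝ), (∀ u ∈ l, u ⬝ᵥ u = 1) →
      ρ.R (l.map refl).prod v = if Even l.length then v else ρ.R (refl a) v := by
    intro l
    induction l with
    | nil => intro _; simp [ρ.one]
    | cons u l ih =>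
      intro h
      have hu : u ⬝ᵥ u = 1 := h u (by simp)
      have ih' := ih (fun w hw => h w (by simp [hw]))
      rw [List.map_cons, List.prod_cons, ρ.mul, ih']
      by_cases he : Even l.length
      · rw [if_pos he, if_neg (by simpa [Nat.even_add_one] using he)]
        exact refl_const ρ v hv a u ha hu
      · rw [if_neg he, if_pos (by simpa [Nat.even_add_one] using he)]
        rw [← refl_const ρ v hv a u ha hu, ← ρ.mul, refl_mul_self u hu, ρ.one]
  have h2 := key (a :: l') hl1
  rw [hl2] at h2
  have heven : Even (a :: l').length := by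
    by_contra hodd
    rw [Nat.not_even_iff_odd] at hodd
    rw [hodd.neg_one_pow] at hdet
    norm_num at hdet
  rw [h2, if_pos heven]

open NormedSpace in
/-- vectors fixed by all rotations are killed by all skew matrices -/
theorem PRep.inv_of_R (ρ : PRep α V) (v : V) (hv : ∀ g, IsSO g → ρ.R g v = v) :
    v ∈ ρ.inv (so α) := by
  intro X hX
  have h1 := ρ.der (fun t => exp (t • X)) X (by simp) (exp_entry X) v
  have horth : ∀ t : ℝ, (exp (t • X) : Matrix α α ℝ)ᵀ * exp (t • X) = 1 := by
    intro t
    have h3 := exp_mul_exp_neg (-X) t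
    rw [neg_neg] at h3
    have : (exp (t • X) : Matrix α α ℝ)ᵀ = exp (t • (-X)) := by
      rw [← Matrix.exp_transpose, Matrix.transpose_smul]
      congr 2
    rw [this]
    exact h3
  have h2 : (fun t : ℝ => ρ.R (exp (t • X)) v) = fun _ => v := by
    funext t
    apply hv
    refine ⟨horth t, ?_⟩
    have h3 : (exp (t • X) : Matrix α α ℝ) = exp ((t / 2) • X) * exp ((t / 2) • X) := by
      rw [← Matrix.exp_add_of_commute _ _ (Commute.refl _), ← add_smul]
      congr 2
      ring
    have h4 := congrArg Matrix.det (horth (t / 2))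
    rw [Matrix.det_mul, Matrix.det_transpose, Matrix.det_one] at h4
    rw [h3, Matrix.det_mul, h4]
  rw [h2] at h1
  exact h1.unique (hasDerivAt_const _ _)

end Pool.Agent.Helper172_SO
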