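import Pool.Agent.Helper172_SO.Unif
import Pool.Agent.Helper172_SO.Refl

set_option autoImplicit false
set_option linter.unusedSectionVars false

namespace Pool.Agent.Helper172_SO

open Matrix MeasureTheory

theorem IsSO.mul' {α : Type} [Fintype α] [DecidableEq α] {g h : Matrix α α ℝ} (hg : IsSO g)
    (hh : IsSO h) : IsSO (g * h) := by
  refine ⟨?_, by rw [Matrix.det_mul, hg.2, hh.2, one_mul]⟩
  rw [Matrix.transpose_mul, Matrix.mul_assoc, ← Matrix.mul_assoc gᵀ, hg.1, Matrix.one_mul, hh.1]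

theorem IsSO.transpose {α : Type} [Fintype α] [DecidableEq α] {g : Matrix α α ℝ} (hg : IsSO g) :
    IsSO gᵀ := by
  refine ⟨?_, by rw [Matrix.det_transpose, hg.2]⟩
  rw [Matrix.transpose_transpose]
  exact mul_eq_one_comm.mp hg.1

/-- there are infinitely many symmetric rotations -/
theorem infinite_sym (n : ℕ) (hn : 3 ≤ n) :
    {g : Matrix (Fin n) (Fin n) ℝ | IsSO g ∧ gᵀ = g}.Infinite := by
  let i0 : Fin n := ⟨0, by omega⟩
  let i1 : Fin n := ⟨1, by omega⟩
  let i2 : Fin n := ⟨2, by omega⟩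
  have h01 : i0 ≠ i1 := by simp [i0, i1]
  have h02 : i0 ≠ i2 := by simp [i0, i2]
  have h12 : i1 ≠ i2 := by simp [i1, i2]
  let u : ℝ → Fin n → ℝ := fun c => c • Pi.single i1 1 + Real.sqrt (1 - c ^ 2) • Pi.single i2 1
  let e0 : Fin n → ℝ := Pi.single i0 1
  let F : ℝ → Matrix (Fin n) (Fin n) ℝ := fun c => refl e0 * refl (u c)
  have he0 : e0 ⬝ᵥ e0 = 1 := by simp [e0]
  have hu : ∀ c ∈ Set.Icc (0 : ℝ) 1, u c ⬝ᵥ u c = 1 := by
    intro c hc
    have h1 : 0 ≤ 1 - c ^ 2 := by nlinarith [hc.1, hc.2]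
    simp only [u, add_dotProduct, dotProduct_add, smul_dotProduct, dotProduct_smul, smul_eq_mul,
      single_dotProduct, Pi.single_apply, h12, h12.symm, if_true, if_false]
    nlinarith [Real.mul_self_sqrt h1]
  have hue : ∀ c, e0 ⬝ᵥ u c = 0 := by
    intro c
    simp [u, e0, h01, h02]
  have hF : ∀ c, F c = 1 - (2 : ℝ) • vecMulVec e0 e0 - (2 : ℝ) • vecMulVec (u c) (u c) := by
    intro c
    have : vecMulVec e0 e0 * vecMulVec (u c) (u c) = 0 := by
      rw [Matrix.vecMulVec_mul_vecMulVec, hue, zero_smul]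
      ext i j; simp [Matrix.vecMulVec_apply]
    simp only [F, refl]
    rw [sub_mul, mul_sub, one_mul, one_mul, mul_sub, mul_one, smul_mul_smul_comm, this]
    simp
    abel
  have hmem : ∀ c ∈ Set.Icc (0 : ℝ) 1, F c ∈ {g : Matrix (Fin n) (Fin n) ℝ | IsSO g ∧ gᵀ = g} := by
    intro c hc
    refine ⟨⟨?_, ?_⟩, ?_⟩
    · simp only [F]
      rw [Matrix.transpose_mul, refl_transpose, refl_transpose, Matrix.mul_assoc,
        ← Matrix.mul_assoc (refl e0), refl_mul_self _ he0, Matrix.one_mul, refl_mul_self _ (hu c hc)]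
    · simp only [F]
      rw [Matrix.det_mul, det_refl _ he0, det_refl _ (hu c hc)]; norm_num
    · rw [hF]
      simp [Matrix.transpose_vecMulVec]
  have hinj : Set.InjOn F (Set.Icc (0 : ℝ) 1) := by
    intro c hc d hd h
    have hent : ∀ c, F c i1 i1 = 1 - 2 * c ^ 2 := by
      intro c
      rw [hF]
      simp only [Matrix.sub_apply, Matrix.smul_apply, Matrix.vecMulVec_apply, Matrix.one_apply_eq,
        smul_eq_mul]
      simp [u, e0, h01.symm, h12]
      ring
    have h1 := congrFun (congrFun h i1) i1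
    rw [hent, hent] at h1
    have h2 : c ^ 2 = d ^ 2 := by linarith
    exact (sq_eq_sq₀ hc.1 hd.1).mp h2
  exact Set.infinite_of_injOn_mapsTo hinj hmem (Set.Icc_infinite (by norm_num : (0 : ℝ) < 1))

theorem Gap.mono_set {α : Type} [Fintype α] [DecidableEq α] {S T : Finset (Matrix α α ℝ)} {κ : ℝ}
    (h : Gap S κ) (hle : S ⊆ T) : Gap T κ := by
  intro V _ _ _ ρ v hv
  exact (h V ρ v hv).trans (Finset.sum_le_sum_of_subset_of_nonneg hle (fun _ _ _ => sq_nonneg _))

/-- the left translation -/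
def lt {n : ℕ} (g : Matrix (Fin n) (Fin n) ℝ) (x : Fin n → Fin n → ℝ) : Fin n → Fin n → ℝ :=
  fun i j => ∑ l, g i l * x l j

theorem lt_cont {n : ℕ} (g : Matrix (Fin n) (Fin n) ℝ) : Continuous (lt g) := by
  unfold lt
  fun_prop

theorem final (hU : TaskUnif) (hL : TaskL2b) (hT : TaskTop) :
  ∃ ε : ℝ, 0 < ε ∧ ∃ k : ℕ, 0 < k ∧ ∀ n : ℕ, 3 ≤ n →
    ∃ S : Finset (Matrix (Fin n) (Fin n) ℝ), S.card = k ∧
      (∀ s ∈ S, s.transpose * s = 1 ∧ s.det = 1) ∧
      (∀ s ∈ S, s.transpose ∈ S) ∧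
      (∀ g : Matrix (Fin n) (Fin n) ℝ, g.transpose * g = 1 → g.det = 1 →
        g ∈ closure ((Submonoid.closure (S : Set (Matrix (Fin n) (Fin n) ℝ)) :
          Set (Matrix (Fin n) (Fin n) ℝ)))) ∧
      ∀ μ : Measure (Fin n → Fin n → ℝ), IsProbabilityMeasure μ →
        μ {x | ¬ ((Matrix.of x).transpose * Matrix.of x = 1 ∧ (Matrix.of x).det = 1)} = 0 →
        (∀ g : Matrix (Fin n) (Fin n) ℝ, g.transpose * g = 1 → g.det = 1 →
          μ.map (fun x : Fin n → Fin n → ℝ => fun i j => ∑ l, g i l * x l j) = μ) →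
        ∀ f : (Fin n → Fin n → ℝ) → ℝ, MemLp f 2 μ → ∫ x, f x ∂μ = 0 →
          ∑ s ∈ S, ∫ x, f (fun i j => ∑ l, s i l * x l j) * f x ∂μ
            ≤ ((k : ℝ) - ε) * ∫ x, f x ^ 2 ∂μ := by
  classical
  obtain ⟨κ, K, hκ, hU⟩ := hU
  refine ⟨κ / 2, by positivity, 2 * K + 1, by omega, ?_⟩
  intro n hn
  obtain ⟨S, hSc, hSO, hS⟩ := hU n hn
  set S₁ : Finset (Matrix (Fin n) (Fin n) ℝ) := S ∪ S.image Matrix.transpose with hS₁
  have hS₁c : S₁.card ≤ 2 * K := by
    have h1 := Finset.card_union_le S (S.image Matrix.transpose)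
    have h2 : (S.image Matrix.transpose).card ≤ S.card := Finset.card_image_le
    rw [← hS₁] at h1
    omega
  have hinf : ({g : Matrix (Fin n) (Fin n) ℝ | IsSO g ∧ gᵀ = g} \ (S₁ : Set _)).Infinite :=
    (infinite_sym n hn).sdiff (Finset.finite_toSet _)
  obtain ⟨E, hE1, hE2⟩ := hinf.exists_subset_card_eq (2 * K + 1 - S₁.card)
  have hdisj : Disjoint S₁ E := by
    rw [Finset.disjoint_left]
    intro x hx hxE
    exact (hE1 hxE).2 hx
  set T : Finset (Matrix (Fin n) (Fin n) ℝ) := S₁ ∪ E with hTdef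
  have hTc : T.card = 2 * K + 1 := by
    rw [hTdef, Finset.card_union_of_disjoint hdisj, hE2]
    omega
  have hTSO : ∀ s ∈ T, IsSO s := by
    intro s hs
    rcases Finset.mem_union.mp hs with h | h
    · rcases Finset.mem_union.mp h with h | h
      · exact hSO s h
      · obtain ⟨g, hg, rfl⟩ := Finset.mem_image.mp h
        exact (hSO g hg).transpose
    · exact (hE1 h).1.1
  have hTt : ∀ s ∈ T, sᵀ ∈ T := by
    intro s hs
    rcases Finset.mem_union.mp hs with h | h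
    · apply Finset.mem_union_left
      rcases Finset.mem_union.mp h with h | h
      · exact Finset.mem_union_right _ (Finset.mem_image_of_mem _ h)
      · obtain ⟨g, hg, rfl⟩ := Finset.mem_image.mp h
        rw [Matrix.transpose_transpose]
        exact Finset.mem_union_left _ hg
    · rw [(hE1 h).1.2]
      exact Finset.mem_union_right _ h
  have hTgap : Gap T κ := hS.mono_set
    (Finset.subset_union_left.trans Finset.subset_union_left)
  have hL2 : GapL2 n T κ := hL n T κ hTSO hTgap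
  refine ⟨T, hTc, hTSO, hTt, fun g h1 h2 => hT n T κ hκ hTSO hTt hL2 g ⟨h1, h2⟩, ?_⟩
  intro μ hμ hμ0 hinv f hf hf0
  have hg := hL2 μ ⟨hμ, hμ0, hinv⟩ f hf hf0
  have hterm : ∀ s ∈ T, ∫ x, (f (fun i j => ∑ l, s i l * x l j) - f x) ^ 2 ∂μ =
      2 * ∫ x, f x ^ 2 ∂μ - 2 * ∫ x, f (fun i j => ∑ l, s i l * x l j) * f x ∂μ := by
    intro s hs
    have hmp : MeasurePreserving (lt s) μ μ :=
      ⟨(lt_cont s).measurable, hinv s (hTSO s hs).1 (hTSO s hs).2⟩
    have hfs : MemLp (fun x => f (lt s x)) 2 μ := hf.comp_measurePreserving hmp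
    have i1 : Integrable (fun x => f (lt s x) ^ 2) μ := hfs.integrable_sq
    have i2 : Integrable (fun x => f x ^ 2) μ := hf.integrable_sq
    have i3 : Integrable (fun x => f (lt s x) * f x) μ := hfs.integrable_mul hf
    have e1 : ∫ x, f (lt s x) ^ 2 ∂μ = ∫ x, f x ^ 2 ∂μ := by
      have h1 := hmp.map_eq
      have h2 : AEStronglyMeasurable (fun x => f x ^ 2) (μ.map (lt s)) := by
        rw [h1]; exact i2.aestronglyMeasurable
      have h3 := integral_map (μ := μ) hmp.measurable.aemeasurable h2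
      rw [h1] at h3
      exact h3.symm
    have e2 : ∫ x, (f (lt s x) - f x) ^ 2 ∂μ =
        ∫ x, (f (lt s x) ^ 2 + f x ^ 2 - 2 * (f (lt s x) * f x)) ∂μ := by
      congr 1; funext x; ring
    have e3 : ∫ x, (f (lt s x) ^ 2 + f x ^ 2 - 2 * (f (lt s x) * f x)) ∂μ =
        ∫ x, f (lt s x) ^ 2 ∂μ + ∫ x, f x ^ 2 ∂μ - 2 * ∫ x, f (lt s x) * f x ∂μ := by
      rw [← integral_const_mul, ← integral_add i1 i2]
      exact integral_sub (i1.add i2) (i3.const_mul 2)
    show ∫ x, (f (lt s x) - f x) ^ 2 ∂μ = 2 * ∫ x, f x ^ 2 ∂μ - 2 * ∫ x, f (lt s x) * f x ∂μ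
    rw [e2, e3, e1]
    ring
  rw [Finset.sum_congr rfl hterm, Finset.sum_sub_distrib, Finset.sum_const, ← Finset.mul_sum, hTc,
    nsmul_eq_mul] at hg
  set A := ∫ x, f x ^ 2 ∂μ
  set B := ∑ s ∈ T, ∫ x, f (fun i j => ∑ l, s i l * x l j) * f x ∂μ
  linarith

end Pool.Agent.Helper172_SO
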