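import Pool.Agent.Helper172_SO.Chain

set_option autoImplicit false
set_option linter.unusedSectionVars false

namespace Pool.Agent.Helper172_SO

open Matrix

/-- the permutation representation -/
noncomputable def permRep {α : Type} [Fintype α] [DecidableEq α] {V : Type} [NormedAddCommGroup V]
    [InnerProductSpace ℝ V] (ρ : PRep α V) : Equiv.Perm α →* (V →ₗ[ℝ] V) where
  toFun σ := ρ.R (pm σ)
  map_one' := by
    ext v
    rw [pm_one, ρ.one]; rfl
  map_mul' σ τ := by
    ext v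
    rw [pm_mul, ρ.mul]; rfl

/-- uniform gap for `SO(2^(9k))` -/
theorem pow_gap (hC : TaskCover) (hE : TaskEmb) (h3 : TaskSO3) (hU : TaskUp) (hL : TaskLevel)
    (hX : TaskGoodX) (hZ : TaskGoodZ) (hJ : TaskJ) (h2 : TaskB2) (hexp : TaskExp)
    (hsign : TaskSign) :
    ∃ (κ : ℝ) (K : ℕ), 0 < κ ∧ ∀ k : ℕ, 1 ≤ k →
      ∃ S : Finset (Matrix (C (9 * k)) (C (9 * k)) ℝ), S.card ≤ K ∧ (∀ s ∈ S, IsSO s) ∧ Gap S κ := by
  classical
  obtain ⟨S₇, κ₇, hκ₇, hSO₇, hS₇⟩ := fixed_gap hC hE h3 (C 7) (by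
    rw [Fintype.card_fun, ZMod.card, Fintype.card_fin]; norm_num)
  obtain ⟨c, K, hc, hexp⟩ := hexp
  refine ⟨min c κ₇ * (17 / 128), K + S₇.card, by positivity, ?_⟩
  intro k hk
  obtain ⟨SE, hSEc, hSEm, hSE⟩ := hexp k hk
  have h7 : 7 ≤ 9 * k := by omega
  have hSOpm : ∀ σ ∈ Subgroup.closure (TV (9 * k)), IsSO (pm σ) := hsign (9 * k) (by omega)
  set T₁ : Finset (Matrix (C (9 * k)) (C (9 * k)) ℝ) := SE.image pm with hT₁
  set T₂ : Finset (Matrix (C (9 * k)) (C (9 * k)) ℝ) := S₇.image (up 7 (9 * k) h7) with hT₂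
  refine ⟨T₁ ∪ T₂, ?_, ?_, ?_⟩
  · refine (Finset.card_union_le _ _).trans ?_
    exact Nat.add_le_add (Finset.card_image_le.trans hSEc) Finset.card_image_le
  · intro s hs
    rcases Finset.mem_union.mp hs with h | h
    · obtain ⟨σ, hσ, rfl⟩ := Finset.mem_image.mp h
      exact hSOpm σ (hSEm σ hσ)
    · obtain ⟨g, hg, rfl⟩ := Finset.mem_image.mp h
      exact (hU 7 (9 * k) h7).1 g (hSO₇ g hg)
  · intro V _ _ _ ρ v hv
    set E : ℝ := ∑ s ∈ T₁ ∪ T₂, ‖ρ.R s v - v‖ ^ 2 with hEd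
    -- the finite group part
    have hpmi : Function.Injective (pm : Equiv.Perm (C (9 * k)) → _) := by
      intro σ τ h
      ext x i
      have h1 := congrFun (congrFun h (σ x)) x
      rw [pm_apply, pm_apply, if_pos rfl] at h1
      by_cases h2 : σ x = τ x
      · rw [h2]
      · rw [if_neg h2] at h1; norm_num at h1
    set P : Submodule ℝ V := ρ.fix (pm '' TV (9 * k)) with hP
    have hPm : ∀ w, w ∈ P ↔ ∀ σ ∈ TV (9 * k), (permRep ρ) σ w = w := by
      intro w
      constructor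
      · intro h σ hσ
        exact h _ ⟨σ, hσ, rfl⟩
      · rintro h _ ⟨σ, hσ, rfl⟩
        exact h σ hσ
    have hE1 : c * ‖v - P.starProjection v‖ ^ 2 ≤ E := by
      have h := hSE V (permRep ρ) (fun g v => ρ.norm_R _ (pm_orth g) v) P hPm v
      refine h.trans ?_
      have e : ∑ s ∈ SE, ‖(permRep ρ) s v - v‖ ^ 2 = ∑ s ∈ T₁, ‖ρ.R s v - v‖ ^ 2 := by
        rw [hT₁, Finset.sum_image (fun a _ b _ h => hpmi h)]
        rfl
      rw [e]
      exact Finset.sum_le_sum_of_subset_of_nonneg Finset.subset_union_left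
        (fun _ _ _ => sq_nonneg _)
    -- the small orthogonal group
    obtain ⟨ρ', hR', _, hinv'⟩ := (hU 7 (9 * k) h7).2 V ρ
    set P₇ : Submodule ℝ V := ρ.inv (lvl 7 (9 * k) h7) with hP₇
    have hE2 : κ₇ * ‖v - P₇.starProjection v‖ ^ 2 ≤ E := by
      have h := hS₇.dist hSO₇ ρ' v
      rw [hinv'] at h
      refine h.trans ?_
      have hinj : Set.InjOn (up 7 (9 * k) h7) (S₇ : Set (Matrix (C 7) (C 7) ℝ)) := by
        intro a _ b _ hab
        ext x y
        let ex : C 7 → C (9 * k) := fun x i => if h : i.val < 7 then x ⟨i.val, h⟩ else 0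
        have e : ∀ g : Matrix (C 7) (C 7) ℝ, up 7 (9 * k) h7 g (ex x) (ex y) = g x y := by
          intro g
          rw [up, Matrix.of_apply, if_pos]
          · congr 1 <;> (ext i; simp [ex])
          · intro i hi
            simp [ex, Nat.not_lt.mpr hi]
        rw [← e a, ← e b, hab]
      have e : ∑ s ∈ S₇, ‖ρ'.R s v - v‖ ^ 2 = ∑ s ∈ T₂, ‖ρ.R s v - v‖ ^ 2 := by
        rw [hT₂, Finset.sum_image hinj]
        exact Finset.sum_congr rfl fun s _ => by rw [hR']
      rw [e]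
      exact Finset.sum_le_sum_of_subset_of_nonneg Finset.subset_union_right
        (fun _ _ _ => sq_nonneg _)
    -- the projection
    set w := P.starProjection v with hw
    have hwP : w ∈ P := P.starProjection_apply_mem v
    have hinvP : ρ.inv (so (C (9 * k))) ≤ P := by
      rintro z hz _ ⟨σ, hσ, rfl⟩
      exact ρ.R_of_inv z hz _ (hSOpm σ (Subgroup.subset_closure hσ))
    have hwort : (ρ.inv (so (C (9 * k)))).starProjection w = 0 := by
      rw [Submodule.starProjection_apply_eq_zero_iff, Submodule.mem_orthogonal]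
      intro z hz
      have h1 : inner ℝ z (v - w) = 0 :=
        (Submodule.mem_orthogonal P _).mp (sub_proj_mem P v) z (hinvP hz)
      have h2 : inner ℝ z v = 0 := (Submodule.mem_orthogonal _ _).mp hv z hz
      rw [inner_sub_right, h2] at h1
      linarith
    have hch := chain hL hX hZ hJ h2 (9 * k) h7 ρ w (fun σ hσ => hwP _ ⟨σ, hσ, rfl⟩)
    rw [hwort, norm_zero] at hch
    have hs7 := norm_sq_split P₇ w
    rw [← hP₇] at hch
    have hn1 : 51 / 64 * ‖w‖ ^ 2 ≤ ‖w - P₇.starProjection w‖ ^ 2 := by nlinarith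
    have hdec : w - P₇.starProjection w =
        (v - P₇.starProjection v) - ((v - w) - P₇.starProjection (v - w)) := by
      rw [map_sub]; abel
    have hn2 : ‖w - P₇.starProjection w‖ ^ 2 ≤
        2 * ‖v - P₇.starProjection v‖ ^ 2 + 2 * ‖v - w‖ ^ 2 := by
      rw [hdec]
      have a1 := norm_sub_le (v - P₇.starProjection v) ((v - w) - P₇.starProjection (v - w))
      have a2 := norm_sub_proj_le P₇ (v - w)
      have a3 : ‖(v - P₇.starProjection v) - ((v - w) - P₇.starProjection (v - w))‖ ≤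
          ‖v - P₇.starProjection v‖ + ‖v - w‖ := a1.trans (by linarith)
      have a4 := pow_le_pow_left₀ (norm_nonneg _) a3 2
      nlinarith [sq_nonneg (‖v - P₇.starProjection v‖ - ‖v - w‖)]
    have hsv := norm_sq_split P v
    rw [← hw] at hsv
    have hm1 : min c κ₇ * ‖v - w‖ ^ 2 ≤ E :=
      (mul_le_mul_of_nonneg_right (min_le_left _ _) (sq_nonneg _)).trans hE1
    have hm2 : min c κ₇ * ‖v - P₇.starProjection v‖ ^ 2 ≤ E :=
      (mul_le_mul_of_nonneg_right (min_le_right _ _) (sq_nonneg _)).trans hE2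
    have hmpos : 0 < min c κ₇ := lt_min hc hκ₇
    -- combine
    have hfin : 17 / 128 * ‖v‖ ^ 2 ≤ (1 / 2 : ℝ) * (‖v - w‖ ^ 2 + ‖v - P₇.starProjection v‖ ^ 2) := by
      nlinarith [sq_nonneg ‖v - w‖, sq_nonneg ‖v - P₇.starProjection v‖]
    calc min c κ₇ * (17 / 128) * ‖v‖ ^ 2 = min c κ₇ * (17 / 128 * ‖v‖ ^ 2) := by ring
      _ ≤ min c κ₇ * ((1 / 2 : ℝ) * (‖v - w‖ ^ 2 + ‖v - P₇.starProjection v‖ ^ 2)) :=
          mul_le_mul_of_nonneg_left hfin hmpos.le
      _ = 1 / 2 * (min c κ₇ * ‖v - w‖ ^ 2 + min c κ₇ * ‖v - P₇.starProjection v‖ ^ 2) := by ring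
      _ ≤ E := by linarith

end Pool.Agent.Helper172_SO
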