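import Pool.Agent.Helper172_SO.Util
import Pool.Agent.Helper557.Rz.M_gap3

set_option autoImplicit false

/-!
# A spectral gap for `SO(3)` in all representations
-/

namespace Pool.Agent.Helper172_SO

namespace SO3

open MeasureTheory Set
open scoped Quaternion
open Pool.Agent.Helper557.Rz (S E Iso rot sg cr II TT TT_eq II_rot II_pos II_nonneg II_const II_cont
  TT_cont TT_sym key_id TT_le TT_eq_six topV ua imq eig_low MN MN_facts MN_tendsto kk sg_prob II_apply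
  TT_apply rot_coe exists_RQ cz al unit_inv)

/-! ### the spectral gap on the sphere, with explicit rotations -/

theorem gap3x (R : ℍ[ℝ]ˣ →* Iso 3) (hR : ∀ (q : ℍ[ℝ]ˣ) (x : E 3),
    imq (R q x) = (q : ℍ[ℝ]) * imq x * ((q⁻¹ : ℍ[ℝ]ˣ) : ℍ[ℝ])) :
    ∃ κ : ℝ, 0 < κ ∧ ∀ ψ : C(S 3, ℝ), κ * (∫ x, ψ x ^ 2 ∂(sg 3) - (∫ x, ψ x ∂(sg 3)) ^ 2) ≤
      ∑ a : Fin 6, ∫ x, (ψ (rot (R (ua a)) x) - ψ x) ^ 2 ∂(sg 3) := by
  classical
  haveI := sg_prob 3 (by norm_num)
  obtain ⟨l₀, N₀, hl₀, hN₀, hlow⟩ := eig_low R hR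
  -- stable spaces
  have hstab : ∀ N : ℕ, 1 ≤ N → ∃ (L : C(S 3, ℝ) →ₗ[ℝ] C(S 3, ℝ)) (V : Submodule ℝ C(S 3, ℝ)),
      (∀ ψ x, L ψ x = MN N ψ x) ∧ FiniteDimensional ℝ V ∧ (∀ f, L (TT R f) = TT R (L f)) ∧
      (∀ f ∈ V, TT R f ∈ V) ∧ (∀ f ∈ V, II f = 0) ∧ (∀ f, II f = 0 → L f ∈ V) := by
    intro N hN
    obtain ⟨L, hL1, hL2, hL3, hL4⟩ := MN_facts N hN
    have hc : ∀ f, L (TT R f) = TT R (L f) := by
      intro f
      rw [TT_eq, TT_eq, map_sum]
      exact Finset.sum_congr rfl (fun a _ => hL3 _ _)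
    refine ⟨L, LinearMap.range L ⊓ LinearMap.ker II, hL1, ?_, hc, ?_, ?_, ?_⟩
    · haveI := hL2
      exact Submodule.finiteDimensional_inf_left _ _
    · rintro f ⟨⟨f', rfl⟩, hf⟩
      refine ⟨⟨TT R f', hc f'⟩, ?_⟩
      have h1 : II (L f') = 0 := hf
      show II (TT R (L f')) = 0
      rw [TT_eq, map_sum]
      exact Finset.sum_eq_zero (fun a _ => by rw [II_rot, h1])
    · rintro f ⟨_, hf⟩
      exact hf
    · intro f hf
      refine ⟨⟨f, rfl⟩, ?_⟩
      show II (L f) = 0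
      rw [II_apply, hL4 f]
      exact hf
  -- the bound on the spaces
  obtain ⟨l₁, hl₁, hbound⟩ : ∃ l₁ : ℝ, l₁ < 6 ∧ ∀ N : ℕ, 1 ≤ N → ∀ (V : Submodule ℝ C(S 3, ℝ)),
      FiniteDimensional ℝ V → (∀ f ∈ V, TT R f ∈ V) → (∀ f ∈ V, II f = 0) →
      ∀ f ∈ V, II (TT R f * f) ≤ l₁ * II (f * f) := by
    obtain ⟨L₀, V₀, hL₀, hfd₀, hcom₀, hTV₀, hZ₀, hLV₀⟩ := hstab N₀ hN₀
    -- common step
    have hstep : ∀ (l₁ : ℝ), l₀ ≤ l₁ → (∀ φ ∈ V₀, φ ≠ 0 → ∀ lm : ℝ, TT R φ = lm • φ → lm ≤ l₁) →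
        ∀ (V : Submodule ℝ C(S 3, ℝ)),
        FiniteDimensional ℝ V → (∀ f ∈ V, TT R f ∈ V) → (∀ f ∈ V, II f = 0) →
        ∀ f ∈ V, II (TT R f * f) ≤ l₁ * II (f * f) := by
      intro l₁ hl hφ V hfd hTV hZ f hf
      by_cases hV : V = ⊥
      · subst hV
        have : f = 0 := by simpa using hf
        subst this
        simp
      obtain ⟨v, hv, hv0, lm, hlm, htop⟩ := topV (TT R) (TT_sym R hR) V hfd hV hTV
      have hlm1 : lm ≤ l₁ := by
        by_contra hcon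
        push Not at hcon
        have hvp := II_pos v hv0
        have hlm6 : lm ≤ 6 := by
          have h1 := TT_le R v
          rw [hlm, smul_mul_assoc, map_smul, smul_eq_mul] at h1
          exact le_of_mul_le_mul_right h1 hvp
        -- normalise
        set s := (Real.sqrt (II (v * v)))⁻¹ with hs
        have hsp : 0 < Real.sqrt (II (v * v)) := Real.sqrt_pos.mpr hvp
        have hs2 : s * s * II (v * v) = 1 := by
          have h2 : Real.sqrt (II (v * v)) * Real.sqrt (II (v * v)) = II (v * v) :=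
            Real.mul_self_sqrt hvp.le
          rw [hs]
          nth_rewrite 3 [← h2]
          field_simp
        set w := s • v with hw
        have hww : II (w * w) = 1 := by
          rw [hw, smul_mul_smul_comm, map_smul, smul_eq_mul]
          exact hs2
        have hTw : TT R w = lm • w := by
          rw [hw, map_smul, hlm, smul_comm]
        have hw0 : II w = 0 := by
          rw [hw, map_smul, hZ v hv, smul_zero]
        have h1 := hlow w lm (fun x => by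
          rw [← TT_apply, hTw]
          rfl) (by
          rw [← hww, II_apply]
          refine integral_congr_ae (Filter.Eventually.of_forall (fun x => ?_))
          show w x ^ 2 = w x * w x
          ring) (hl.trans hcon.le) hlm6
        have h2 : ∫ x, ∫ y, kk N₀ x y * w x * w y ∂(sg 3) ∂(sg 3) = II (w * L₀ w) := by
          rw [II_apply]
          refine integral_congr_ae (Filter.Eventually.of_forall (fun x => ?_))
          show ∫ y, kk N₀ x y * w x * w y ∂(sg 3) = w x * L₀ w x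
          rw [hL₀, MN, ← integral_const_mul]
          refine integral_congr_ae (Filter.Eventually.of_forall (fun y => ?_))
          show kk N₀ x y * w x * w y = w x * (kk N₀ x y * w y)
          ring
        rw [h2] at h1
        have hne : L₀ w ≠ 0 := by
          intro h
          rw [h, mul_zero, map_zero] at h1
          norm_num at h1
        have h3 := hφ (L₀ w) (hLV₀ w hw0) hne lm (by rw [← hcom₀, hTw, map_smul])
        linarith
      have hf2 := htop f hf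
      exact hf2.trans (mul_le_mul_of_nonneg_right hlm1 (II_nonneg f))
    by_cases hV₀ : V₀ = ⊥
    · refine ⟨l₀, hl₀, fun N hN V => hstep l₀ le_rfl ?_ V⟩
      intro φ hφ hφ0
      exfalso
      apply hφ0
      rw [hV₀] at hφ
      simpa using hφ
    · obtain ⟨v, hv, hv0, ls, hls, htop⟩ := topV (TT R) (TT_sym R hR) V₀ hfd₀ hV₀ hTV₀
      have hvp := II_pos v hv0
      have h1 : II (TT R v * v) = ls * II (v * v) := by
        rw [hls, smul_mul_assoc, map_smul, smul_eq_mul]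
      have hls6 : ls < 6 := by
        have hle : ls ≤ 6 := by
          have h2 := TT_le R v
          rw [h1] at h2
          exact le_of_mul_le_mul_right h2 hvp
        rcases hle.lt_or_eq with h | h
        · exact h
        · exfalso
          apply hv0
          rw [h] at h1
          exact TT_eq_six R hR v h1 (hZ₀ v hv)
      refine ⟨max l₀ ls, max_lt hl₀ hls6, fun N hN V => hstep _ (le_max_left _ _) ?_ V⟩
      intro φ hφ hφ0 lm hlm
      have h2 := htop φ hφ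
      rw [hlm, smul_mul_assoc, map_smul, smul_eq_mul] at h2
      exact (le_of_mul_le_mul_right h2 (II_pos φ hφ0)).trans (le_max_right _ _)
  -- zero mean functions
  have hzero : ∀ ψ : C(S 3, ℝ), II ψ = 0 → II (TT R ψ * ψ) ≤ l₁ * II (ψ * ψ) := by
    intro ψ hψ
    have hch : ∀ N : ℕ, 1 ≤ N → ∃ f : C(S 3, ℝ), (∀ x, f x = MN N ψ x) ∧
        II (TT R f * f) ≤ l₁ * II (f * f) := by
      intro N hN
      obtain ⟨L, V, hL, hfd, hcom, hTV, hZ, hLV⟩ := hstab N hN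
      exact ⟨L ψ, hL ψ, hbound N hN V hfd hTV hZ (L ψ) (hLV ψ hψ)⟩
    choose! f hf1 hf2 using hch
    have hlim : Filter.Tendsto f Filter.atTop (nhds ψ) := by
      rw [Metric.tendsto_atTop]
      intro ε hε
      obtain ⟨N₁, hN₁, h1⟩ := MN_tendsto ψ (ε / 2) (by positivity)
      refine ⟨N₁, fun N hN => ?_⟩
      have h2 : dist (f N) ψ ≤ ε / 2 := by
        rw [ContinuousMap.dist_le (by positivity)]
        intro x
        rw [Real.dist_eq, hf1 N (hN₁.trans hN)]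
        exact h1 N hN x
      linarith
    have hc : Continuous (fun f : C(S 3, ℝ) => l₁ * II (f * f) - II (TT R f * f)) := by
      have h1 : Continuous (fun f : C(S 3, ℝ) => II (f * f)) :=
        II_cont.comp (continuous_id.mul continuous_id)
      have h2 : Continuous (fun f : C(S 3, ℝ) => II (TT R f * f)) :=
        II_cont.comp ((TT_cont R).mul continuous_id)
      exact (continuous_const.mul h1).sub h2
    have hl := (hc.tendsto ψ).comp hlim
    have h0 : 0 ≤ l₁ * II (ψ * ψ) - II (TT R ψ * ψ) := by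
      refine ge_of_tendsto hl ?_
      filter_upwards [Filter.eventually_ge_atTop 1] with N hN
      have := hf2 N hN
      simp only [Function.comp]
      linarith
    linarith
  -- conclusion
  refine ⟨2 * (6 - l₁), by linarith, ?_⟩
  intro ψ
  set c := II ψ with hcdef
  set ψ₀ := ψ - ContinuousMap.const _ c with hψ₀
  have hψ0 : II ψ₀ = 0 := by
    rw [hψ₀, map_sub, II_const, hcdef, sub_self]
  have h1 := hzero ψ₀ hψ0
  have h2 := key_id R ψ₀
  have h3 : II (ψ₀ * ψ₀) = II (ψ * ψ) - c ^ 2 := by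
    have e : ψ₀ * ψ₀ = ψ * ψ - (2 * c) • ψ + ContinuousMap.const _ (c ^ 2) := by
      ext x
      show (ψ x - c) * (ψ x - c) = ψ x * ψ x - (2 * c) * ψ x + c ^ 2
      ring
    rw [e, map_add, map_sub, map_smul, II_const, smul_eq_mul, ← hcdef]
    ring
  have h4 : ∀ a : Fin 6, II ((cr (R (ua a)) ψ₀ - ψ₀) * (cr (R (ua a)) ψ₀ - ψ₀)) =
      ∫ x, (ψ (rot (R (ua a)) x) - ψ x) ^ 2 ∂(sg 3) := by
    intro a
    rw [II_apply]
    refine integral_congr_ae (Filter.Eventually.of_forall (fun x => ?_))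
    show ((ψ (rot (R (ua a)) x) - c) - (ψ x - c)) * ((ψ (rot (R (ua a)) x) - c) - (ψ x - c)) =
      (ψ (rot (R (ua a)) x) - ψ x) ^ 2
    ring
  have h5 : ∫ x, ψ x ^ 2 ∂(sg 3) = II (ψ * ψ) := by
    rw [II_apply]
    refine integral_congr_ae (Filter.Eventually.of_forall (fun x => ?_))
    show ψ x ^ 2 = ψ x * ψ x
    ring
  have h6 : ∫ x, ψ x ∂(sg 3) = c := rfl
  rw [h5, h6, ← Finset.sum_congr rfl (fun a _ => h4 a), h2, ← h3]
  nlinarith [h1]



end SO3

end Pool.Agent.Helper172_SO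

namespace Pool.Agent.Helper172_SO

namespace SO3

open MeasureTheory Set
open scoped Quaternion
open Pool.Agent.Helper557.Rz (S E Iso rot sg cr II TT TT_eq II_rot II_pos II_nonneg II_const II_cont
  TT_cont TT_sym key_id TT_le TT_eq_six topV ua imq eig_low MN MN_facts MN_tendsto kk sg_prob II_apply
  TT_apply rot_coe exists_RQ cz al unit_inv)

/-! ### continuity of a representation at the rotations -/

open Matrix

section cont
variable {V : Type} [NormedAddCommGroup V] [InnerProductSpace ℝ V]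

theorem cont_one {α : Type} [Fintype α] [DecidableEq α] (ρ : PRep α V) (v : V) {ε : ℝ}
    (hε : 0 < ε) : ∃ δ : ℝ, 0 < δ ∧ ∀ M : Matrix α α ℝ,
      (∀ i j, |M i j - (1 : Matrix α α ℝ) i j| < δ) → ‖ρ.R M v - v‖ < ε := by
  by_contra hcon
  push Not at hcon
  choose M hM1 hM2 using hcon
  let c : ℝ → Matrix α α ℝ := fun t => if h : t = 0 then 1 else M (t ^ 2) (by positivity)
  have hc0 : c 0 = 1 := by simp [c]
  have hb : ∀ t i j, |c t i j - (1 : Matrix α α ℝ) i j| ≤ t ^ 2 := by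
    intro t i j
    by_cases ht : t = 0
    · simp [c, ht]
    · have h1 := hM1 (t ^ 2) (by positivity) i j
      simp only [c, dif_neg ht]
      exact h1.le
  have hd : ∀ i j, HasDerivAt (fun t => c t i j) ((0 : Matrix α α ℝ) i j) 0 := by
    intro i j
    rw [hasDerivAt_iff_isLittleO_nhds_zero]
    refine Asymptotics.IsBigO.trans_isLittleO ?_ (Asymptotics.isLittleO_pow_id one_lt_two)
    refine Asymptotics.IsBigO.of_bound 1 (Filter.Eventually.of_forall fun t => ?_)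
    rw [zero_add, hc0, Matrix.zero_apply, smul_zero, sub_zero, one_mul, Real.norm_eq_abs,
      Real.norm_eq_abs, abs_of_nonneg (sq_nonneg t)]
    exact hb t i j
  have h1 := (ρ.der c 0 hc0 hd v).continuousAt
  have h2 : Filter.Tendsto (fun t => ρ.R (c t) v) (nhds 0) (nhds v) := by
    have h3 := h1.tendsto
    rwa [hc0, ρ.one] at h3
  have h3 := (Metric.tendsto_nhds.1 h2 ε hε).filter_mono (nhdsWithin_le_nhds (s := {(0:ℝ)}ᶜ))
  obtain ⟨t, ht1, ht2⟩ := (h3.and self_mem_nhdsWithin).exists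
  have ht : t ≠ 0 := ht2
  have h4 := hM2 (t ^ 2) (by positivity)
  rw [dist_eq_norm] at ht1
  simp only [c, dif_neg ht] at ht1
  linarith

theorem cont_at [FiniteDimensional ℝ V] {α : Type} [Fintype α] [DecidableEq α] (ρ : PRep α V)
    {X : Type} [TopologicalSpace X] (c : X → Matrix α α ℝ) (x₀ : X) (h0 : (c x₀)ᵀ * c x₀ = 1)
    (hc : ∀ i j, ContinuousAt (fun x => c x i j) x₀) (v : V) :
    ContinuousAt (fun x => ρ.R (c x) v) x₀ := by
  have e : (fun x => ρ.R (c x) v) = fun x => (LinearMap.toContinuousLinearMap (ρ.R (c x₀)))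
      (ρ.R ((c x₀)ᵀ * c x) v) := by
    funext x
    change _ = ρ.R (c x₀) (ρ.R ((c x₀)ᵀ * c x) v)
    rw [← ρ.mul, ← Matrix.mul_assoc, mul_eq_one_comm.mp h0, Matrix.one_mul]
  rw [e]
  have key : ContinuousAt (fun x => ρ.R ((c x₀)ᵀ * c x) v) x₀ := by
    change Filter.Tendsto _ _ (nhds (ρ.R ((c x₀)ᵀ * c x₀) v))
    rw [h0, ρ.one, Metric.tendsto_nhds]
    intro ε hε
    obtain ⟨δ, hδ, h1⟩ := cont_one ρ v hε
    have h2 : ∀ i j, ∀ᶠ x in nhds x₀, |((c x₀)ᵀ * c x) i j - (1 : Matrix α α ℝ) i j| < δ := by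
      intro i j
      have h3 : ContinuousAt (fun x => ((c x₀)ᵀ * c x) i j) x₀ := by
        simp only [Matrix.mul_apply]
        exact tendsto_finsetSum _ fun k _ => (continuousAt_const.mul (hc k j))
      have h4 := Metric.tendsto_nhds.1 h3.tendsto δ hδ
      simp only [h0] at h4
      exact h4
    have h5 : ∀ᶠ x in nhds x₀, ∀ i j, |((c x₀)ᵀ * c x) i j - (1 : Matrix α α ℝ) i j| < δ := by
      rw [Filter.eventually_all]
      intro i
      rw [Filter.eventually_all]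
      exact h2 i
    filter_upwards [h5] with x hx
    rw [dist_eq_norm]
    exact h1 _ hx
  exact (ContinuousLinearMap.continuous _).continuousAt.comp key

end cont

/-! ### rotations about the third axis -/

/-- generators -/
def L1 : Matrix (Fin 3) (Fin 3) ℝ := !![0, 0, 0; 0, 0, -1; 0, 1, 0]
/-- generators -/
def L2 : Matrix (Fin 3) (Fin 3) ℝ := !![0, 0, 1; 0, 0, 0; -1, 0, 0]
/-- generators -/
def L3 : Matrix (Fin 3) (Fin 3) ℝ := !![0, -1, 0; 1, 0, 0; 0, 0, 0]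

theorem L1_skew : L1ᵀ = -L1 := by
  ext i j; fin_cases i <;> fin_cases j <;> simp [L1]
theorem L2_skew : L2ᵀ = -L2 := by
  ext i j; fin_cases i <;> fin_cases j <;> simp [L2]
theorem L3_skew : L3ᵀ = -L3 := by
  ext i j; fin_cases i <;> fin_cases j <;> simp [L3]

theorem L12 : L1 * L2 - L2 * L1 = L3 := by
  ext i j; fin_cases i <;> fin_cases j <;> simp [L1, L2, L3, Matrix.mul_apply, Fin.sum_univ_three]
theorem L23 : L2 * L3 - L3 * L2 = L1 := by
  ext i j; fin_cases i <;> fin_cases j <;> simp [L1, L2, L3, Matrix.mul_apply, Fin.sum_univ_three]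
theorem L31 : L3 * L1 - L1 * L3 = L2 := by
  ext i j; fin_cases i <;> fin_cases j <;> simp [L1, L2, L3, Matrix.mul_apply, Fin.sum_univ_three]

/-- rotations about the third axis -/
noncomputable def rz (t : ℝ) : Matrix (Fin 3) (Fin 3) ℝ :=
  !![Real.cos t, -Real.sin t, 0; Real.sin t, Real.cos t, 0; 0, 0, 1]

theorem rz_zero : rz 0 = 1 := by
  ext i j; fin_cases i <;> fin_cases j <;> simp [rz]

theorem rz_mul (s t : ℝ) : rz s * rz t = rz (s + t) := by
  ext i j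
  fin_cases i <;> fin_cases j <;>
    simp [rz, Matrix.mul_apply, Fin.sum_univ_three, Real.cos_add, Real.sin_add] <;> ring

theorem rz_transpose (t : ℝ) : (rz t)ᵀ = rz (-t) := by
  ext i j; fin_cases i <;> fin_cases j <;> simp [rz]

theorem rz_SO (t : ℝ) : IsSO (rz t) := by
  constructor
  · rw [rz_transpose, rz_mul, neg_add_cancel, rz_zero]
  · rw [rz, Matrix.det_fin_three]
    simp
    nlinarith [Real.sin_sq_add_cos_sq t]

theorem rz_two_pi : rz (-(2 * Real.pi)) = 1 := by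
  ext i j; fin_cases i <;> fin_cases j <;> simp [rz]

theorem rz_entry (i j : Fin 3) (t₀ : ℝ) : HasDerivAt (fun t => rz (t - t₀) i j) (L3 i j) t₀ := by
  have hs : HasDerivAt (fun t => Real.sin (t - t₀)) 1 t₀ := by
    have := (Real.hasDerivAt_sin (t₀ - t₀)).comp_sub_const t₀ t₀
    simpa using this
  have hc : HasDerivAt (fun t => Real.cos (t - t₀)) 0 t₀ := by
    have := (Real.hasDerivAt_cos (t₀ - t₀)).comp_sub_const t₀ t₀
    simpa using this
  fin_cases i <;> fin_cases j <;> simp [rz, L3]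
  all_goals first | exact hc | exact hs | exact hasDerivAt_const _ _ | skip
  all_goals exact hs.neg

section
variable {V : Type} [NormedAddCommGroup V] [InnerProductSpace ℝ V] [FiniteDimensional ℝ V]
  (ρ : PRep (Fin 3) V)

theorem rz_der (v : V) (t₀ : ℝ) :
    HasDerivAt (fun t => ρ.R (rz t) v) (ρ.R (rz t₀) (ρ.D L3 v)) t₀ := by
  have h := ρ.der_mul (rz t₀) (fun t => rz (t - t₀)) L3 t₀ (by simp [rz_zero])
    (fun i j => rz_entry i j t₀) v
  have e : (fun t => ρ.R (rz t) v) = fun t => ρ.R (rz t₀ * rz (t - t₀)) v := by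
    funext t
    rw [rz_mul, add_sub_cancel]
  rw [e]
  exact h

theorem rz_const {w : V} (hw : ρ.D L3 w = 0) (t : ℝ) : ρ.R (rz t) w = w := by
  have h : ∀ s, HasDerivAt (fun t => ρ.R (rz t) w) 0 s := by
    intro s
    have := rz_der ρ w s
    rwa [hw, map_zero] at this
  have h2 := is_const_of_deriv_eq_zero (fun s => (h s).differentiableAt) (fun s => (h s).deriv) t 0
  rw [rz_zero, ρ.one] at h2
  exact h2

end

open NormedSpace in
theorem exp_SO {X : Matrix (Fin 3) (Fin 3) ℝ} (hX : Xᵀ = -X) (t : ℝ) :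
    IsSO (exp (t • X) : Matrix (Fin 3) (Fin 3) ℝ) := by
  have horth : ∀ t : ℝ, (exp (t • X) : Matrix (Fin 3) (Fin 3) ℝ)ᵀ * exp (t • X) = 1 := by
    intro t
    have h3 := exp_mul_exp_neg (-X) t
    rw [neg_neg] at h3
    have : (exp (t • X) : Matrix (Fin 3) (Fin 3) ℝ)ᵀ = exp (t • (-X)) := by
      rw [← Matrix.exp_transpose, Matrix.transpose_smul, hX]
    rw [this]
    exact h3
  refine ⟨horth t, ?_⟩
  have h3 : (exp (t • X) : Matrix (Fin 3) (Fin 3) ℝ) = exp ((t / 2) • X) * exp ((t / 2) • X) := by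
    rw [← Matrix.exp_add_of_commute _ _ (Commute.refl _), ← add_smul]
    congr 2
    ring
  have h4 := congrArg Matrix.det (horth (t / 2))
  rw [Matrix.det_mul, Matrix.det_transpose, Matrix.det_one] at h4
  rw [h3, Matrix.det_mul, h4]

section
variable {V : Type} [NormedAddCommGroup V] [InnerProductSpace ℝ V] [FiniteDimensional ℝ V]
  (ρ : PRep (Fin 3) V)

open NormedSpace in
theorem D_mem (W : Submodule ℝ V) (hW : ∀ g, IsSO g → ∀ w ∈ W, ρ.R g w ∈ W)
    {X : Matrix (Fin 3) (Fin 3) ℝ} (hX : Xᵀ = -X) {w : V} (hw : w ∈ W) : ρ.D X w ∈ W := by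
  have h1 := ρ.der (fun t => exp (t • X)) X (by simp) (exp_entry X) w
  have h2 := h1.tendsto_slope
  have hcl : IsClosed (W : Set V) := W.closed_of_finiteDimensional
  refine hcl.mem_of_tendsto h2 (Filter.Eventually.of_forall fun t => ?_)
  rw [slope_def_module]
  refine W.smul_mem _ (W.sub_mem (hW _ (exp_SO hX t) w hw) (hW _ (exp_SO hX 0) w hw))

/-- a nonzero subspace stable under the rotations contains a nonzero vector of weight `0` -/
theorem zero_weight (W : Submodule ℝ V) (hW : ∀ g, IsSO g → ∀ w ∈ W, ρ.R g w ∈ W)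
    (hne : W ≠ ⊥) : ∃ w ∈ W, w ≠ 0 ∧ ρ.D L3 w = 0 := by
  have hD1 : ∀ w ∈ W, ρ.D L1 w ∈ W := fun w hw => D_mem ρ W hW L1_skew hw
  have hD2 : ∀ w ∈ W, ρ.D L2 w ∈ W := fun w hw => D_mem ρ W hW L2_skew hw
  have hD3 : ∀ w ∈ W, ρ.D L3 w ∈ W := fun w hw => D_mem ρ W hW L3_skew hw
  have b12 : ∀ v, ρ.D L1 (ρ.D L2 v) - ρ.D L2 (ρ.D L1 v) = ρ.D L3 v := fun v => by
    rw [ρ.bracket, L12]
  have b23 : ∀ v, ρ.D L2 (ρ.D L3 v) - ρ.D L3 (ρ.D L2 v) = ρ.D L1 v := fun v => by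
    rw [ρ.bracket, L23]
  have b31 : ∀ v, ρ.D L3 (ρ.D L1 v) - ρ.D L1 (ρ.D L3 v) = ρ.D L2 v := fun v => by
    rw [ρ.bracket, L31]
  have sk1 := fun v w => ρ.D_skew L1_skew v w
  have sk2 := fun v w => ρ.D_skew L2_skew v w
  have sk3 := fun v w => ρ.D_skew L3_skew v w
  obtain ⟨v, hv, hv0, t, ht, hmin⟩ := exists_min_eig (-(ρ.D L3 ∘ₗ ρ.D L3)) (by
    intro x y
    simp only [LinearMap.neg_apply, LinearMap.comp_apply, inner_neg_left, inner_neg_right]
    rw [sk3, sk3, neg_neg]) W (by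
    intro w hw
    exact W.neg_mem (hD3 _ (hD3 w hw))) hne
  by_cases h0 : ρ.D L3 v = 0
  · exact ⟨v, hv, hv0, h0⟩
  exfalso
  have hvn : 0 < ‖v‖ := norm_pos_iff.mpr hv0
  have hA33 : ρ.D L3 (ρ.D L3 v) = -(t • v) := by
    rw [← ht]
    simp
  have h1 : t * ‖v‖ ^ 2 = ‖ρ.D L3 v‖ ^ 2 := by
    have h2 := sk3 (ρ.D L3 v) v
    rw [hA33, inner_neg_left, real_inner_smul_left, real_inner_self_eq_norm_sq,
      real_inner_self_eq_norm_sq] at h2
    linarith
  have htp : 0 < t := by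
    have h2 : 0 < ‖ρ.D L3 v‖ ^ 2 := by
      have := norm_pos_iff.mpr h0
      positivity
    rw [← h1] at h2
    exact pos_of_mul_pos_left h2 (by positivity)
  set μ := Real.sqrt t with hμd
  have hμ : 0 < μ := Real.sqrt_pos.mpr htp
  have hμ2 : μ * μ = t := Real.mul_self_sqrt htp.le
  obtain ⟨v', hv'd⟩ : ∃ v', v' = μ⁻¹ • ρ.D L3 v := ⟨_, rfl⟩
  have hv' : v' ∈ W := by rw [hv'd]; exact W.smul_mem _ (hD3 v hv)
  have h3 : ρ.D L3 v = μ • v' := by
    rw [hv'd, smul_smul, mul_inv_cancel₀ hμ.ne', one_smul]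
  have h3' : ρ.D L3 v' = -(μ • v) := by
    rw [hv'd, map_smul, hA33, smul_neg, smul_smul, ← hμ2, ← mul_assoc, inv_mul_cancel₀ hμ.ne',
      one_mul]
  have horth : inner ℝ v' v = 0 := by
    have h4 := sk3 v v
    rw [real_inner_comm (ρ.D L3 v) v] at h4
    have h5 : inner ℝ (ρ.D L3 v) v = 0 := by linarith
    rw [hv'd, real_inner_smul_left, h5, mul_zero]
  -- periodicity
  have hmu1 : 1 ≤ μ := by
    have hr : ∀ (u : V) (s : ℝ), HasDerivAt (fun s => ρ.R (rz (-s)) u)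
        (-(ρ.R (rz (-s)) (ρ.D L3 u))) s := by
      intro u s
      have h4 : HasDerivAt (fun s => ρ.R (rz (-s)) u) ((-1 : ℝ) • ρ.R (rz (-s)) (ρ.D L3 u)) s :=
        (rz_der ρ u (-s)).scomp s (hasDerivAt_neg s)
      rwa [neg_one_smul] at h4
    have hf : ∀ s : ℝ, HasDerivAt (fun s => Real.cos (μ * s) • ρ.R (rz (-s)) v +
        Real.sin (μ * s) • ρ.R (rz (-s)) v') 0 s := by
      intro s
      have hid : HasDerivAt (fun s : ℝ => μ * s) μ s := by
        simpa using (hasDerivAt_id s).const_mul μ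
      have hc : HasDerivAt (fun s : ℝ => Real.cos (μ * s)) (-Real.sin (μ * s) * μ) s := hid.cos
      have hs : HasDerivAt (fun s : ℝ => Real.sin (μ * s)) (Real.cos (μ * s) * μ) s := hid.sin
      have h4 := (hc.smul (hr v s)).add (hs.smul (hr v' s))
      refine HasDerivAt.congr_deriv h4 ?_
      rw [h3, h3', map_smul, map_neg, map_smul, neg_neg]
      module
    have h4 := is_const_of_deriv_eq_zero (fun s => (hf s).differentiableAt)
      (fun s => (hf s).deriv) (2 * Real.pi) 0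
    rw [rz_two_pi, neg_zero, rz_zero, ρ.one, ρ.one, mul_zero, Real.cos_zero, Real.sin_zero,
      zero_smul, one_smul, add_zero] at h4
    have h5 := congrArg (fun x => inner ℝ x v) h4
    simp only [inner_add_left, real_inner_smul_left, horth, mul_zero, add_zero,
      real_inner_self_eq_norm_sq] at h5
    have h6 : Real.cos (μ * (2 * Real.pi)) = 1 := by
      have : ‖v‖ ^ 2 ≠ 0 := by positivity
      exact mul_right_cancel₀ this (by rw [h5, one_mul])
    rw [Real.cos_eq_one_iff] at h6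
    obtain ⟨k, hk⟩ := h6
    have hpi := Real.pi_pos
    have h7 : (k : ℝ) = μ := mul_right_cancel₀ (by positivity) hk
    have h8 : (0 : ℝ) < k := by rw [h7]; exact hμ
    have h9 : 0 < k := by exact_mod_cast h8
    rw [← h7]
    exact_mod_cast h9
  -- the lowered vectors
  have claim : ∀ u ∈ W, ∀ u' : V, ρ.D L3 u = (μ - 1) • u' → ρ.D L3 u' = -((μ - 1) • u) → u = 0 := by
    intro u hu u' e1 e2
    have h4 := hmin u hu
    have h5 : inner ℝ ((-(ρ.D L3 ∘ₗ ρ.D L3)) u) u = (μ - 1) ^ 2 * ‖u‖ ^ 2 := by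
      simp only [LinearMap.neg_apply, LinearMap.comp_apply]
      rw [e1, map_smul, e2, smul_neg, neg_neg, smul_smul, real_inner_smul_left,
        real_inner_self_eq_norm_sq]
      ring
    rw [h5] at h4
    by_contra hu0
    have hun : 0 < ‖u‖ := norm_pos_iff.mpr hu0
    have h6 : 0 < ‖u‖ ^ 2 := by positivity
    have h7 := le_of_mul_le_mul_right h4 h6
    nlinarith
  obtain ⟨w, hwd⟩ : ∃ w, w = ρ.D L1 v + ρ.D L2 v' := ⟨_, rfl⟩
  obtain ⟨w', hw'd⟩ : ∃ w', w' = ρ.D L1 v' - ρ.D L2 v := ⟨_, rfl⟩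
  have e13 : ∀ x, ρ.D L3 (ρ.D L1 x) = ρ.D L1 (ρ.D L3 x) + ρ.D L2 x := fun x => by
    rw [← b31 x]; abel
  have e23 : ∀ x, ρ.D L3 (ρ.D L2 x) = ρ.D L2 (ρ.D L3 x) - ρ.D L1 x := fun x => by
    rw [← b23 x]; abel
  have hw1 : ρ.D L3 w = (μ - 1) • w' := by
    rw [hwd, hw'd, map_add, e13, e23, h3, h3', map_smul, map_neg, map_smul]
    module
  have hw2 : ρ.D L3 w' = -((μ - 1) • w) := by
    rw [hwd, hw'd, map_sub, e13, e23, h3, h3', map_smul, map_neg, map_smul]
    module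
  have hwW : w ∈ W := by rw [hwd]; exact W.add_mem (hD1 v hv) (hD2 v' hv')
  have hw'W : w' ∈ W := by rw [hw'd]; exact W.sub_mem (hD1 v' hv') (hD2 v hv)
  have hz1 : w = 0 := claim w hwW w' hw1 hw2
  have hz2 : w' = 0 := claim w' hw'W (-w) (by rw [hw2]; module) (by rw [map_neg, hw1])
  have e1 : ρ.D L1 v = -(ρ.D L2 v') := by
    rw [hwd] at hz1
    exact eq_neg_of_add_eq_zero_left hz1
  have e2 : ρ.D L1 v' = ρ.D L2 v := by
    rw [hw'd] at hz2
    exact sub_eq_zero.mp hz2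
  have h4 : ρ.D L1 (ρ.D L1 v) + ρ.D L2 (ρ.D L2 v) = μ • v := by
    have h5 := b12 v'
    rw [h3', e2] at h5
    rw [e1, map_neg, ← neg_inj, ← h5]
    abel
  have h5 := congrArg (fun x => inner ℝ x v) h4
  simp only [inner_add_left, real_inner_smul_left, real_inner_self_eq_norm_sq] at h5
  rw [sk1, sk2, real_inner_self_eq_norm_sq, real_inner_self_eq_norm_sq] at h5
  have h6 : 0 < μ * ‖v‖ ^ 2 := by positivity
  have h7 := sq_nonneg ‖ρ.D L1 v‖
  have h8 := sq_nonneg ‖ρ.D L2 v‖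
  linarith

end

end SO3

end Pool.Agent.Helper172_SO

namespace Pool.Agent.Helper172_SO

namespace SO3

open MeasureTheory Set Matrix
open scoped Quaternion
open Pool.Agent.Helper557.Rz (S E Iso rot sg cr II TT TT_eq II_rot II_pos II_nonneg II_const II_cont
  TT_cont TT_sym key_id TT_le TT_eq_six topV ua imq eig_low MN MN_facts MN_tendsto kk sg_prob II_apply
  TT_apply rot_coe exists_RQ cz al unit_inv)

/-! ### half turns and sections -/

/-- the third basis vector -/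
def e3 : Fin 3 → ℝ := ![0, 0, 1]

/-- half turns -/
noncomputable def ht (u : Fin 3 → ℝ) : Matrix (Fin 3) (Fin 3) ℝ :=
  -(refl ((Real.sqrt (u ⬝ᵥ u))⁻¹ • u))

theorem dot_pos {u : Fin 3 → ℝ} (hu : u ≠ 0) : 0 < u ⬝ᵥ u :=
  lt_of_le_of_ne (Finset.sum_nonneg fun i _ => mul_self_nonneg (u i)) (fun h => hu (dotProduct_self_eq_zero.1 h.symm))

theorem ht_unit {u : Fin 3 → ℝ} (hu : u ≠ 0) :
    ((Real.sqrt (u ⬝ᵥ u))⁻¹ • u) ⬝ᵥ ((Real.sqrt (u ⬝ᵥ u))⁻¹ • u) = 1 := by
  have h := dot_pos hu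
  have h2 : Real.sqrt (u ⬝ᵥ u) * Real.sqrt (u ⬝ᵥ u) = u ⬝ᵥ u := Real.mul_self_sqrt h.le
  have h3 : 0 < Real.sqrt (u ⬝ᵥ u) := Real.sqrt_pos.mpr h
  rw [smul_dotProduct, dotProduct_smul, smul_eq_mul, smul_eq_mul]
  nth_rewrite 3 [← h2]
  field_simp

theorem ht_SO {u : Fin 3 → ℝ} (hu : u ≠ 0) : IsSO (ht u) := by
  have h1 := ht_unit hu
  constructor
  · unfold ht
    rw [Matrix.transpose_neg, refl_transpose, neg_mul_neg, refl_mul_self _ h1]
  · unfold ht
    rw [Matrix.det_neg, det_refl _ h1, Fintype.card_fin]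
    norm_num

theorem ht_section {x y : Fin 3 → ℝ} (hx : x ⬝ᵥ x = 1) (hy : y ⬝ᵥ y = 1) (h : x + y ≠ 0) :
    ht (x + y) *ᵥ y = x := by
  have hp := dot_pos h
  have h2 : Real.sqrt ((x + y) ⬝ᵥ (x + y)) * Real.sqrt ((x + y) ⬝ᵥ (x + y)) = (x + y) ⬝ᵥ (x + y) :=
    Real.mul_self_sqrt hp.le
  have h3 : 0 < Real.sqrt ((x + y) ⬝ᵥ (x + y)) := Real.sqrt_pos.mpr hp
  have h4 : (x + y) ⬝ᵥ (x + y) = 2 * ((x + y) ⬝ᵥ y) := by
    rw [dotProduct_add, add_dotProduct, add_dotProduct, hx, hy, dotProduct_comm y x]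
    ring
  unfold ht
  rw [Matrix.neg_mulVec, refl_mulVec, smul_dotProduct, smul_smul, smul_eq_mul]
  have h5 : 2 * ((Real.sqrt ((x + y) ⬝ᵥ (x + y)))⁻¹ * ((x + y) ⬝ᵥ y)) *
      (Real.sqrt ((x + y) ⬝ᵥ (x + y)))⁻¹ = 1 := by
    have h6 : (Real.sqrt ((x + y) ⬝ᵥ (x + y)))⁻¹ * (Real.sqrt ((x + y) ⬝ᵥ (x + y)))⁻¹ =
        ((x + y) ⬝ᵥ (x + y))⁻¹ := by
      rw [← mul_inv, h2]
    calc 2 * ((Real.sqrt ((x + y) ⬝ᵥ (x + y)))⁻¹ * ((x + y) ⬝ᵥ y)) *
          (Real.sqrt ((x + y) ⬝ᵥ (x + y)))⁻¹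
        = (2 * ((x + y) ⬝ᵥ y)) * ((Real.sqrt ((x + y) ⬝ᵥ (x + y)))⁻¹ *
          (Real.sqrt ((x + y) ⬝ᵥ (x + y)))⁻¹) := by ring
      _ = 1 := by rw [h6, ← h4, mul_inv_cancel₀ hp.ne']
  rw [h5, one_smul]
  abel

theorem IsSO_mul {g h : Matrix (Fin 3) (Fin 3) ℝ} (hg : IsSO g) (hh : IsSO h) : IsSO (g * h) := by
  refine ⟨?_, by rw [Matrix.det_mul, hg.2, hh.2, one_mul]⟩
  rw [Matrix.transpose_mul, Matrix.mul_assoc, ← Matrix.mul_assoc gᵀ, hg.1, Matrix.one_mul, hh.1]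

theorem IsSO_tr {g : Matrix (Fin 3) (Fin 3) ℝ} (hg : IsSO g) : IsSO gᵀ := by
  refine ⟨?_, by rw [Matrix.det_transpose, hg.2]⟩
  rw [Matrix.transpose_transpose, mul_eq_one_comm.mp hg.1]

theorem IsSO_one : IsSO (1 : Matrix (Fin 3) (Fin 3) ℝ) := ⟨by simp, by simp⟩

theorem exists_SO (x : Fin 3 → ℝ) (hx : x ⬝ᵥ x = 1) : ∃ g, IsSO g ∧ g *ᵥ e3 = x := by
  have h3 : e3 ⬝ᵥ e3 = 1 := by simp [e3, dotProduct, Fin.sum_univ_three]
  by_cases h : x + e3 = 0
  · refine ⟨!![1, 0, 0; 0, -1, 0; 0, 0, -1], ⟨?_, ?_⟩, ?_⟩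
    · ext i j; fin_cases i <;> fin_cases j <;> simp [Matrix.mul_apply, Fin.sum_univ_three]
    · rw [Matrix.det_fin_three]; simp
    · rw [eq_neg_of_add_eq_zero_left h]
      ext i
      fin_cases i <;> simp [e3, Matrix.mulVec, dotProduct, Fin.sum_univ_three]
  · exact ⟨ht (x + e3), ht_SO h, ht_section hx h3 h⟩

/-- rotations fixing the third basis vector -/
theorem stab {g : Matrix (Fin 3) (Fin 3) ℝ} (hg : IsSO g) (h : g *ᵥ e3 = e3) : ∃ t, g = rz t := by
  have c0 : g 0 2 = 0 := by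
    have := congrFun h 0
    simpa [e3, Matrix.mulVec, dotProduct, Fin.sum_univ_three] using this
  have c1 : g 1 2 = 0 := by
    have := congrFun h 1
    simpa [e3, Matrix.mulVec, dotProduct, Fin.sum_univ_three] using this
  have c2 : g 2 2 = 1 := by
    have := congrFun h 2
    simpa [e3, Matrix.mulVec, dotProduct, Fin.sum_univ_three] using this
  have hrow := mul_eq_one_comm.mp hg.1
  have r22 := congrFun (congrFun hrow 2) 2
  simp only [Matrix.mul_apply, Fin.sum_univ_three, Matrix.transpose_apply, c2, Matrix.one_apply_eq] at r22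
  have r0 : g 2 0 = 0 := by nlinarith [sq_nonneg (g 2 0), sq_nonneg (g 2 1)]
  have r1 : g 2 1 = 0 := by nlinarith [sq_nonneg (g 2 0), sq_nonneg (g 2 1)]
  have k00 := congrFun (congrFun hg.1 0) 0
  have k01 := congrFun (congrFun hg.1 0) 1
  have k11 := congrFun (congrFun hg.1 1) 1
  simp only [Matrix.mul_apply, Fin.sum_univ_three, Matrix.transpose_apply, r0, r1,
    Matrix.one_apply_eq] at k00 k11
  simp only [Matrix.mul_apply, Fin.sum_univ_three, Matrix.transpose_apply, r0, r1] at k01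
  rw [Matrix.one_apply_ne (by decide)] at k01
  have hdet := hg.2
  rw [Matrix.det_fin_three, c0, c1, c2, r0, r1] at hdet
  have d1 : g 1 1 = g 0 0 := by
    linear_combination (g 1 1) * (-k00) - (g 1 0) * (-k01) + (g 0 0) * hdet
  have d2 : g 0 1 = -g 1 0 := by
    linear_combination (-(g 0 1)) * k00 + (g 0 0) * k01 - (g 1 0) * hdet
  have hsq : (g 0 0) ^ 2 + (g 1 0) ^ 2 = 1 := by linarith
  set zz : ℂ := ⟨g 0 0, g 1 0⟩ with hz
  have hnorm : ‖zz‖ = 1 := by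
    rw [Complex.norm_eq_sqrt_sq_add_sq, hsq, Real.sqrt_one]
  have hz0 : zz ≠ 0 := by
    intro h0
    rw [h0, norm_zero] at hnorm
    norm_num at hnorm
  refine ⟨Complex.arg zz, ?_⟩
  have hc : Real.cos (Complex.arg zz) = g 0 0 := by
    rw [Complex.cos_arg hz0, hnorm, div_one]
  have hs : Real.sin (Complex.arg zz) = g 1 0 := by
    rw [Complex.sin_arg, hnorm, div_one]
  ext i j
  fin_cases i <;> fin_cases j <;> simp [rz, hc, hs, c0, c1, c2, r0, r1, d1, d2]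

theorem well_def {V : Type} [NormedAddCommGroup V] [InnerProductSpace ℝ V] [FiniteDimensional ℝ V]
    (ρ : PRep (Fin 3) V) {w : V} (hw : ρ.D L3 w = 0) {g h : Matrix (Fin 3) (Fin 3) ℝ}
    (hg : IsSO g) (hh : IsSO h) (e : g *ᵥ e3 = h *ᵥ e3) : ρ.R g w = ρ.R h w := by
  have h1 : (hᵀ * g) *ᵥ e3 = e3 := by
    rw [← Matrix.mulVec_mulVec, e, Matrix.mulVec_mulVec, hh.1, Matrix.one_mulVec]
  obtain ⟨t, ht⟩ := stab (IsSO_mul (IsSO_tr hh) hg) h1
  have h2 := rz_const ρ hw t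
  rw [← ht, ρ.mul] at h2
  have h3 := congrArg (ρ.R h) h2
  rwa [ρ.R_inv' h hh.1] at h3

end SO3

end Pool.Agent.Helper172_SO

namespace Pool.Agent.Helper172_SO

namespace SO3

open MeasureTheory Set Matrix
open scoped Quaternion
open Pool.Agent.Helper557.Rz (S E Iso rot sg cr II TT TT_eq II_rot II_pos II_nonneg II_const II_cont
  TT_cont TT_sym key_id TT_le TT_eq_six topV ua imq eig_low MN MN_facts MN_tendsto kk sg_prob II_apply
  TT_apply rot_coe exists_RQ cz al unit_inv)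

/-! ### the explicit rotations -/

/-- rotation about the first axis -/
noncomputable def M0 : Matrix (Fin 3) (Fin 3) ℝ := !![1, 0, 0; 0, -(3/5), -(4/5); 0, 4/5, -(3/5)]
/-- rotation about the second axis -/
noncomputable def M1 : Matrix (Fin 3) (Fin 3) ℝ := !![-(3/5), 0, 4/5; 0, 1, 0; -(4/5), 0, -(3/5)]
/-- rotation about the third axis -/
noncomputable def M2 : Matrix (Fin 3) (Fin 3) ℝ := !![-(3/5), -(4/5), 0; 4/5, -(3/5), 0; 0, 0, 1]

/-- the six rotations -/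
noncomputable def GG : Fin 6 → Matrix (Fin 3) (Fin 3) ℝ := ![M0, M1, M2, M0ᵀ, M1ᵀ, M2ᵀ]

theorem M0_SO : IsSO M0 := by
  constructor
  · ext i j; fin_cases i <;> fin_cases j <;> simp [M0, Matrix.mul_apply, Fin.sum_univ_three] <;> norm_num
  · rw [Matrix.det_fin_three]; simp [M0]; norm_num

theorem M1_SO : IsSO M1 := by
  constructor
  · ext i j; fin_cases i <;> fin_cases j <;> simp [M1, Matrix.mul_apply, Fin.sum_univ_three] <;> norm_num
  · rw [Matrix.det_fin_three]; simp [M1]; norm_num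

theorem M2_SO : IsSO M2 := by
  constructor
  · ext i j; fin_cases i <;> fin_cases j <;> simp [M2, Matrix.mul_apply, Fin.sum_univ_three] <;> norm_num
  · rw [Matrix.det_fin_three]; simp [M2]; norm_num

theorem GG_SO (a : Fin 6) : IsSO (GG a) := by
  fin_cases a
  · exact M0_SO
  · exact M1_SO
  · exact M2_SO
  · exact IsSO_tr M0_SO
  · exact IsSO_tr M1_SO
  · exact IsSO_tr M2_SO

theorem GG_tr (a : Fin 6) : GG (a + 3) = (GG a)ᵀ := by
  fin_cases a
  · rfl
  · rfl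
  · rfl
  · exact (Matrix.transpose_transpose M0).symm
  · exact (Matrix.transpose_transpose M1).symm
  · exact (Matrix.transpose_transpose M2).symm

theorem key4 (y z : E 3) (p : ℍ[ℤ]) (h : imq y * cz p = cz p * imq z) :
    (y 0 * p.imI + y 1 * p.imJ + y 2 * p.imK = z 0 * p.imI + z 1 * p.imJ + z 2 * p.imK) ∧
    (y 0 * p.re + y 1 * p.imK - y 2 * p.imJ = p.re * z 0 + p.imJ * z 2 - p.imK * z 1) ∧
    (y 1 * p.re + y 2 * p.imI - y 0 * p.imK = p.re * z 1 + p.imK * z 0 - p.imI * z 2) ∧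
    (y 2 * p.re + y 0 * p.imJ - y 1 * p.imI = p.re * z 2 + p.imI * z 1 - p.imJ * z 0) := by
  have h1 := congrArg QuaternionAlgebra.re h
  have h2 := congrArg QuaternionAlgebra.imI h
  have h3 := congrArg QuaternionAlgebra.imJ h
  have h4 := congrArg QuaternionAlgebra.imK h
  rw [Quaternion.re_mul, Quaternion.re_mul] at h1
  rw [Quaternion.imI_mul, Quaternion.imI_mul] at h2
  rw [Quaternion.imJ_mul, Quaternion.imJ_mul] at h3
  rw [Quaternion.imK_mul, Quaternion.imK_mul] at h4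
  simp only [imq, cz] at h1 h2 h3 h4
  refine ⟨?_, ?_, ?_, ?_⟩ <;> linarith

theorem GG_R (R : ℍ[ℝ]ˣ →* Iso 3) (hR : ∀ (q : ℍ[ℝ]ˣ) (x : E 3),
    imq (R q x) = (q : ℍ[ℝ]) * imq x * ((q⁻¹ : ℍ[ℝ]ˣ) : ℍ[ℝ])) (a : Fin 6) (x : E 3) :
    (R (ua a) x).ofLp = GG a *ᵥ x.ofLp := by
  have aux : ∀ (a : Fin 6) (p : ℍ[ℤ]), al a = p →
      imq (R (ua a) x) * cz p = cz p * imq x := by
    rintro a p rfl
    exact Pool.Agent.Helper557.Rz.er_mul R hR a x
  have vec : ∀ (y : E 3) (M : Matrix (Fin 3) (Fin 3) ℝ),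
      (y 0 = M 0 0 * x 0 + M 0 1 * x 1 + M 0 2 * x 2) →
      (y 1 = M 1 0 * x 0 + M 1 1 * x 1 + M 1 2 * x 2) →
      (y 2 = M 2 0 * x 0 + M 2 1 * x 1 + M 2 2 * x 2) → y.ofLp = M *ᵥ x.ofLp := by
    intro y M h0 h1 h2
    ext i
    rw [Matrix.mulVec, dotProduct, Fin.sum_univ_three]
    fin_cases i
    · exact h0
    · exact h1
    · exact h2
  match a with
  | 0 =>
    obtain ⟨h1, h2, h3, h4⟩ := key4 _ _ _ (aux 0 ⟨1, 2, 0, 0⟩ rfl)
    simp at h1 h2 h3 h4
    apply vec _ M0 <;> simp [M0] <;> linarith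
  | 1 =>
    obtain ⟨h1, h2, h3, h4⟩ := key4 _ _ _ (aux 1 ⟨1, 0, 2, 0⟩ rfl)
    simp at h1 h2 h3 h4
    apply vec _ M1 <;> simp [M1] <;> linarith
  | 2 =>
    obtain ⟨h1, h2, h3, h4⟩ := key4 _ _ _ (aux 2 ⟨1, 0, 0, 2⟩ rfl)
    simp at h1 h2 h3 h4
    apply vec _ M2 <;> simp [M2] <;> linarith
  | 3 =>
    obtain ⟨h1, h2, h3, h4⟩ := key4 _ _ _ (aux 3 ⟨1, -2, 0, 0⟩ rfl)
    simp at h1 h2 h3 h4
    apply vec _ M0ᵀ <;> simp [M0] <;> linarith
  | 4 =>
    obtain ⟨h1, h2, h3, h4⟩ := key4 _ _ _ (aux 4 ⟨1, 0, -2, 0⟩ rfl)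
    simp at h1 h2 h3 h4
    apply vec _ M1ᵀ <;> simp [M1] <;> linarith
  | 5 =>
    obtain ⟨h1, h2, h3, h4⟩ := key4 _ _ _ (aux 5 ⟨1, 0, 0, -2⟩ rfl)
    simp at h1 h2 h3 h4
    apply vec _ M2ᵀ <;> simp [M2] <;> linarith

/-! ### rotation matrices as isometries -/

/-- rotation matrices as isometries -/
noncomputable def isoM (g : Matrix (Fin 3) (Fin 3) ℝ) (hg : gᵀ * g = 1) : Iso 3 :=
  ({ toLinearMap := Matrix.toEuclideanLin g
     norm_map' := by
      intro x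
      have h : ‖Matrix.toEuclideanLin g x‖ ^ 2 = ‖x‖ ^ 2 := by
        have e : ∀ y : E 3, ‖y‖ ^ 2 = y.ofLp ⬝ᵥ y.ofLp := by
          intro y
          rw [EuclideanSpace.real_norm_sq_eq]
          exact Finset.sum_congr rfl (fun i _ => sq _)
        rw [e, e]
        show (g *ᵥ x.ofLp) ⬝ᵥ (g *ᵥ x.ofLp) = _
        rw [Matrix.dotProduct_mulVec, ← Matrix.mulVec_transpose, Matrix.mulVec_mulVec, hg,
          Matrix.one_mulVec]
      exact (pow_left_inj₀ (norm_nonneg _) (norm_nonneg _) two_ne_zero).1 h } :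
    E 3 →ₗᵢ[ℝ] E 3).toLinearIsometryEquiv rfl

theorem isoM_apply (g : Matrix (Fin 3) (Fin 3) ℝ) (hg : gᵀ * g = 1) (x : E 3) :
    (isoM g hg x).ofLp = g *ᵥ x.ofLp := rfl

/-- coordinates of a point on the sphere -/
def vc (x : S 3) : Fin 3 → ℝ := x.1.ofLp

theorem vc_unit (x : S 3) : vc x ⬝ᵥ vc x = 1 := by
  have h := EuclideanSpace.real_norm_sq_eq x.1
  have h1 : ‖x.1‖ = 1 := by simp
  rw [h1] at h
  rw [dotProduct]
  calc ∑ i, vc x i * vc x i = ∑ i, x.1.ofLp i ^ 2 := Finset.sum_congr rfl (fun i _ => (sq _).symm)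
    _ = 1 := by rw [← h]; norm_num

theorem vc_cont (i : Fin 3) : Continuous (fun x : S 3 => vc x i) := by
  have h : Continuous (fun x : E 3 => x.ofLp i) := by
    exact (EuclideanSpace.proj (𝕜 := ℝ) i).continuous
  exact h.comp continuous_subtype_val

theorem exists_pt {y : Fin 3 → ℝ} (hy : y ⬝ᵥ y = 1) : ∃ x : S 3, vc x = y := by
  refine ⟨⟨WithLp.toLp 2 y, ?_⟩, rfl⟩
  rw [mem_sphere_zero_iff_norm]
  have h := EuclideanSpace.real_norm_sq_eq (WithLp.toLp 2 y)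
  have h1 : ∑ i, (WithLp.toLp 2 y : E 3).ofLp i ^ 2 = 1 := by
    rw [← hy, dotProduct]
    exact Finset.sum_congr rfl (fun i _ => sq _)
  rw [h1] at h
  exact (pow_eq_one_iff_of_nonneg (norm_nonneg _) two_ne_zero).1 h

/-- a rotation with given value at the third basis vector -/
noncomputable def gx (x : S 3) : Matrix (Fin 3) (Fin 3) ℝ := (exists_SO (vc x) (vc_unit x)).choose

theorem gx_SO (x : S 3) : IsSO (gx x) := (exists_SO (vc x) (vc_unit x)).choose_spec.1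

theorem gx_e3 (x : S 3) : gx x *ᵥ e3 = vc x := (exists_SO (vc x) (vc_unit x)).choose_spec.2

section psi
variable {V : Type} [NormedAddCommGroup V] [InnerProductSpace ℝ V] [FiniteDimensional ℝ V]
  (ρ : PRep (Fin 3) V)

theorem psi_cont {w : V} (hw : ρ.D L3 w = 0) (v : V) :
    Continuous (fun x : S 3 => inner ℝ (ρ.R (gx x) w) v) := by
  rw [continuous_iff_continuousAt]
  intro x₀
  have hcv : Continuous (fun x : S 3 => vc x + vc x₀) :=
    (continuous_pi (fun i => vc_cont i)).add continuous_const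
  have h0 : vc x₀ + vc x₀ ≠ 0 := by
    intro h
    have h1 : vc x₀ = 0 := by
      ext i
      have := congrFun h i
      simp only [Pi.add_apply, Pi.zero_apply] at this ⊢
      linarith
    have h2 := vc_unit x₀
    rw [h1] at h2
    simp at h2
  have hev : ∀ᶠ x in nhds x₀, vc x + vc x₀ ≠ 0 :=
    hcv.continuousAt.eventually_ne h0
  have hc : ContinuousAt (fun x : S 3 => ρ.R (ht (vc x + vc x₀) * gx x₀) w) x₀ := by
    apply cont_at ρ (fun x : S 3 => ht (vc x + vc x₀) * gx x₀) x₀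
      (IsSO_mul (ht_SO h0) (gx_SO x₀)).1
    intro i j
    have hent : ∀ k, ContinuousAt (fun x : S 3 => ht (vc x + vc x₀) i k) x₀ := by
      intro k
      have hs : ContinuousAt (fun x : S 3 => (Real.sqrt ((vc x + vc x₀) ⬝ᵥ (vc x + vc x₀)))⁻¹) x₀ := by
        have hs1 : Continuous (fun x : S 3 => Real.sqrt ((vc x + vc x₀) ⬝ᵥ (vc x + vc x₀))) := by
          apply Real.continuous_sqrt.comp
          exact hcv.dotProduct hcv
        exact hs1.continuousAt.inv₀ (Real.sqrt_pos.mpr (dot_pos h0)).ne'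
      have hi : ∀ l, ContinuousAt (fun x : S 3 => (vc x + vc x₀) l) x₀ := by
        intro l
        exact ((continuous_apply l).comp hcv).continuousAt
      have e : (fun x : S 3 => ht (vc x + vc x₀) i k) = fun x : S 3 =>
          -((1 : Matrix (Fin 3) (Fin 3) ℝ) i k - 2 *
            (((Real.sqrt ((vc x + vc x₀) ⬝ᵥ (vc x + vc x₀)))⁻¹ * (vc x + vc x₀) i) *
            ((Real.sqrt ((vc x + vc x₀) ⬝ᵥ (vc x + vc x₀)))⁻¹ * (vc x + vc x₀) k))) := by
        funext x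
        simp only [ht, refl, Matrix.neg_apply, Matrix.sub_apply, Matrix.smul_apply,
          Matrix.vecMulVec_apply, Pi.smul_apply, smul_eq_mul]
      rw [e]
      exact (continuousAt_const.sub (continuousAt_const.mul
        ((hs.mul (hi i)).mul (hs.mul (hi k))))).neg
    have e : (fun x : S 3 => (ht (vc x + vc x₀) * gx x₀) i j) = fun x : S 3 =>
        ∑ k, ht (vc x + vc x₀) i k * gx x₀ k j := by
      funext x
      exact Matrix.mul_apply
    rw [e]
    exact tendsto_finsetSum _ (fun k _ => (hent k).mul continuousAt_const)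
  have hc2 : ContinuousAt (fun x : S 3 => inner ℝ (ρ.R (ht (vc x + vc x₀) * gx x₀) w) v) x₀ :=
    ContinuousAt.inner (𝕜 := ℝ) hc continuousAt_const
  refine hc2.congr ?_
  filter_upwards [hev] with x hx
  congr 1
  apply well_def ρ hw (IsSO_mul (ht_SO hx) (gx_SO x₀)) (gx_SO x)
  rw [← Matrix.mulVec_mulVec, gx_e3, gx_e3]
  exact ht_section (vc_unit x) (vc_unit x₀) hx

/-- matrix coefficients as functions on the sphere -/
noncomputable def PS {w : V} (hw : ρ.D L3 w = 0) : V →ₗ[ℝ] C(S 3, ℝ) where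
  toFun v := ⟨fun x => inner ℝ (ρ.R (gx x) w) v, psi_cont ρ hw v⟩
  map_add' v v' := by
    ext x
    exact inner_add_right _ _ _
  map_smul' c v := by
    ext x
    exact inner_smul_right _ _ _

theorem PS_gx {w : V} (hw : ρ.D L3 w = 0) (v : V) (x : S 3) :
    PS ρ hw v x = inner ℝ (ρ.R (gx x) w) v := rfl

theorem PS_apply {w : V} (hw : ρ.D L3 w = 0) (v : V) (x : S 3) {g : Matrix (Fin 3) (Fin 3) ℝ}
    (hg : IsSO g) (h : g *ᵥ e3 = vc x) : PS ρ hw v x = inner ℝ (ρ.R g w) v := by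
  rw [PS_gx, well_def ρ hw (gx_SO x) hg (by rw [gx_e3, h])]

theorem PS_rot {w : V} (hw : ρ.D L3 w = 0) (v : V) (q : Iso 3) {h : Matrix (Fin 3) (Fin 3) ℝ}
    (hh : IsSO h) (hq : ∀ x : E 3, (q x).ofLp = h *ᵥ x.ofLp) :
    cr q (PS ρ hw v) = PS ρ hw (ρ.R hᵀ v) := by
  ext x
  show PS ρ hw v (rot q x) = _
  have h1 : vc (rot q x) = h *ᵥ vc x := hq x.1
  rw [PS_apply ρ hw v (rot q x) (IsSO_mul hh (gx_SO x)) (by
    rw [← Matrix.mulVec_mulVec, gx_e3, h1]), ρ.mul, PS_gx]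
  have h2 := ρ.adj hᵀ (ρ.R (gx x) w) v
  rwa [Matrix.transpose_transpose] at h2

theorem II_PS {w : V} (hw : ρ.D L3 w = 0) {v : V} (hv : v ∈ (ρ.inv (so (Fin 3)))ᗮ) :
    II (PS ρ hw v) = 0 := by
  set ℓ : V →ₗ[ℝ] ℝ := II ∘ₗ PS ρ hw with hℓ
  set u : V := (InnerProductSpace.toDual ℝ V).symm (LinearMap.toContinuousLinearMap ℓ) with hu
  have hul : ∀ z, inner ℝ u z = ℓ z := by
    intro z
    rw [hu, InnerProductSpace.toDual_symm_apply]
    rfl
  have hfix : ∀ g, IsSO g → ρ.R g u = u := by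
    intro g hg
    apply ext_inner_right ℝ
    intro z
    have h2 := ρ.adj gᵀ u z
    rw [Matrix.transpose_transpose] at h2
    rw [h2, hul, hul]
    show II (PS ρ hw (ρ.R gᵀ z)) = II (PS ρ hw z)
    rw [← PS_rot ρ hw z (isoM g hg.1) hg (isoM_apply g hg.1), II_rot]
  have hinv := ρ.inv_of_R u hfix
  have h3 := (mem_orth.mp hv) u hinv
  rw [hul] at h3
  exact h3

end psi

/-! ### the gap -/

theorem gap6 : ∃ κ : ℝ, 0 < κ ∧ ∀ (V : Type) [NormedAddCommGroup V] [InnerProductSpace ℝ V]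
    [FiniteDimensional ℝ V] (ρ : PRep (Fin 3) V), ∀ v ∈ (ρ.inv (so (Fin 3)))ᗮ,
    κ * ‖v‖ ^ 2 ≤ ∑ a : Fin 6, ‖ρ.R (GG a) v - v‖ ^ 2 := by
  obtain ⟨R, hR⟩ := exists_RQ
  obtain ⟨κ, hκ, hgap⟩ := gap3x R hR
  refine ⟨κ, hκ, ?_⟩
  intro V _ _ _ ρ v hv
  by_cases hne : (ρ.inv (so (Fin 3)))ᗮ = ⊥
  · rw [hne, Submodule.mem_bot] at hv
    subst hv
    simp
  set W := (ρ.inv (so (Fin 3)))ᗮ with hW
  -- stability
  have hst : ∀ g, IsSO g → ∀ w ∈ W, ρ.R g w ∈ W := by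
    intro g hg w hw
    rw [hW, mem_orth]
    intro z hz
    have h1 := ρ.adj g z w
    rw [← h1, ρ.R_of_inv z hz _ (IsSO_tr hg)]
    exact (mem_orth.mp hw) z hz
  set A : V →ₗ[ℝ] V := ∑ a : Fin 6, (ρ.R (GG a)ᵀ - LinearMap.id) ∘ₗ (ρ.R (GG a) - LinearMap.id) with hA
  have hAi : ∀ x y, inner ℝ (A x) y = ∑ a : Fin 6, inner ℝ (ρ.R (GG a) x - x) (ρ.R (GG a) y - y) := by
    intro x y
    rw [hA, LinearMap.sum_apply, sum_inner]
    refine Finset.sum_congr rfl (fun a _ => ?_)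
    show inner ℝ (ρ.R (GG a)ᵀ (ρ.R (GG a) x - x) - (ρ.R (GG a) x - x)) y = _
    rw [inner_sub_left, ρ.adj, inner_sub_right]
  have hAsym : ∀ x y, inner ℝ (A x) y = inner ℝ x (A y) := by
    intro x y
    rw [hAi, real_inner_comm, hAi]
    exact Finset.sum_congr rfl (fun a _ => real_inner_comm _ _)
  have hAst : ∀ w ∈ W, A w ∈ W := by
    intro w hw
    rw [hA, LinearMap.sum_apply]
    refine Submodule.sum_mem _ (fun a _ => ?_)
    have h1 : ρ.R (GG a) w - w ∈ W := W.sub_mem (hst _ (GG_SO a) w hw) hw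
    exact W.sub_mem (hst _ (IsSO_tr (GG_SO a)) _ h1) h1
  obtain ⟨v₀, hv₀, hv₀0, s, hs, hmin⟩ := exists_min_eig A hAsym W hAst hne
  -- the stable subspace generated by the eigenvector
  set W1 : Submodule ℝ V := Submodule.span ℝ {y | ∃ g, IsSO g ∧ ρ.R g v₀ = y} with hW1
  have hW1st : ∀ g, IsSO g → ∀ w ∈ W1, ρ.R g w ∈ W1 := by
    intro g hg w hw
    have h1 : W1 ≤ W1.comap (ρ.R g) := by
      rw [hW1, Submodule.span_le]
      rintro y ⟨h, hh, rfl⟩
      show ρ.R g (ρ.R h v₀) ∈ W1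
      rw [← ρ.mul]
      exact Submodule.subset_span ⟨g * h, IsSO_mul hg hh, rfl⟩
    exact h1 hw
  have hv₀W1 : v₀ ∈ W1 := Submodule.subset_span ⟨1, IsSO_one, ρ.one v₀⟩
  have hW1ne : W1 ≠ ⊥ := by
    intro h
    rw [h, Submodule.mem_bot] at hv₀W1
    exact hv₀0 hv₀W1
  obtain ⟨w, hwW1, hw0, hw⟩ := zero_weight ρ W1 hW1st hW1ne
  set ψ := PS ρ hw v₀ with hψ
  have hψ0 : ψ ≠ 0 := by
    intro h0
    apply hw0
    have h1 : W1 ≤ (Submodule.span ℝ {w})ᗮ := by
      rw [hW1, Submodule.span_le]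
      rintro y ⟨h, hh, rfl⟩
      show ρ.R h v₀ ∈ (Submodule.span ℝ {w})ᗮ
      rw [Submodule.mem_orthogonal_singleton_iff_inner_right]
      -- the point on the sphere
      have hhT := IsSO_tr hh
      obtain ⟨x, hx⟩ := exists_pt (y := hᵀ *ᵥ e3) (by
        rw [Matrix.dotProduct_mulVec, ← Matrix.mulVec_transpose, Matrix.mulVec_mulVec, hhT.1,
          Matrix.one_mulVec]
        simp [e3, dotProduct, Fin.sum_univ_three])
      have h2 := PS_apply ρ hw v₀ x hhT hx.symm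
      rw [← hψ, h0] at h2
      have h3 := ρ.adj h w v₀
      rw [h3] at h2
      exact h2.symm
    have h2 := h1 hwW1
    rw [Submodule.mem_orthogonal_singleton_iff_inner_right] at h2
    exact inner_self_eq_zero.mp h2
  -- the averaging operator
  have hsum : ∑ a : Fin 6, ρ.R (GG a)ᵀ v₀ = ((12 - s) / 2) • v₀ := by
    have h1 : A v₀ = (12 : ℝ) • v₀ - (2 : ℝ) • ∑ a : Fin 6, ρ.R (GG a)ᵀ v₀ := by
      have h2 : A v₀ = ∑ a : Fin 6, ((2 : ℝ) • v₀ - ρ.R (GG a)ᵀ v₀ - ρ.R (GG a) v₀) := by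
        rw [hA, LinearMap.sum_apply]
        refine Finset.sum_congr rfl (fun a _ => ?_)
        show ρ.R (GG a)ᵀ (ρ.R (GG a) v₀ - v₀) - (ρ.R (GG a) v₀ - v₀) = _
        rw [map_sub, ρ.R_inv (GG a) (GG_SO a).1]
        module
      have h3 : ∑ a : Fin 6, ρ.R (GG a) v₀ = ∑ a : Fin 6, ρ.R (GG a)ᵀ v₀ := by
        rw [← Equiv.sum_comp (Equiv.addRight (3 : Fin 6)) (fun a => ρ.R (GG a) v₀)]
        refine Finset.sum_congr rfl (fun a _ => ?_)
        show ρ.R (GG (a + 3)) v₀ = _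
        rw [GG_tr]
      rw [h2, Finset.sum_sub_distrib, Finset.sum_sub_distrib, h3, Finset.sum_const,
        Finset.card_univ, Fintype.card_fin]
      module
    rw [hs] at h1
    have h4 : (2 : ℝ) • ∑ a : Fin 6, ρ.R (GG a)ᵀ v₀ = (12 - s) • v₀ := by
      have : (2 : ℝ) • ∑ a : Fin 6, ρ.R (GG a)ᵀ v₀ = (12 : ℝ) • v₀ - s • v₀ := by
        rw [h1]; abel
      rw [this, sub_smul]
    calc ∑ a : Fin 6, ρ.R (GG a)ᵀ v₀ = (2 : ℝ)⁻¹ • ((2 : ℝ) • ∑ a : Fin 6, ρ.R (GG a)ᵀ v₀) := by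
          rw [smul_smul]; norm_num
      _ = ((12 - s) / 2) • v₀ := by rw [h4, smul_smul]; congr 1; ring
  have hTT : TT R ψ = ((12 - s) / 2) • ψ := by
    rw [TT_eq, hψ]
    calc ∑ a : Fin 6, cr (R (ua a)) (PS ρ hw v₀)
        = ∑ a : Fin 6, PS ρ hw (ρ.R (GG a)ᵀ v₀) :=
          Finset.sum_congr rfl (fun a _ => PS_rot ρ hw v₀ (R (ua a)) (GG_SO a) (GG_R R hR a))
      _ = PS ρ hw (∑ a : Fin 6, ρ.R (GG a)ᵀ v₀) := (map_sum _ _ _).symm
      _ = ((12 - s) / 2) • PS ρ hw v₀ := by rw [hsum, map_smul]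
  have hkey := key_id R ψ
  rw [hTT, smul_mul_assoc, map_smul, smul_eq_mul] at hkey
  have hg := hgap ψ
  have hmean : ∫ x, ψ x ∂(sg 3) = 0 := II_PS ρ hw hv₀
  have hsq : ∫ x, ψ x ^ 2 ∂(sg 3) = II (ψ * ψ) := by
    rw [II_apply]
    refine integral_congr_ae (Filter.Eventually.of_forall (fun x => ?_))
    show ψ x ^ 2 = ψ x * ψ x
    ring
  have hterm : ∀ a : Fin 6, ∫ x, (ψ (rot (R (ua a)) x) - ψ x) ^ 2 ∂(sg 3) =
      II ((cr (R (ua a)) ψ - ψ) * (cr (R (ua a)) ψ - ψ)) := by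
    intro a
    rw [II_apply]
    refine integral_congr_ae (Filter.Eventually.of_forall (fun x => ?_))
    show (ψ (rot (R (ua a)) x) - ψ x) ^ 2 =
      (ψ (rot (R (ua a)) x) - ψ x) * (ψ (rot (R (ua a)) x) - ψ x)
    ring
  rw [hmean, hsq, Finset.sum_congr rfl (fun a _ => hterm a), hkey] at hg
  have hpos := II_pos ψ hψ0
  have hκs : κ ≤ s := by
    have : κ * II (ψ * ψ) ≤ s * II (ψ * ψ) := by nlinarith
    exact le_of_mul_le_mul_right this hpos
  have hfin := hmin v hv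
  rw [hAi] at hfin
  have hfin2 : ∑ a : Fin 6, inner ℝ (ρ.R (GG a) v - v) (ρ.R (GG a) v - v) =
      ∑ a : Fin 6, ‖ρ.R (GG a) v - v‖ ^ 2 :=
    Finset.sum_congr rfl (fun a _ => real_inner_self_eq_norm_sq _)
  rw [hfin2] at hfin
  exact (mul_le_mul_of_nonneg_right hκs (by positivity)).trans hfin

end SO3

theorem taskSO3 : TaskSO3 := by
  classical
  obtain ⟨κ, hκ, h⟩ := SO3.gap6
  refine ⟨Finset.univ.image SO3.GG, κ / 6, by positivity, ?_, ?_⟩
  · intro s hs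
    obtain ⟨a, _, rfl⟩ := Finset.mem_image.mp hs
    exact SO3.GG_SO a
  · intro V _ _ _ ρ v hv
    have h1 := h V ρ v hv
    have h2 : ∀ a : Fin 6, ‖ρ.R (SO3.GG a) v - v‖ ^ 2 ≤
        ∑ s ∈ Finset.univ.image SO3.GG, ‖ρ.R s v - v‖ ^ 2 := fun a =>
      Finset.single_le_sum (f := fun s => ‖ρ.R s v - v‖ ^ 2) (fun s _ => by positivity)
        (Finset.mem_image_of_mem SO3.GG (Finset.mem_univ a))
    have h3 : ∑ a : Fin 6, ‖ρ.R (SO3.GG a) v - v‖ ^ 2 ≤
        ∑ _a : Fin 6, ∑ s ∈ Finset.univ.image SO3.GG, ‖ρ.R s v - v‖ ^ 2 :=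
      Finset.sum_le_sum (fun a _ => h2 a)
    rw [Finset.sum_const, Finset.card_univ, Fintype.card_fin, nsmul_eq_mul] at h3
    push_cast at h3
    linarith

end Pool.Agent.Helper172_SO
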