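import Pool.Agent.Helper172_SO.Refl

set_option autoImplicit false

/-!
Statements of the tasks for MP_839d28_al. Everything lives in `Type`.
Index conventions: `C j = Fin j → ZMod 2`, so `R^(2^j)` is the space of functions on `C j`.
-/

namespace Pool.Agent.Helper172_SO

open Matrix MeasureTheory

section defs
variable {α : Type} [Fintype α] [DecidableEq α]

/-- spectral gap `κ` of the finite set `S`, in all representations at once -/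
def Gap (S : Finset (Matrix α α ℝ)) (κ : ℝ) : Prop :=
  ∀ (V : Type) [NormedAddCommGroup V] [InnerProductSpace ℝ V] [FiniteDimensional ℝ V]
    (ρ : PRep α V), ∀ v ∈ (ρ.inv (so α))ᗮ, κ * ‖v‖ ^ 2 ≤ ∑ s ∈ S, ‖ρ.R s v - v‖ ^ 2

/-- finite groups of rotations -/
structure FinGrp (F : Finset (Matrix α α ℝ)) : Prop where
  one : 1 ∈ F
  mul : ∀ g ∈ F, ∀ h ∈ F, g * h ∈ F
  tr : ∀ g ∈ F, gᵀ ∈ F
  isSO : ∀ g ∈ F, IsSO g

/-- the vectors fixed by `F` make up at most the fraction `β` of every subspace `W` that is stable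
under all rotations and orthogonal to the invariants -/
def Good (β : ℝ) (F : Finset (Matrix α α ℝ)) : Prop :=
  FinGrp F ∧
  ∀ (V : Type) [NormedAddCommGroup V] [InnerProductSpace ℝ V] [FiniteDimensional ℝ V]
    (ρ : PRep α V) (W : Submodule ℝ V), (∀ g, IsSO g → ∀ w ∈ W, ρ.R g w ∈ W) →
    W ≤ (ρ.inv (so α))ᗮ →
    (Module.finrank ℝ (W ⊓ ρ.fix (F : Set (Matrix α α ℝ)) : Submodule ℝ V) : ℝ) ≤
      β * Module.finrank ℝ W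

/-- Lie algebra of the diagonal `SO(n)` in `SO(2n)` -/
def soD (α : Type) [Fintype α] [DecidableEq α] : Set (Matrix (α ⊕ α) (α ⊕ α) ℝ) :=
  {Z | ∃ X : Matrix α α ℝ, Xᵀ = -X ∧ Z = fromBlocks X 0 0 X}

/-- Lie algebra of `SO(n) × SO(n)` in `SO(2n)` (the commutant of `P = fromBlocks 1 0 0 (-1)`) -/
def soSS (α : Type) [Fintype α] [DecidableEq α] : Set (Matrix (α ⊕ α) (α ⊕ α) ℝ) :=
  {Z | ∃ X Y : Matrix α α ℝ, Xᵀ = -X ∧ Yᵀ = -Y ∧ Z = fromBlocks X 0 0 Y}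

/-- the commutant of `Q = fromBlocks 0 1 1 0` -/
def soQ (α : Type) [Fintype α] [DecidableEq α] : Set (Matrix (α ⊕ α) (α ⊕ α) ℝ) :=
  {Z | ∃ X Y : Matrix α α ℝ, Xᵀ = -X ∧ Yᵀ = -Y ∧ Z = fromBlocks X Y Y X}

/-- the involution exchanging `P` and `Q` -/
noncomputable def gPQ (α : Type) [Fintype α] [DecidableEq α] : Matrix (α ⊕ α) (α ⊕ α) ℝ :=
  (Real.sqrt 2)⁻¹ • fromBlocks 1 1 1 (-1)

/-- bound for matrix coefficients of `1 ⊕ J` on the vectors invariant under the diagonal group -/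
def CoefBd (α : Type) [Fintype α] [DecidableEq α] (κ : ℝ) (J : Matrix α α ℝ) : Prop :=
  ∀ (V : Type) [NormedAddCommGroup V] [InnerProductSpace ℝ V] [FiniteDimensional ℝ V]
    (ρ : PRep (α ⊕ α) V), ∀ w ∈ ρ.inv (soD α) ⊓ (ρ.inv (soSS α))ᗮ,
    ∀ w' ∈ ρ.inv (soD α) ⊓ (ρ.inv (soSS α))ᗮ,
    |inner ℝ (ρ.R (fromBlocks 1 0 0 J) w) w'| ≤ κ * ‖w‖ * ‖w'‖

/-- cosine of the angle between the invariants of `SO(n) × SO(n)` and of its conjugate -/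
def TauBd (α : Type) [Fintype α] [DecidableEq α] (τ : ℝ) : Prop :=
  ∀ (V : Type) [NormedAddCommGroup V] [InnerProductSpace ℝ V] [FiniteDimensional ℝ V]
    (ρ : PRep (α ⊕ α) V), ∀ u ∈ ρ.inv (soSS α) ⊓ (ρ.inv (so (α ⊕ α)))ᗮ,
    ∀ w ∈ ρ.inv (soQ α) ⊓ (ρ.inv (so (α ⊕ α)))ᗮ, |inner ℝ u w| ≤ τ * ‖u‖ * ‖w‖

end defs

/-- bit strings -/
abbrev C (j : ℕ) : Type := Fin j → ZMod 2

/-- permutation matrices -/
def pm {α : Type} [DecidableEq α] (σ : Equiv.Perm α) : Matrix α α ℝ :=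
  Matrix.of fun x y => if x = σ y then 1 else 0

/-- signs -/
def sgn (z : ZMod 2) : ℝ := if z = 0 then 1 else -1

/-- translations -/
noncomputable def FX (j : ℕ) : Finset (Matrix (C j) (C j) ℝ) :=
  Finset.univ.image fun a : C j => pm (Equiv.addRight a)

/-- characters -/
noncomputable def FZ (j : ℕ) : Finset (Matrix (C j) (C j) ℝ) :=
  Finset.univ.image fun b : C j => Matrix.diagonal fun x => sgn (∑ i, b i * x i)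

/-- elementary transvections, as permutations of `C m` -/
def TV (m : ℕ) : Set (Equiv.Perm (C m)) :=
  {σ | ∃ s t : Fin m, s ≠ t ∧ ∀ x : C m, σ x = x + Pi.single s (x t)}

/-- `A ⊗ 1` on the last `m - j` coordinates -/
def up (j m : ℕ) (h : j ≤ m) (A : Matrix (C j) (C j) ℝ) : Matrix (C m) (C m) ℝ :=
  Matrix.of fun x y => if ∀ i : Fin m, j ≤ i.val → x i = y i then
    A (fun i => x (Fin.castLE h i)) (fun i => y (Fin.castLE h i)) else 0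

/-- Lie algebra of `SO(2^j) ⊗ 1` in `SO(2^m)` -/
def lvl (j m : ℕ) (h : j ≤ m) : Set (Matrix (C m) (C m) ℝ) :=
  {Z | ∃ X : Matrix (C j) (C j) ℝ, Xᵀ = -X ∧ Z = up j m h X}

/-- extension of a matrix by the identity along an embedding of index sets -/
noncomputable def blk {α β : Type} [DecidableEq α] (ι : β ↪ α) (g : Matrix β β ℝ) : Matrix α α ℝ :=
  by
    classical
    exact Matrix.of fun x y =>
      if h : (∃ b, ι b = x) ∧ (∃ b, ι b = y) then g h.1.choose h.2.choose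
      else if x = y then 1 else 0

/-- `(A, B)` is a Heisenberg pair with centre `Z` -/
structure HPair {Γ : Type} [Group Γ] (A B Z : Subgroup Γ) : Prop where
  comm : ∀ a ∈ A, ∀ b ∈ B, a * b * a⁻¹ * b⁻¹ ∈ Z
  zA : ∀ z ∈ Z, ∀ a ∈ A, z * a = a * z
  zB : ∀ z ∈ Z, ∀ b ∈ B, z * b = b * z
  surj : ∀ a ∈ A, a ≠ 1 → ∀ z ∈ Z, ∃ b ∈ B, a * b * a⁻¹ * b⁻¹ = z

/-- `μ` is a left invariant probability measure on the rotations -/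
def IsHaar (n : ℕ) (μ : Measure (Fin n → Fin n → ℝ)) : Prop :=
  IsProbabilityMeasure μ ∧
  μ {x | ¬ ((Matrix.of x).transpose * Matrix.of x = 1 ∧ (Matrix.of x).det = 1)} = 0 ∧
  ∀ g : Matrix (Fin n) (Fin n) ℝ, g.transpose * g = 1 → g.det = 1 →
    μ.map (fun x : Fin n → Fin n → ℝ => fun i j => ∑ l, g i l * x l j) = μ

/-- spectral gap on mean zero `L²` functions -/
def GapL2 (n : ℕ) (S : Finset (Matrix (Fin n) (Fin n) ℝ)) (κ : ℝ) : Prop :=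
  ∀ μ : Measure (Fin n → Fin n → ℝ), IsHaar n μ →
    ∀ f : (Fin n → Fin n → ℝ) → ℝ, MemLp f 2 μ → ∫ x, f x ∂μ = 0 →
      κ * ∫ x, f x ^ 2 ∂μ ≤
        ∑ s ∈ S, ∫ x, (f (fun i j => ∑ l, s i l * x l j) - f x) ^ 2 ∂μ

/-! ### tasks -/

/-- COUNT: the counting lemma of section 3 -/
def TaskCount : Prop :=
  ∀ (α : Type) [Fintype α] [DecidableEq α] (P : Finset α → Prop) [DecidablePred P] (r : ℕ),
    P ∅ → (∀ s t, P s → P t → P (symmDiff s t)) →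
    (∀ x : α, (Finset.univ.filter (fun y => P (symmDiff {x} {y}))).card ≤ r) →
    ∀ w : ℕ, 1 ≤ w → w + 1 ≤ Fintype.card α →
      (Fintype.card α + 2) * ((Finset.univ.powersetCard w).filter P).card ≤
        2 * r * (Fintype.card α).choose w

/-- DIM: the dimension bound of section 3 -/
def TaskDim : Prop :=
  ∀ (α : Type) [Fintype α] [DecidableEq α] (F : Finset (α → ℝ)) (r : ℕ), 6 ≤ Fintype.card α →
    (∀ f ∈ F, ∀ i, f i = 1 ∨ f i = -1) → (∀ f ∈ F, ∏ i, f i = 1) → (1 : α → ℝ) ∈ F →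
    (∀ f ∈ F, ∀ g ∈ F, f * g ∈ F) →
    (∀ x : α, (Finset.univ.filter (fun y => ∀ f ∈ F, f x = f y)).card ≤ r) →
    Good ((2 * r + 2) / (Fintype.card α + 2)) (F.image Matrix.diagonal)

/-- TRANSFER: section 4 -/
def TaskTransfer : Prop :=
  ∀ (α : Type) [Fintype α] [DecidableEq α] (β : ℝ) (F : Finset (Matrix α α ℝ)), Good β F →
    ∀ (V : Type) [NormedAddCommGroup V] [InnerProductSpace ℝ V] [FiniteDimensional ℝ V]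
      (ρ : PRep (α ⊕ α) V), ∀ u ∈ ρ.inv (soD α) ⊓ (ρ.inv (soSS α))ᗮ,
      ‖(ρ.fix ((fun f => fromBlocks 1 0 0 f) '' (F : Set (Matrix α α ℝ)))).starProjection u‖ ^ 2 ≤
        β * ‖u‖ ^ 2

/-- COEF: section 4, corollary B -/
def TaskCoef : Prop :=
  ∀ (α : Type) [Fintype α] [DecidableEq α] (κ : ℝ) (A : Matrix α α ℝ)
    (B F : Finset (Matrix α α ℝ)), IsSO A → FinGrp B → Good κ F →
    (∀ b ∈ B, Aᵀ * b * A * bᵀ ∈ F) → (∀ f ∈ F, ∃ b ∈ B, f = Aᵀ * b * A * bᵀ) →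
    (∀ b ∈ B, ∀ c ∈ B, Aᵀ * (b * c) * A * (b * c)ᵀ = (Aᵀ * b * A * bᵀ) * (Aᵀ * c * A * cᵀ)) →
    (∀ f ∈ F, A * f * Aᵀ ∈ F) → CoefBd α κ A

/-- JEX: the complex structure of section 5 -/
def TaskJ : Prop :=
  ∀ j : ℕ, 3 ≤ j → ∃ J : Matrix (C j) (C j) ℝ, IsSO J ∧ Jᵀ = -J ∧
    CoefBd (C j) (6 / (2 ^ j + 2)) J

/-- B1 -/
def TaskB1 : Prop :=
  ∀ (α : Type) [Fintype α] [DecidableEq α], 3 ≤ Fintype.card α →
    TauBd α ((Fintype.card α + 1) / (2 * Fintype.card α))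

/-- B2 -/
def TaskB2 : Prop :=
  ∀ (α : Type) [Fintype α] [DecidableEq α], 3 ≤ Fintype.card α → ∀ (κ : ℝ) (J : Matrix α α ℝ),
    0 ≤ κ → IsSO J → Jᵀ = -J → CoefBd α κ J → TauBd α (4 * κ)

/-- STEP: section 6 -/
def TaskStep : Prop :=
  ∀ (α : Type) [Fintype α] [DecidableEq α] (β τ : ℝ) (F₁ F₂ : Finset (Matrix α α ℝ)),
    0 ≤ β → β ≤ 1 → τ ^ 2 + β ≤ 1 → 0 ≤ τ → Good β F₁ → Good β F₂ → TauBd α τ →
    ∀ (V : Type) [NormedAddCommGroup V] [InnerProductSpace ℝ V] [FiniteDimensional ℝ V]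
      (ρ : PRep (α ⊕ α) V) (v : V), (∀ f ∈ F₁, ρ.R (fromBlocks 1 0 0 f) v = v) →
      (∀ f ∈ F₂, ρ.R (gPQ α * fromBlocks 1 0 0 f * gPQ α) v = v) →
      (1 - β) * (1 - β - τ ^ 2) * (‖v‖ ^ 2 - ‖(ρ.inv (so (α ⊕ α))).starProjection v‖ ^ 2) ≤
        ‖v‖ ^ 2 - ‖(ρ.inv (soD α)).starProjection v‖ ^ 2

/-- UP: `g ↦ g ⊗ 1` -/
def TaskUp : Prop :=
  ∀ (j m : ℕ) (h : j ≤ m),
    (∀ g : Matrix (C j) (C j) ℝ, IsSO g → IsSO (up j m h g)) ∧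
    ∀ (V : Type) [NormedAddCommGroup V] [InnerProductSpace ℝ V] (ρ : PRep (C m) V),
      ∃ ρ' : PRep (C j) V, (∀ g, ρ'.R g = ρ.R (up j m h g)) ∧ (∀ X, ρ'.D X = ρ.D (up j m h X)) ∧
        ρ'.inv (so (C j)) = ρ.inv (lvl j m h)

/-- LEVEL: section 6 inside `SO(2^m)` -/
def TaskLevel : Prop :=
  ∀ (j m : ℕ) (h : j + 1 ≤ m) (β τ : ℝ), 0 ≤ β → β ≤ 1 → τ ^ 2 + β ≤ 1 → 0 ≤ τ →
    Good β (FX j) → Good β (FZ j) → TauBd (C j) τ →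
    ∀ (V : Type) [NormedAddCommGroup V] [InnerProductSpace ℝ V] [FiniteDimensional ℝ V]
      (ρ : PRep (C m) V) (v : V), (∀ σ ∈ TV m, ρ.R (pm σ) v = v) →
      (1 - β) * (1 - β - τ ^ 2) *
        (‖v‖ ^ 2 - ‖(ρ.inv (lvl (j + 1) m h)).starProjection v‖ ^ 2) ≤
        ‖v‖ ^ 2 - ‖(ρ.inv (lvl j m (Nat.le_of_succ_le h))).starProjection v‖ ^ 2

/-- GOODX, GOODZ -/
def TaskGoodX : Prop := ∀ j : ℕ, 3 ≤ j → Good (4 / (2 ^ j + 2)) (FX j)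

/-- GOODX, GOODZ -/
def TaskGoodZ : Prop := ∀ j : ℕ, 3 ≤ j → Good (4 / (2 ^ j + 2)) (FZ j)

/-- SIGN -/
def TaskSign : Prop := ∀ m : ℕ, 3 ≤ m → ∀ σ ∈ Subgroup.closure (TV m), IsSO (pm σ)

/-- COVER: section 1 -/
def TaskCover : Prop :=
  ∀ (α : Type) [Fintype α] [DecidableEq α] (Rs : Finset (Finset α)),
    (∀ x y : α, x ≠ y → ∃ s ∈ Rs, x ∈ s ∧ y ∈ s) →
    ∀ (V : Type) [NormedAddCommGroup V] [InnerProductSpace ℝ V] [FiniteDimensional ℝ V]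
      (ρ : PRep α V), ∀ v ∈ (ρ.inv (so α))ᗮ,
      ‖v‖ ^ 2 ≤ ∑ s ∈ Rs, ‖v - (ρ.inv (soOn s)).starProjection v‖ ^ 2

/-- EMB: `g ↦ g ⊕ 1` along an embedding of index sets -/
def TaskEmb : Prop :=
  ∀ (α β : Type) [Fintype α] [DecidableEq α] [Fintype β] [DecidableEq β] (ι : β ↪ α),
    (∀ g : Matrix β β ℝ, IsSO g → IsSO (blk ι g)) ∧
    ∀ (V : Type) [NormedAddCommGroup V] [InnerProductSpace ℝ V] (ρ : PRep α V),
      ∃ ρ' : PRep β V, (∀ g, ρ'.R g = ρ.R (blk ι g)) ∧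
        ρ'.inv (so β) = ρ.inv (soOn (Finset.univ.map ι))

/-- TRI: section 8, Hilbert space part -/
def TaskTri : Prop :=
  ∀ (Γ : Type) [Group Γ] [Finite Γ] (A₁ A₂ A₃ Z₁₂ Z₂₃ Z₁₃ : Subgroup Γ),
    HPair A₁ A₂ Z₁₂ → HPair A₂ A₃ Z₂₃ → HPair A₁ A₃ Z₁₃ → 8 ≤ Nat.card A₁ → 8 ≤ Nat.card A₂ →
    ∀ (V : Type) [NormedAddCommGroup V] [InnerProductSpace ℝ V] [FiniteDimensional ℝ V]
      (π : Γ →* (V →ₗ[ℝ] V)), (∀ g v, ‖π g v‖ = ‖v‖) → ∀ (P P₁ P₂ P₃ : Submodule ℝ V),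
      (∀ w, w ∈ P₁ ↔ ∀ a ∈ A₁, π a w = w) → (∀ w, w ∈ P₂ ↔ ∀ a ∈ A₂, π a w = w) →
      (∀ w, w ∈ P₃ ↔ ∀ a ∈ A₃, π a w = w) → P = P₁ ⊓ P₂ ⊓ P₃ → ∀ v : V,
      (1 / 4 : ℝ) * ‖v - P.starProjection v‖ ^ 2 ≤ ‖v - P₁.starProjection v‖ ^ 2 +
        ‖v - P₂.starProjection v‖ ^ 2 + ‖v - P₃.starProjection v‖ ^ 2

/-- GEN: section 8, group part -/
def TaskGen : Prop :=
  ∃ K : ℕ, ∀ k : ℕ, 1 ≤ k → ∃ A₁ A₂ A₃ Z₁₂ Z₂₃ Z₁₃ : Subgroup (Equiv.Perm (C (9 * k))),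
    HPair A₁ A₂ Z₁₂ ∧ HPair A₂ A₃ Z₂₃ ∧ HPair A₁ A₃ Z₁₃ ∧ 8 ≤ Nat.card A₁ ∧ 8 ≤ Nat.card A₂ ∧
    Nat.card A₁ + Nat.card A₂ + Nat.card A₃ ≤ K ∧
    A₁ ≤ Subgroup.closure (TV (9 * k)) ∧ A₂ ≤ Subgroup.closure (TV (9 * k)) ∧
    A₃ ≤ Subgroup.closure (TV (9 * k)) ∧ TV (9 * k) ⊆ (A₁ ⊔ A₂ ⊔ A₃ : Subgroup _)

/-- EXP: section 8 -/
def TaskExp : Prop :=
  ∃ (c : ℝ) (K : ℕ), 0 < c ∧ ∀ k : ℕ, 1 ≤ k → ∃ S : Finset (Equiv.Perm (C (9 * k))),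
    S.card ≤ K ∧ (∀ s ∈ S, s ∈ Subgroup.closure (TV (9 * k))) ∧
    ∀ (V : Type) [NormedAddCommGroup V] [InnerProductSpace ℝ V] [FiniteDimensional ℝ V]
      (π : Equiv.Perm (C (9 * k)) →* (V →ₗ[ℝ] V)), (∀ g v, ‖π g v‖ = ‖v‖) →
      ∀ P : Submodule ℝ V, (∀ w, w ∈ P ↔ ∀ σ ∈ TV (9 * k), π σ w = w) → ∀ v : V,
      c * ‖v - P.starProjection v‖ ^ 2 ≤ ∑ s ∈ S, ‖π s v - v‖ ^ 2

/-- SO3: section 2 -/
def TaskSO3 : Prop :=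
  ∃ (S : Finset (Matrix (Fin 3) (Fin 3) ℝ)) (κ : ℝ), 0 < κ ∧ (∀ s ∈ S, IsSO s) ∧ Gap S κ

/-- L2A: tensor representations -/
def TaskL2a : Prop :=
  ∀ n d : ℕ, ∃ (V : Type) (_ : NormedAddCommGroup V) (_ : InnerProductSpace ℝ V)
    (_ : FiniteDimensional ℝ V) (ρ : PRep (Fin n) V) (a : V),
    ∀ p : MvPolynomial (Fin n × Fin n) ℝ, p.totalDegree ≤ d →
      ∃ b : V, ∀ x : Matrix (Fin n) (Fin n) ℝ,
        inner ℝ (ρ.R x a) b = MvPolynomial.eval (fun ij => x ij.1 ij.2) p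

/-- L2B: reduction of `L²` -/
def TaskL2b : Prop :=
  ∀ (n : ℕ) (S : Finset (Matrix (Fin n) (Fin n) ℝ)) (κ : ℝ), (∀ s ∈ S, IsSO s) → Gap S κ →
    GapL2 n S κ

/-- TOP: topological generation -/
def TaskTop : Prop :=
  ∀ (n : ℕ) (S : Finset (Matrix (Fin n) (Fin n) ℝ)) (κ : ℝ), 0 < κ → (∀ s ∈ S, IsSO s) →
    (∀ s ∈ S, sᵀ ∈ S) → GapL2 n S κ →
    ∀ g : Matrix (Fin n) (Fin n) ℝ, IsSO g →
      g ∈ closure ((Submonoid.closure (S : Set (Matrix (Fin n) (Fin n) ℝ)) :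
          Set (Matrix (Fin n) (Fin n) ℝ)))

/-- assembly: uniform gap in all representations -/
def TaskUnif : Prop :=
  ∃ (κ : ℝ) (K : ℕ), 0 < κ ∧ ∀ n : ℕ, 3 ≤ n → ∃ S : Finset (Matrix (Fin n) (Fin n) ℝ),
    S.card ≤ K ∧ (∀ s ∈ S, IsSO s) ∧ Gap S κ

end Pool.Agent.Helper172_SO
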