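import Pool.Agent.Helper172_SO.Stmts
import Pool.Agent.Helper172_SO.Sign

set_option autoImplicit false
set_option linter.unusedSectionVars false

namespace Pool.Agent.Helper172_SO

open Matrix

section proj
variable {V : Type} [NormedAddCommGroup V] [InnerProductSpace ℝ V] [FiniteDimensional ℝ V]

theorem sub_proj_mem (P : Submodule ℝ V) (v : V) : v - P.starProjection v ∈ Pᗮ :=
  P.sub_starProjection_mem_orthogonal v

theorem norm_sq_split (P : Submodule ℝ V) (v : V) :
    ‖v‖ ^ 2 = ‖P.starProjection v‖ ^ 2 + ‖v - P.starProjection v‖ ^ 2 := by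
  have h := sub_proj_mem P v
  have h0 : inner ℝ (P.starProjection v) (v - P.starProjection v) = 0 :=
    (Submodule.mem_orthogonal P _).mp h _ (P.starProjection_apply_mem v)
  have h1 : ‖P.starProjection v + (v - P.starProjection v)‖ ^ 2 =
      ‖P.starProjection v‖ ^ 2 + 2 * inner ℝ (P.starProjection v) (v - P.starProjection v) +
      ‖v - P.starProjection v‖ ^ 2 := norm_add_sq_real _ _
  rw [h0] at h1
  rw [add_sub_cancel] at h1
  linarith

theorem norm_proj_le (P : Submodule ℝ V) (v : V) : ‖P.starProjection v‖ ≤ ‖v‖ := by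
  have := norm_sq_split P v
  have h : ‖P.starProjection v‖ ^ 2 ≤ ‖v‖ ^ 2 := by nlinarith [sq_nonneg ‖v - P.starProjection v‖]
  exact (sq_le_sq₀ (norm_nonneg _) (norm_nonneg _)).mp h

theorem norm_sub_proj_le (P : Submodule ℝ V) (v : V) : ‖v - P.starProjection v‖ ≤ ‖v‖ := by
  have := norm_sq_split P v
  have h : ‖v - P.starProjection v‖ ^ 2 ≤ ‖v‖ ^ 2 := by nlinarith [sq_nonneg ‖P.starProjection v‖]
  exact (sq_le_sq₀ (norm_nonneg _) (norm_nonneg _)).mp h

end proj

/-- a gap for `S` gives a bound for the distance to the invariants -/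
theorem Gap.dist {β : Type} [Fintype β] [DecidableEq β] {S : Finset (Matrix β β ℝ)} {κ : ℝ}
    (hS : Gap S κ) (hSO : ∀ s ∈ S, IsSO s)
    {V : Type} [NormedAddCommGroup V] [InnerProductSpace ℝ V] [FiniteDimensional ℝ V]
    (ρ : PRep β V) (v : V) :
    κ * ‖v - (ρ.inv (so β)).starProjection v‖ ^ 2 ≤ ∑ s ∈ S, ‖ρ.R s v - v‖ ^ 2 := by
  have h := hS V ρ (v - (ρ.inv (so β)).starProjection v) (sub_proj_mem _ _)
  refine h.trans (le_of_eq (Finset.sum_congr rfl fun s hs => ?_))
  have h1 : ρ.R s ((ρ.inv (so β)).starProjection v) = (ρ.inv (so β)).starProjection v :=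
    ρ.R_of_inv _ ((ρ.inv (so β)).starProjection_apply_mem v) s (hSO s hs)
  rw [map_sub, h1]
  congr 2
  abel

/-- gap for `SO(α)` from a covering of the pairs by copies of `β` -/
theorem cov_gap (hC : TaskCover) (hE : TaskEmb) {α β : Type} [Fintype α] [DecidableEq α]
    [Fintype β] [DecidableEq β] (S : Finset (Matrix β β ℝ)) (κ : ℝ) (hκ : 0 < κ)
    (hSO : ∀ s ∈ S, IsSO s) (hS : Gap S κ) (J : Type) [Fintype J] [Nonempty J] (ι : J → (β ↪ α))
    (hι : ∀ x y : α, x ≠ y → ∃ j, x ∈ Set.range (ι j) ∧ y ∈ Set.range (ι j)) :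
    ∃ T : Finset (Matrix α α ℝ), T.card ≤ Fintype.card J * S.card ∧ (∀ s ∈ T, IsSO s) ∧
      Gap T (κ / Fintype.card J) := by
  classical
  refine ⟨Finset.univ.biUnion fun j => S.image (blk (ι j)), ?_, ?_, ?_⟩
  · refine Finset.card_biUnion_le.trans ?_
    refine (Finset.sum_le_sum fun j _ => Finset.card_image_le).trans ?_
    rw [Finset.sum_const, Finset.card_univ, smul_eq_mul]
  · intro s hs
    simp only [Finset.mem_biUnion, Finset.mem_univ, true_and, Finset.mem_image] at hs
    obtain ⟨j, g, hg, rfl⟩ := hs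
    exact (hE α β (ι j)).1 g (hSO g hg)
  · intro V _ _ _ ρ v hv
    set T := Finset.univ.biUnion fun j => S.image (blk (ι j)) with hT
    set E : ℝ := ∑ s ∈ T, ‖ρ.R s v - v‖ ^ 2 with hEdef
    have hone : ∀ j, κ * ‖v - (ρ.inv (soOn (Finset.univ.map (ι j)))).starProjection v‖ ^ 2 ≤ E := by
      intro j
      obtain ⟨ρ', h1, h2⟩ := (hE α β (ι j)).2 V ρ
      have h3 := hS.dist hSO ρ' v
      rw [h2] at h3
      refine h3.trans ?_
      have hinj : Set.InjOn (blk (ι j)) (S : Set (Matrix β β ℝ)) := by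
        intro a _ b _ hab
        ext x y
        have e : ∀ g : Matrix β β ℝ, blk (ι j) g ((ι j) x) ((ι j) y) = g x y := by
          intro g
          unfold blk
          rw [Matrix.of_apply, dif_pos ⟨⟨x, rfl⟩, ⟨y, rfl⟩⟩]
          generalize_proofs h1 h2
          rw [(ι j).injective h1.choose_spec, (ι j).injective h2.choose_spec]
        rw [← e a, ← e b, hab]
      have h4 : ∑ s ∈ S, ‖ρ'.R s v - v‖ ^ 2 = ∑ s ∈ S.image (blk (ι j)), ‖ρ.R s v - v‖ ^ 2 := by
        rw [Finset.sum_image hinj]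
        exact Finset.sum_congr rfl fun s _ => by rw [h1]
      rw [h4]
      refine Finset.sum_le_sum_of_subset_of_nonneg ?_ (fun _ _ _ => sq_nonneg _)
      intro s hs
      rw [hT, Finset.mem_biUnion]
      exact ⟨j, Finset.mem_univ _, hs⟩
    have hcov := hC α (Finset.univ.image fun j => Finset.univ.map (ι j)) (by
      intro x y hxy
      obtain ⟨j, ⟨a, ha⟩, ⟨b, hb⟩⟩ := hι x y hxy
      refine ⟨Finset.univ.map (ι j), Finset.mem_image_of_mem _ (Finset.mem_univ _), ?_, ?_⟩
      · simp only [Finset.mem_map, Finset.mem_univ, true_and]; exact ⟨a, ha⟩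
      · simp only [Finset.mem_map, Finset.mem_univ, true_and]; exact ⟨b, hb⟩) V ρ v hv
    have hJ : 0 < (Fintype.card J : ℝ) := by exact_mod_cast Fintype.card_pos
    have hsum : ‖v‖ ^ 2 ≤ ∑ _j : J, E / κ := by
      refine hcov.trans ?_
      have h5 : ∀ s ∈ Finset.univ.image (fun j => Finset.univ.map (ι j)),
          ‖v - (ρ.inv (soOn s)).starProjection v‖ ^ 2 ≤ E / κ := by
        intro s hs
        obtain ⟨j, _, rfl⟩ := Finset.mem_image.mp hs
        rw [le_div_iff₀ hκ, mul_comm]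
        exact hone j
      refine (Finset.sum_le_sum h5).trans ?_
      rw [Finset.sum_const, Finset.sum_const, nsmul_eq_mul, nsmul_eq_mul]
      have hE0 : 0 ≤ E := Finset.sum_nonneg fun _ _ => sq_nonneg _
      refine mul_le_mul_of_nonneg_right ?_ (by positivity)
      exact_mod_cast Finset.card_image_le
    rw [Finset.sum_const, Finset.card_univ, nsmul_eq_mul] at hsum
    have : κ / Fintype.card J * ‖v‖ ^ 2 ≤ κ / Fintype.card J * (Fintype.card J * (E / κ)) :=
      mul_le_mul_of_nonneg_left hsum (by positivity)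
    refine this.trans (le_of_eq ?_)
    field_simp

/-- gap for a fixed index set with at least three elements -/
theorem fixed_gap (hC : TaskCover) (hE : TaskEmb) (h3 : TaskSO3) (α : Type) [Fintype α]
    [DecidableEq α] (hα : 3 ≤ Fintype.card α) :
    ∃ (S : Finset (Matrix α α ℝ)) (κ : ℝ), 0 < κ ∧ (∀ s ∈ S, IsSO s) ∧ Gap S κ := by
  classical
  obtain ⟨S, κ, hκ, hSO, hS⟩ := h3
  have hne : Nonempty (Fin 3 ↪ α) := by
    apply Function.Embedding.nonempty_of_card_le
    simpa using hα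
  obtain ⟨T, _, h1, h2⟩ := cov_gap hC hE S κ hκ hSO hS (Fin 3 ↪ α) id (by
    intro x y hxy
    have hcard : ({x, y} : Finset α).card ≤ 3 := (Finset.card_le_two).trans (by norm_num)
    obtain ⟨s, hs, hs3⟩ := Finset.exists_superset_card_eq hcard hα
    have e : Fin 3 ≃ s := by
      apply Fintype.equivOfCardEq
      simp [hs3]
    refine ⟨e.toEmbedding.trans (Function.Embedding.subtype _), ?_, ?_⟩
    · refine ⟨e.symm ⟨x, hs (by simp)⟩, ?_⟩
      simp
    · refine ⟨e.symm ⟨y, hs (by simp)⟩, ?_⟩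
      simp)
  have hpos : 0 < (Fintype.card (Fin 3 ↪ α) : ℝ) := by exact_mod_cast Fintype.card_pos
  exact ⟨T, _, by positivity, h1, h2⟩

end Pool.Agent.Helper172_SO
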