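import Pool.Agent.Helper172_SO.Stmts

set_option autoImplicit false
set_option linter.unusedSectionVars false

namespace Pool.Agent.Helper172_SO

variable {V : Type} [NormedAddCommGroup V] [InnerProductSpace ℝ V] [FiniteDimensional ℝ V]

/-- top eigenvector of a symmetric operator on an invariant subspace -/
theorem exists_max_eig (T : V →ₗ[ℝ] V) (hT : ∀ x y, inner ℝ (T x) y = inner ℝ x (T y))
    (W : Submodule ℝ V) (hW : ∀ w ∈ W, T w ∈ W) (hne : W ≠ ⊥) :
    ∃ v ∈ W, v ≠ 0 ∧ ∃ t : ℝ, T v = t • v ∧ ∀ w ∈ W, inner ℝ (T w) w ≤ t * ‖w‖ ^ 2 := by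
  have : Nontrivial W := Submodule.nontrivial_iff_ne_bot.mpr hne
  have hsym : (T.restrict hW).IsSymmetric := fun x y => hT x y
  have h := hsym.hasEigenvalue_iSup_of_finiteDimensional
  obtain ⟨v, hv⟩ := h.exists_hasEigenvector
  have hval := congrArg Subtype.val hv.apply_eq_smul
  refine ⟨v, v.2, fun h0 => hv.2 (Subtype.ext h0), _, hval, fun w hw => ?_⟩
  · by_cases hw0 : w = 0
    · simp [hw0]
    · have hbdd : BddAbove (Set.range fun x : {x : W // x ≠ 0} =>
          RCLike.re (inner ℝ ((T.restrict hW) (x : W)) (x : W)) / ‖(x : W)‖ ^ 2) := by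
        refine ⟨‖LinearMap.toContinuousLinearMap (T.restrict hW)‖, ?_⟩
        rintro _ ⟨x, rfl⟩
        have hx : 0 < ‖(x : W)‖ := norm_pos_iff.mpr x.2
        simp only
        rw [div_le_iff₀ (by positivity)]
        have h1 := real_inner_le_norm ((T.restrict hW) (x : W)) (x : W)
        have h3 : ‖(T.restrict hW) (x : W)‖ ≤
            ‖LinearMap.toContinuousLinearMap (T.restrict hW)‖ * ‖(x : W)‖ :=
          (LinearMap.toContinuousLinearMap (T.restrict hW)).le_opNorm (x : W)
        calc RCLike.re (inner ℝ ((T.restrict hW) (x : W)) (x : W))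
            = inner ℝ ((T.restrict hW) (x : W)) (x : W) := rfl
          _ ≤ ‖(T.restrict hW) (x : W)‖ * ‖(x : W)‖ := h1
          _ ≤ ‖LinearMap.toContinuousLinearMap (T.restrict hW)‖ * ‖(x : W)‖ * ‖(x : W)‖ := by
              gcongr
          _ = _ := by ring
      have h1 := le_ciSup hbdd ⟨⟨w, hw⟩, fun h0 => hw0 (congrArg Subtype.val h0)⟩
      have hwn : 0 < ‖w‖ := norm_pos_iff.mpr hw0
      simp only at h1
      have h2 : ‖(⟨w, hw⟩ : W)‖ = ‖w‖ := rfl
      rw [h2, div_le_iff₀ (by positivity)] at h1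
      exact h1

/-- bottom eigenvector of a symmetric operator on an invariant subspace -/
theorem exists_min_eig (T : V →ₗ[ℝ] V) (hT : ∀ x y, inner ℝ (T x) y = inner ℝ x (T y))
    (W : Submodule ℝ V) (hW : ∀ w ∈ W, T w ∈ W) (hne : W ≠ ⊥) :
    ∃ v ∈ W, v ≠ 0 ∧ ∃ t : ℝ, T v = t • v ∧ ∀ w ∈ W, t * ‖w‖ ^ 2 ≤ inner ℝ (T w) w := by
  obtain ⟨v, hv, hv0, t, h1, h2⟩ := exists_max_eig (-T) (by
    intro x y
    simp only [LinearMap.neg_apply, inner_neg_left, inner_neg_right, hT]) W (by
    intro w hw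
    exact W.neg_mem (hW w hw)) hne
  refine ⟨v, hv, hv0, -t, ?_, fun w hw => ?_⟩
  · rw [LinearMap.neg_apply] at h1
    rw [neg_smul, ← h1, neg_neg]
  · have := h2 w hw
    rw [LinearMap.neg_apply, inner_neg_left] at this
    linarith

theorem proj_sym (P : Submodule ℝ V) (x y : V) :
    inner ℝ (P.starProjection x) y = inner ℝ x (P.starProjection y) :=
  P.inner_starProjection_left_eq_right x y

theorem proj_mem (P : Submodule ℝ V) (x : V) : P.starProjection x ∈ P :=
  P.starProjection_apply_mem x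

theorem proj_of_mem {P : Submodule ℝ V} {x : V} (h : x ∈ P) : P.starProjection x = x :=
  Submodule.starProjection_eq_self_iff.mpr h

theorem proj_of_orth {P : Submodule ℝ V} {x : V} (h : x ∈ Pᗮ) : P.starProjection x = 0 :=
  by rw [Submodule.starProjection_apply_eq_zero_iff]; exact h

theorem proj_unique {P : Submodule ℝ V} {x y : V} (hy : y ∈ P) (h : x - y ∈ Pᗮ) :
    P.starProjection x = y := by
  have h1 : P.starProjection (x - y) = 0 := proj_of_orth h
  rw [map_sub, proj_of_mem hy] at h1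
  exact sub_eq_zero.mp h1

theorem mem_orth {P : Submodule ℝ V} {x : V} : x ∈ Pᗮ ↔ ∀ z ∈ P, inner ℝ z x = 0 :=
  Submodule.mem_orthogonal P x

theorem norm_sq_split' (P : Submodule ℝ V) (v : V) :
    inner ℝ (v - P.starProjection v) v = ‖v - P.starProjection v‖ ^ 2 := by
  have h0 : inner ℝ (P.starProjection v) (v - P.starProjection v) = 0 :=
    (mem_orth.mp (P.sub_starProjection_mem_orthogonal v)) _ (proj_mem P v)
  have h1 : inner ℝ (v - P.starProjection v) v =
      inner ℝ (v - P.starProjection v) (v - P.starProjection v) +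
      inner ℝ (v - P.starProjection v) (P.starProjection v) := by
    rw [← inner_add_right]; congr 1; abel
  rw [real_inner_comm] at h0
  rw [h1, real_inner_self_eq_norm_sq, h0, add_zero]

/-- a linear map which together with its adjoint preserves `P` commutes with the projection -/
theorem proj_comm (P : Submodule ℝ V) (T T' : V →ₗ[ℝ] V)
    (hT : ∀ x y, inner ℝ (T x) y = inner ℝ x (T' y)) (h1 : ∀ x ∈ P, T x ∈ P)
    (h2 : ∀ x ∈ P, T' x ∈ P) (x : V) : T (P.starProjection x) = P.starProjection (T x) := by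
  symm
  apply proj_unique (h1 _ (proj_mem P x))
  rw [← map_sub, mem_orth]
  intro z hz
  rw [real_inner_comm, hT, real_inner_comm]
  exact (mem_orth.mp (P.sub_starProjection_mem_orthogonal x)) _ (h2 z hz)

end Pool.Agent.Helper172_SO
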